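import Pool.Agent.Q189.MV.Path

/-!
# The spaces spanned by the products of the values at `1 - x` and `x`
-/

set_option autoImplicit false

open PowerSeries Filter Topology

namespace Pool.Agent.Q189.MV

open Pool.Agent.Y119.ML (LL UU In geo adm adm_tail adm_none const_LL theta_LL theta_In const_In WI S S_zero)
open Pool.Agent.Q189.Z3 (L α1 UU0 UU1 coeff_geo_mul B1L B1w summ S_Xmul hd0 hd1 const_lim S0 Snil)
open Pool.Agent.H447R2.MZ (H Adm val Zs)
open Pool.Agent.Q189.HL (sh sh_nil sh_cons_nil sh_cons length_sh adm_sh LL_mul)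

/-- the letter `1` -/
abbrev o1 : Option (Fin 1) := some 0

/-- products of convergent series with bounded coefficients -/
lemma S_mul' {f g : ℚ⟦X⟧} (hf : Pool.Agent.Q189.Z3.B1 f) (hg : Pool.Agent.Q189.Z3.B1 g) {x : ℝ} (hx : |x| < 1) :
    S (f * g) x = S f x * S g x := by
  unfold S
  have h1 := summ hf hx
  have h2 := summ hg hx
  rw [tsum_mul_tsum_eq_tsum_sum_antidiagonal_of_summable_norm h1.norm h2.norm]
  refine tsum_congr fun m => ?_
  rw [coeff_mul]
  push_cast
  rw [Finset.sum_mul]
  refine Finset.sum_congr rfl fun p hp => ?_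
  rw [← Finset.HasAntidiagonal.mem_antidiagonal.1 hp, pow_add]
  ring

lemma S_list {x : ℝ} (hx : |x| < 1) (l : List (List (Option (Fin 1)))) : S ((l.map L).sum) x = (l.map fun w => V w x).sum := by
  induction l with
  | nil =>
    show S 0 x = 0
    unfold S
    simp
  | cons w l ih =>
    rw [List.map_cons, List.sum_cons, List.map_cons, List.sum_cons, ← ih]
    have hsum : Summable fun m : ℕ => ((coeff m ((l.map L).sum) : ℚ) : ℝ) * x ^ m := by
      clear ih
      induction l with
      | nil => simpa using summable_zero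
      | cons v l ih =>
        refine ((summ (B1w v) hx).add ih).congr fun m => ?_
        rw [List.map_cons, List.sum_cons, map_add]
        push_cast
        ring
    unfold V S
    rw [← (summ (B1w w) hx).tsum_add hsum]
    refine tsum_congr fun m => ?_
    rw [map_add]
    push_cast
    ring

/-- the shuffle relations -/
theorem V_mul {u v : List (Option (Fin 1))} (hu : adm u) (hv : adm v) {x : ℝ} (hx : |x| < 1) :
    V u x * V v x = ((sh u v).map fun w => V w x).sum := by
  have h1 := LL_mul α1 _ u v rfl hu hv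
  rw [← S_list hx]
  show S (L u) x * S (L v) x = _
  rw [← S_mul' (B1w u) (B1w v) hx]
  exact congrArg (fun f => S f x) h1

/-- sums of lists in a submodule -/
lemma list_mem {M : Submodule ℚ ℝ} {β : Type} (l : List β) (f : β → ℝ) (h : ∀ w ∈ l, f w ∈ M) : (l.map f).sum ∈ M := by
  refine M.list_sum_mem fun r hr => ?_
  obtain ⟨w, hw, rfl⟩ := List.mem_map.1 hr
  exact h w hw

/-- the span of the products of the values at `1 - x` and `x` -/
noncomputable def VN (x : ℝ) (N : ℕ) : Submodule ℚ ℝ :=
  Submodule.span ℚ {r | ∃ u v : List (Option (Fin 1)), adm u ∧ adm v ∧ u.length + v.length = N ∧ r = V u (1 - x) * V v x}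

/-- the products of multiple zeta values, powers of the logarithm and the values at `x` -/
noncomputable def PZ (x : ℝ) (N : ℕ) : Submodule ℚ ℝ :=
  Submodule.span ℚ {r | ∃ (k a : ℕ) (z : ℝ) (w : List (Option (Fin 1))), z ∈ Zs k ∧ adm w ∧ k + a + w.length = N ∧
    r = z * (Real.log x ^ a * V w x)}

lemma span_mul {A B : Set ℝ} {M : Submodule ℚ ℝ} (h : ∀ a ∈ A, ∀ b ∈ B, a * b ∈ M) {a b : ℝ}
    (ha : a ∈ Submodule.span ℚ A) (hb : b ∈ Submodule.span ℚ B) : a * b ∈ M := by
  have h1 : Submodule.span ℚ A * Submodule.span ℚ B ≤ M := by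
    rw [Submodule.span_mul_span, Submodule.span_le]
    rintro _ ⟨a, ha, b, hb, rfl⟩
    exact h a ha b hb
  exact h1 (Submodule.mul_mem_mul ha hb)

variable {x : ℝ}

lemma VN_mul (hx : 0 < x) (hx1 : x < 1) {i j : ℕ} {a b : ℝ} (ha : a ∈ VN x i) (hb : b ∈ VN x j) : a * b ∈ VN x (i + j) := by
  have h1 : |x| < 1 := by rw [abs_of_pos hx]; exact hx1
  have h2 : |1 - x| < 1 := by rw [abs_of_pos (by linarith)]; linarith
  refine span_mul ?_ ha hb
  rintro _ ⟨u, v, hu, hv, huv, rfl⟩ _ ⟨u', v', hu', hv', huv', rfl⟩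
  have h3 : V u (1 - x) * V v x * (V u' (1 - x) * V v' x) = (V u (1 - x) * V u' (1 - x)) * (V v x * V v' x) := by ring
  rw [h3, V_mul hu hu' h2, V_mul hv hv' h1, ← List.sum_map_mul_left]
  refine list_mem _ _ fun w hw => ?_
  rw [← List.sum_map_mul_right]
  refine list_mem _ _ fun w' hw' => ?_
  refine Submodule.subset_span ⟨w', w, adm_sh _ u u' rfl hu hu' w' hw', adm_sh _ v v' rfl hv hv' w hw, ?_, rfl⟩
  rw [length_sh _ u u' rfl w' hw', length_sh _ v v' rfl w hw]
  omega

lemma PZ_mul (hx : 0 < x) (hx1 : x < 1) {i j : ℕ} {a b : ℝ} (ha : a ∈ PZ x i) (hb : b ∈ PZ x j) : a * b ∈ PZ x (i + j) := by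
  have h1 : |x| < 1 := by rw [abs_of_pos hx]; exact hx1
  refine span_mul ?_ ha hb
  rintro _ ⟨k, a, z, w, hz, hw, hk, rfl⟩ _ ⟨k', a', z', w', hz', hw', hk', rfl⟩
  have h3 : z * (Real.log x ^ a * V w x) * (z' * (Real.log x ^ a' * V w' x)) =
      z * z' * Real.log x ^ (a + a') * (V w x * V w' x) := by
    rw [pow_add]
    ring
  rw [h3, V_mul hw hw' h1, ← List.sum_map_mul_left]
  refine list_mem _ _ fun v hv => ?_
  refine Submodule.subset_span ⟨k + k', a + a', z * z', v, Pool.Agent.H447R2.MZ.mul_mem k k' z z' hz hz',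
    adm_sh _ w w' rfl hw hw' v hv, ?_, by ring⟩
  rw [length_sh _ w w' rfl v hv]
  omega

lemma V_one (hx : 0 < x) (hx1 : x < 1) : V [o1] (1 - x) = -Real.log x := by
  have h2 : |1 - x| < 1 := by rw [abs_of_pos (by linarith)]; linarith
  have h3 := Pool.Agent.Q189.Z3.SL1 h2
  show S (L [some 0]) (1 - x) = _
  rw [h3]
  congr 2
  ring

lemma V_nil (y : ℝ) : V [] y = 1 := Snil y

lemma V_mem_VN {w : List (Option (Fin 1))} (hw : adm w) : V w x ∈ VN x w.length :=
  Submodule.subset_span ⟨[], w, adm_nil, hw, by simp, by rw [V_nil, one_mul]⟩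

lemma log_mem_VN (hx : 0 < x) (hx1 : x < 1) (a : ℕ) : Real.log x ^ a ∈ VN x a := by
  induction a with
  | zero =>
    rw [pow_zero]
    exact Submodule.subset_span ⟨[], [], adm_nil, adm_nil, rfl, by rw [V_nil, V_nil, one_mul]⟩
  | succ a ih =>
    rw [pow_succ]
    refine VN_mul hx hx1 ih ?_
    have h1 : Real.log x = -(V [o1] (1 - x) * V [] x) := by rw [V_one hx hx1, V_nil]; ring
    rw [h1]
    exact Submodule.neg_mem _ (Submodule.subset_span ⟨[o1], [], adm_one adm_nil, adm_nil, rfl, rfl⟩)

lemma rv_len (w : List (Option (Fin 1))) : ∀ ρ : List (Option (Fin 1)), (rv ρ w).length = ρ.length + w.length := by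
  induction w with
  | nil => exact fun ρ => rfl
  | cons a w ih =>
    intro ρ
    show (rv (sw a :: ρ) w).length = _
    rw [ih, List.length_cons, List.length_cons]
    omega

lemma rv_eq (w : List (Option (Fin 1))) : ∀ ρ : List (Option (Fin 1)), rv ρ w = (w.map sw).reverse ++ ρ := by
  induction w with
  | nil => exact fun ρ => rfl
  | cons a w ih =>
    intro ρ
    show rv (sw a :: ρ) w = _
    rw [ih, List.map_cons, List.reverse_cons, List.append_assoc]
    rfl

lemma sw_sw (o : Option (Fin 1)) : sw (sw o) = o := by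
  rcases o with _ | i
  · rfl
  · have hi : i = 0 := Subsingleton.elim _ _
    subst hi
    rfl

/-- the dual word -/
lemma exists_dual {u : List (Option (Fin 1))} (hu : adm (none :: u)) : ∃ w : List (Option (Fin 1)),
    rv [] w = none :: u ∧ OK [] w := by
  refine ⟨((none :: u).map sw).reverse, ?_, adm_nil, ?_, fun _ i => ?_⟩
  · rw [rv_eq, List.append_nil, List.map_reverse, List.reverse_reverse, List.map_map]
    conv_rhs => rw [← List.map_id (none :: u)]
    refine List.map_congr_left fun o _ => ?_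
    exact sw_sw o
  · unfold adm
    rw [List.getLast?_reverse, List.map_cons, List.head?_cons]
    simp [sw]
  · intro h
    rw [List.head?_reverse, List.getLast?_map] at h
    unfold adm at hu
    rcases hl : (none :: u).getLast? with _ | o
    · rw [hl] at h
      simp at h
    · rw [hl] at h hu
      rcases o with _ | j
      · exact hu rfl
      · simp [sw] at h

lemma pc_mem (w : List (Option (Fin 1))) : ∀ ρ : List (Option (Fin 1)), OK ρ w →
    pc ρ w x ∈ VN x (ρ.length + w.length) := by
  induction w with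
  | nil =>
    intro ρ h
    exact Submodule.subset_span ⟨ρ, [], h.1, adm_nil, rfl, by rw [V_nil, mul_one]; rfl⟩
  | cons a w ih =>
    intro ρ h
    show V ρ (1 - x) * V (a :: w) x + pc (sw a :: ρ) w x ∈ _
    refine Submodule.add_mem _ (Submodule.subset_span ⟨ρ, a :: w, h.1, h.2.1, rfl, rfl⟩) ?_
    have h1 := ih _ h.step
    rw [List.length_cons] at h1 ⊢
    have h2 : ρ.length + (w.length + 1) = ρ.length + 1 + w.length := by omega
    rw [h2]
    exact h1

/-- multiple zeta values are in the span -/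
theorem Zs_le_VN (hx : 0 < x) (hx1 : x < 1) (k : ℕ) : Zs k ≤ VN x k := by
  rw [Pool.Agent.H447R2.MZ.Zs_eq, Submodule.span_le]
  rintro _ ⟨s, hs, hsk, rfl⟩
  rcases s with _ | ⟨a, s⟩
  · rw [← hsk]
    have h1 : val [] = 1 := by
      have h2 := Pool.Agent.H447R2.MZ.tendsto_H [] hs
      have h3 : Tendsto (H []) atTop (𝓝 1) := tendsto_const_nhds.congr fun N => (Pool.Agent.H447R2.MZ.H_nil N).symm
      exact tendsto_nhds_unique h2 h3
    rw [h1]
    exact log_mem_VN hx hx1 0
  · have ha := hs.2 a s rfl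
    have h1 : wd (a :: s) = none :: (List.replicate (a - 2) none ++ some 0 :: wd s) := by
      rw [wd_cons]
      obtain ⟨c, rfl⟩ : ∃ c, a = c + 2 := ⟨a - 2, by omega⟩
      show List.replicate (c + 1) none ++ _ = none :: (List.replicate c none ++ _)
      rw [List.replicate_succ, List.cons_append]
    have h2 : adm (none :: (List.replicate (a - 2) none ++ some 0 :: wd s)) := by
      rw [← h1]
      exact adm_wd _
    obtain ⟨w, hw, hok⟩ := exists_dual h2
    rw [← h1] at hw
    have h3 := pc_mem (x := x) w [] hok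
    rw [pc_eq hok hs hw hx hx1] at h3
    have h4 : ([] : List (Option (Fin 1))).length + w.length = k := by
      rw [← rv_len, hw, len_wd _ hs.1, hsk]
    rw [h4] at h3
    exact h3

theorem PZ_le_VN (hx : 0 < x) (hx1 : x < 1) (N : ℕ) : PZ x N ≤ VN x N := by
  unfold PZ
  rw [Submodule.span_le]
  rintro _ ⟨k, a, z, w, hz, hw, hk, rfl⟩
  have h1 := VN_mul hx hx1 (Zs_le_VN hx hx1 k hz) (VN_mul hx hx1 (log_mem_VN hx hx1 a) (V_mem_VN (x := x) hw))
  rw [← hk, add_assoc]
  exact h1

end Pool.Agent.Q189.MV
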