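import Pool.Agent.Q189.MV.Niel

/-!
# Asymptotics of the values of words near `1`: products with logarithmically growing factors
-/

set_option autoImplicit false

open PowerSeries Filter Topology

namespace Pool.Agent.Q189.MV

open Pool.Agent.Y119.ML (LL UU In geo adm adm_tail adm_none const_LL theta_LL theta_In const_In WI JJ S S_zero)
open Pool.Agent.Q189.Z3 (L α1 α1_inj α1_ne UU0 UU1 coeff_geo_mul B1L B1w summ S_Xmul hd0 hd1 const_lim S0 Snil sint_nat sint_card)
open Pool.Agent.H447R2.MZ (H Adm val Zs st H_mul H_mono H_nonneg H_cons H_le_val tendsto_H st_pos)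
open Pool.Agent.Q189.HL (sh sh_nil sh_cons_nil sh_cons length_sh adm_sh LL_mul)

lemma coeff_nonneg (w : List (Option (Fin 1))) (m : ℕ) : 0 ≤ ((coeff m (L w) : ℚ) : ℝ) := by
  exact_mod_cast (B1L w m).1

lemma V_nonneg (w : List (Option (Fin 1))) {y : ℝ} (hy : 0 ≤ y) : 0 ≤ V w y :=
  tsum_nonneg fun m => mul_nonneg (coeff_nonneg w m) (pow_nonneg hy m)

lemma V_mono (w : List (Option (Fin 1))) {y y' : ℝ} (hy : 0 ≤ y) (h : y ≤ y') (hy' : y' < 1) : V w y ≤ V w y' := by
  have h1 : |y| < 1 := by rw [abs_of_nonneg hy]; linarith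
  have h2 : |y'| < 1 := by rw [abs_of_nonneg (hy.trans h)]; exact hy'
  exact (summ (B1w w) h1).tsum_le_tsum (fun m => mul_le_mul_of_nonneg_left (pow_le_pow_left₀ hy h m) (coeff_nonneg w m))
    (summ (B1w w) h2)

/-- the limit of an admissible word beginning with `0` -/
noncomputable def LV (w : List (Option (Fin 1))) : ℝ := limUnder (𝓝[>] (0 : ℝ)) fun t => V w (1 - t)

lemma tendsto_LV {w : List (Option (Fin 1))} (hw : adm (none :: w)) :
    Tendsto (fun t => V (none :: w) (1 - t)) (𝓝[>] 0) (𝓝 (LV (none :: w))) := by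
  obtain ⟨s, hs, hsw⟩ := exists_index' hw
  have h1 := val_lim s hs
  rw [hsw] at h1
  exact tendsto_nhds_limUnder ⟨_, h1⟩

lemma LV_eq {s : List ℕ} (hs : Adm s) : LV (wd s) = val s := (val_lim s hs).limUnder_eq

lemma LV_nil : LV [] = 1 := by
  have h1 : Tendsto (fun t : ℝ => V [] (1 - t)) (𝓝[>] 0) (𝓝 1) := by
    simp only [V_nil]
    exact tendsto_const_nhds
  exact h1.limUnder_eq

/-- `V` with a letter in front of each word of a list -/
lemma lim_list {l : List (List (Option (Fin 1)))} (hl : ∀ r ∈ l, adm (none :: r)) :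
    Tendsto (fun t => (l.map fun r => V (none :: r) (1 - t)).sum) (𝓝[>] 0) (𝓝 (l.map fun r => LV (none :: r)).sum) := by
  refine tendsto_list_sum _ fun r hr => ?_
  exact tendsto_LV (hl r hr)

lemma hasDerivAt_list {α : Type} (l : List α) {f f' : α → ℝ → ℝ} {x : ℝ} (h : ∀ r ∈ l, HasDerivAt (f r) (f' r x) x) :
    HasDerivAt (fun y => (l.map fun r => f r y).sum) (l.map fun r => f' r x).sum x := by
  induction l with
  | nil => exact hasDerivAt_const x 0
  | cons r l ih =>
    simp only [List.map_cons, List.sum_cons]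
    exact (h r (by simp)).add (ih fun r hr => h r (by simp [hr]))

lemma adm_sh_none {u v : List (Option (Fin 1))} (hu : adm u) (hv : adm v) (hne : u ≠ [] ∨ v ≠ []) :
    ∀ r ∈ sh u v, adm (none :: r) := by
  intro r hr
  refine Pool.Agent.Q189.HL.adm_cons (adm_sh _ u v rfl hu hv r hr) ?_
  have h1 := length_sh _ u v rfl r hr
  rintro rfl
  rw [List.length_nil] at h1
  rcases hne with h | h
  · exact h (List.length_eq_zero_iff.1 (by omega))
  · exact h (List.length_eq_zero_iff.1 (by omega))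

/-- **the key estimate** for the values of words -/
theorem key_V {u w : List (Option (Fin 1))} (hu : adm u) (hw : adm (none :: w)) {t : ℝ} (ht : 0 < t) (ht1 : t < 1) :
    V u (1 - t) * (LV (none :: w) - V (none :: w) (1 - t)) ≤
      ((sh u w).map fun r => LV (none :: r)).sum - ((sh u w).map fun r => V (none :: r) (1 - t)).sum := by
  have hw0 : w ≠ [] := adm_none hw
  have hwa : adm w := adm_tail hw
  have hadm := adm_sh_none hu hwa (Or.inr hw0)
  set Φ : ℝ → ℝ := fun τ => V u (1 - t) * V (none :: w) (1 - τ) - ((sh u w).map fun r => V (none :: r) (1 - τ)).sum with hΦ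
  -- the derivative
  have hder : ∀ τ, 0 < τ → τ < 1 → HasDerivAt Φ ((1 / (1 - τ)) * (V w (1 - τ) * (V u (1 - τ) - V u (1 - t)))) τ := by
    intro τ h0 h1
    have d1 := (hdV1 hw h0 h1).const_mul (V u (1 - t))
    have d2 := hasDerivAt_list (sh u w) (f := fun r y => V (none :: r) (1 - y)) (f' := fun r y => -dV (none :: r) (1 - y)) (x := τ)
      (fun r hr => hdV1 (hadm r hr) h0 h1)
    refine (d1.sub d2).congr_deriv ?_
    have hy : |1 - τ| < 1 := by rw [abs_of_pos (by linarith)]; linarith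
    have e1 : ((sh u w).map fun r => -dV (none :: r) (1 - τ)).sum = -(1 / (1 - τ)) * (V u (1 - τ) * V w (1 - τ)) := by
      rw [V_mul hu hwa hy, ← List.sum_map_mul_left]
      refine congrArg List.sum (List.map_congr_left fun r _ => ?_)
      show -(1 / (1 - τ) * V r (1 - τ)) = _
      ring
    rw [e1]
    show V u (1 - t) * -(1 / (1 - τ) * V w (1 - τ)) - _ = _
    ring
  have hmono : MonotoneOn Φ (Set.Ioc 0 t) := by
    refine monotoneOn_of_deriv_nonneg (convex_Ioc 0 t) ?_ ?_ ?_
    · exact fun τ hτ => (hder τ hτ.1 (lt_of_le_of_lt hτ.2 ht1)).continuousAt.continuousWithinAt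
    · intro τ hτ
      rw [interior_Ioc] at hτ
      exact (hder τ hτ.1 (hτ.2.trans ht1)).differentiableAt.differentiableWithinAt
    · intro τ hτ
      rw [interior_Ioc] at hτ
      rw [(hder τ hτ.1 (hτ.2.trans ht1)).deriv]
      have h2 : 0 < 1 - τ := by linarith [hτ.2]
      refine mul_nonneg (by positivity) (mul_nonneg (V_nonneg w h2.le) ?_)
      have := V_mono u (y := 1 - t) (y' := 1 - τ) (by linarith) (by linarith [hτ.2]) (by linarith [hτ.1])
      linarith
  have hlim : Tendsto Φ (𝓝[>] 0) (𝓝 (V u (1 - t) * LV (none :: w) - ((sh u w).map fun r => LV (none :: r)).sum)) :=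
    ((tendsto_LV hw).const_mul _).sub (lim_list hadm)
  have hle : V u (1 - t) * LV (none :: w) - ((sh u w).map fun r => LV (none :: r)).sum ≤ Φ t := by
    refine le_of_tendsto hlim ?_
    have h4 : ∀ᶠ τ in 𝓝[>] (0 : ℝ), τ < t := (eventually_lt_nhds ht).filter_mono nhdsWithin_le_nhds
    filter_upwards [h4, self_mem_nhdsWithin] with τ h5 h6
    exact hmono ⟨h6, h5.le⟩ ⟨ht, le_rfl⟩ h5.le
  rw [hΦ] at hle
  simp only at hle
  linarith

lemma V_le_LV {w : List (Option (Fin 1))} (hw : adm (none :: w)) {t : ℝ} (ht : 0 < t) (ht1 : t < 1) :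
    V (none :: w) (1 - t) ≤ LV (none :: w) := by
  refine ge_of_tendsto (tendsto_LV hw) ?_
  have h4 : ∀ᶠ τ in 𝓝[>] (0 : ℝ), τ < t := (eventually_lt_nhds ht).filter_mono nhdsWithin_le_nhds
  filter_upwards [h4, self_mem_nhdsWithin] with τ h5 h6
  have h6' : (0 : ℝ) < τ := h6
  exact V_mono _ (by linarith) (by linarith) (by linarith)

/-- the remainder of a convergent word times any word tends to zero -/
theorem V_rem {u w : List (Option (Fin 1))} (hu : adm u) (hw : adm (none :: w)) :
    Tendsto (fun t => V u (1 - t) * (LV (none :: w) - V (none :: w) (1 - t))) (𝓝[>] 0) (𝓝 0) := by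
  have hadm := adm_sh_none hu (adm_tail hw) (Or.inr (adm_none hw))
  have h1 : Tendsto (fun t => ((sh u w).map fun r => LV (none :: r)).sum - ((sh u w).map fun r => V (none :: r) (1 - t)).sum)
      (𝓝[>] 0) (𝓝 0) := by
    have h2 := (lim_list hadm).const_sub ((sh u w).map fun r => LV (none :: r)).sum
    rw [sub_self] at h2
    exact h2
  have h4 : ∀ᶠ y in 𝓝[>] (0 : ℝ), y < 1 := (eventually_lt_nhds one_pos).filter_mono nhdsWithin_le_nhds
  refine squeeze_zero' ?_ ?_ h1
  · filter_upwards [h4, self_mem_nhdsWithin] with t h5 h6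
    have h6' : (0 : ℝ) < t := h6
    exact mul_nonneg (V_nonneg u (by linarith)) (by linarith [V_le_LV hw h6' h5])
  · filter_upwards [h4, self_mem_nhdsWithin] with t h5 h6
    exact key_V hu hw h6 h5

/-! ### truncated sums -/

lemma adm_cons_two {a : ℕ} (ha : 2 ≤ a) {s : List ℕ} (hs : ∀ b ∈ s, 1 ≤ b) : Adm (a :: s) := by
  refine ⟨fun b hb => ?_, fun b t h => ?_⟩
  · rcases List.mem_cons.1 hb with rfl | hb
    · omega
    · exact hs b hb
  · obtain ⟨rfl, -⟩ := List.cons.inj h
    exact ha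

theorem key_H {s s' : List ℕ} (hs : ∀ b ∈ s, 1 ≤ b) {a : ℕ} (ha : 2 ≤ a) (hs' : ∀ b ∈ s', 1 ≤ b) (N : ℕ) :
    H s N * (val (a :: s') - H (a :: s') N) ≤
      ((st s s').map fun r => val (a :: r)).sum - ((st s s').map fun r => H (a :: r) N).sum := by
  have hadm : ∀ r ∈ st s s', Adm (a :: r) := fun r hr => adm_cons_two ha (st_pos s s' hs hs' r hr)
  -- the inequality for the truncated sums
  have h1 : ∀ M, H s N * (H (a :: s') (N + M) - H (a :: s') N) ≤
      ((st s s').map fun r => H (a :: r) (N + M)).sum - ((st s s').map fun r => H (a :: r) N).sum := by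
    intro M
    induction M with
    | zero => simp
    | succ M ih =>
      have e1 : H (a :: s') (N + (M + 1)) = H (a :: s') (N + M) + (((N + M + 1 : ℕ) : ℝ) ^ a)⁻¹ * H s' (N + M) :=
        Pool.Agent.H447R2.MZ.H_cons_succ a s' (N + M)
      have e2 : ((st s s').map fun r => H (a :: r) (N + (M + 1))).sum = ((st s s').map fun r => H (a :: r) (N + M)).sum +
          (((N + M + 1 : ℕ) : ℝ) ^ a)⁻¹ * (H s (N + M) * H s' (N + M)) := by
        rw [H_mul]
        have e3 := Pool.Agent.H447R2.MZ.sum_map_H_succ a (st s s') (N + M)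
        rw [List.map_map, List.map_map] at e3
        exact e3
      rw [e1, e2]
      have h3 : H s N ≤ H s (N + M) := H_mono s (by omega)
      have h4 : 0 ≤ (((N + M + 1 : ℕ) : ℝ) ^ a)⁻¹ * H s' (N + M) := mul_nonneg (by positivity) (H_nonneg s' _)
      nlinarith [mul_le_mul_of_nonneg_right h3 h4]
  have h2 : Tendsto (fun M => H (a :: s') (N + M)) atTop (𝓝 (val (a :: s'))) := by
    have h3 := (tendsto_add_atTop_iff_nat N).2 (tendsto_H (a :: s') (adm_cons_two ha hs'))
    refine h3.congr fun M => ?_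
    rw [add_comm]
  have h3 : Tendsto (fun M => ((st s s').map fun r => H (a :: r) (N + M)).sum) atTop (𝓝 ((st s s').map fun r => val (a :: r)).sum) := by
    refine tendsto_list_sum _ fun r hr => ?_
    have h3 := (tendsto_add_atTop_iff_nat N).2 (tendsto_H (a :: r) (hadm r hr))
    refine h3.congr fun M => ?_
    rw [add_comm]
  exact le_of_tendsto_of_tendsto' ((h2.sub_const _).const_mul (H s N)) (h3.sub_const _) h1

theorem H_rem {s s' : List ℕ} (hs : ∀ b ∈ s, 1 ≤ b) {a : ℕ} (ha : 2 ≤ a) (hs' : ∀ b ∈ s', 1 ≤ b) :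
    Tendsto (fun N => H s N * (val (a :: s') - H (a :: s') N)) atTop (𝓝 0) := by
  have hadm : ∀ r ∈ st s s', Adm (a :: r) := fun r hr => adm_cons_two ha (st_pos s s' hs hs' r hr)
  have h1 : Tendsto (fun N => ((st s s').map fun r => val (a :: r)).sum - ((st s s').map fun r => H (a :: r) N).sum) atTop (𝓝 0) := by
    have h2 : Tendsto (fun N => ((st s s').map fun r => H (a :: r) N).sum) atTop (𝓝 ((st s s').map fun r => val (a :: r)).sum) :=
      tendsto_list_sum _ fun r hr => tendsto_H (a :: r) (hadm r hr)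
    have h3 := h2.const_sub ((st s s').map fun r => val (a :: r)).sum
    rw [sub_self] at h3
    exact h3
  refine squeeze_zero (fun N => ?_) (fun N => key_H hs ha hs' N) h1
  exact mul_nonneg (H_nonneg s N) (by linarith [H_le_val (a :: s') (adm_cons_two ha hs') N])

/-! ### the double shuffle difference tends to zero -/

/-- the stuffle product -/
theorem stuffle_lim {s s' : List ℕ} (hs : ∀ b ∈ s, 1 ≤ b) {a : ℕ} (ha : 2 ≤ a) (hs' : ∀ b ∈ s', 1 ≤ b) :
    Tendsto (fun t => ((st s (a :: s')).map fun r => V (wd r) (1 - t)).sum - val (a :: s') * V (wd s) (1 - t)) (𝓝[>] 0) (𝓝 0) := by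
  have hs2 : ∀ b ∈ a :: s', 1 ≤ b := (adm_cons_two ha hs').1
  have hpos : ∀ r ∈ st s (a :: s'), ∀ b ∈ r, 1 ≤ b := st_pos s (a :: s') hs hs2
  set f : ℕ → ℝ := fun m => ((st s (a :: s')).map fun r => ((coeff m (L (wd r)) : ℚ) : ℝ)).sum -
    val (a :: s') * ((coeff m (L (wd s)) : ℚ) : ℝ) with hf
  have hlist : ∀ (l : List (List ℕ)) (N : ℕ), (∀ r ∈ l, ∀ b ∈ r, 1 ≤ b) →
      ∑ m ∈ Finset.range (N + 1), (l.map fun r => ((coeff m (L (wd r)) : ℚ) : ℝ)).sum = (l.map fun r => H r N).sum := by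
    intro l N hl
    induction l with
    | nil => simp
    | cons r l ih =>
      simp only [List.map_cons, List.sum_cons]
      rw [Finset.sum_add_distrib, ih (fun r hr => hl r (by simp [hr])), partial_sum r (hl r (by simp))]
  have h1 : Tendsto (fun n : ℕ => ∑ l ∈ Finset.range n, f l) atTop (𝓝 0) := by
    rw [← tendsto_add_atTop_iff_nat 1]
    have h2 := (H_rem hs ha hs').neg
    rw [neg_zero] at h2
    refine h2.congr fun N => ?_
    rw [hf]
    simp only
    rw [Finset.sum_sub_distrib, hlist _ _ hpos, ← Finset.mul_sum, partial_sum s hs, ← H_mul]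
    ring
  have h2 := (Real.tendsto_tsum_powerSeries_nhdsWithin_lt h1).comp lim_sub
  refine h2.congr' ?_
  have h4 : ∀ᶠ y in 𝓝[>] (0 : ℝ), y < 1 := (eventually_lt_nhds one_pos).filter_mono nhdsWithin_le_nhds
  filter_upwards [h4, self_mem_nhdsWithin] with t ht1 ht
  have ht0 : (0 : ℝ) < t := ht
  have hy : |1 - t| < 1 := by
    rw [abs_lt]
    constructor <;> linarith
  show ∑' n, f n * (1 - t) ^ n = _
  have hsl : ∀ l : List (List ℕ), Summable (fun m : ℕ => (l.map fun r => ((coeff m (L (wd r)) : ℚ) : ℝ)).sum * (1 - t) ^ m) ∧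
      ∑' m : ℕ, (l.map fun r => ((coeff m (L (wd r)) : ℚ) : ℝ)).sum * (1 - t) ^ m = (l.map fun r => V (wd r) (1 - t)).sum := by
    intro l
    induction l with
    | nil => simp
    | cons r l ih =>
      simp only [List.map_cons, List.sum_cons]
      have h5 := summ (B1w (wd r)) hy
      have h6 : ∀ m : ℕ, (((coeff m (L (wd r)) : ℚ) : ℝ) + (l.map fun r => ((coeff m (L (wd r)) : ℚ) : ℝ)).sum) * (1 - t) ^ m =
          ((coeff m (L (wd r)) : ℚ) : ℝ) * (1 - t) ^ m + (l.map fun r => ((coeff m (L (wd r)) : ℚ) : ℝ)).sum * (1 - t) ^ m := by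
        intro m
        ring
      simp only [h6]
      refine ⟨h5.add ih.1, ?_⟩
      rw [h5.tsum_add ih.1, ih.2]
      rfl
  have h5 := (hsl (st s (a :: s'))).1
  have h6 := (summ (B1w (wd s)) hy).mul_left (val (a :: s'))
  have h7 : ∀ n, f n * (1 - t) ^ n = ((st s (a :: s')).map fun r => ((coeff n (L (wd r)) : ℚ) : ℝ)).sum * (1 - t) ^ n -
      val (a :: s') * (((coeff n (L (wd s)) : ℚ) : ℝ) * (1 - t) ^ n) := by
    intro n
    rw [hf]
    ring
  simp only [h7]
  rw [h5.tsum_sub h6, (hsl _).2, tsum_mul_left]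
  rfl

/-- **the double shuffle difference tends to zero** -/
theorem ds_lim {s s' : List ℕ} (hs : ∀ b ∈ s, 1 ≤ b) {a : ℕ} (ha : 2 ≤ a) (hs' : ∀ b ∈ s', 1 ≤ b) :
    Tendsto (fun t => ((sh (wd s) (wd (a :: s'))).map fun r => V r (1 - t)).sum -
      ((st s (a :: s')).map fun r => V (wd r) (1 - t)).sum) (𝓝[>] 0) (𝓝 0) := by
  obtain ⟨w, hw⟩ : ∃ w, wd (a :: s') = none :: w := by
    obtain ⟨c, rfl⟩ : ∃ c, a = c + 2 := ⟨a - 2, by omega⟩
    exact ⟨List.replicate c none ++ some 0 :: wd s', rfl⟩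
  have hadm : adm (none :: w) := hw ▸ adm_wd (a :: s')
  have h1 := V_rem (adm_wd s) hadm
  have h2 := (h1.add (stuffle_lim hs ha hs')).neg
  rw [add_zero, neg_zero] at h2
  refine h2.congr' ?_
  have h4 : ∀ᶠ y in 𝓝[>] (0 : ℝ), y < 1 := (eventually_lt_nhds one_pos).filter_mono nhdsWithin_le_nhds
  filter_upwards [h4, self_mem_nhdsWithin] with t ht1 ht
  have ht0 : (0 : ℝ) < t := ht
  have hy : |1 - t| < 1 := by
    rw [abs_lt]
    constructor <;> linarith
  rw [← V_mul (adm_wd s) (adm_wd (a :: s')) hy, ← LV_eq (adm_cons_two ha hs'), hw]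
  ring

end Pool.Agent.Q189.MV
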