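import Pool.Agent.Q189.MV.DpD

/-!
# The depth-graded dimensions and the two-variable series
-/

set_option autoImplicit false

open PowerSeries Filter Topology Module

namespace Pool.Agent.Q189.MV

open Pool.Agent.Y119.ML (adm adm_tail adm_none WI JJ)
open Pool.Agent.H447R2.MZ (H Adm val Zs)

/-! ### differences and convolutions -/

/-- the differences of a sequence -/
def grd (f : ℕ → ℤ) : ℕ → ℤ
  | 0 => f 0
  | r + 1 => f (r + 1) - f r

lemma sum_grd (f : ℕ → ℤ) (r : ℕ) : ∑ i ∈ Finset.range (r + 1), grd f i = f r := by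
  induction r with
  | zero => rw [Finset.sum_range_one]; rfl
  | succ r ih =>
    rw [Finset.sum_range_succ, ih]
    show f r + (f (r + 1) - f r) = _
    ring

lemma grd_sum (f : ℕ → ℤ) (r : ℕ) : grd (fun r => ∑ i ∈ Finset.range (r + 1), f i) r = f r := by
  rcases r with _ | r
  · show ∑ i ∈ Finset.range (0 + 1), f i = f 0
    rw [zero_add, Finset.sum_range_one]
  · show ∑ i ∈ Finset.range (r + 1 + 1), f i - ∑ i ∈ Finset.range (r + 1), f i = _
    rw [Finset.sum_range_succ]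
    ring

/-- the convolution with the binomial coefficients -/
def cvz (f : ℕ → ℕ → ℤ) (M r : ℕ) : ℤ :=
  ∑ k ∈ Finset.range (M + 1), ∑ j ∈ Finset.range (r + 1), (k.choose j : ℤ) * f (M - k) (r - j)

lemma cvs_cast (f : ℕ → ℕ → ℕ) (M r : ℕ) : ((cvs f M r : ℕ) : ℤ) = cvz (fun k j => ((f k j : ℕ) : ℤ)) M r := by
  unfold cvs cvz
  push_cast
  rfl

lemma grd_cvz (f : ℕ → ℕ → ℤ) (M r : ℕ) : grd (cvz f M) r = cvz (fun k => grd (f k)) M r := by
  rcases r with _ | r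
  · rfl
  · show cvz f M (r + 1) - cvz f M r = _
    unfold cvz
    rw [← Finset.sum_sub_distrib]
    refine Finset.sum_congr rfl fun k _ => ?_
    rw [Finset.sum_range_succ _ (r + 1), Finset.sum_range_succ _ (r + 1), add_sub_right_comm, ← Finset.sum_sub_distrib]
    congr 1
    · refine Finset.sum_congr rfl fun j hj => ?_
      have hj' := Finset.mem_range.1 hj
      have h1 : r + 1 - j = (r - j) + 1 := by omega
      rw [h1]
      show _ = (k.choose j : ℤ) * (f (M - k) (r - j + 1) - f (M - k) (r - j))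
      ring
    · rw [Nat.sub_self]
      rfl

lemma cvz_inj {f g : ℕ → ℕ → ℤ} {N : ℕ} (h : ∀ M ≤ N, ∀ r, cvz f M r = cvz g M r) : ∀ M ≤ N, ∀ r, f M r = g M r := by
  intro M
  induction M using Nat.strong_induction_on with
  | _ M ih =>
    intro hM r
    have h1 := h M hM r
    have h3 : ∀ f' : ℕ → ℕ → ℤ, cvz f' M r =
        ∑ k ∈ Finset.range M, ∑ j ∈ Finset.range (r + 1), ((k + 1).choose j : ℤ) * f' (M - (k + 1)) (r - j) + f' M r := by
      intro f'
      unfold cvz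
      rw [Finset.sum_range_succ' (fun k => ∑ j ∈ Finset.range (r + 1), (k.choose j : ℤ) * f' (M - k) (r - j))]
      congr 1
      rw [Finset.sum_range_succ', Finset.sum_eq_zero]
      · simp
      · intro j _
        rw [Nat.choose_zero_succ, Nat.cast_zero, zero_mul]
    have h2 : ∑ k ∈ Finset.range M, ∑ j ∈ Finset.range (r + 1), ((k + 1).choose j : ℤ) * f (M - (k + 1)) (r - j) =
        ∑ k ∈ Finset.range M, ∑ j ∈ Finset.range (r + 1), ((k + 1).choose j : ℤ) * g (M - (k + 1)) (r - j) := by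
      refine Finset.sum_congr rfl fun k hk => Finset.sum_congr rfl fun j _ => ?_
      have hk' := Finset.mem_range.1 hk
      rw [ih (M - (k + 1)) (by omega) (by omega)]
    rw [h3, h3, h2] at h1
    linarith

lemma cvz_congr {f g : ℕ → ℕ → ℤ} {M : ℕ} (h : ∀ k ≤ M, ∀ r, f k r = g k r) (r : ℕ) : cvz f M r = cvz g M r := by
  unfold cvz
  refine Finset.sum_congr rfl fun k _ => Finset.sum_congr rfl fun j _ => ?_
  rw [h (M - k) (by omega)]

/-- cumulative sums -/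
lemma cvz_cum (b : ℕ → ℕ → ℤ) (M r : ℕ) : ∑ i ∈ Finset.range (r + 1), cvz b M i =
    cvz (fun k r => ∑ i ∈ Finset.range (r + 1), b k i) M r := by
  have h1 : ∀ i, cvz b M i = grd (cvz (fun k r => ∑ i ∈ Finset.range (r + 1), b k i) M) i := by
    intro i
    rw [grd_cvz]
    refine cvz_congr (fun k _ r => ?_) i
    exact (grd_sum (b k) r).symm
  simp only [h1]
  exact sum_grd _ r

/-! ### the series -/

section
variable {A : PowerSeries (Polynomial ℤ)}

/-- the coefficient of `X ^ k Y ^ r` -/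
noncomputable def cf (A : PowerSeries (Polynomial ℤ)) (k r : ℕ) : ℤ := (coeff k A).coeff r

/-- the geometric series -/
noncomputable def Gs : PowerSeries (Polynomial ℤ) := PowerSeries.mk fun k => (Polynomial.X + 1) ^ k

lemma Gs_mul : (1 - X - X * C (Polynomial.X : Polynomial ℤ)) * Gs = 1 := by
  ext1 k
  have h1 : (1 - X - X * C (Polynomial.X : Polynomial ℤ)) * Gs = Gs - X * (Gs + C (Polynomial.X : Polynomial ℤ) * Gs) := by ring
  rw [h1, map_sub]
  rcases k with _ | k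
  · rw [coeff_zero_X_mul]
    simp [Gs]
  · rw [coeff_succ_X_mul, map_add, coeff_C_mul, Gs, coeff_mk, coeff_mk, coeff_one, if_neg (Nat.succ_ne_zero k)]
    ring

lemma cf_mul_Gs (A : PowerSeries (Polynomial ℤ)) (M r : ℕ) : cf (A * Gs) M r = cvz (cf A) M r := by
  unfold cf
  rw [mul_comm, coeff_mul, Finset.Nat.sum_antidiagonal_eq_sum_range_succ_mk, Polynomial.finsetSum_coeff]
  unfold cvz
  refine Finset.sum_congr rfl fun k _ => ?_
  rw [Gs, coeff_mk, Polynomial.coeff_mul, Finset.Nat.sum_antidiagonal_eq_sum_range_succ_mk]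
  refine Finset.sum_congr rfl fun j _ => ?_
  simp only
  rw [Polynomial.coeff_X_add_one_pow]

end

/-! ### graded dimensions -/

/-- the dimension of the graded pieces of a filtration -/
noncomputable def grdim (F : ℕ → Submodule ℚ ℝ) : ℕ → ℕ
  | 0 => finrank ℚ (F 0)
  | r + 1 => finrank ℚ (F (r + 1) ⧸ (F r).submoduleOf (F (r + 1)))

lemma grdim_eq {F : ℕ → Submodule ℚ ℝ} (hF : ∀ r, F r ≤ F (r + 1)) (hfd : ∀ r, FiniteDimensional ℚ (F r)) (r : ℕ) :
    ((grdim F r : ℕ) : ℤ) = grd (fun r => ((finrank ℚ (F r) : ℕ) : ℤ)) r := by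
  rcases r with _ | r
  · rfl
  · show ((finrank ℚ (F (r + 1) ⧸ (F r).submoduleOf (F (r + 1))) : ℕ) : ℤ) =
      ((finrank ℚ (F (r + 1)) : ℕ) : ℤ) - ((finrank ℚ (F r) : ℕ) : ℤ)
    have h0 := hfd (r + 1)
    have h1 := Submodule.finrank_quotient_add_finrank ((F r).submoduleOf (F (r + 1)))
    have h2 : finrank ℚ ((F r).submoduleOf (F (r + 1))) = finrank ℚ (F r) :=
      LinearEquiv.finrank_eq (Submodule.submoduleOfEquivOfLe (hF r))
    rw [h2] at h1
    omega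

lemma grV {N : ℕ} {x : ℝ} (h : ∀ M ≤ N, ∀ r, finrank ℚ (VD x M r) = cvs (fun k j => finrank ℚ (Zd k j)) M r) {M : ℕ}
    (hM : M ≤ N) (r : ℕ) : ((grdim (VD x M) r : ℕ) : ℤ) = cvz (fun k j => ((grdim (Zd k) j : ℕ) : ℤ)) M r := by
  rw [grdim_eq (fun r => VD_mono (Nat.le_succ r)) (fun r => fd_VD x M r)]
  have h1 : (fun r => ((finrank ℚ (VD x M r) : ℕ) : ℤ)) = cvz (fun k j => ((finrank ℚ (Zd k j) : ℕ) : ℤ)) M := by
    funext r
    rw [h M hM r, cvs_cast]
  rw [h1, grd_cvz]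
  refine cvz_congr (fun k _ j => ?_) r
  exact (grdim_eq (fun r => Zd_mono (Nat.le_succ r)) (fun r => fd_Zd k r) j).symm

/-- graded dimensions and dimensions -/
lemma gr_iff {b : ℕ → ℕ → ℤ} {N : ℕ} : (∀ k ≤ N, ∀ r, ((grdim (Zd k) r : ℕ) : ℤ) = b k r) ↔
    ∀ k ≤ N, ∀ r, ((finrank ℚ (Zd k r) : ℕ) : ℤ) = ∑ i ∈ Finset.range (r + 1), b k i := by
  have h1 : ∀ k r, ((grdim (Zd k) r : ℕ) : ℤ) = grd (fun r => ((finrank ℚ (Zd k r) : ℕ) : ℤ)) r := fun k r =>
    grdim_eq (fun r => Zd_mono (Nat.le_succ r)) (fun r => fd_Zd k r) r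
  constructor
  · intro h k hk r
    rw [← sum_grd (fun r => ((finrank ℚ (Zd k r) : ℕ) : ℤ)) r]
    refine Finset.sum_congr rfl fun i _ => ?_
    rw [← h1, h k hk i]
  · intro h k hk r
    rw [h1]
    have h2 : (fun r => ((finrank ℚ (Zd k r) : ℕ) : ℤ)) = fun r => ∑ i ∈ Finset.range (r + 1), b k i := funext fun r => h k hk r
    rw [h2, grd_sum]

/-- **the criterion at almost all integers** -/
theorem bk_few (b : ℕ → ℕ → ℤ) (N : ℕ) : (∀ k ≤ N, ∀ r, ((grdim (Zd k) r : ℕ) : ℤ) = b k r) ↔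
    ∃ C c : ℝ, 0 < c ∧ ∀ T : ℕ, 1 ≤ T →
      (({n : ℕ | 2 ≤ n ∧ n ≤ T ∧ ¬ ∀ M ≤ N, ∀ r, ((grdim (VD (1 / n) M) r : ℕ) : ℤ) = cvz b M r}.ncard : ℕ) : ℝ) ≤
        C * (T : ℝ) ^ (1 - c) := by
  obtain ⟨C, c, hc, hf⟩ := dimsD N
  constructor
  · intro h
    refine ⟨C, c, hc, fun T hT => ?_⟩
    refine le_trans (Nat.cast_le.2 (Set.ncard_le_ncard ?_ ((Set.finite_le_nat T).subset fun n hn => hn.2.1))) (hf T hT)
    rintro n ⟨h1, h2, h3⟩
    refine ⟨h1, h2, fun h4 => h3 fun M hM r => ?_⟩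
    rw [grV h4 hM]
    exact cvz_congr (fun k hk r => h k (hk.trans hM) r) r
  · rintro ⟨C', c', hc', hf'⟩
    obtain ⟨n, hn, h1⟩ := exists_of_few2 (A := fun n : ℕ => ¬ ∀ M ≤ N, ∀ r, finrank ℚ (VD (1 / n) M r) =
        cvs (fun k j => finrank ℚ (Zd k j)) M r)
      (A' := fun n : ℕ => ¬ ∀ M ≤ N, ∀ r, ((grdim (VD (1 / n) M) r : ℕ) : ℤ) = cvz b M r) hc hc'
      (fun T hT => le_trans (Nat.cast_le.2 (Set.ncard_le_ncard (by rintro n ⟨h1, h2, h3⟩; exact ⟨by omega, h2, h3⟩)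
        ((Set.finite_le_nat T).subset fun n hn => hn.2.1))) (hf T hT))
      (fun T hT => le_trans (Nat.cast_le.2 (Set.ncard_le_ncard (by rintro n ⟨h1, h2, h3⟩; exact ⟨by omega, h2, h3⟩)
        ((Set.finite_le_nat T).subset fun n hn => hn.2.1))) (hf' T hT))
    rw [not_or, not_not, not_not] at h1
    obtain ⟨h2, h3⟩ := h1
    refine cvz_inj fun M hM r => ?_
    rw [← grV h2 hM, h3 M hM r]

/-- **the criterion by the greatest dimensions** -/
theorem bk_max (b : ℕ → ℕ → ℤ) (N : ℕ) : (∀ k ≤ N, ∀ r, ((grdim (Zd k) r : ℕ) : ℤ) = b k r) ↔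
    ∀ M ≤ N, ∀ r, IsGreatest {d : ℤ | ∃ n : ℕ, 2 ≤ n ∧ d = ((finrank ℚ (VD (1 / n) M r) : ℕ) : ℤ)}
      (∑ i ∈ Finset.range (r + 1), cvz b M i) := by
  have hg : ∀ M r, IsGreatest {d : ℤ | ∃ n : ℕ, 2 ≤ n ∧ d = ((finrank ℚ (VD (1 / n) M r) : ℕ) : ℤ)}
      (cvz (fun k j => ((finrank ℚ (Zd k j) : ℕ) : ℤ)) M r) := by
    intro M r
    obtain ⟨⟨n, hn, h1⟩, h2⟩ := greatest M r
    rw [← cvs_cast]
    refine ⟨⟨n, hn, by rw [h1]⟩, ?_⟩
    rintro _ ⟨m, hm, rfl⟩
    exact_mod_cast h2 ⟨m, hm, rfl⟩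
  rw [gr_iff]
  constructor
  · intro h M hM r
    rw [cvz_cum, ← cvz_congr (fun k hk r => h k (hk.trans hM) r) r]
    exact hg M r
  · intro h
    refine cvz_inj fun M hM r => ?_
    rw [← cvz_cum]
    exact (hg M r).unique (h M hM r)

/-- **the criterion by one integer**, given the upper bounds -/
theorem bk_one (b : ℕ → ℕ → ℤ) (N : ℕ)
    (hub : ∀ k ≤ N, ∀ r, ((finrank ℚ (Zd k r) : ℕ) : ℤ) ≤ ∑ i ∈ Finset.range (r + 1), b k i) :
    (∀ k ≤ N, ∀ r, ((grdim (Zd k) r : ℕ) : ℤ) = b k r) ↔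
    ∃ n : ℕ, 2 ≤ n ∧ ∀ r, ((finrank ℚ (VD (1 / n) N r) : ℕ) : ℤ) = ∑ i ∈ Finset.range (r + 1), cvz b N i := by
  rw [gr_iff]
  constructor
  · intro h
    obtain ⟨C, c, hc, hf⟩ := dimsD N
    obtain ⟨n, hn, h1⟩ := exists_few hc hf
    refine ⟨n, hn, fun r => ?_⟩
    rw [not_not.1 h1 N le_rfl r, cvz_cum, cvs_cast]
    exact cvz_congr h r
  · rintro ⟨n, hn, h1⟩ k hk r
    obtain ⟨e1, e2⟩ := inv_pos_lt hn
    have h2 : ((finrank ℚ (VD (1 / n) N r) : ℕ) : ℤ) ≤ cvz (fun k j => ((finrank ℚ (Zd k j) : ℕ) : ℤ)) N r := by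
      rw [← cvs_cast]
      exact_mod_cast finrank_VD_le e1 e2 N r
    rw [h1 r, cvz_cum] at h2
    unfold cvz at h2
    have h3 : ∀ i ∈ Finset.range (N + 1),
        ∑ j ∈ Finset.range (r + 1), (i.choose j : ℤ) * ((finrank ℚ (Zd (N - i) (r - j)) : ℕ) : ℤ) ≤
        ∑ j ∈ Finset.range (r + 1), (i.choose j : ℤ) * ∑ l ∈ Finset.range (r - j + 1), b (N - i) l := fun i _ =>
      Finset.sum_le_sum fun j _ => mul_le_mul_of_nonneg_left (hub _ (by omega) _) (by positivity)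
    have h4 := (Finset.sum_eq_sum_iff_of_le h3).1 (le_antisymm (Finset.sum_le_sum h3) h2) (N - k)
      (Finset.mem_range.2 (by omega))
    have h5 := (Finset.sum_eq_sum_iff_of_le fun j _ =>
      mul_le_mul_of_nonneg_left (hub (N - (N - k)) (by omega) (r - j)) (by positivity)).1 h4 0 (Finset.mem_range.2 (by omega))
    have h6 : N - (N - k) = k := by omega
    rw [h6] at h5
    simpa using h5

/-! ### the concrete spaces -/

lemma d01 (w : List (Option (Fin 1))) : d0 w + d1 w = w.length := by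
  induction w with
  | nil => rfl
  | cons o w ih =>
    rcases o with _ | i
    · rw [d0_none, d1_none, List.length_cons, ← ih]
      omega
    · rw [d0_some, d1_some, List.length_cons, ← ih]
      omega

/-- the span of the products of bounded depth -/
noncomputable def Spd (x : ℝ) (N r : ℕ) : Submodule ℚ ℝ :=
  Submodule.span ℚ {y | ∃ s t : List ℕ, (∀ a ∈ s, 1 ≤ a) ∧ (∀ a ∈ t, 1 ≤ a) ∧ s.sum + t.sum = N ∧
    s.sum - s.length + t.length ≤ r ∧ y = Lis s (1 - x) * Lis t x}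

lemma Spd_eq {x : ℝ} (hx : 0 < x) (hx1 : x < 1) (N r : ℕ) : Spd x N r = VD x N r := by
  have h1 : |x| < 1 := by rw [abs_of_pos hx]; exact hx1
  have h2 : |1 - x| < 1 := by rw [abs_of_pos (by linarith)]; linarith
  have h3 : ∀ s : List ℕ, (∀ a ∈ s, 1 ≤ a) → s.sum - s.length = d0 (wd s) := by
    intro s hs
    have h4 := d01 (wd s)
    rw [d1_wd, len_wd s hs] at h4
    omega
  unfold Spd VD
  congr 1
  ext y
  constructor
  · rintro ⟨s, t, hs, ht, hst, hr, rfl⟩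
    rw [h3 s hs] at hr
    exact ⟨wd s, wd t, adm_wd s, adm_wd t, by rw [len_wd s hs, len_wd t ht, hst], by rw [d1_wd]; exact hr,
      by rw [Lis_eq s hs h2, Lis_eq t ht h1]⟩
  · rintro ⟨u, v, hu, hv, huv, hr, rfl⟩
    obtain ⟨s, hs, hsu⟩ := exists_index u hu
    obtain ⟨t, ht, htv⟩ := exists_index v hv
    refine ⟨s, t, hs, ht, ?_, ?_, ?_⟩
    · rw [← len_wd s hs, ← len_wd t ht, hsu, htv, huv]
    · rw [h3 s hs, hsu, ← d1_wd t, htv]
      exact hr
    · rw [Lis_eq s hs h2, Lis_eq t ht h1, hsu, htv]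

/-- the depth filtration with tuples -/
noncomputable def Fil (k r : ℕ) : Submodule ℚ ℝ :=
  Submodule.span ℚ
    {x : ℝ | ∃ t : ℕ, t ≤ r ∧ ∃ s : Fin t → ℕ,
      (∀ i, 1 ≤ s i) ∧ (∀ h : 0 < t, 2 ≤ s ⟨0, h⟩) ∧ (∑ i, s i) = k ∧
      x = ∑' m : {m : Fin t → ℕ // StrictAnti m ∧ ∀ i, 0 < m i},
            ∏ i, (((m.1 i : ℕ) : ℝ) ^ (s i))⁻¹}

theorem Fil_eq (k r : ℕ) : Fil k r = Zd k r := by
  unfold Fil Zd
  congr 1
  ext x
  constructor
  · rintro ⟨t, htr, s, h1, h2, h3, rfl⟩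
    have hk : Adm (List.ofFn s) := by
      refine ⟨?_, ?_⟩
      · intro a ha
        rw [List.mem_ofFn] at ha
        obtain ⟨i, rfl⟩ := ha
        exact h1 i
      · intro a l hl
        rcases t with _ | t
        · simp at hl
        · rw [List.ofFn_succ] at hl
          have h4 := (List.cons.inj hl).1
          rw [← h4]
          exact h2 (Nat.succ_pos t)
    refine ⟨List.ofFn s, hk, ?_, ?_, ?_⟩
    · rw [List.sum_ofFn, h3]
    · rw [List.length_ofFn]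
      exact htr
    · exact (Pool.Agent.H447R2.MZ.hasSum_val t s hk).tsum_eq
  · rintro ⟨s, hs, hsk, hsr, rfl⟩
    refine ⟨s.length, hsr, fun i => s.get i, fun i => hs.1 _ (List.get_mem _ _), fun h => ?_, ?_, ?_⟩
    · rcases s with _ | ⟨a, s⟩
      · simp at h
      · exact hs.2 a s rfl
    · rw [← List.sum_ofFn, List.ofFn_get, hsk]
    · have h1 : Adm (List.ofFn fun i => s.get i) := by rw [List.ofFn_get]; exact hs
      have h2 := (Pool.Agent.H447R2.MZ.hasSum_val s.length (fun i => s.get i) h1).tsum_eq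
      rw [List.ofFn_get] at h2
      exact h2.symm

end Pool.Agent.Q189.MV
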