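import Pool.Agent.Q189.MV.Reg2
import Pool.Agent.Q187.ZD.DS

/-!
# The regularized double shuffle relations (Ihara, Kaneko, Zagier)
-/

set_option autoImplicit false

open Filter Topology Module

namespace Pool.Agent.Q189.MV.DSh

open Pool.Agent.Y119.ML (adm adm_tail adm_none)
open Pool.Agent.H447R2.MZ (H Adm val Zs st)
open Pool.Agent.Q189.HL (sh sh_nil sh_cons_nil sh_cons length_sh adm_sh)
open Pool.Agent.Q187.ZD.DS

/-- the letter of a boolean -/
def b1 : Bool → Option (Fin 1)
  | false => none
  | true => o1

/-- the word of a list of booleans -/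
def bw (w : List Bool) : List (Option (Fin 1)) := w.map b1

lemma bw_nil : bw [] = [] := rfl

lemma bw_cons (b : Bool) (w : List Bool) : bw (b :: w) = b1 b :: bw w := rfl

lemma bw_len (w : List Bool) : (bw w).length = w.length := List.length_map _

lemma b1_inj : Function.Injective b1 := by
  intro a b h
  cases a <;> cases b <;> simp_all [b1]

lemma inH1_iff (w : List Bool) : InH1 w ↔ adm (bw w) := by
  unfold InH1 adm bw
  rw [List.getLast?_map]
  rcases h : w.getLast? with _ | b
  · rw [List.getLast?_eq_none_iff] at h
    subst h
    simp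
  · have hne : w ≠ [] := by
      rintro rfl
      simp at h
    cases b <;> simp [b1, hne]

lemma bw_shuffles (u v : List Bool) : (shuffles u v).map bw = sh (bw u) (bw v) := by
  induction u, v using shuffles.induct with
  | case1 v => rw [shuffles, bw_nil, sh_nil]; rfl
  | case2 a u => rw [shuffles, bw_nil, bw_cons, sh_cons_nil]; rfl
  | case3 a u b v ih1 ih2 =>
    rw [shuffles, bw_cons, bw_cons, sh_cons, List.map_append, List.map_map, List.map_map, ← bw_cons b v, ← bw_cons a u, ← ih1, ← ih2,
      List.map_map, List.map_map]
    rfl

lemma stuffles_eq (k l : List ℕ) : stuffles k l = st k l := by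
  induction k, l using stuffles.induct with
  | case1 l => rw [stuffles, st]
  | case2 i k => rw [stuffles, st]
  | case3 i k j l ih1 ih2 ih3 => rw [stuffles, st, ih1, ih2, ih3]

lemma bw_rep (n : ℕ) : bw (List.replicate n true) = List.replicate n o1 := by
  unfold bw
  rw [List.map_replicate]
  rfl

lemma bw_word (s : List ℕ) : bw (word s) = wd s := by
  induction s with
  | nil => rfl
  | cons a s ih =>
    show (List.replicate (a - 1) false ++ true :: word s).map b1 = List.replicate (a - 1) none ++ some 0 :: wd s
    rw [List.map_append, List.map_replicate, List.map_cons, ← ih]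
    rfl

lemma index_pos (w : List Bool) : ∀ c, ∀ a ∈ index c w, 1 ≤ a := by
  induction w with
  | nil => intro c a ha; simp [index] at ha
  | cons b w ih =>
    intro c a ha
    cases b with
    | true =>
      rw [index] at ha
      rcases List.mem_cons.1 ha with rfl | ha
      · omega
      · exact ih 0 a ha
    | false =>
      rw [index] at ha
      exact ih (c + 1) a ha

lemma word_index (w : List Bool) : ∀ c, w.getLast? = some true → word (index c w) = List.replicate c false ++ w := by
  induction w with
  | nil => intro c h; simp at h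
  | cons b w ih =>
    intro c h
    cases b with
    | true =>
      rw [index]
      show List.replicate (c + 1 - 1) false ++ true :: word (index 0 w) = _
      rw [Nat.add_sub_cancel]
      rcases w with _ | ⟨b', w⟩
      · rfl
      · have h1 : (b' :: w).getLast? = some true := by
          rw [List.getLast?_cons_cons] at h
          exact h
        rw [ih 0 h1]
        rfl
    | false =>
      rw [index]
      rcases w with _ | ⟨b', w⟩
      · simp at h
      · have h1 : (b' :: w).getLast? = some true := by
          rw [List.getLast?_cons_cons] at h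
          exact h
        rw [ih (c + 1) h1, List.replicate_succ', List.append_assoc]
        rfl

lemma word_index' {w : List Bool} (h : InH1 w) : word (index 0 w) = w := by
  rcases h with rfl | h
  · rfl
  · rw [word_index w 0 h]
    rfl

lemma wd_index {w : List Bool} (h : InH1 w) : wd (index 0 w) = bw w := by
  rw [← bw_word, word_index' h]

lemma trunc_eq' (s : List ℕ) : ∀ k, Pool.Agent.Q187.ZD.DS.trunc s (k + 1) = H s k := by
  induction s with
  | nil => intro k; rw [Pool.Agent.H447R2.MZ.H_nil]; rfl
  | cons a s ih =>
    intro k
    rw [Pool.Agent.H447R2.MZ.H_cons]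
    show ∑ j ∈ Finset.Ico 1 (k + 1), Pool.Agent.Q187.ZD.DS.trunc s j / (j : ℝ) ^ a = _
    rw [Finset.sum_Ico_eq_sum_range, Nat.add_sub_cancel]
    refine Finset.sum_congr rfl fun n _ => ?_
    rw [add_comm 1 n, ih, div_eq_inv_mul]

lemma mzv_eq {s : List ℕ} (hs : Adm s) : mzv s = val s := by
  rcases s with _ | ⟨a, s⟩
  · have h2 := Pool.Agent.H447R2.MZ.tendsto_H [] hs
    have h3 : Tendsto (H []) atTop (𝓝 1) := tendsto_const_nhds.congr fun N => (Pool.Agent.H447R2.MZ.H_nil N).symm
    exact (tendsto_nhds_unique h2 h3).symm
  · have h1 := Pool.Agent.H447R2.MZ.tendsto_H (a :: s) hs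
    have h2 : HasSum (fun k : ℕ => Pool.Agent.Q187.ZD.DS.trunc s (k + 1) / ((k + 1 : ℕ) : ℝ) ^ a) (val (a :: s)) := by
      rw [hasSum_iff_tendsto_nat_of_nonneg]
      · refine h1.congr fun N => ?_
        rw [Pool.Agent.H447R2.MZ.H_cons]
        refine Finset.sum_congr rfl fun n _ => ?_
        rw [trunc_eq', div_eq_inv_mul]
      · intro k
        rw [trunc_eq']
        exact div_nonneg (Pool.Agent.H447R2.MZ.H_nonneg s k) (by positivity)
    exact h2.tsum_eq

lemma index_adm {w : List Bool} (h : InH0 w) : Adm (index 0 w) := by
  rcases h with rfl | ⟨h1, h2⟩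
  · exact ⟨by simp [index], by simp [index]⟩
  · refine ⟨index_pos w 0, fun a t hat => ?_⟩
    rcases w with _ | ⟨b, w⟩
    · simp at h1
    · rw [List.head?_cons, Option.some_inj] at h1
      subst h1
      have h3 := word_index (false :: w) 0 h2
      rw [hat] at h3
      by_contra h4
      have h5 : a = 1 := by
        have := index_pos (false :: w) 0 a (by rw [hat]; simp)
        omega
      subst h5
      have h6 : word (1 :: t) = true :: word t := rfl
      rw [h6] at h3
      simp at h3

lemma H0_H1 {w : List Bool} (h : InH0 w) : InH1 w := by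
  rcases h with rfl | ⟨_, h2⟩
  · exact Or.inl rfl
  · exact Or.inr h2

/-- the value of a word in terms of the limit -/
lemma Z_word {w : List Bool} (h : InH0 w) : Z (Finsupp.single w 1) = LV (bw w) := by
  unfold Z
  rw [Finsupp.linearCombination_single, one_smul, mzv_eq (index_adm h), ← LV_eq (index_adm h), wd_index (H0_H1 h)]

/-- values near `1` -/
noncomputable def FW (t : ℝ) : W →ₗ[ℚ] ℝ := Finsupp.linearCombination ℚ fun w => V (bw w) (1 - t)

lemma FW_single (t : ℝ) (w : List Bool) : FW t (Finsupp.single w 1) = V (bw w) (1 - t) := by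
  unfold FW
  rw [Finsupp.linearCombination_single, one_smul]

lemma map_total {M : Type} [AddCommGroup M] [Module ℚ M] (F : W →ₗ[ℚ] M) (l : List (List Bool)) :
    F (total l) = (l.map fun w => F (Finsupp.single w 1)).sum := by
  unfold total
  rw [map_list_sum, List.map_map]
  rfl

lemma FW_total (t : ℝ) (l : List (List Bool)) : FW t (total l) = ((l.map bw).map fun w => V w (1 - t)).sum := by
  rw [map_total, List.map_map]
  refine congrArg List.sum (List.map_congr_left fun w _ => ?_)
  rw [FW_single]
  rfl

/-- the polynomial of a word -/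
noncomputable def pword (w : List Bool) : Polynomial ℝ :=
  match w.dropWhile id with
  | [] => Polynomial.C (1 / (w.length.factorial : ℝ)) * Polynomial.X ^ w.length
  | _ :: u => Pw (w.takeWhile id).length (bw u)

/-- the polynomials of combinations -/
noncomputable def PP : W →ₗ[ℚ] Polynomial ℝ := Finsupp.linearCombination ℚ pword

lemma take_rep (w : List Bool) : w.takeWhile id = List.replicate (w.takeWhile id).length true := by
  refine List.eq_replicate_of_mem fun b hb => ?_
  have := List.mem_takeWhile_imp hb
  simpa using this

lemma drop_head {w : List Bool} {b : Bool} {u : List Bool} (h : w.dropWhile id = b :: u) : b = false := by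
  have h1 := List.head?_dropWhile_not id w
  rw [h] at h1
  simpa using h1

/-- the two kinds of words -/
lemma word_cases (w : List Bool) : (w.dropWhile id = [] ∧ w = List.replicate w.length true) ∨
    ∃ u, w.dropWhile id = false :: u ∧ w = List.replicate (w.takeWhile id).length true ++ false :: u := by
  have h0 := List.takeWhile_append_dropWhile (p := id) (l := w)
  rcases h : w.dropWhile id with _ | ⟨b, u⟩
  · left
    refine ⟨rfl, ?_⟩
    rw [h, List.append_nil] at h0
    have h1 := take_rep w
    rw [h0] at h1
    exact h1
  · right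
    have h1 := drop_head h
    subst h1
    refine ⟨u, rfl, ?_⟩
    rw [h] at h0
    rw [← take_rep w]
    exact h0.symm

lemma tail_adm {w u : List Bool} (hw : InH1 w) {n : ℕ} (h : w = List.replicate n true ++ false :: u) : adm (none :: bw u) := by
  rw [inH1_iff, h] at hw
  unfold bw at hw
  rw [List.map_append, List.map_cons] at hw
  unfold adm at hw ⊢
  rw [List.getLast?_append_of_ne_nil _ (by simp)] at hw
  exact hw

lemma asym_word {w : List Bool} (hw : InH1 w) :
    Tendsto (fun t => FW t (Finsupp.single w 1) - (PP (Finsupp.single w 1)).eval (V [o1] (1 - t))) (𝓝[>] 0) (𝓝 0) := by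
  have e1 : PP (Finsupp.single w 1) = pword w := by
    unfold PP
    rw [Finsupp.linearCombination_single, one_smul]
  rw [e1]
  simp only [FW_single]
  rcases word_cases w with ⟨h1, h2⟩ | ⟨u, h1, h2⟩
  · have e2 : pword w = Polynomial.C (1 / (w.length.factorial : ℝ)) * Polynomial.X ^ w.length := by
      unfold pword
      rw [h1]
    rw [e2]
    refine tendsto_const_nhds.congr' ?_
    have h4 : ∀ᶠ y in 𝓝[>] (0 : ℝ), y < 1 := (eventually_lt_nhds one_pos).filter_mono nhdsWithin_le_nhds
    filter_upwards [h4, self_mem_nhdsWithin] with t ht1 ht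
    have ht0 : (0 : ℝ) < t := ht
    have hy : |1 - t| < 1 := by
      rw [abs_lt]
      constructor <;> linarith
    have e3 : V (bw w) (1 - t) = V [o1] (1 - t) ^ w.length / w.length.factorial := by
      conv_lhs => rw [h2, bw_rep]
      exact V_ones hy _
    rw [e3, Polynomial.eval_mul, Polynomial.eval_C, Polynomial.eval_pow, Polynomial.eval_X]
    ring
  · have e2 : pword w = Pw (w.takeWhile id).length (bw u) := by
      unfold pword
      rw [h1]
    have hadm := tail_adm hw h2
    have h3 := V_asym (w.takeWhile id).length (adm_tail hadm) (adm_none hadm)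
    rw [e2]
    refine h3.congr fun t => ?_
    have e3 : bw w = List.replicate (w.takeWhile id).length o1 ++ none :: bw u := by
      conv_lhs => rw [h2]
      show (List.replicate (w.takeWhile id).length true ++ false :: u).map b1 = _
      rw [List.map_append, List.map_replicate, List.map_cons]
      rfl
    rw [e3]

lemma Z_nil : Z (Finsupp.single [] 1) = 1 := by
  unfold Z
  rw [Finsupp.linearCombination_single, one_smul]
  rfl

lemma coeff_word {w : List Bool} (hw : InH1 w) : (PP (Finsupp.single w 1)).coeff 0 = Z (Pool.Agent.Q187.ZD.DS.reg (Finsupp.single w 1)) := by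
  have e1 : PP (Finsupp.single w 1) = pword w := by
    unfold PP
    rw [Finsupp.linearCombination_single, one_smul]
  have e0 : Pool.Agent.Q187.ZD.DS.reg (Finsupp.single w 1) = regWord w := by
    unfold Pool.Agent.Q187.ZD.DS.reg
    rw [Finsupp.linearCombination_single, one_smul]
  rw [e1, e0]
  rcases word_cases w with ⟨h1, h2⟩ | ⟨u, h1, h2⟩
  · have e2 : pword w = Polynomial.C (1 / (w.length.factorial : ℝ)) * Polynomial.X ^ w.length := by
      unfold pword
      rw [h1]
    have e3 : regWord w = if w = [] then Finsupp.single [] 1 else 0 := by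
      unfold regWord
      rw [h1]
    rw [e2, e3, Polynomial.coeff_C_mul, Polynomial.coeff_X_pow]
    by_cases hw0 : w = []
    · subst hw0
      rw [if_pos rfl, Z_nil]
      simp
    · have h5 : 0 ≠ w.length := fun h => hw0 (List.length_eq_zero_iff.1 h.symm)
      rw [if_neg h5, if_neg hw0, map_zero, mul_zero]
  · have e2 : pword w = Pw (w.takeWhile id).length (bw u) := by
      unfold pword
      rw [h1]
    have e3 : regWord w = ((-1 : ℚ) ^ (w.takeWhile id).length) • total ((shuffles (w.takeWhile id) u).map (false :: ·)) := by
      unfold regWord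
      rw [h1]
    have hadm := tail_adm hw h2
    have hu1 : adm (bw u) := adm_tail hadm
    have hu0 : bw u ≠ [] := adm_none hadm
    rw [e2, e3, Pw_coeff_zero, map_smul, Rat.smul_def, map_total, List.map_map]
    push_cast
    congr 1
    unfold Lw
    have h5 : bw (w.takeWhile id) = List.replicate (w.takeWhile id).length o1 := by
      conv_lhs => rw [take_rep w]
      exact bw_rep _
    rw [← h5, ← bw_shuffles, List.map_map]
    refine congrArg List.sum (List.map_congr_left fun r hr => ?_)
    show LV (none :: bw r) = Z (Finsupp.single (false :: r) 1)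
    have h6 : bw r ∈ sh (bw (w.takeWhile id)) (bw u) := by
      rw [← bw_shuffles]
      exact List.mem_map_of_mem hr
    rw [h5] at h6
    have h7 := adm_sh_none (adm_ones _) hu1 (Or.inr hu0) (bw r) h6
    have h8 : InH1 (false :: r) := (inH1_iff _).2 h7
    have h9 : InH0 (false :: r) := by
      rcases h8 with h8 | h8
      · exact absurd h8 (by simp)
      · exact Or.inr ⟨rfl, h8⟩
    rw [Z_word h9]
    rfl

/-- the span of the words in `H1` -/
noncomputable def S1 : Submodule ℚ W := Submodule.span ℚ {f | ∃ w, InH1 w ∧ f = Finsupp.single w 1}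

lemma asym {f : W} (hf : f ∈ S1) : Tendsto (fun t => FW t f - (PP f).eval (V [o1] (1 - t))) (𝓝[>] 0) (𝓝 0) ∧
    (PP f).coeff 0 = Z (Pool.Agent.Q187.ZD.DS.reg f) := by
  unfold S1 at hf
  induction hf using Submodule.span_induction with
  | mem f hf =>
    obtain ⟨w, hw, rfl⟩ := hf
    exact ⟨asym_word hw, coeff_word hw⟩
  | zero => simp
  | add f g _ _ hf hg =>
    refine ⟨?_, ?_⟩
    · have h := hf.1.add hg.1
      rw [add_zero] at h
      refine h.congr fun t => ?_
      rw [map_add, map_add, Polynomial.eval_add]
      ring
    · rw [map_add, map_add, map_add, Polynomial.coeff_add, hf.2, hg.2]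
  | smul c f _ hf =>
    refine ⟨?_, ?_⟩
    · have h := hf.1.const_mul (c : ℝ)
      rw [mul_zero] at h
      refine h.congr fun t => ?_
      rw [map_smul, map_smul, Rat.smul_def, Polynomial.eval_smul, Rat.smul_def]
      ring
    · rw [map_smul, map_smul, map_smul, Polynomial.coeff_smul, hf.2]

/-- **uniqueness**: combinations which tend to zero have regularization in the kernel -/
theorem reg_zero {f : W} (hf : f ∈ S1) (h : Tendsto (fun t => FW t f) (𝓝[>] 0) (𝓝 0)) : Z (Pool.Agent.Q187.ZD.DS.reg f) = 0 := by
  obtain ⟨h1, h2⟩ := asym hf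
  have h3 : Tendsto (fun t => (PP f).eval (V [o1] (1 - t))) (𝓝[>] 0) (𝓝 0) := by
    have h4 := h.sub h1
    rw [sub_zero] at h4
    refine h4.congr fun t => ?_
    ring
  rw [← h2, poly_zero h3, Polynomial.coeff_zero]

lemma total_mem {l : List (List Bool)} (h : ∀ w ∈ l, InH1 w) : total l ∈ S1 := by
  unfold total
  refine S1.list_sum_mem fun f hf => ?_
  obtain ⟨w, hw, rfl⟩ := List.mem_map.1 hf
  exact Submodule.subset_span ⟨w, h w hw, rfl⟩

/-- **the regularized double shuffle relations** -/
theorem Z_element {u v : List Bool} (hu : InH1 u) (hv : InH0 v) : Z (element u v) = 0 := by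
  unfold element
  have hv1 := H0_H1 hv
  refine reg_zero ?_ ?_
  · refine Submodule.sub_mem _ (total_mem fun w hw => ?_) (total_mem fun w hw => ?_)
    · rw [inH1_iff]
      refine adm_sh _ (bw u) (bw v) rfl ((inH1_iff u).1 hu) ((inH1_iff v).1 hv1) _ ?_
      rw [← bw_shuffles]
      exact List.mem_map_of_mem hw
    · obtain ⟨s, -, rfl⟩ := List.mem_map.1 hw
      rw [inH1_iff, bw_word]
      exact adm_wd s
  · have e1 : ∀ t, FW t (total (shuffles u v) - total ((stuffles (index 0 u) (index 0 v)).map word)) =
        ((sh (wd (index 0 u)) (wd (index 0 v))).map fun r => V r (1 - t)).sum -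
          ((st (index 0 u) (index 0 v)).map fun r => V (wd r) (1 - t)).sum := by
      intro t
      rw [map_sub, FW_total, FW_total, bw_shuffles, wd_index hu, wd_index hv1, stuffles_eq, List.map_map, List.map_map]
      congr 2
      refine List.map_congr_left fun r _ => ?_
      show V (bw (word r)) (1 - t) = _
      rw [bw_word]
    simp only [e1]
    rcases hv with rfl | hv'
    · have e2 : index 0 ([] : List Bool) = [] := rfl
      have e3 : ∀ s : List ℕ, st s [] = [s] := by
        intro s
        cases s <;> rw [st]
      have e4 : ∀ w : List (Option (Fin 1)), sh w [] = [w] := by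
        intro w
        cases w <;> rw [sh]
      simp only [e2, e3, wd, e4, List.map_cons, List.map_nil, List.sum_cons, List.sum_nil, add_zero, sub_self]
      exact tendsto_const_nhds
    · have hadm := index_adm (Or.inr hv')
      rcases hi : index 0 v with _ | ⟨a, s⟩
      · have h1 := word_index' hv1
        rw [hi] at h1
        rw [← h1] at hv'
        simp [word] at hv'
      · rw [hi] at hadm
        exact ds_lim (index_pos u 0) (hadm.2 a s rfl) (fun b hb => hadm.1 b (by simp [hb]))

/-- all regularized double shuffle elements are relations -/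
theorem Z_RDS {p : ℕ} {f : W} (hf : f ∈ RDS p) : Z f = 0 := by
  unfold RDS at hf
  induction hf using Submodule.span_induction with
  | mem f hf =>
    obtain ⟨u, v, hu, hv, -, rfl⟩ := hf
    exact Z_element hu hv
  | zero => exact map_zero _
  | add f g _ _ hf hg => rw [map_add, hf, hg, add_zero]
  | smul c f _ hf => rw [map_smul, hf, smul_zero]

end Pool.Agent.Q189.MV.DSh
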