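import Pool.Agent.Q189.MV.Out2

/-!
# Families of multiple zeta values and the values of multiple polylogarithms at `1 - 1/n`
-/

set_option autoImplicit false

open PowerSeries Filter Topology Module

namespace Pool.Agent.Q189.MV

open Pool.Agent.Y119.ML (LL UU In geo adm adm_tail adm_none const_LL theta_LL theta_In const_In WI JJ S S_zero)
open Pool.Agent.Q189.Z3 (L α1 α1_inj α1_ne)
open Pool.Agent.H447R2.MZ (H Adm val Zs)
open Pool.Agent.Q189.HL (sh sh_nil sh_cons_nil sh_cons length_sh adm_sh LL_mul)

/-- the products with a factor of positive weight -/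
noncomputable def PR (x : ℝ) (N : ℕ) : Submodule ℚ ℝ :=
  Submodule.span ℚ {r | ∃ (k a : ℕ) (z : ℝ) (w : List (Option (Fin 1))), z ∈ Zs k ∧ adm w ∧ k + a + w.length = N ∧
    1 ≤ a + w.length ∧ r = z * (Real.log x ^ a * V w x)}

variable {x : ℝ}

lemma PR_mul (hx : 0 < x) (hx1 : x < 1) {i : ℕ} {r : ℝ} (hr : r ∈ PZ x i) {v : List (Option (Fin 1))} (hv : adm v) (hv0 : v ≠ []) :
    r * V v x ∈ PR x (i + v.length) := by
  have h1 : |x| < 1 := by rw [abs_of_pos hx]; exact hx1
  unfold PZ at hr
  induction hr using Submodule.span_induction with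
  | mem r hr =>
    obtain ⟨k, a, z, w, hz, hw, hk, rfl⟩ := hr
    have h3 : z * (Real.log x ^ a * V w x) * V v x = z * Real.log x ^ a * (V w x * V v x) := by ring
    rw [h3, V_mul hw hv h1, ← List.sum_map_mul_left]
    refine list_mem _ _ fun u hu => ?_
    have hl := length_sh _ w v rfl u hu
    have hv1 : 1 ≤ v.length := by
      rcases v with _ | ⟨o, v⟩
      · exact absurd rfl hv0
      · simp
    exact Submodule.subset_span ⟨k, a, z, u, hz, adm_sh _ w v rfl hw hv u hu, by omega, by omega, by ring⟩
  | zero => rw [zero_mul]; exact Submodule.zero_mem _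
  | add r s _ _ hr hs => rw [add_mul]; exact Submodule.add_mem _ hr hs
  | smul c r _ hr =>
    rw [smul_mul_assoc]
    exact Submodule.smul_mem _ _ hr

lemma pc_diff' (hx : 0 < x) (hx1 : x < 1) (n : ℕ) (w : List (Option (Fin 1))) : ∀ ρ : List (Option (Fin 1)), OK ρ w →
    ρ.length + w.length = n → pc ρ w x - V (rv ρ w) (1 - x) ∈ PR x n := by
  induction w with
  | nil =>
    intro ρ _ _
    show V ρ (1 - x) - V ρ (1 - x) ∈ _
    rw [sub_self]
    exact Submodule.zero_mem _
  | cons a w ih =>
    intro ρ h hn
    rw [List.length_cons] at hn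
    show V ρ (1 - x) * V (a :: w) x + pc (sw a :: ρ) w x - V (rv (sw a :: ρ) w) (1 - x) ∈ _
    rw [add_sub_assoc]
    refine Submodule.add_mem _ ?_ (ih _ h.step (by rw [List.length_cons]; omega))
    have h1 := PR_mul hx hx1 (V1_mem_PZ hx hx1 _ ρ h.1 rfl) h.2.1 (by simp)
    rw [List.length_cons] at h1
    have h2 : ρ.length + (w.length + 1) = n := by omega
    rw [h2] at h1
    exact h1

/-- the value at `1 - x` and the multiple zeta value -/
theorem diff_mem (hx : 0 < x) (hx1 : x < 1) {s : List ℕ} (hs : Adm s) : val s - V (wd s) (1 - x) ∈ PR x s.sum := by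
  rcases s with _ | ⟨a, s⟩
  · have h1 : val [] = 1 := by
      have h2 := Pool.Agent.H447R2.MZ.tendsto_H [] hs
      have h3 : Tendsto (H []) atTop (𝓝 1) := tendsto_const_nhds.congr fun N => (Pool.Agent.H447R2.MZ.H_nil N).symm
      exact tendsto_nhds_unique h2 h3
    show val [] - V [] (1 - x) ∈ _
    rw [h1, V_nil, sub_self]
    exact Submodule.zero_mem _
  · have ha := hs.2 a s rfl
    have h1 : wd (a :: s) = none :: (List.replicate (a - 2) none ++ some 0 :: wd s) := by
      rw [wd_cons]
      obtain ⟨c, rfl⟩ : ∃ c, a = c + 2 := ⟨a - 2, by omega⟩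
      show List.replicate (c + 1) none ++ _ = none :: (List.replicate c none ++ _)
      rw [List.replicate_succ, List.cons_append]
    have h2 : adm (none :: (List.replicate (a - 2) none ++ some 0 :: wd s)) := by
      rw [← h1]
      exact adm_wd _
    obtain ⟨w, hw, hok⟩ := exists_dual h2
    rw [← h1] at hw
    have h4 : ([] : List (Option (Fin 1))).length + w.length = (a :: s).sum := by
      rw [← rv_len, hw, len_wd _ hs.1]
    have h3 := pc_diff' hx hx1 _ w [] hok h4
    rw [pc_eq hok hs hw hx hx1, hw] at h3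
    exact h3

/-- the combinations of products of weight more than `m` -/
lemma mul_PR (hx : 0 < x) (hx1 : x < 1) {N : ℕ} (b : JJ 1 N) {j : ℕ} (hj : wtx b + j ≤ N) {r : ℝ} (hr : r ∈ PR x j) :
    ∃ z : JJ 1 N → ℝ, (∀ b', z b' ∈ Tz N) ∧ (∀ b', wtx b' ≤ wtx b → z b' = 0) ∧ pp x b * r = ∑ b', z b' * pp x b' := by
  classical
  have h1 : |x| < 1 := by rw [abs_of_pos hx]; exact hx1
  let M : Submodule ℚ ℝ :=
    { carrier := {r | ∃ z : JJ 1 N → ℝ, (∀ b', z b' ∈ Tz N) ∧ (∀ b', wtx b' ≤ wtx b → z b' = 0) ∧ r = ∑ b', z b' * pp x b'}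
      add_mem' := by
        rintro _ _ ⟨z, h1, h2, rfl⟩ ⟨z', h1', h2', rfl⟩
        refine ⟨z + z', fun b' => Submodule.add_mem _ (h1 b') (h1' b'), fun b' hb => ?_, ?_⟩
        · rw [Pi.add_apply, h2 b' hb, h2' b' hb, add_zero]
        · rw [← Finset.sum_add_distrib]
          refine Finset.sum_congr rfl fun b' _ => ?_
          rw [Pi.add_apply]
          ring
      zero_mem' := ⟨0, fun _ => Submodule.zero_mem _, fun _ _ => rfl, by simp⟩
      smul_mem' := by
        rintro c _ ⟨z, h1, h2, rfl⟩
        refine ⟨c • z, fun b' => Submodule.smul_mem _ _ (h1 b'), fun b' hb => ?_, ?_⟩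
        · rw [Pi.smul_apply, h2 b' hb, smul_zero]
        · rw [Finset.smul_sum]
          refine Finset.sum_congr rfl fun b' _ => ?_
          rw [Pi.smul_apply, smul_mul_assoc] }
  have h2 : ∀ r ∈ PR x j, pp x b * r ∈ M := by
    intro r hr
    unfold PR at hr
    induction hr using Submodule.span_induction with
    | mem r hr =>
      obtain ⟨k, a, z, w, hz, hw, hk, hpos, rfl⟩ := hr
      have h3 : pp x b * (z * (Real.log x ^ a * V w x)) = z * Real.log x ^ ((b.1 : ℕ) + a) * (V b.2.1 x * V w x) := by
        unfold pp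
        rw [pow_add]
        ring
      rw [h3, V_mul b.2.2.2 hw h1, ← List.sum_map_mul_left]
      refine list_mem _ _ fun u hu => ?_
      have hl := length_sh _ b.2.1 w rfl u hu
      have hwt : wtx b = (b.1 : ℕ) + b.2.1.length := rfl
      set b₀ : JJ 1 N := (⟨(b.1 : ℕ) + a, by omega⟩, ⟨u, by omega, adm_sh _ b.2.1 w rfl b.2.2.2 hw u hu⟩) with hb₀
      have hwt₀ : wtx b₀ = (b.1 : ℕ) + a + u.length := rfl
      refine ⟨Pi.single b₀ z, fun b' => ?_, fun b' hb' => ?_, ?_⟩
      · by_cases hb : b' = b₀
        · subst hb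
          rw [Pi.single_eq_same]
          exact Zs_le_Tz (by omega) hz
        · rw [Pi.single_eq_of_ne hb]
          exact Submodule.zero_mem _
      · rw [Pi.single_eq_of_ne]
        rintro rfl
        omega
      · rw [Finset.sum_eq_single_of_mem b₀ (Finset.mem_univ _), Pi.single_eq_same]
        · unfold pp
          rw [hb₀]
          ring
        · intro b' _ hb
          rw [Pi.single_eq_of_ne hb, zero_mul]
    | zero => rw [mul_zero]; exact Submodule.zero_mem _
    | add r s _ _ hr hs => rw [mul_add]; exact Submodule.add_mem _ hr hs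
    | smul c r _ hr =>
      rw [mul_smul_comm]
      exact Submodule.smul_mem _ _ hr
  exact h2 r hr

/-- the indices of the family -/
abbrev Fi (N : ℕ) (F : List ℕ → Prop) (R : ℕ → ℕ → Prop) : Type :=
  {p : JJ 1 N × List ℕ // F p.2 ∧ R (wtx p.1) p.2.sum}

/-- **independence** -/
theorem li_family (hx : 0 < x) (hx1 : x < 1) {N : ℕ} (h : Ind x N) {F : List ℕ → Prop} (hF : ∀ s, F s → Adm s) {R : ℕ → ℕ → Prop}
    (hR : ∀ m k, R m k → m + k ≤ N)
    (hli : ∀ m, LinearIndependent ℚ fun s : {s : List ℕ // F s ∧ R m s.sum} => val s.1) :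
    LinearIndependent ℚ fun p : Fi N F R => pp x p.1.1 * V (wd p.1.2) (1 - x) := by
  classical
  have hfin : Finite (Fi N F R) := by
    have h1 : {p : JJ 1 N × List ℕ | F p.2 ∧ R (wtx p.1) p.2.sum}.Finite := by
      refine (Set.finite_univ.prod (fin_index N)).subset ?_
      rintro ⟨b, s⟩ ⟨h1, h2⟩
      exact ⟨Set.mem_univ _, hF s h1, by have := hR _ _ h2; omega⟩
    exact h1.to_subtype
  have := Fintype.ofFinite (Fi N F R)
  rw [Fintype.linearIndependent_iff]
  intro c hc
  -- the decomposition of the elements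
  have hdec : ∀ p : Fi N F R, ∃ z : JJ 1 N → ℝ, (∀ b', z b' ∈ Tz N) ∧ (∀ b', wtx b' ≤ wtx p.1.1 → z b' = 0) ∧
      pp x p.1.1 * (val p.1.2 - V (wd p.1.2) (1 - x)) = ∑ b', z b' * pp x b' := fun p =>
    mul_PR hx hx1 p.1.1 (hR _ _ p.2.2) (diff_mem hx hx1 (hF _ p.2.1))
  choose z hzT hz0 hz using hdec
  have key : ∀ m, ∀ p : Fi N F R, wtx p.1.1 < m → c p = 0 := by
    intro m
    induction m with
    | zero => intro p hp; omega
    | succ m ih =>
      -- the coefficients
      have h1 : ∀ b : JJ 1 N, (∑ p : Fi N F R, (c p : ℝ) * ((if p.1.1 = b then val p.1.2 else 0) - z p b)) = 0 := by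
        have h2 : (fun b : JJ 1 N => ∑ p : Fi N F R, (c p : ℝ) * ((if p.1.1 = b then val p.1.2 else 0) - z p b)) = 0 := by
          refine h _ (fun b => Submodule.sum_mem _ fun p _ => ?_) ?_
          · have h3 : (c p : ℝ) * ((if p.1.1 = b then val p.1.2 else 0) - z p b) =
                c p • ((if p.1.1 = b then val p.1.2 else 0) - z p b) := (Rat.smul_def _ _).symm
            rw [h3]
            refine Submodule.smul_mem _ _ (Submodule.sub_mem _ ?_ (hzT p b))
            split_ifs
            · exact Zs_le_Tz (by have := hR _ _ p.2.2; omega) (Pool.Agent.H447R2.MZ.val_mem _ (hF _ p.2.1))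
            · exact Submodule.zero_mem _
          · simp only [Finset.sum_mul]
            rw [Finset.sum_comm]
            refine Eq.trans ?_ hc
            refine Finset.sum_congr rfl fun p _ => ?_
            have h4 := hz p
            have h5 : ∑ b : JJ 1 N, (c p : ℝ) * ((if p.1.1 = b then val p.1.2 else 0) - z p b) * pp x b =
                (c p : ℝ) * (val p.1.2 * pp x p.1.1 - ∑ b', z p b' * pp x b') := by
              rw [mul_sub, Finset.mul_sum]
              have h6 : ∀ b : JJ 1 N, (c p : ℝ) * ((if p.1.1 = b then val p.1.2 else 0) - z p b) * pp x b =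
                  (if p.1.1 = b then (c p : ℝ) * (val p.1.2 * pp x b) else 0) - (c p : ℝ) * (z p b * pp x b) := by
                intro b
                split_ifs
                · ring
                · ring
              simp only [h6]
              rw [Finset.sum_sub_distrib, Finset.sum_ite_eq, if_pos (Finset.mem_univ _)]
            rw [h5, ← h4, Rat.smul_def]
            ring
        exact fun b => congrFun h2 b
      intro p hp
      by_cases hpm : wtx p.1.1 < m
      · exact ih p hpm
      · have hpm' : wtx p.1.1 = m := by omega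
        have h2 := h1 p.1.1
        -- only the elements with the same index contribute
        have h3 : ∀ q : Fi N F R, (c q : ℝ) * ((if q.1.1 = p.1.1 then val q.1.2 else 0) - z q p.1.1) =
            if q.1.1 = p.1.1 then (c q : ℝ) * val q.1.2 else 0 := by
          intro q
          by_cases hq : wtx q.1.1 < m
          · rw [ih q hq]
            split_ifs <;> simp
          · rw [hz0 q p.1.1 (by omega), sub_zero]
            split_ifs <;> simp
        simp only [h3] at h2
        have h4 := hli m
        rw [linearIndependent_iff'] at h4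
        -- the sum over the indices with first component `p.1.1`
        let e : {s : List ℕ // F s ∧ R m s.sum} → Fi N F R := fun s => ⟨(p.1.1, s.1), s.2.1, by rw [hpm']; exact s.2.2⟩
        have he : Function.Injective e := fun s t hst => Subtype.ext (congrArg (fun q : Fi N F R => q.1.2) hst)
        have hfin2 : Finite {s : List ℕ // F s ∧ R m s.sum} := Finite.of_injective e he
        have := Fintype.ofFinite {s : List ℕ // F s ∧ R m s.sum}
        have h5 : ∑ s : {s : List ℕ // F s ∧ R m s.sum}, c (e s) • val s.1 = 0 := by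
          refine Eq.trans ?_ h2
          refine Fintype.sum_of_injective e he _ _ (fun q hq => ?_) (fun s => ?_)
          · rw [if_neg]
            intro h6
            refine hq ⟨⟨q.1.2, q.2.1, ?_⟩, ?_⟩
            · rw [← hpm', ← h6]
              exact q.2.2
            · refine Subtype.ext ?_
              show (p.1.1, q.1.2) = q.1
              rw [← h6]
          · show _ = if p.1.1 = p.1.1 then _ else _
            rw [if_pos rfl, Rat.smul_def]
        have h6 := h4 Finset.univ (fun s => c (e s)) h5 ⟨p.1.2, p.2.1, by rw [← hpm']; exact p.2.2⟩ (Finset.mem_univ _)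
        exact h6
  exact fun p => key (wtx p.1.1 + 1) p (by omega)

end Pool.Agent.Q189.MV
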