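import Pool.Agent.Q189.MV.DSh
import Pool.Agent.Q189.MV.Hof

/-!
# The double shuffle relations and the dimensions at integers
-/

set_option autoImplicit false

open Filter Topology Module

namespace Pool.Agent.Q189.MV.DSh

open Pool.Agent.Y119.ML (adm adm_tail adm_none)
open Pool.Agent.H447R2.MZ (H Adm val Zs st)
open Pool.Agent.Q187.ZD.DS

lemma index_sum (w : List Bool) : ∀ c, w.getLast? = some true → (index c w).sum = c + w.length := by
  induction w with
  | nil => intro c h; simp at h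
  | cons b w ih =>
    intro c h
    cases b with
    | true =>
      rw [index, List.sum_cons]
      rcases w with _ | ⟨b', w⟩
      · simp [index]
      · rw [List.getLast?_cons_cons] at h
        rw [ih 0 h]
        simp only [List.length_cons]
        omega
    | false =>
      rw [index]
      rcases w with _ | ⟨b', w⟩
      · simp at h
      · rw [List.getLast?_cons_cons] at h
        rw [ih (c + 1) h]
        simp only [List.length_cons]
        omega

lemma word_inH0 {s : List ℕ} (hs : Adm s) : InH0 (word s) := by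
  rcases s with _ | ⟨a, s⟩
  · exact Or.inl rfl
  · have ha := hs.2 a s rfl
    have h1 : InH1 (word (a :: s)) := by
      rw [inH1_iff, bw_word]
      exact adm_wd _
    obtain ⟨c, rfl⟩ : ∃ c, a = c + 2 := ⟨a - 2, by omega⟩
    have h2 : word ((c + 2) :: s) = false :: (List.replicate c false ++ true :: word s) := by
      show List.replicate (c + 1) false ++ _ = _
      rw [List.replicate_succ]
      rfl
    rw [h2] at h1 ⊢
    rcases h1 with h1 | h1
    · simp at h1
    · exact Or.inr ⟨rfl, h1⟩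

/-- the values of the elements of weight `p` -/
theorem map_Z (p : ℕ) : (H0 p).map Z = Zs p := by
  refine le_antisymm ?_ ?_
  · rw [Submodule.map_le_iff_le_comap]
    unfold H0
    rw [Submodule.span_le]
    rintro _ ⟨w, hw, hp, rfl⟩
    rw [SetLike.mem_coe, Submodule.mem_comap]
    have h1 : Z (Finsupp.single w 1) = val (index 0 w) := by
      unfold Z
      rw [Finsupp.linearCombination_single, one_smul, mzv_eq (index_adm hw)]
    rw [h1]
    have h2 := Pool.Agent.H447R2.MZ.val_mem _ (index_adm hw)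
    have h3 : (index 0 w).sum = p := by
      rcases hw with rfl | ⟨_, h⟩
      · simpa [index] using hp
      · rw [index_sum w 0 h, zero_add, hp]
    rwa [h3] at h2
  · rw [Pool.Agent.H447R2.MZ.Zs_eq, Submodule.span_le]
    rintro _ ⟨s, hs, hp, rfl⟩
    have h0 := word_inH0 hs
    refine ⟨Finsupp.single (word s) 1, Submodule.subset_span ⟨word s, h0, ?_, rfl⟩, ?_⟩
    · rw [← bw_len, bw_word, len_wd s hs.1, hp]
    · rw [Z_word h0, bw_word, LV_eq hs]

/-- the number of formal multiple zeta values of weight `p`: the dimension of the space of words modulo the double shuffle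
elements -/
noncomputable def formal (p : ℕ) : ℕ := finrank ℚ ((H0 p).map (RDS p).mkQ)

theorem finrank_le_formal (p : ℕ) : finrank ℚ (Zs p) ≤ formal p ∧ (finrank ℚ (Zs p) = formal p ↔ Linear p) := by
  have hfd := finite_H0 p
  set M := (H0 p).map (RDS p).mkQ with hM
  have hfdM : FiniteDimensional ℚ M := by rw [hM]; infer_instance
  have hle : RDS p ≤ LinearMap.ker Z := fun f hf => LinearMap.mem_ker.2 (Z_RDS hf)
  set φ : M →ₗ[ℚ] ℝ := ((RDS p).liftQ Z hle).comp M.subtype with hφ
  have hrange : LinearMap.range φ = Zs p := by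
    rw [← map_Z p]
    ext y
    constructor
    · rintro ⟨⟨m, hm⟩, rfl⟩
      obtain ⟨f, hf, rfl⟩ := hm
      exact ⟨f, hf, rfl⟩
    · rintro ⟨f, hf, rfl⟩
      exact ⟨⟨(RDS p).mkQ f, ⟨f, hf, rfl⟩⟩, rfl⟩
  have h1 := LinearMap.finrank_range_add_finrank_ker φ
  rw [hrange] at h1
  refine ⟨?_, ?_⟩
  · show _ ≤ finrank ℚ M
    omega
  · have h2 : finrank ℚ (Zs p) = formal p ↔ LinearMap.ker φ = ⊥ := by
      show finrank ℚ (Zs p) = finrank ℚ M ↔ _
      constructor
      · intro h
        exact Submodule.finrank_eq_zero.1 (by omega)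
      · intro h
        rw [h, finrank_bot] at h1
        omega
    rw [h2, LinearMap.ker_eq_bot']
    constructor
    · intro h f hf h0
      have h3 := h ⟨(RDS p).mkQ f, ⟨f, hf, rfl⟩⟩ h0
      have h4 : (RDS p).mkQ f = 0 := congrArg Subtype.val h3
      rwa [Submodule.mkQ_apply, Submodule.Quotient.mk_eq_zero] at h4
    · rintro h ⟨m, hm⟩ h0
      obtain ⟨f, hf, rfl⟩ := hm
      have h3 := h f hf h0
      refine Subtype.ext ?_
      show (RDS p).mkQ f = 0
      rw [Submodule.mkQ_apply, Submodule.Quotient.mk_eq_zero]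
      exact h3

/-- the number of independent relations of weight `p` which do not follow -/
noncomputable def missing (p : ℕ) : ℕ := formal p - finrank ℚ (Zs p)

lemma missing_add (p : ℕ) : missing p + finrank ℚ (Zs p) = formal p := by
  have := (finrank_le_formal p).1
  unfold missing
  omega

lemma missing_zero (p : ℕ) : missing p = 0 ↔ Linear p := by
  rw [← (finrank_le_formal p).2]
  have := (finrank_le_formal p).1
  unfold missing
  omega

/-- the number of the relations at integers which do not follow -/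
theorem few_rel (N : ℕ) : ∃ C c : ℝ, 0 < c ∧ ∀ T : ℕ, 1 ≤ T →
    (({n : ℕ | 3 ≤ n ∧ n ≤ T ∧ ¬ ∀ M ≤ N, finrank ℚ (Spc (1 / n) M) + ∑ k ∈ Finset.range (M + 1), 2 ^ k * missing (M - k) =
      ∑ k ∈ Finset.range (M + 1), 2 ^ k * formal (M - k)}.ncard : ℕ) : ℝ) ≤ C * (T : ℝ) ^ (1 - c) := by
  obtain ⟨C, c, hc, h⟩ := dims N
  refine ⟨C, c, hc, fun T hT => ?_⟩
  refine le_trans (Nat.cast_le.2 (Set.ncard_le_ncard ?_ ((Set.finite_le_nat T).subset fun n hn => hn.2.1))) (h T hT)
  rintro n ⟨h1, h2, h3⟩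
  refine ⟨h1, h2, fun h4 => h3 fun M hM => ?_⟩
  rw [h4 M hM, ← Finset.sum_add_distrib]
  refine Finset.sum_congr rfl fun k _ => ?_
  rw [← missing_add (M - k)]
  ring

theorem one_crit (N : ℕ) : (∀ p ≤ N, Linear p) ↔
    ∃ n : ℕ, 2 ≤ n ∧ finrank ℚ (Spc (1 / n) N) = ∑ k ∈ Finset.range (N + 1), 2 ^ k * formal (N - k) := by
  have h1 := dim_crit (d := formal) (fun k => (finrank_le_formal k).1) N
  have h2 : (∀ p ≤ N, Linear p) ↔ ∀ k ≤ N, finrank ℚ (Zs k) = formal k :=
    forall_congr' fun p => imp_congr_right fun _ => ((finrank_le_formal p).2).symm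
  rw [h2, h1]
  refine exists_congr fun n => and_congr_right fun hn => ?_
  obtain ⟨h3, h4⟩ := inv_pos_lt hn
  have h5 : finrank ℚ (Spc (1 / n) N) ≤ ∑ k ∈ Finset.range (N + 1), 2 ^ k * formal (N - k) := by
    rw [Spc_eq h3 h4]
    exact (finrank_VN_le h3 h4 N).trans (Finset.sum_le_sum fun k _ => Nat.mul_le_mul_left _ (finrank_le_formal _).1)
  constructor
  · exact fun h => le_antisymm h5 h
  · exact fun h => h.ge

lemma sum_shift (f : ℕ → ℕ) (p : ℕ) : ∑ k ∈ Finset.range (p + 1 + 1), 2 ^ k * f (p + 1 - k) =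
    f (p + 1) + 2 * ∑ k ∈ Finset.range (p + 1), 2 ^ k * f (p - k) := by
  rw [Finset.sum_range_succ', add_comm, pow_zero, one_mul, Nat.sub_zero, Finset.mul_sum]
  congr 1
  refine Finset.sum_congr rfl fun k _ => ?_
  rw [show p + 1 - (k + 1) = p - k by omega, pow_succ]
  ring

/-- one weight -/
theorem weight_crit (p : ℕ) : Linear (p + 1) ↔ ∃ C c : ℝ, 0 < c ∧ ∀ T : ℕ, 1 ≤ T →
    (({n : ℕ | 3 ≤ n ∧ n ≤ T ∧ ¬ finrank ℚ (Spc (1 / n) (p + 1)) = formal (p + 1) + 2 * finrank ℚ (Spc (1 / n) p)}.ncard : ℕ) : ℝ) ≤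
      C * (T : ℝ) ^ (1 - c) := by
  obtain ⟨C, c, hc, h⟩ := dims (p + 1)
  have key : ∀ n : ℕ, (∀ M ≤ p + 1, Module.finrank ℚ (Spc (1 / n) M) =
      ∑ k ∈ Finset.range (M + 1), 2 ^ k * Module.finrank ℚ (Zs (M - k))) →
      finrank ℚ (Spc (1 / n) (p + 1)) = finrank ℚ (Zs (p + 1)) + 2 * finrank ℚ (Spc (1 / n) p) := by
    intro n hn
    rw [hn (p + 1) le_rfl, hn p (by omega), sum_shift fun j => finrank ℚ (Zs j)]
  constructor
  · intro hl
    refine ⟨C, c, hc, fun T hT => ?_⟩
    refine le_trans (Nat.cast_le.2 (Set.ncard_le_ncard ?_ ((Set.finite_le_nat T).subset fun n hn => hn.2.1))) (h T hT)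
    rintro n ⟨h1, h2, h3⟩
    refine ⟨h1, h2, fun h4 => h3 ?_⟩
    rw [key n h4, ((finrank_le_formal (p + 1)).2).2 hl]
  · rintro ⟨C', c', hc', h'⟩
    obtain ⟨n, hn, h0⟩ := exists_of_few2 hc hc' h h'
    push Not at h0
    have h1 := key n h0.1
    rw [h0.2] at h1
    exact ((finrank_le_formal (p + 1)).2).1 (by omega)

end Pool.Agent.Q189.MV.DSh
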