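import Pool.Agent.Q189.MV.Reg

/-!
# Dimensions and directness
-/

set_option autoImplicit false

open PowerSeries Filter Topology

namespace Pool.Agent.Q189.MV

open Pool.Agent.Y119.ML (LL UU In geo adm adm_tail adm_none const_LL theta_LL theta_In const_In WI JJ S S_zero)
open Pool.Agent.Q189.Z3 (L α1 UU0 UU1 coeff_geo_mul B1L B1w summ S_Xmul hd0 hd1 const_lim S0 Snil)
open Pool.Agent.H447R2.MZ (H Adm val Zs)
open Pool.Agent.Q189.HL (sh sh_nil sh_cons_nil sh_cons length_sh adm_sh LL_mul)

/-! ### counting -/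

/-- the admissible words of a given length -/
def AW : ℕ → Finset (List (Option (Fin 1)))
  | 0 => {[]}
  | 1 => {[o1]}
  | j + 2 => (AW (j + 1)).image (fun w => none :: w) ∪ (AW (j + 1)).image (fun w => o1 :: w)

lemma mem_AW (j : ℕ) : ∀ w : List (Option (Fin 1)), w ∈ AW j ↔ adm w ∧ w.length = j := by
  induction j with
  | zero =>
    intro w
    show w ∈ ({[]} : Finset (List (Option (Fin 1)))) ↔ _
    rw [Finset.mem_singleton]
    constructor
    · rintro rfl
      exact ⟨adm_nil, rfl⟩
    · rintro ⟨_, h⟩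
      exact List.length_eq_zero_iff.1 h
  | succ j ih =>
    intro w
    rcases j with _ | j
    · show w ∈ ({[o1]} : Finset (List (Option (Fin 1)))) ↔ _
      rw [Finset.mem_singleton]
      constructor
      · rintro rfl
        exact ⟨adm_one adm_nil, rfl⟩
      · rintro ⟨h1, h2⟩
        obtain ⟨o, rfl⟩ := List.length_eq_one_iff.1 h2
        rcases o with _ | i
        · exact absurd rfl (adm_none h1)
        · have hi : i = 0 := Subsingleton.elim _ _
          rw [hi]
    · show w ∈ (AW (j + 1)).image (fun w => none :: w) ∪ (AW (j + 1)).image (fun w => o1 :: w) ↔ _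
      rw [Finset.mem_union, Finset.mem_image, Finset.mem_image]
      constructor
      · rintro (⟨v, hv, rfl⟩ | ⟨v, hv, rfl⟩)
        · obtain ⟨h1, h2⟩ := (ih v).1 hv
          refine ⟨Pool.Agent.Q189.HL.adm_cons h1 ?_, by rw [List.length_cons, h2]⟩
          rintro rfl
          simp at h2
        · obtain ⟨h1, h2⟩ := (ih v).1 hv
          exact ⟨adm_one h1, by rw [List.length_cons, h2]⟩
      · rintro ⟨h1, h2⟩
        rcases w with _ | ⟨o, v⟩
        · simp at h2
        · have h3 : v ∈ AW (j + 1) := (ih v).2 ⟨adm_tail h1, by simpa using h2⟩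
          rcases o with _ | i
          · exact Or.inl ⟨v, h3, rfl⟩
          · have hi : i = 0 := Subsingleton.elim _ _
            exact Or.inr ⟨v, h3, by rw [hi]⟩

lemma card_AW (j : ℕ) : (AW (j + 1)).card = 2 ^ j := by
  induction j with
  | zero => rfl
  | succ j ih =>
    show ((AW (j + 1)).image (fun w => none :: w) ∪ (AW (j + 1)).image (fun w => o1 :: w)).card = _
    rw [Finset.card_union_of_disjoint, Finset.card_image_of_injective _ (fun a b h => (List.cons.inj h).2),
      Finset.card_image_of_injective _ (fun a b h => (List.cons.inj h).2), ih, pow_succ]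
    · ring
    · rw [Finset.disjoint_left]
      intro w h1 h2
      rw [Finset.mem_image] at h1 h2
      obtain ⟨u, _, rfl⟩ := h1
      obtain ⟨v, _, hv⟩ := h2
      exact absurd (List.cons.inj hv).1 (by simp)

lemma sum_AW (k : ℕ) : ∑ i ∈ Finset.range (k + 1), (AW i).card = 2 ^ k := by
  induction k with
  | zero => rfl
  | succ k ih =>
    rw [Finset.sum_range_succ, ih, card_AW, pow_succ]
    ring

/-- the weight of an index -/
def wtx {N : ℕ} (b : JJ 1 N) : ℕ := b.1 + b.2.1.length

lemma card_wt {N k : ℕ} (hk : k ≤ N) : (Finset.univ.filter fun b : JJ 1 N => wtx b = k).card = 2 ^ k := by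
  classical
  rw [Finset.card_filter, Fintype.sum_prod_type]
  have h1 : ∀ a : Fin (N + 1), (∑ w : WI 1 N, if wtx ((a, w) : JJ 1 N) = k then 1 else 0) =
      if (a : ℕ) ≤ k then (AW (k - a)).card else 0 := by
    intro a
    rw [← Finset.card_filter]
    split_ifs with ha
    · refine Finset.card_bij (fun w _ => w.1) (fun w hw => ?_) (fun w _ w' _ h => Subtype.ext h) (fun w hw => ?_)
      · rw [Finset.mem_filter] at hw
        rw [mem_AW]
        refine ⟨w.2.2, ?_⟩
        have := hw.2
        unfold wtx at this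
        simp only at this
        omega
      · rw [mem_AW] at hw
        refine ⟨⟨w, by omega, hw.1⟩, ?_, rfl⟩
        rw [Finset.mem_filter]
        refine ⟨Finset.mem_univ _, ?_⟩
        unfold wtx
        simp only
        omega
    · rw [Finset.card_eq_zero, Finset.filter_eq_empty_iff]
      intro w _ h
      unfold wtx at h
      simp only at h
      omega
  simp only [h1]
  have h2 : (∑ a : Fin (N + 1), if (a : ℕ) ≤ k then (AW (k - a)).card else 0) =
      ∑ a ∈ Finset.range (N + 1), if a ≤ k then (AW (k - a)).card else 0 :=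
    (Finset.sum_range (fun a => if a ≤ k then (AW (k - a)).card else 0)).symm
  have h3 : (∑ a ∈ Finset.range (k + 1), if a ≤ k then (AW (k - a)).card else 0) =
      ∑ a ∈ Finset.range (N + 1), if a ≤ k then (AW (k - a)).card else 0 := by
    refine Finset.sum_subset (Finset.range_mono (show k + 1 ≤ N + 1 by omega)) fun a _ ha => ?_
    rw [Finset.mem_range] at ha
    rw [if_neg (by omega)]
  rw [h2, ← h3, ← sum_AW k, ← Finset.sum_range_reflect (fun i => (AW i).card)]
  refine Finset.sum_congr rfl fun a ha => ?_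
  rw [Finset.mem_range] at ha
  rw [if_pos (by omega)]
  congr 2

/-! ### finite dimension -/

lemma fin_index (N : ℕ) : {s : List ℕ | Adm s ∧ s.sum ≤ N}.Finite := by
  have h1 : {l : List (Fin (N + 1)) | l.length ≤ N}.Finite := List.finite_length_le _ _
  refine (h1.image (List.map Fin.val)).subset ?_
  rintro s ⟨hs, hN⟩
  have h2 : ∀ a ∈ s, a ≤ N := fun a ha => (List.single_le_sum (fun _ _ => Nat.zero_le _) a ha).trans hN
  have h3 : s.length ≤ N := by
    have h4 : s.length ≤ s.sum := by
      have h5 := List.length_le_sum_of_one_le s hs.1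
      exact h5
    omega
  refine ⟨s.pmap (fun a ha => (⟨a, ha⟩ : Fin (N + 1))) (fun a ha => Nat.lt_succ_of_le (h2 a ha)), ?_, ?_⟩
  · show (s.pmap _ _).length ≤ N
    rw [List.length_pmap]
    exact h3
  · rw [List.map_pmap]
    simp

/-- the span of the multiple zeta values of weight at most `N` -/
noncomputable def Tz (N : ℕ) : Submodule ℚ ℝ := (Finset.range (N + 1)).sup Zs

lemma Zs_le_Tz {k N : ℕ} (h : k ≤ N) : Zs k ≤ Tz N := Finset.le_sup (f := Zs) (Finset.mem_range.2 (by omega))

lemma Tz_mono {k N : ℕ} (h : k ≤ N) : Tz k ≤ Tz N := Finset.sup_mono (Finset.range_mono (by omega))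

lemma Tz_eq (N : ℕ) : Tz N = Submodule.span ℚ (val '' {s : List ℕ | Adm s ∧ s.sum ≤ N}) := by
  refine le_antisymm ?_ ?_
  · refine Finset.sup_le fun k hk => ?_
    rw [Pool.Agent.H447R2.MZ.Zs_eq, Submodule.span_le]
    rintro _ ⟨s, hs, hsk, rfl⟩
    exact Submodule.subset_span ⟨s, ⟨hs, by have := Finset.mem_range.1 hk; omega⟩, rfl⟩
  · rw [Submodule.span_le]
    rintro _ ⟨s, ⟨hs, hN⟩, rfl⟩
    exact Zs_le_Tz hN (Pool.Agent.H447R2.MZ.val_mem s hs)

lemma fd_Tz (N : ℕ) : FiniteDimensional ℚ (Tz N) := by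
  rw [Tz_eq]
  exact FiniteDimensional.span_of_finite ℚ ((fin_index N).image _)

lemma fd_Zs (N : ℕ) : FiniteDimensional ℚ (Zs N) := by
  have := fd_Tz N
  exact Submodule.finiteDimensional_of_le (Zs_le_Tz le_rfl)

/-! ### the spaces of combinations -/

/-- the products of powers of the logarithm and words -/
noncomputable def pp (x : ℝ) {N : ℕ} (b : JJ 1 N) : ℝ := Real.log x ^ (b.1 : ℕ) * V b.2.1 x

/-- independence of the products over the multiple zeta values of weight at most `N` -/
def Ind (x : ℝ) (N : ℕ) : Prop :=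
  ∀ z : JJ 1 N → ℝ, (∀ b, z b ∈ Tz N) → ∑ b, z b * pp x b = 0 → z = 0

/-- the combinations with coefficients in given spaces -/
noncomputable def Ph (x : ℝ) {N : ℕ} (F : JJ 1 N → Submodule ℚ ℝ) : (∀ b, F b) →ₗ[ℚ] ℝ :=
  ∑ b, (LinearMap.mulRight ℚ (pp x b)).comp ((F b).subtype.comp (LinearMap.proj b))

lemma Ph_apply (x : ℝ) {N : ℕ} (F : JJ 1 N → Submodule ℚ ℝ) (z : ∀ b, F b) : Ph x F z = ∑ b, (z b : ℝ) * pp x b := by
  unfold Ph
  rw [LinearMap.sum_apply]
  rfl

lemma mem_Ph {x : ℝ} {N : ℕ} {F : JJ 1 N → Submodule ℚ ℝ} {r : ℝ} :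
    r ∈ LinearMap.range (Ph x F) ↔ ∃ z : JJ 1 N → ℝ, (∀ b, z b ∈ F b) ∧ r = ∑ b, z b * pp x b := by
  constructor
  · rintro ⟨z, rfl⟩
    exact ⟨fun b => z b, fun b => (z b).2, Ph_apply x F z⟩
  · rintro ⟨z, hz, rfl⟩
    exact ⟨fun b => ⟨z b, hz b⟩, Ph_apply x F _⟩

theorem finrank_Ph {x : ℝ} {N : ℕ} (h : Ind x N) {F : JJ 1 N → Submodule ℚ ℝ} (hF : ∀ b, F b ≤ Tz N) :
    Module.finrank ℚ (LinearMap.range (Ph x F)) = ∑ b, Module.finrank ℚ (F b) := by
  have hfd : ∀ b, FiniteDimensional ℚ (F b) := fun b => by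
    have := fd_Tz N
    exact Submodule.finiteDimensional_of_le (hF b)
  rw [LinearMap.finrank_range_of_inj, Module.finrank_pi_fintype]
  rw [← LinearMap.ker_eq_bot, LinearMap.ker_eq_bot']
  intro z hz
  rw [Ph_apply] at hz
  have h1 := h (fun b => z b) (fun b => hF b (z b).2) hz
  funext b
  exact Subtype.ext (congrFun h1 b)

/-- the family of spaces belonging to a sequence of spaces -/
noncomputable def Fm {N : ℕ} (G : ℕ → Submodule ℚ ℝ) (M : ℕ) (b : JJ 1 N) : Submodule ℚ ℝ :=
  if wtx b ≤ M then G (M - wtx b) else ⊥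

lemma Fm_le {N : ℕ} {G : ℕ → Submodule ℚ ℝ} (hG : ∀ k, k ≤ N → G k ≤ Tz N) {M : ℕ} (hM : M ≤ N) (b : JJ 1 N) :
    Fm G M b ≤ Tz N := by
  unfold Fm
  split_ifs
  · exact hG _ (by omega)
  · exact bot_le

lemma sum_Fm {N : ℕ} (G : ℕ → Submodule ℚ ℝ) {M : ℕ} (hM : M ≤ N) :
    ∑ b : JJ 1 N, Module.finrank ℚ (Fm G M b) = ∑ k ∈ Finset.range (M + 1), 2 ^ k * Module.finrank ℚ (G (M - k)) := by
  classical
  have h1 : ∀ b : JJ 1 N, Module.finrank ℚ (Fm G M b) = if wtx b ≤ M then Module.finrank ℚ (G (M - wtx b)) else 0 := by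
    intro b
    by_cases hb : wtx b ≤ M
    · have h2 : Fm G M b = G (M - wtx b) := if_pos hb
      rw [h2, if_pos hb]
    · have h2 : Fm G M b = ⊥ := if_neg hb
      rw [h2, if_neg hb]
      exact finrank_bot ℚ ℝ
  simp only [h1]
  rw [← Finset.sum_filter]
  rw [← Finset.sum_fiberwise_of_maps_to (t := Finset.range (M + 1)) (g := fun b : JJ 1 N => wtx b)
    (fun b hb => by rw [Finset.mem_filter] at hb; rw [Finset.mem_range]; omega)]
  refine Finset.sum_congr rfl fun k hk => ?_
  have hk' := Finset.mem_range.1 hk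
  rw [Finset.sum_congr rfl (g := fun _ => Module.finrank ℚ (G (M - k))) (fun b hb => by
    rw [(Finset.mem_filter.1 hb).2])]
  rw [Finset.sum_const, smul_eq_mul, Finset.filter_filter, ← card_wt (N := N) (k := k) (by omega)]
  congr 2
  ext b
  simp only [Finset.mem_filter, Finset.mem_univ, true_and]
  omega

variable {x : ℝ}

theorem PZ_eq_range {N M : ℕ} (hM : M ≤ N) : PZ x M = LinearMap.range (Ph x (Fm (N := N) Zs M)) := by
  refine le_antisymm ?_ ?_
  · unfold PZ
    rw [Submodule.span_le]
    rintro _ ⟨k, a, z, w, hz, hw, hk, rfl⟩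
    rw [SetLike.mem_coe, mem_Ph]
    set b₀ : JJ 1 N := (⟨a, by omega⟩, ⟨w, by omega, hw⟩) with hb₀
    have hwt : wtx b₀ = a + w.length := rfl
    refine ⟨Pi.single b₀ z, fun b => ?_, ?_⟩
    · by_cases hb : b = b₀
      · subst hb
        rw [Pi.single_eq_same]
        unfold Fm
        rw [if_pos (by omega)]
        have h1 : M - wtx b₀ = k := by omega
        rw [h1]
        exact hz
      · rw [Pi.single_eq_of_ne hb]
        exact Submodule.zero_mem _
    · rw [Finset.sum_eq_single_of_mem b₀ (Finset.mem_univ _), Pi.single_eq_same]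
      · rfl
      · intro b _ hb
        rw [Pi.single_eq_of_ne hb, zero_mul]
  · intro r hr
    rw [mem_Ph] at hr
    obtain ⟨z, hz, rfl⟩ := hr
    refine Submodule.sum_mem _ fun b _ => ?_
    have h1 := hz b
    unfold Fm at h1
    split_ifs at h1 with h2
    · exact Submodule.subset_span ⟨M - wtx b, b.1, z b, b.2.1, h1, b.2.2.2, by unfold wtx at *; omega, rfl⟩
    · rw [Submodule.mem_bot] at h1
      rw [h1, zero_mul]
      exact Submodule.zero_mem _

/-- the dimension of the space of weight `M` -/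
theorem finrank_VN (hx : 0 < x) (hx1 : x < 1) {N : ℕ} (h : Ind x N) {M : ℕ} (hM : M ≤ N) :
    Module.finrank ℚ (VN x M) = ∑ k ∈ Finset.range (M + 1), 2 ^ k * Module.finrank ℚ (Zs (M - k)) := by
  rw [VN_eq hx hx1, PZ_eq_range hM, finrank_Ph h (Fm_le (fun k hk => Zs_le_Tz hk) hM), sum_Fm Zs hM]

/-- the space of all weights at most `M` -/
noncomputable def VT (x : ℝ) (M : ℕ) : Submodule ℚ ℝ := (Finset.range (M + 1)).sup (VN x)

theorem VT_eq_range (hx : 0 < x) (hx1 : x < 1) {N M : ℕ} (hM : M ≤ N) :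
    VT x M = LinearMap.range (Ph x (Fm (N := N) Tz M)) := by
  refine le_antisymm ?_ ?_
  · refine Finset.sup_le fun j hj => ?_
    have hj' : j ≤ M := by have := Finset.mem_range.1 hj; omega
    rw [VN_eq hx hx1, PZ_eq_range (hj'.trans hM)]
    intro r hr
    rw [mem_Ph] at hr ⊢
    obtain ⟨z, hz, rfl⟩ := hr
    refine ⟨z, fun b => ?_, rfl⟩
    have h1 := hz b
    unfold Fm at h1 ⊢
    split_ifs at h1 with h2
    · rw [if_pos (by omega)]
      exact Zs_le_Tz (by omega) h1
    · rw [Submodule.mem_bot] at h1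
      rw [h1]
      exact Submodule.zero_mem _
  · intro r hr
    rw [mem_Ph] at hr
    obtain ⟨z, hz, rfl⟩ := hr
    refine Submodule.sum_mem _ fun b _ => ?_
    have h1 := hz b
    unfold Fm at h1
    split_ifs at h1 with h2
    · have h3 : Tz (M - wtx b) ≤ (VT x M).comap (LinearMap.mulRight ℚ (pp x b)) := by
        refine Finset.sup_le fun j hj => ?_
        intro y hy
        rw [Submodule.mem_comap]
        show y * pp x b ∈ _
        have hj' := Finset.mem_range.1 hj
        have h4 : y * pp x b ∈ VN x (j + wtx b) := by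
          rw [VN_eq hx hx1]
          exact Submodule.subset_span ⟨j, b.1, y, b.2.1, hy, b.2.2.2, by unfold wtx; omega, rfl⟩
        exact Finset.le_sup (f := VN x) (Finset.mem_range.2 (by omega)) h4
      exact h3 h1
    · rw [Submodule.mem_bot] at h1
      rw [h1, zero_mul]
      exact Submodule.zero_mem _

/-- the dimension of the space of all weights at most `M` -/
theorem finrank_VT (hx : 0 < x) (hx1 : x < 1) {N : ℕ} (h : Ind x N) {M : ℕ} (hM : M ≤ N) :
    Module.finrank ℚ (VT x M) = ∑ k ∈ Finset.range (M + 1), 2 ^ k * Module.finrank ℚ (Tz (M - k)) := by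
  rw [VT_eq_range hx hx1 hM, finrank_Ph h (Fm_le (fun k hk => Tz_mono hk) hM), sum_Fm Tz hM]

/-! ### directness -/

/-- the sum of the spaces of index at most `p` is direct -/
def Dir (G : ℕ → Submodule ℚ ℝ) (p : ℕ) : Prop :=
  ∀ z : ℕ → ℝ, (∀ j ≤ p, z j ∈ G j) → ∑ j ∈ Finset.range (p + 1), z j = 0 → ∀ j ≤ p, z j = 0

lemma Dir.mono {G G' : ℕ → Submodule ℚ ℝ} {p : ℕ} (hG : ∀ j, G j ≤ G' j) (h : Dir G' p) : Dir G p :=
  fun z hz h0 => h z (fun j hj => hG j (hz j hj)) h0

theorem dir_VN (hx : 0 < x) (hx1 : x < 1) {p : ℕ} (h : Ind x p) (hZ : Dir Zs p) : Dir (VN x) p := by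
  intro v hv h0
  have h1 : ∀ j, ∃ z : JJ 1 p → ℝ, j ≤ p → (∀ b, z b ∈ Fm Zs j b) ∧ v j = ∑ b, z b * pp x b := by
    intro j
    by_cases hj : j ≤ p
    · have h2 := hv j hj
      rw [VN_eq hx hx1, PZ_eq_range hj, mem_Ph] at h2
      obtain ⟨z, hz⟩ := h2
      exact ⟨z, fun _ => hz⟩
    · exact ⟨0, fun h => absurd h hj⟩
  choose z hz using h1
  have h2 : (fun b => ∑ j ∈ Finset.range (p + 1), z j b) = 0 := by
    refine h _ (fun b => Submodule.sum_mem _ fun j hj => ?_) ?_
    · have hj' : j ≤ p := by have := Finset.mem_range.1 hj; omega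
      exact Fm_le (fun k hk => Zs_le_Tz hk) hj' b ((hz j hj').1 b)
    · rw [← h0]
      simp only [Finset.sum_mul]
      rw [Finset.sum_comm]
      refine Finset.sum_congr rfl fun j hj => ?_
      have hj' : j ≤ p := by have := Finset.mem_range.1 hj; omega
      exact (hz j hj').2.symm
  have h3 : ∀ b, ∀ j ≤ p, z j b = 0 := by
    intro b
    have h4 := congrFun h2 b
    simp only [Pi.zero_apply] at h4
    have h5 : ∀ j ≤ p, j < wtx b → z j b = 0 := by
      intro j hj hjw
      have h6 := (hz j hj).1 b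
      unfold Fm at h6
      rw [if_neg (by omega), Submodule.mem_bot] at h6
      exact h6
    by_cases hw : wtx b ≤ p
    · have h6 : ∑ i ∈ Finset.range (p + 1), (if i + wtx b ≤ p then z (i + wtx b) b else 0) = 0 := by
        refine Eq.trans ?_ h4
        rw [← Finset.sum_filter]
        rw [← Finset.sum_subset (Finset.filter_subset (fun j => wtx b ≤ j) (Finset.range (p + 1)))]
        · refine Finset.sum_bij (fun i _ => i + wtx b) (fun i hi => ?_) (fun i _ i' _ h => by omega) (fun j hj => ?_)
            (fun i _ => rfl)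
          · rw [Finset.mem_filter, Finset.mem_range] at hi ⊢
            omega
          · rw [Finset.mem_filter, Finset.mem_range] at hj
            refine ⟨j - wtx b, ?_, by omega⟩
            rw [Finset.mem_filter, Finset.mem_range]
            omega
        · intro j hj hj'
          rw [Finset.mem_range] at hj
          rw [Finset.mem_filter, not_and, Finset.mem_range] at hj'
          exact h5 j (by omega) (by have := hj' hj; omega)
      have h7 := hZ _ (fun i _ => ?_) h6
      · intro j hj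
        by_cases hjw : j < wtx b
        · exact h5 j hj hjw
        · have h8 := h7 (j - wtx b) (by omega)
          rw [if_pos (by omega)] at h8
          have h9 : j - wtx b + wtx b = j := by omega
          rw [h9] at h8
          exact h8
      · split_ifs with h8
        · have h9 := (hz _ h8).1 b
          unfold Fm at h9
          rw [if_pos (by omega)] at h9
          have h10 : i + wtx b - wtx b = i := by omega
          rw [h10] at h9
          exact h9
        · exact Submodule.zero_mem _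
    · intro j hj
      exact h5 j hj (by omega)
  intro j hj
  rw [(hz j hj).2]
  refine Finset.sum_eq_zero fun b _ => ?_
  rw [h3 b j hj, zero_mul]

end Pool.Agent.Q189.MV
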