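import Pool.Agent.Q189.MV.Dim

/-!
# The depth filtration
-/

set_option autoImplicit false

open PowerSeries Filter Topology

namespace Pool.Agent.Q189.MV

open Pool.Agent.Y119.ML (LL UU In geo adm adm_tail adm_none const_LL theta_LL theta_In const_In WI JJ S S_zero)
open Pool.Agent.Q189.Z3 (L α1 UU0 UU1 coeff_geo_mul B1L B1w summ S_Xmul hd0 hd1 const_lim S0 Snil)
open Pool.Agent.H447R2.MZ (H Adm val Zs st)
open Pool.Agent.Q189.HL (sh sh_nil sh_cons_nil sh_cons length_sh adm_sh LL_mul)

/-- the number of letters `1` -/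
def d1 (w : List (Option (Fin 1))) : ℕ := w.countP Option.isSome

/-- the number of letters `0` -/
def d0 (w : List (Option (Fin 1))) : ℕ := w.countP Option.isNone

@[simp] lemma d1_nil : d1 [] = 0 := rfl
@[simp] lemma d0_nil : d0 [] = 0 := rfl
@[simp] lemma d1_none (w : List (Option (Fin 1))) : d1 (none :: w) = d1 w := by simp [d1]
@[simp] lemma d1_some (i : Fin 1) (w : List (Option (Fin 1))) : d1 (some i :: w) = d1 w + 1 := by simp [d1]
@[simp] lemma d0_none (w : List (Option (Fin 1))) : d0 (none :: w) = d0 w + 1 := by simp [d0]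
@[simp] lemma d0_some (i : Fin 1) (w : List (Option (Fin 1))) : d0 (some i :: w) = d0 w := by simp [d0]

lemma d1_le (w : List (Option (Fin 1))) : d1 w ≤ w.length := List.countP_le_length
lemma d0_le (w : List (Option (Fin 1))) : d0 w ≤ w.length := List.countP_le_length

lemma cnt_sh {L : Type} (p : L → Bool) (n : ℕ) : ∀ u v : List L, u.length + v.length = n → ∀ w ∈ sh u v,
    w.countP p = u.countP p + v.countP p := by
  induction n with
  | zero =>
    intro u v h w hw
    have hu : u = [] := List.length_eq_zero_iff.1 (by omega)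
    have hv : v = [] := List.length_eq_zero_iff.1 (by omega)
    subst hu
    subst hv
    rw [sh_nil, List.mem_singleton] at hw
    rw [hw]; rfl
  | succ n ih =>
    intro u v h w hw
    rcases u with _ | ⟨a, u⟩
    · rw [sh_nil, List.mem_singleton] at hw
      rw [hw]
      simp
    · rcases v with _ | ⟨b, v⟩
      · rw [sh_cons_nil, List.mem_singleton] at hw
        rw [hw]
        simp
      · rw [sh_cons, List.mem_append, List.mem_map, List.mem_map] at hw
        simp only [List.length_cons] at h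
        rcases hw with ⟨w', hw', rfl⟩ | ⟨w', hw', rfl⟩
        · have h1 := ih u (b :: v) (by simp only [List.length_cons]; omega) w' hw'
          rw [List.countP_cons, List.countP_cons (l := u), h1]
          omega
        · have h1 := ih (a :: u) v (by simp only [List.length_cons]; omega) w' hw'
          rw [List.countP_cons, List.countP_cons (l := v), h1]
          omega

lemma d1_sh {u v w : List (Option (Fin 1))} (hw : w ∈ sh u v) : d1 w = d1 u + d1 v := cnt_sh _ _ u v rfl w hw
lemma d0_sh {u v w : List (Option (Fin 1))} (hw : w ∈ sh u v) : d0 w = d0 u + d0 v := cnt_sh _ _ u v rfl w hw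

lemma d0_rv (w : List (Option (Fin 1))) : ∀ ρ : List (Option (Fin 1)), d0 (rv ρ w) = d0 ρ + d1 w := by
  induction w with
  | nil => exact fun ρ => rfl
  | cons a w ih =>
    intro ρ
    show d0 (rv (sw a :: ρ) w) = _
    rw [ih]
    rcases a with _ | i
    · show d0 (some 0 :: ρ) + d1 w = _
      rw [d0_some, d1_none]
    · show d0 (none :: ρ) + d1 w = _
      rw [d0_none, d1_some]
      omega

lemma d1_rv (w : List (Option (Fin 1))) : ∀ ρ : List (Option (Fin 1)), d1 (rv ρ w) = d1 ρ + d0 w := by
  induction w with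
  | nil => exact fun ρ => rfl
  | cons a w ih =>
    intro ρ
    show d1 (rv (sw a :: ρ) w) = _
    rw [ih]
    rcases a with _ | i
    · show d1 (some 0 :: ρ) + d0 w = _
      rw [d1_some, d0_none]
      omega
    · show d1 (none :: ρ) + d0 w = _
      rw [d1_none, d0_some]

lemma d1_rep (a : ℕ) (w : List (Option (Fin 1))) : d1 (List.replicate a none ++ w) = d1 w := by
  induction a with
  | zero => rfl
  | succ a ih => rw [List.replicate_succ, List.cons_append, d1_none, ih]

lemma d0_rep (a : ℕ) (w : List (Option (Fin 1))) : d0 (List.replicate a o1 ++ w) = d0 w := by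
  induction a with
  | zero => rfl
  | succ a ih => rw [List.replicate_succ, List.cons_append, d0_some, ih]

lemma d1_wd (s : List ℕ) : d1 (wd s) = s.length := by
  induction s with
  | nil => rfl
  | cons a s ih => rw [wd_cons, d1_rep, d1_some, ih, List.length_cons]

/-! ### the filtered spaces -/

/-- the multiple zeta values of weight `k` and depth at most `j` -/
noncomputable def Zd (k j : ℕ) : Submodule ℚ ℝ := Submodule.span ℚ {r | ∃ s, Adm s ∧ s.sum = k ∧ s.length ≤ j ∧ r = val s}

/-- the products of the values at `1 - x` and at `x` of given weight and bounded depth -/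
noncomputable def VD (x : ℝ) (N r : ℕ) : Submodule ℚ ℝ :=
  Submodule.span ℚ {y | ∃ u v : List (Option (Fin 1)), adm u ∧ adm v ∧ u.length + v.length = N ∧ d0 u + d1 v ≤ r ∧
    y = V u (1 - x) * V v x}

/-- the products with powers of the logarithm -/
noncomputable def PD (x : ℝ) (N r : ℕ) : Submodule ℚ ℝ :=
  Submodule.span ℚ {y | ∃ (k j a : ℕ) (z : ℝ) (w : List (Option (Fin 1))), z ∈ Zd k j ∧ adm w ∧ k + a + w.length = N ∧
    j + d1 w ≤ r ∧ y = z * (Real.log x ^ a * V w x)}

lemma Zd_mono {k j j' : ℕ} (h : j ≤ j') : Zd k j ≤ Zd k j' := by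
  refine Submodule.span_mono ?_
  rintro _ ⟨s, h1, h2, h3, rfl⟩
  exact ⟨s, h1, h2, h3.trans h, rfl⟩

lemma VD_mono {x : ℝ} {N r r' : ℕ} (h : r ≤ r') : VD x N r ≤ VD x N r' := by
  refine Submodule.span_mono ?_
  rintro _ ⟨u, v, h1, h2, h3, h4, rfl⟩
  exact ⟨u, v, h1, h2, h3, h4.trans h, rfl⟩

lemma PD_mono {x : ℝ} {N r r' : ℕ} (h : r ≤ r') : PD x N r ≤ PD x N r' := by
  refine Submodule.span_mono ?_
  rintro _ ⟨k, j, a, z, w, h1, h2, h3, h4, rfl⟩
  exact ⟨k, j, a, z, w, h1, h2, h3, h4.trans h, rfl⟩

lemma Zd_le (k j : ℕ) : Zd k j ≤ Zs k := by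
  unfold Zd
  rw [Submodule.span_le]
  rintro _ ⟨s, hs, rfl, -, rfl⟩
  exact Pool.Agent.H447R2.MZ.val_mem s hs

lemma one_mem_Zd : (1 : ℝ) ∈ Zd 0 0 := by
  have hs : Adm [] := ⟨fun a ha => absurd ha (by simp), fun a t h => absurd h (by simp)⟩
  have h2 := Pool.Agent.H447R2.MZ.tendsto_H [] hs
  have h3 : Tendsto (H []) atTop (𝓝 1) := tendsto_const_nhds.congr fun N => (Pool.Agent.H447R2.MZ.H_nil N).symm
  exact Submodule.subset_span ⟨[], hs, rfl, le_rfl, (tendsto_nhds_unique h2 h3).symm⟩

lemma st_len (s t : List ℕ) : ∀ u ∈ st s t, u.length ≤ s.length + t.length := by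
  induction s, t using st.induct with
  | case1 t =>
    intro u hu
    simp [st] at hu
    simp [hu]
  | case2 s hs =>
    intro u hu
    simp [st] at hu
    simp [hu]
  | case3 a s b t ih1 ih2 ih3 =>
    intro u hu
    rw [st] at hu
    simp only [List.mem_append, List.mem_map] at hu
    rcases hu with (⟨v, hv, rfl⟩ | ⟨v, hv, rfl⟩) | ⟨v, hv, rfl⟩
    · have := ih1 v hv
      simp only [List.length_cons] at this ⊢
      omega
    · have := ih2 v hv
      simp only [List.length_cons] at this ⊢
      omega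
    · have := ih3 v hv
      simp only [List.length_cons] at this ⊢
      omega

lemma Zd_mul {k j k' j' : ℕ} {a b : ℝ} (ha : a ∈ Zd k j) (hb : b ∈ Zd k' j') : a * b ∈ Zd (k + k') (j + j') := by
  refine span_mul ?_ ha hb
  rintro _ ⟨s, hs, hk, hj, rfl⟩ _ ⟨t, ht, hk', hj', rfl⟩
  rw [Pool.Agent.H447R2.MZ.val_mul s t hs ht]
  refine list_mem _ _ fun u hu => ?_
  refine Submodule.subset_span ⟨u, Pool.Agent.H447R2.MZ.st_adm s t hs ht u hu, ?_, ?_, rfl⟩
  · rw [Pool.Agent.H447R2.MZ.st_sum s t u hu, hk, hk']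
  · have := st_len s t u hu
    omega

variable {x : ℝ}

lemma VD_mul (hx : 0 < x) (hx1 : x < 1) {i j r r' : ℕ} {a b : ℝ} (ha : a ∈ VD x i r) (hb : b ∈ VD x j r') :
    a * b ∈ VD x (i + j) (r + r') := by
  have h1 : |x| < 1 := by rw [abs_of_pos hx]; exact hx1
  have h2 : |1 - x| < 1 := by rw [abs_of_pos (by linarith)]; linarith
  refine span_mul ?_ ha hb
  rintro _ ⟨u, v, hu, hv, huv, hr, rfl⟩ _ ⟨u', v', hu', hv', huv', hr', rfl⟩
  have h3 : V u (1 - x) * V v x * (V u' (1 - x) * V v' x) = (V u (1 - x) * V u' (1 - x)) * (V v x * V v' x) := by ring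
  rw [h3, V_mul hu hu' h2, V_mul hv hv' h1, ← List.sum_map_mul_left]
  refine list_mem _ _ fun w hw => ?_
  rw [← List.sum_map_mul_right]
  refine list_mem _ _ fun w' hw' => ?_
  refine Submodule.subset_span ⟨w', w, adm_sh _ u u' rfl hu hu' w' hw', adm_sh _ v v' rfl hv hv' w hw, ?_, ?_, rfl⟩
  · rw [length_sh _ u u' rfl w' hw', length_sh _ v v' rfl w hw]
    omega
  · rw [d0_sh hw', d1_sh hw]
    omega

lemma PD_mul (hx : 0 < x) (hx1 : x < 1) {i j r r' : ℕ} {a b : ℝ} (ha : a ∈ PD x i r) (hb : b ∈ PD x j r') :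
    a * b ∈ PD x (i + j) (r + r') := by
  have h1 : |x| < 1 := by rw [abs_of_pos hx]; exact hx1
  refine span_mul ?_ ha hb
  rintro _ ⟨k, l, a, z, w, hz, hw, hk, hr, rfl⟩ _ ⟨k', l', a', z', w', hz', hw', hk', hr', rfl⟩
  have h3 : z * (Real.log x ^ a * V w x) * (z' * (Real.log x ^ a' * V w' x)) =
      z * z' * Real.log x ^ (a + a') * (V w x * V w' x) := by
    rw [pow_add]
    ring
  rw [h3, V_mul hw hw' h1, ← List.sum_map_mul_left]
  refine list_mem _ _ fun v hv => ?_
  refine Submodule.subset_span ⟨k + k', l + l', a + a', z * z', v, Zd_mul hz hz', adm_sh _ w w' rfl hw hw' v hv, ?_, ?_,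
    by ring⟩
  · rw [length_sh _ w w' rfl v hv]
    omega
  · rw [d1_sh hv]
    omega

lemma V_mem_VD {w : List (Option (Fin 1))} (hw : adm w) : V w x ∈ VD x w.length (d1 w) :=
  Submodule.subset_span ⟨[], w, adm_nil, hw, by simp, by simp, by rw [V_nil, one_mul]⟩

lemma log_mem_VD (hx : 0 < x) (hx1 : x < 1) (a : ℕ) : Real.log x ^ a ∈ VD x a 0 := by
  induction a with
  | zero =>
    rw [pow_zero]
    exact Submodule.subset_span ⟨[], [], adm_nil, adm_nil, rfl, by simp, by rw [V_nil, V_nil, one_mul]⟩
  | succ a ih =>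
    rw [pow_succ]
    refine VD_mul (r := 0) (r' := 0) hx hx1 ih ?_
    have h1 : Real.log x = -(V [o1] (1 - x) * V [] x) := by rw [V_one hx hx1, V_nil]; ring
    rw [h1]
    exact Submodule.neg_mem _ (Submodule.subset_span ⟨[o1], [], adm_one adm_nil, adm_nil, rfl, by simp, rfl⟩)

/-- the factors exchanged -/
lemma pc_mem_VD (w : List (Option (Fin 1))) : ∀ ρ : List (Option (Fin 1)), OK ρ w →
    pc ρ w (1 - x) ∈ VD x (ρ.length + w.length) (d1 ρ + d0 w) := by
  induction w with
  | nil =>
    intro ρ h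
    refine Submodule.subset_span ⟨[], ρ, adm_nil, h.1, by simp, by simp, ?_⟩
    show V ρ (1 - (1 - x)) = _
    rw [V_nil, one_mul, sub_sub_cancel]
  | cons a w ih =>
    intro ρ h
    show V ρ (1 - (1 - x)) * V (a :: w) (1 - x) + pc (sw a :: ρ) w (1 - x) ∈ _
    refine Submodule.add_mem _ (Submodule.subset_span ⟨a :: w, ρ, h.2.1, h.1, by simp; omega, by omega, by
      rw [sub_sub_cancel, mul_comm]⟩) ?_
    have h1 := ih _ h.step
    have h2 : d1 (sw a :: ρ) + d0 w = d1 ρ + d0 (a :: w) := by
      rcases a with _ | i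
      · show d1 (some 0 :: ρ) + d0 w = _
        rw [d1_some, d0_none]
        omega
      · show d1 (none :: ρ) + d0 w = _
        rw [d1_none, d0_some]
    rw [h2, List.length_cons] at h1
    rw [List.length_cons]
    have h3 : ρ.length + (w.length + 1) = ρ.length + 1 + w.length := by omega
    rw [h3]
    exact h1

theorem Zd_le_VD (hx : 0 < x) (hx1 : x < 1) (k j : ℕ) : Zd k j ≤ VD x k j := by
  unfold Zd
  rw [Submodule.span_le]
  rintro _ ⟨s, hs, hsk, hj, rfl⟩
  rcases s with _ | ⟨a, s⟩
  · rw [← hsk]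
    have h1 : val [] = 1 := by
      have h2 := Pool.Agent.H447R2.MZ.tendsto_H [] hs
      have h3 : Tendsto (H []) atTop (𝓝 1) := tendsto_const_nhds.congr fun N => (Pool.Agent.H447R2.MZ.H_nil N).symm
      exact tendsto_nhds_unique h2 h3
    rw [h1]
    exact VD_mono (Nat.zero_le _) (log_mem_VD hx hx1 0)
  · have ha := hs.2 a s rfl
    have h1 : wd (a :: s) = none :: (List.replicate (a - 2) none ++ some 0 :: wd s) := by
      rw [wd_cons]
      obtain ⟨c, rfl⟩ : ∃ c, a = c + 2 := ⟨a - 2, by omega⟩
      show List.replicate (c + 1) none ++ _ = none :: (List.replicate c none ++ _)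
      rw [List.replicate_succ, List.cons_append]
    have h2 : adm (none :: (List.replicate (a - 2) none ++ some 0 :: wd s)) := by
      rw [← h1]
      exact adm_wd _
    obtain ⟨w, hw, hok⟩ := exists_dual h2
    rw [← h1] at hw
    have h3 := pc_mem_VD (x := x) w [] hok
    rw [pc_eq hok hs hw (by linarith) (by linarith)] at h3
    have h4 : ([] : List (Option (Fin 1))).length + w.length = k := by
      rw [← rv_len, hw, len_wd _ hs.1, hsk]
    have h5 : d1 ([] : List (Option (Fin 1))) + d0 w = (a :: s).length := by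
      rw [← d1_rv, hw, d1_wd]
    rw [h4, h5] at h3
    exact VD_mono hj h3

theorem PD_le_VD (hx : 0 < x) (hx1 : x < 1) (N r : ℕ) : PD x N r ≤ VD x N r := by
  unfold PD
  rw [Submodule.span_le]
  rintro _ ⟨k, j, a, z, w, hz, hw, hk, hr, rfl⟩
  have h1 := VD_mul hx hx1 (Zd_le_VD hx hx1 k j hz) (VD_mul hx hx1 (log_mem_VD hx hx1 a) (V_mem_VD (x := x) hw))
  rw [← add_assoc, hk, zero_add] at h1
  exact VD_mono hr h1

/-! ### duality -/

lemma pc_sum (w : List (Option (Fin 1))) : ∀ (ρ : List (Option (Fin 1))) (y : ℝ),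
    pc ρ w y = ∑ i ∈ Finset.range (w.length + 1), V (rv ρ (w.take i)) (1 - y) * V (w.drop i) y := by
  induction w with
  | nil =>
    intro ρ y
    show V ρ (1 - y) = ∑ i ∈ Finset.range 1, V (rv ρ (([] : List (Option (Fin 1))).take i)) (1 - y) * V (([] : List (Option (Fin 1))).drop i) y
    rw [Finset.sum_range_one, List.drop_zero, V_nil, mul_one]
    rfl
  | cons a w ih =>
    intro ρ y
    rw [List.length_cons, Finset.sum_range_succ']
    show V ρ (1 - y) * V (a :: w) y + pc (sw a :: ρ) w y = _
    rw [ih, add_comm]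
    rfl

lemma pc_dual (w : List (Option (Fin 1))) (y : ℝ) : pc [] w y = pc [] (rv [] w) (1 - y) := by
  have e1 : ∀ v : List (Option (Fin 1)), rv [] v = (v.map sw).reverse := fun v => by rw [rv_eq, List.append_nil]
  rw [pc_sum, pc_sum, ← Finset.sum_range_reflect]
  have hl : (rv [] w).length = w.length := by rw [rv_len]; simp
  rw [hl]
  refine Finset.sum_congr rfl fun i hi => ?_
  have hi' : i ≤ w.length := by have := Finset.mem_range.1 hi; omega
  have h0 : w.length + 1 - 1 - i = w.length - i := by omega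
  rw [h0, sub_sub_cancel, mul_comm]
  congr 1
  · congr 1
    rw [e1, e1, List.take_reverse, List.map_reverse, List.reverse_reverse, List.length_map, ← List.map_drop, List.map_map]
    have h1 : (sw ∘ sw) = (id : Option (Fin 1) → Option (Fin 1)) := by
      funext o
      exact sw_sw o
    rw [h1, List.map_id]
  · congr 1
    rw [e1, e1, List.drop_reverse, List.length_map, List.map_take]

/-- duality: the multiple zeta value of a word is a multiple zeta value of the dual depth -/
lemma dual_mem {w' : List (Option (Fin 1))} (hw : adm (none :: w')) {s : List ℕ} (hs : Adm s) (hsw : wd s = none :: w') :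
    val s ∈ Zd (none :: w').length (d0 (none :: w')) := by
  obtain ⟨d, hd, hok⟩ := exists_dual hw
  have h3 := pc_eq (x := 1 / 2) hok hs (hd.trans hsw.symm) (by norm_num) (by norm_num)
  have hd' : d = rv [] (none :: w') := by
    rw [← hd, rv_eq, rv_eq, List.append_nil, List.append_nil, List.map_reverse, List.reverse_reverse, List.map_map]
    conv_lhs => rw [← List.map_id d]
    refine List.map_congr_left fun o _ => ?_
    exact (sw_sw o).symm
  -- the dual word begins with `0`
  obtain ⟨d₂, hd₂⟩ : ∃ d₂, d = none :: d₂ := by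
    rcases d with _ | ⟨o, d₂⟩
    · simp [rv] at hd
    · rcases o with _ | i
      · exact ⟨d₂, rfl⟩
      · exact absurd rfl (hok.2.2 rfl i)
  have hadm : adm (none :: d₂) := by rw [← hd₂]; exact hok.2.1
  obtain ⟨t, ht, htw⟩ := exists_index' hadm
  have hok2 : OK [] (none :: w') := ⟨adm_nil, hw, fun _ i => by simp⟩
  have h4 := pc_eq (x := 1 - 1 / 2) hok2 ht (by rw [← hd', hd₂, htw]) (by norm_num) (by norm_num)
  rw [pc_dual, hd, h4] at h3
  rw [← h3]
  refine Submodule.subset_span ⟨t, ht, ?_, ?_, rfl⟩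
  · rw [← len_wd t ht.1, htw, ← hd₂, hd', rv_len]
    simp
  · rw [← d1_wd, htw, ← hd₂, hd', d1_rv]
    simp

/-! ### the values at `1 - x` -/

/-- refined form of `AZ` -/
noncomputable def AZd (y : ℝ) (N e : ℕ) : Submodule ℚ ℝ :=
  Submodule.span ℚ {r | ∃ (b : ℕ) (w : List (Option (Fin 1))), adm w ∧ (w = [] ∨ ∃ w', w = none :: w') ∧ b + w.length = N ∧
    d0 w = e ∧ r = V [o1] y ^ b * V w y}

lemma AZd_mul {y : ℝ} {N e : ℕ} {r : ℝ} (hr : r ∈ AZd y N e) : V [o1] y * r ∈ AZd y (N + 1) e := by
  unfold AZd at hr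
  induction hr using Submodule.span_induction with
  | mem r hr =>
    obtain ⟨b, w, hw, hw', hN, he, rfl⟩ := hr
    exact Submodule.subset_span ⟨b + 1, w, hw, hw', by omega, he, by ring⟩
  | zero => rw [mul_zero]; exact Submodule.zero_mem _
  | add r s _ _ hr hs => rw [mul_add]; exact Submodule.add_mem _ hr hs
  | smul c r _ hr =>
    rw [mul_smul_comm]
    exact Submodule.smul_mem _ _ hr

theorem regd {y : ℝ} (hy : |y| < 1) (a : ℕ) : ∀ w₀ : List (Option (Fin 1)), adm w₀ → (w₀ = [] ∨ ∃ w', w₀ = none :: w') →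
    V (List.replicate a o1 ++ w₀) y ∈ AZd y (a + w₀.length) (d0 w₀) := by
  induction a with
  | zero =>
    intro w₀ h1 h2
    refine Submodule.subset_span ⟨0, w₀, h1, h2, rfl, rfl, ?_⟩
    rw [pow_zero, one_mul]
    rfl
  | succ a ih =>
    intro w₀ h1 h2
    have h3 := V_mul (u := [o1]) (v := List.replicate a o1 ++ w₀) (adm_one adm_nil) (adm_rep a h1) hy
    rw [sh_one (fun w => V w y) a w₀] at h3
    have h4 := AZd_mul (ih w₀ h1 h2)
    have h5 : a + 1 + w₀.length = a + w₀.length + 1 := by omega
    rw [h5]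
    have ha : ((a : ℝ) + 1) ≠ 0 := by positivity
    rcases h2 with rfl | ⟨w', rfl⟩
    · rw [sh_cons_nil] at h3
      simp only [List.map_cons, List.map_nil, List.sum_cons, List.sum_nil, add_zero] at h3
      have h6 : List.replicate a o1 ++ [o1] = List.replicate (a + 1) o1 ++ [] := by
        rw [List.append_nil, ← List.replicate_succ']
      rw [h6] at h3
      have h7 : V (List.replicate (a + 1) o1 ++ []) y = ((1 / ((a : ℚ) + 1)) : ℚ) • (V [o1] y * V (List.replicate a o1 ++ []) y) := by
        rw [h3, Rat.smul_def]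
        push_cast
        field_simp
      rw [h7]
      exact Submodule.smul_mem _ _ h4
    · rw [sh_cons, sh_nil, List.map_append, List.sum_append, List.map_map, List.map_map] at h3
      simp only [List.map_cons, List.map_nil, List.sum_cons, List.sum_nil, add_zero, Function.comp] at h3
      have h6 : List.replicate a o1 ++ o1 :: none :: w' = List.replicate (a + 1) o1 ++ none :: w' := by
        rw [List.replicate_succ', List.append_assoc]
        rfl
      rw [h6, show ((fun w => V (List.replicate a o1 ++ w) y) ∘ fun w => none :: w) =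
        fun w => V (List.replicate a o1 ++ none :: w) y from rfl] at h3
      have h8 : ((sh [o1] w').map fun w => V (List.replicate a o1 ++ none :: w) y).sum ∈
          AZd y (a + (none :: w').length + 1) (d0 (none :: w')) := by
        refine list_mem _ _ fun w hw => ?_
        have hl := length_sh _ [o1] w' rfl w hw
        have h9 := ih (none :: w) (Pool.Agent.Q189.HL.adm_cons (adm_sh _ [o1] w' rfl (adm_one adm_nil) (adm_tail h1) w hw)
          (by intro h0; rw [h0] at hl; simp only [List.length_cons, List.length_nil] at hl; omega)) (Or.inr ⟨w, rfl⟩)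
        have h10 : a + (none :: w').length + 1 = a + (none :: w).length := by
          simp only [List.length_cons, List.length_nil] at hl ⊢
          omega
        have h11 : d0 (none :: w') = d0 (none :: w) := by
          rw [d0_none, d0_none, d0_sh hw]
          simp [d0]
        rw [h10, h11]
        exact h9
      have h7 : V (List.replicate (a + 1) o1 ++ none :: w') y = ((1 / ((a : ℚ) + 1)) : ℚ) • (V [o1] y *
          V (List.replicate a o1 ++ none :: w') y - ((sh [o1] w').map fun w => V (List.replicate a o1 ++ none :: w) y).sum) := by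
        rw [h3, Rat.smul_def]
        push_cast
        field_simp
        ring
      rw [h7]
      exact Submodule.smul_mem _ _ (Submodule.sub_mem _ h4 h8)

lemma V_mem_PD {w : List (Option (Fin 1))} (hw : adm w) : V w x ∈ PD x w.length (d1 w) :=
  Submodule.subset_span ⟨0, 0, 0, 1, w, one_mem_Zd, hw, by omega, by omega, by rw [pow_zero, one_mul, one_mul]⟩

lemma z_mem_PD {k j : ℕ} {z : ℝ} (hz : z ∈ Zd k j) : z ∈ PD x k j :=
  Submodule.subset_span ⟨k, j, 0, z, [], hz, adm_nil, rfl, by simp, by rw [V_nil, pow_zero, one_mul, mul_one]⟩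

lemma log_mem_PD : Real.log x ∈ PD x 1 0 :=
  Submodule.subset_span ⟨0, 0, 1, 1, [], one_mem_Zd, adm_nil, rfl, by simp, by rw [V_nil, pow_one, one_mul, mul_one]⟩

lemma pow_mem_PD (hx : 0 < x) (hx1 : x < 1) {r : ℝ} (hr : r ∈ PD x 1 0) (b : ℕ) : r ^ b ∈ PD x b 0 := by
  induction b with
  | zero =>
    rw [pow_zero]
    exact z_mem_PD one_mem_Zd
  | succ b ih =>
    rw [pow_succ]
    exact PD_mul (r := 0) (r' := 0) hx hx1 ih hr

lemma pc_diffd (hx : 0 < x) (hx1 : x < 1) (n e : ℕ)
    (hyp : ∀ ρ : List (Option (Fin 1)), adm ρ → ρ.length < n → V ρ (1 - x) ∈ PD x ρ.length (d0 ρ))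
    (w : List (Option (Fin 1))) : ∀ ρ : List (Option (Fin 1)), OK ρ w → ρ.length + w.length = n → d0 ρ + d1 w = e →
      pc ρ w x - V (rv ρ w) (1 - x) ∈ PD x n e := by
  induction w with
  | nil =>
    intro ρ _ _ _
    show V ρ (1 - x) - V ρ (1 - x) ∈ _
    rw [sub_self]
    exact Submodule.zero_mem _
  | cons a w ih =>
    intro ρ h hn he
    rw [List.length_cons] at hn
    show V ρ (1 - x) * V (a :: w) x + pc (sw a :: ρ) w x - V (rv (sw a :: ρ) w) (1 - x) ∈ _
    rw [add_sub_assoc]
    have h3 : d0 (sw a :: ρ) + d1 w = d0 ρ + d1 (a :: w) := by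
      rcases a with _ | i
      · show d0 (some 0 :: ρ) + d1 w = _
        rw [d0_some, d1_none]
      · show d0 (none :: ρ) + d1 w = _
        rw [d0_none, d1_some]
        omega
    refine Submodule.add_mem _ ?_ (ih _ h.step (by rw [List.length_cons]; omega) (h3.trans he))
    have h1 := PD_mul hx hx1 (hyp ρ h.1 (by omega)) (V_mem_PD (x := x) h.2.1)
    rw [List.length_cons, he] at h1
    have h2 : ρ.length + (w.length + 1) = n := by omega
    rw [h2] at h1
    exact h1

theorem V1_mem_PD (hx : 0 < x) (hx1 : x < 1) (n : ℕ) : ∀ u : List (Option (Fin 1)), adm u → u.length = n →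
    V u (1 - x) ∈ PD x n (d0 u) := by
  have h2 : |1 - x| < 1 := by rw [abs_of_pos (by linarith)]; linarith
  induction n using Nat.strong_induction_on with
  | _ n ih =>
    intro u hu hn
    have key : ∀ w : List (Option (Fin 1)), adm w → (w = [] ∨ ∃ w', w = none :: w') → w.length ≤ n →
        V w (1 - x) ∈ PD x w.length (d0 w) := by
      intro w hw hw' hwn
      rcases hw' with rfl | ⟨w', rfl⟩
      · rw [V_nil]
        exact z_mem_PD one_mem_Zd
      · obtain ⟨s, hs, hsw⟩ := exists_index' hw
        obtain ⟨d, hd, hok⟩ := exists_dual hw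
        have h3 := pc_eq hok hs (hd.trans hsw.symm) hx hx1
        have hl : ([] : List (Option (Fin 1))).length + d.length = (none :: w').length := by rw [← rv_len, hd]
        have he : d0 ([] : List (Option (Fin 1))) + d1 d = d0 (none :: w') := by rw [← d0_rv, hd]
        have h4 := pc_diffd hx hx1 (none :: w').length (d0 (none :: w')) (fun ρ hρ hlt => ih _ (lt_of_lt_of_le hlt hwn) ρ hρ rfl)
          d [] hok hl he
        rw [h3, hd] at h4
        have h5 : val s ∈ PD x (none :: w').length (d0 (none :: w')) := z_mem_PD (dual_mem hw hs hsw)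
        have h6 := Submodule.sub_mem _ h5 h4
        have h7 : val s - (val s - V (none :: w') (1 - x)) = V (none :: w') (1 - x) := by ring
        rw [h7] at h6
        exact h6
    obtain ⟨a, w₀, rfl, h3, h4⟩ := split_word u hu
    have h5 := regd h2 a w₀ h3 h4
    rw [List.length_append, List.length_replicate] at hn
    rw [hn] at h5
    rw [d0_rep]
    refine (show AZd (1 - x) n (d0 w₀) ≤ PD x n (d0 w₀) from ?_) h5
    unfold AZd
    rw [Submodule.span_le]
    rintro _ ⟨b, w, hw, hw', hb, he, rfl⟩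
    have h6 := key w hw hw' (by omega)
    have h7 : V [o1] (1 - x) ∈ PD x 1 0 := by
      rw [V_one hx hx1]
      exact Submodule.neg_mem _ log_mem_PD
    have h8 := PD_mul hx hx1 (pow_mem_PD hx hx1 h7 b) h6
    rw [hb, zero_add, he] at h8
    exact h8

theorem VD_eq (hx : 0 < x) (hx1 : x < 1) (N r : ℕ) : VD x N r = PD x N r := by
  refine le_antisymm ?_ (PD_le_VD hx hx1 N r)
  unfold VD
  rw [Submodule.span_le]
  rintro _ ⟨u, v, hu, hv, huv, hr, rfl⟩
  have h1 := PD_mul hx hx1 (V1_mem_PD hx hx1 _ u hu rfl) (V_mem_PD (x := x) hv)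
  rw [huv] at h1
  exact PD_mono hr h1

end Pool.Agent.Q189.MV
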