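import Pool.Agent.Q189.MV.Spec

/-!
# Products of two truncated numbers
-/

set_option autoImplicit false

open PowerSeries Filter Topology Module

namespace Pool.Agent.Q189.MV

/-- from `3` to `2` -/
lemma few_two {A : ℕ → Prop} (h : ∃ C c : ℝ, 0 < c ∧ ∀ T : ℕ, 1 ≤ T →
    (({n : ℕ | 3 ≤ n ∧ n ≤ T ∧ A n}.ncard : ℕ) : ℝ) ≤ C * (T : ℝ) ^ (1 - c)) : ∃ C c : ℝ, 0 < c ∧ ∀ T : ℕ, 1 ≤ T →
    (({n : ℕ | 2 ≤ n ∧ n ≤ T ∧ A n}.ncard : ℕ) : ℝ) ≤ C * (T : ℝ) ^ (1 - c) := by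
  obtain ⟨C, c, hc, h⟩ := h
  refine ⟨|C| + 1, min c 1, lt_min hc one_pos, fun T hT => ?_⟩
  have hT1 : (1 : ℝ) ≤ T := by exact_mod_cast hT
  have h1 : {n : ℕ | 2 ≤ n ∧ n ≤ T ∧ A n} ⊆ {n : ℕ | 3 ≤ n ∧ n ≤ T ∧ A n} ∪ {2} := by
    rintro n ⟨h2, h3, h4⟩
    rcases Nat.eq_or_lt_of_le h2 with rfl | h5
    · exact Or.inr rfl
    · exact Or.inl ⟨h5, h3, h4⟩
  have h2 := (Set.ncard_le_ncard h1 (((Set.finite_le_nat T).subset fun n hn => hn.2.1).union (Set.finite_singleton 2))).trans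
    (Set.ncard_union_le _ _)
  rw [Set.ncard_singleton] at h2
  have h3 : (T : ℝ) ^ (1 - c) ≤ (T : ℝ) ^ (1 - min c 1) :=
    Real.rpow_le_rpow_of_exponent_le hT1 (by linarith [min_le_left c 1])
  have h4 : (1 : ℝ) ≤ (T : ℝ) ^ (1 - min c 1) := Real.one_le_rpow hT1 (by linarith [min_le_right c 1])
  have h5 : (0 : ℝ) ≤ (T : ℝ) ^ (1 - c) := by positivity
  calc (({n : ℕ | 2 ≤ n ∧ n ≤ T ∧ A n}.ncard : ℕ) : ℝ) ≤ (({n : ℕ | 3 ≤ n ∧ n ≤ T ∧ A n}.ncard : ℕ) : ℝ) + 1 := by exact_mod_cast h2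
    _ ≤ C * (T : ℝ) ^ (1 - c) + 1 := by linarith [h T hT]
    _ ≤ |C| * (T : ℝ) ^ (1 - min c 1) + (T : ℝ) ^ (1 - min c 1) :=
        add_le_add ((mul_le_mul_of_nonneg_right (le_abs_self C) h5).trans (mul_le_mul_of_nonneg_left h3 (abs_nonneg _))) h4
    _ = _ := by ring

/-- the span of the products of two numbers -/
noncomputable def P2 (N n : ℕ) : Submodule ℚ ℝ := Submodule.span ℚ {r | ∃ o o' : Option (Fin N), r = vv N n o * vv N n o'}

lemma P2_poly {N n : ℕ} {r : ℝ} (hr : r ∈ P2 N n) : ∃ (c : Option (Fin N) × Option (Fin N) → ℚ),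
    r = ∑ p, (c p : ℝ) * (vv N n p.1 * vv N n p.2) := by
  classical
  have h1 : {r | ∃ o o' : Option (Fin N), r = vv N n o * vv N n o'} =
      Set.range fun p : Option (Fin N) × Option (Fin N) => vv N n p.1 * vv N n p.2 := by
    ext r
    constructor
    · rintro ⟨o, o', rfl⟩
      exact ⟨(o, o'), rfl⟩
    · rintro ⟨p, rfl⟩
      exact ⟨p.1, p.2, rfl⟩
  unfold P2 at hr
  rw [h1, Submodule.mem_span_range_iff_exists_fun] at hr
  obtain ⟨c, rfl⟩ := hr
  exact ⟨c, Finset.sum_congr rfl fun p _ => by rw [Rat.smul_def]⟩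

/-- a number which is not a rational multiple of the square of the zeta value -/
theorem few_P2 {N : ℕ} (hN : 2 ≤ N) {z : ℝ} (hz : ∀ r : ℚ, z ≠ r * ze N ^ 2) : ∃ C c : ℝ, 0 < c ∧ ∀ T : ℕ, 1 ≤ T →
    (({n : ℕ | 2 ≤ n ∧ n ≤ T ∧ z ∈ P2 N n}.ncard : ℕ) : ℝ) ≤ C * (T : ℝ) ^ (1 - c) := by
  classical
  have hK : (Submodule.span ℚ ({1, (z : ℂ)} : Set ℂ)).FG := Submodule.fg_span (by simp)
  refine few_two ?_
  obtain ⟨C, c, hc, h⟩ := few_spec hN 2 hK
  refine ⟨C, c, hc, fun T hT => ?_⟩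
  refine le_trans (Nat.cast_le.2 (Set.ncard_le_ncard ?_ ((Set.finite_le_nat T).subset fun n hn => hn.2.1))) (h T hT)
  rintro n ⟨h1, h2, h3⟩
  refine ⟨h1, h2, fun h4 => ?_⟩
  obtain ⟨a, ha⟩ := P2_poly h3
  set P : MvPolynomial (Option (Fin N)) ℂ :=
    MvPolynomial.C (z : ℂ) - ∑ p : Option (Fin N) × Option (Fin N), MvPolynomial.C ((a p : ℚ) : ℂ) *
      (MvPolynomial.X p.1 * MvPolynomial.X p.2) with hP
  have hone : (1 : ℂ) ∈ Submodule.span ℚ ({1, (z : ℂ)} : Set ℂ) := Submodule.subset_span (by simp)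
  have hzm : (z : ℂ) ∈ Submodule.span ℚ ({1, (z : ℂ)} : Set ℂ) := Submodule.subset_span (by simp)
  have h5 := h4 P ?_ ?_ ?_
  · rw [hP, map_sub, MvPolynomial.eval_C, map_sum] at h5
    simp only [map_mul, MvPolynomial.eval_C, MvPolynomial.eval_X] at h5
    rw [Finset.sum_eq_single_of_mem ((none, none) : Option (Fin N) × Option (Fin N)) (Finset.mem_univ _)] at h5
    · refine hz (a (none, none)) ?_
      have h6 : ((z : ℝ) : ℂ) - ((((a (none, none) : ℚ) : ℝ) * ze N ^ 2 : ℝ) : ℂ) = 0 := by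
        rw [← h5]
        show _ = ((z : ℝ) : ℂ) - ((a (none, none) : ℚ) : ℂ) * (((ze N : ℝ) : ℂ) * ((ze N : ℝ) : ℂ))
        push_cast
        ring
      rw [← Complex.ofReal_sub] at h6
      have h7 := Complex.ofReal_eq_zero.1 h6
      linarith
    · rintro ⟨o, o'⟩ _ hne
      have h6 : v0 N o * v0 N o' = 0 := by
        rcases o with _ | i
        · rcases o' with _ | i
          · exact absurd rfl hne
          · exact mul_zero _
        · exact zero_mul _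
      show ((a (o, o') : ℚ) : ℂ) * (((v0 N o : ℝ) : ℂ) * ((v0 N o' : ℝ) : ℂ)) = 0
      rw [← Complex.ofReal_mul, h6, Complex.ofReal_zero, mul_zero]
  · rw [hP]
    refine (MvPolynomial.totalDegree_sub _ _).trans (max_le (by rw [MvPolynomial.totalDegree_C]; omega) ?_)
    refine MvPolynomial.totalDegree_finsetSum_le fun p _ => ?_
    refine (MvPolynomial.totalDegree_mul _ _).trans ?_
    rw [MvPolynomial.totalDegree_C, zero_add]
    refine (MvPolynomial.totalDegree_mul _ _).trans ?_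
    rw [MvPolynomial.totalDegree_X, MvPolynomial.totalDegree_X]
  · intro e
    rw [hP, MvPolynomial.coeff_sub, MvPolynomial.coeff_C, MvPolynomial.coeff_sum]
    refine Submodule.sub_mem _ ?_ (Submodule.sum_mem _ fun p _ => ?_)
    · split_ifs
      · exact hzm
      · exact Submodule.zero_mem _
    · rw [MvPolynomial.coeff_C_mul]
      have h6 : ∃ q : ℚ, MvPolynomial.coeff e ((MvPolynomial.X p.1 * MvPolynomial.X p.2 : MvPolynomial (Option (Fin N)) ℂ)) = (q : ℂ) := by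
        refine ⟨MvPolynomial.coeff e ((MvPolynomial.X p.1 * MvPolynomial.X p.2 : MvPolynomial (Option (Fin N)) ℚ)), ?_⟩
        have h7 : (MvPolynomial.X p.1 * MvPolynomial.X p.2 : MvPolynomial (Option (Fin N)) ℂ) =
            MvPolynomial.map (algebraMap ℚ ℂ) (MvPolynomial.X p.1 * MvPolynomial.X p.2) := by
          rw [map_mul, MvPolynomial.map_X, MvPolynomial.map_X]
        rw [h7, MvPolynomial.coeff_map]
        rfl
      obtain ⟨q, hq⟩ := h6
      rw [hq]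
      have h8 : ((a p : ℚ) : ℂ) * (q : ℂ) = (a p * q) • (1 : ℂ) := by
        rw [Rat.smul_def]
        push_cast
        ring
      rw [h8]
      exact Submodule.smul_mem _ _ hone
  · rw [hP, map_sub, MvPolynomial.eval_C, map_sum]
    simp only [map_mul, MvPolynomial.eval_C, MvPolynomial.eval_X]
    rw [ha]
    push_cast
    rw [sub_eq_zero]

/-- rational multiples of the square are in the span -/
lemma mem_P2 {N n : ℕ} (hN : 2 ≤ N) (hn : 2 ≤ n) {z : ℝ} {r : ℚ} (hz : z = r * ze N ^ 2) : z ∈ P2 N n := by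
  classical
  set a : Option (Fin N) → ℚ := fun o => match o with
    | none => 1
    | some i => 1 / ((i : ℕ).factorial : ℚ) with ha
  have h1 : ze N = ∑ o, (a o : ℝ) * vv N n o := by
    rw [Fintype.sum_option]
    show ze N = ((1 : ℚ) : ℝ) * Inn N (1 / n) + ∑ i : Fin N, ((1 / ((i : ℕ).factorial : ℚ) : ℚ) : ℝ) * qq n N i
    rw [Inn_qq hn hN, Finset.sum_range]
    push_cast
    ring
  rw [hz, sq, h1, Finset.sum_mul_sum, Finset.mul_sum]
  refine Submodule.sum_mem _ fun o _ => ?_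
  rw [Finset.mul_sum]
  refine Submodule.sum_mem _ fun o' _ => ?_
  have h2 : (r : ℝ) * ((a o : ℝ) * vv N n o * ((a o' : ℝ) * vv N n o')) = (r * a o * a o') • (vv N n o * vv N n o') := by
    rw [Rat.smul_def]
    push_cast
    ring
  rw [h2]
  exact Submodule.smul_mem _ _ (Submodule.subset_span ⟨o, o', rfl⟩)

end Pool.Agent.Q189.MV
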