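import Pool.Agent.Q189.MV.Dp
import Pool.Agent.Q189.MV.Quad

/-!
# The dimensions of the filtered spaces
-/

set_option autoImplicit false

open PowerSeries Filter Topology Module

namespace Pool.Agent.Q189.MV

open Pool.Agent.Y119.ML (adm adm_tail adm_none WI JJ)
open Pool.Agent.H447R2.MZ (H Adm val Zs)

/-! ### counting -/

lemma card_image_cons (S : Finset (List (Option (Fin 1)))) (o : Option (Fin 1)) (j : ℕ) :
    ((S.image fun w => o :: w).filter fun w => d1 w = j).card = (S.filter fun w => d1 (o :: w) = j).card := by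
  rw [Finset.filter_image, Finset.card_image_of_injective _ (fun a b h => (List.cons.inj h).2)]

lemma card_AW0 (l : ℕ) : ((AW (l + 1)).filter fun w => d1 w = 0).card = 0 := by
  rw [Finset.card_eq_zero, Finset.filter_eq_empty_iff]
  intro w hw h0
  obtain ⟨hw1, hw2⟩ := (mem_AW _ _).1 hw
  clear hw
  induction w generalizing l with
  | nil => simp at hw2
  | cons o w ihw =>
    rcases o with _ | i
    · rw [d1_none] at h0
      rcases w with _ | ⟨o', w⟩
      · exact absurd rfl (adm_none hw1)
      · exact ihw (l - 1) h0 (adm_tail hw1) (by simp only [List.length_cons] at hw2 ⊢; omega)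
    · rw [d1_some] at h0
      omega

lemma card_AWj (l : ℕ) : ∀ j, ((AW (l + 1)).filter fun w => d1 w = j + 1).card = l.choose j := by
  induction l with
  | zero =>
    intro j
    show (({[o1]} : Finset (List (Option (Fin 1)))).filter fun w => d1 w = j + 1).card = _
    rcases j with _ | j
    · rfl
    · rw [Nat.choose_zero_succ, Finset.card_eq_zero, Finset.filter_eq_empty_iff]
      intro w hw
      rw [Finset.mem_singleton] at hw
      rw [hw]
      simp
  | succ l ih =>
    intro j
    show (((AW (l + 1)).image (fun w => none :: w) ∪ (AW (l + 1)).image (fun w => o1 :: w)).filter fun w => d1 w = j + 1).card = _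
    rw [Finset.filter_union, Finset.card_union_of_disjoint, card_image_cons, card_image_cons]
    · simp only [d1_none, d1_some, Nat.add_right_cancel_iff]
      rw [ih]
      rcases j with _ | j
      · rw [card_AW0]
        simp
      · rw [ih, Nat.choose_succ_succ' l j, add_comm]
    · refine Finset.disjoint_filter_filter ?_
      rw [Finset.disjoint_left]
      intro w h1 h2
      rw [Finset.mem_image] at h1 h2
      obtain ⟨u, _, rfl⟩ := h1
      obtain ⟨v, _, hv⟩ := h2
      exact absurd (List.cons.inj hv).1 (by simp)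

lemma sum_AWj (k j : ℕ) : ∑ i ∈ Finset.range (k + 1), ((AW i).filter fun w => d1 w = j).card = k.choose j := by
  induction k with
  | zero =>
    rw [zero_add, Finset.sum_range_one]
    show (({[]} : Finset (List (Option (Fin 1)))).filter fun w => d1 w = j).card = _
    rcases j with _ | j
    · rfl
    · rw [Nat.choose_zero_succ, Finset.card_eq_zero, Finset.filter_eq_empty_iff]
      intro w hw
      rw [Finset.mem_singleton] at hw
      rw [hw]
      simp
  | succ k ih =>
    rw [Finset.sum_range_succ, ih]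
    rcases j with _ | j
    · rw [card_AW0]
      simp
    · rw [card_AWj, Nat.choose_succ_succ, add_comm]

lemma card_wtd {N k j : ℕ} (hk : k ≤ N) :
    (Finset.univ.filter fun b : JJ 1 N => wtx b = k ∧ d1 b.2.1 = j).card = k.choose j := by
  classical
  rw [Finset.card_filter, Fintype.sum_prod_type]
  have h1 : ∀ a : Fin (N + 1), (∑ w : WI 1 N, if wtx ((a, w) : JJ 1 N) = k ∧ d1 ((a, w) : JJ 1 N).2.1 = j then 1 else 0) =
      if (a : ℕ) ≤ k then ((AW (k - a)).filter fun w => d1 w = j).card else 0 := by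
    intro a
    rw [← Finset.card_filter]
    split_ifs with ha
    · refine Finset.card_bij (fun w _ => w.1) (fun w hw => ?_) (fun w _ w' _ h => Subtype.ext h) (fun w hw => ?_)
      · rw [Finset.mem_filter] at hw
        rw [Finset.mem_filter, mem_AW]
        obtain ⟨-, h2, h3⟩ := hw
        unfold wtx at h2
        simp only at h2
        exact ⟨⟨w.2.2, by omega⟩, h3⟩
      · rw [Finset.mem_filter, mem_AW] at hw
        obtain ⟨⟨h2, h3⟩, h4⟩ := hw
        refine ⟨⟨w, by omega, h2⟩, ?_, rfl⟩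
        rw [Finset.mem_filter]
        refine ⟨Finset.mem_univ _, ?_, h4⟩
        unfold wtx
        simp only
        omega
    · rw [Finset.card_eq_zero, Finset.filter_eq_empty_iff]
      rintro w _ ⟨h, -⟩
      unfold wtx at h
      simp only at h
      omega
  simp only [h1]
  have h2 : (∑ a : Fin (N + 1), if (a : ℕ) ≤ k then ((AW (k - a)).filter fun w => d1 w = j).card else 0) =
      ∑ a ∈ Finset.range (N + 1), if a ≤ k then ((AW (k - a)).filter fun w => d1 w = j).card else 0 :=
    (Finset.sum_range (fun a => if a ≤ k then ((AW (k - a)).filter fun w => d1 w = j).card else 0)).symm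
  have h3 : (∑ a ∈ Finset.range (k + 1), if a ≤ k then ((AW (k - a)).filter fun w => d1 w = j).card else 0) =
      ∑ a ∈ Finset.range (N + 1), if a ≤ k then ((AW (k - a)).filter fun w => d1 w = j).card else 0 := by
    refine Finset.sum_subset (Finset.range_mono (show k + 1 ≤ N + 1 by omega)) fun a _ ha => ?_
    rw [Finset.mem_range] at ha
    rw [if_neg (by omega)]
  rw [h2, ← h3, ← sum_AWj k j, ← Finset.sum_range_reflect (fun i => ((AW i).filter fun w => d1 w = j).card)]
  refine Finset.sum_congr rfl fun a ha => ?_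
  rw [Finset.mem_range] at ha
  rw [if_pos (by omega)]
  congr 3

/-! ### the dimensions -/

/-- the family of spaces belonging to a double sequence of spaces -/
noncomputable def Fd {N : ℕ} (G : ℕ → ℕ → Submodule ℚ ℝ) (M r : ℕ) (b : JJ 1 N) : Submodule ℚ ℝ :=
  if wtx b ≤ M ∧ d1 b.2.1 ≤ r then G (M - wtx b) (r - d1 b.2.1) else ⊥

/-- the sum of the numbers belonging to a double sequence -/
def cvs (f : ℕ → ℕ → ℕ) (M r : ℕ) : ℕ := ∑ k ∈ Finset.range (M + 1), ∑ j ∈ Finset.range (r + 1), k.choose j * f (M - k) (r - j)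

lemma sum_Fd {N : ℕ} (G : ℕ → ℕ → Submodule ℚ ℝ) {M : ℕ} (r : ℕ) (hM : M ≤ N) :
    ∑ b : JJ 1 N, finrank ℚ (Fd G M r b) = cvs (fun k j => finrank ℚ (G k j)) M r := by
  classical
  have h1 : ∀ b : JJ 1 N, finrank ℚ (Fd G M r b) =
      if wtx b ≤ M ∧ d1 b.2.1 ≤ r then finrank ℚ (G (M - wtx b) (r - d1 b.2.1)) else 0 := by
    intro b
    by_cases hb : wtx b ≤ M ∧ d1 b.2.1 ≤ r
    · have h2 : Fd G M r b = G (M - wtx b) (r - d1 b.2.1) := if_pos hb
      rw [h2, if_pos hb]
    · have h2 : Fd G M r b = ⊥ := if_neg hb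
      rw [h2, if_neg hb]
      exact finrank_bot ℚ ℝ
  simp only [h1]
  rw [← Finset.sum_filter]
  rw [← Finset.sum_fiberwise_of_maps_to (t := Finset.range (M + 1) ×ˢ Finset.range (r + 1))
    (g := fun b : JJ 1 N => (wtx b, d1 b.2.1))
    (fun b hb => by rw [Finset.mem_filter] at hb; rw [Finset.mem_product, Finset.mem_range, Finset.mem_range]; omega)]
  rw [Finset.sum_product]
  unfold cvs
  refine Finset.sum_congr rfl fun k hk => Finset.sum_congr rfl fun j hj => ?_
  have hk' := Finset.mem_range.1 hk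
  have hj' := Finset.mem_range.1 hj
  rw [Finset.sum_congr rfl (g := fun _ => finrank ℚ (G (M - k) (r - j))) (fun b hb => by
    have h2 := (Finset.mem_filter.1 hb).2
    rw [Prod.mk.injEq] at h2
    rw [h2.1, h2.2])]
  rw [Finset.sum_const, smul_eq_mul, Finset.filter_filter, ← card_wtd (N := N) (k := k) (j := j) (by omega)]
  congr 2
  ext b
  simp only [Finset.mem_filter, Finset.mem_univ, true_and, Prod.mk.injEq]
  omega

lemma Fd_le {N : ℕ} {M : ℕ} (r : ℕ) (hM : M ≤ N) (b : JJ 1 N) : Fd Zd M r b ≤ Tz N := by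
  unfold Fd
  split_ifs
  · exact (Zd_le _ _).trans (Zs_le_Tz (by omega))
  · exact bot_le

theorem PD_eq_range {x : ℝ} {N M : ℕ} (r : ℕ) (hM : M ≤ N) : PD x M r = LinearMap.range (Ph x (Fd (N := N) Zd M r)) := by
  refine le_antisymm ?_ ?_
  · unfold PD
    rw [Submodule.span_le]
    rintro _ ⟨k, j, a, z, w, hz, hw, hk, hr, rfl⟩
    rw [SetLike.mem_coe, mem_Ph]
    set b₀ : JJ 1 N := (⟨a, by omega⟩, ⟨w, by omega, hw⟩) with hb₀
    have hwt : wtx b₀ = a + w.length := rfl
    have hd : d1 b₀.2.1 = d1 w := rfl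
    refine ⟨Pi.single b₀ z, fun b => ?_, ?_⟩
    · by_cases hb : b = b₀
      · subst hb
        rw [Pi.single_eq_same]
        unfold Fd
        rw [if_pos (by omega)]
        have h1 : M - wtx b₀ = k := by omega
        rw [h1, hd]
        exact Zd_mono (by omega) hz
      · rw [Pi.single_eq_of_ne hb]
        exact Submodule.zero_mem _
    · rw [Finset.sum_eq_single_of_mem b₀ (Finset.mem_univ _), Pi.single_eq_same]
      · rfl
      · intro b _ hb
        rw [Pi.single_eq_of_ne hb, zero_mul]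
  · intro y hy
    rw [mem_Ph] at hy
    obtain ⟨z, hz, rfl⟩ := hy
    refine Submodule.sum_mem _ fun b _ => ?_
    have h1 := hz b
    unfold Fd at h1
    split_ifs at h1 with h2
    · exact Submodule.subset_span ⟨M - wtx b, r - d1 b.2.1, b.1, z b, b.2.1, h1, b.2.2.2, by unfold wtx at *; omega, by omega, rfl⟩
    · rw [Submodule.mem_bot] at h1
      rw [h1, zero_mul]
      exact Submodule.zero_mem _

lemma fd_Zd (k j : ℕ) : FiniteDimensional ℚ (Zd k j) := by
  have := fd_Zs k
  exact Submodule.finiteDimensional_of_le (Zd_le k j)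

lemma fd_VD (x : ℝ) (N r : ℕ) : FiniteDimensional ℚ (VD x N r) := by
  have h1 : {y : ℝ | ∃ u v : List (Option (Fin 1)), adm u ∧ adm v ∧ u.length + v.length = N ∧ d0 u + d1 v ≤ r ∧
      y = V u (1 - x) * V v x}.Finite := by
    have h2 : {l : List (Option (Fin 1)) | l.length ≤ N}.Finite := List.finite_length_le _ _
    refine ((h2.prod h2).image fun p => V p.1 (1 - x) * V p.2 x).subset ?_
    rintro _ ⟨u, v, -, -, h3, -, rfl⟩
    exact ⟨(u, v), ⟨show u.length ≤ N by omega, show v.length ≤ N by omega⟩, rfl⟩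
  exact FiniteDimensional.span_of_finite ℚ h1

/-- the dimension at a good point -/
theorem finrank_VD {x : ℝ} (hx : 0 < x) (hx1 : x < 1) {N : ℕ} (h : Ind x N) {M : ℕ} (hM : M ≤ N) (r : ℕ) :
    finrank ℚ (VD x M r) = cvs (fun k j => finrank ℚ (Zd k j)) M r := by
  rw [VD_eq hx hx1, PD_eq_range r hM, finrank_Ph h (Fd_le r hM), sum_Fd Zd r hM]

/-- the upper bound at all points -/
theorem finrank_VD_le {x : ℝ} (hx : 0 < x) (hx1 : x < 1) (M r : ℕ) :
    finrank ℚ (VD x M r) ≤ cvs (fun k j => finrank ℚ (Zd k j)) M r := by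
  rw [VD_eq hx hx1, PD_eq_range (N := M) r le_rfl, ← sum_Fd (N := M) Zd r le_rfl]
  have h0 := fd_Tz M
  have := fun b : JJ 1 M => Submodule.finiteDimensional_of_le (Fd_le r le_rfl b)
  rw [← finrank_pi_fintype]
  exact LinearMap.finrank_range_le _

/-- the dimensions at almost all integers -/
theorem dimsD (N : ℕ) : ∃ C c : ℝ, 0 < c ∧ ∀ T : ℕ, 1 ≤ T →
    (({n : ℕ | 2 ≤ n ∧ n ≤ T ∧ ¬ ∀ M ≤ N, ∀ r, finrank ℚ (VD (1 / n) M r) = cvs (fun k j => finrank ℚ (Zd k j)) M r}.ncard : ℕ) : ℝ) ≤
      C * (T : ℝ) ^ (1 - c) := by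
  refine few_two ?_
  obtain ⟨C, c, hc, h⟩ := few_bad N
  refine ⟨C, c, hc, fun T hT => ?_⟩
  refine le_trans (Nat.cast_le.2 (Set.ncard_le_ncard ?_ ((Set.finite_le_nat T).subset fun n hn => hn.2.1))) (h T hT)
  rintro n ⟨h1, h2, h3⟩
  refine ⟨h1, h2, fun h4 => h3 fun M hM r => ?_⟩
  obtain ⟨e1, e2⟩ := inv_pos_lt (n := n) (by omega)
  exact finrank_VD e1 e2 h4 hM r

/-- the convolution determines the sequence -/
lemma cs_inj {f g : ℕ → ℕ → ℕ} {N : ℕ} (h : ∀ M ≤ N, ∀ r, cvs f M r = cvs g M r) : ∀ M ≤ N, ∀ r, f M r = g M r := by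
  intro M
  induction M using Nat.strong_induction_on with
  | _ M ih =>
    intro hM r
    have h1 := h M hM r
    have h3 : ∀ f' : ℕ → ℕ → ℕ, cvs f' M r =
        ∑ k ∈ Finset.range M, ∑ j ∈ Finset.range (r + 1), (k + 1).choose j * f' (M - (k + 1)) (r - j) + f' M r := by
      intro f'
      unfold cvs
      rw [Finset.sum_range_succ' (fun k => ∑ j ∈ Finset.range (r + 1), k.choose j * f' (M - k) (r - j))]
      congr 1
      rw [Finset.sum_range_succ', Finset.sum_eq_zero]
      · simp
      · intro j _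
        rw [Nat.choose_zero_succ, zero_mul]
    have h2 : ∑ k ∈ Finset.range M, ∑ j ∈ Finset.range (r + 1), (k + 1).choose j * f (M - (k + 1)) (r - j) =
        ∑ k ∈ Finset.range M, ∑ j ∈ Finset.range (r + 1), (k + 1).choose j * g (M - (k + 1)) (r - j) := by
      refine Finset.sum_congr rfl fun k hk => Finset.sum_congr rfl fun j _ => ?_
      have hk' := Finset.mem_range.1 hk
      rw [ih (M - (k + 1)) (by omega) (by omega)]
    rw [h3, h3, h2] at h1
    omega

/-- the greatest dimension -/
theorem greatest (M r : ℕ) : IsGreatest {d : ℕ | ∃ n : ℕ, 2 ≤ n ∧ d = finrank ℚ (VD (1 / n) M r)}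
    (cvs (fun k j => finrank ℚ (Zd k j)) M r) := by
  constructor
  · obtain ⟨C, c, hc, h⟩ := dimsD M
    obtain ⟨n, hn, h1⟩ := exists_few hc h
    exact ⟨n, hn, (not_not.1 h1 M le_rfl r).symm⟩
  · rintro d ⟨n, hn, rfl⟩
    obtain ⟨e1, e2⟩ := inv_pos_lt hn
    exact finrank_VD_le e1 e2 M r

end Pool.Agent.Q189.MV
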