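import Pool.Agent.Q189.MV.Niel

/-!
# Linear forms in products at almost all integers
-/

set_option autoImplicit false

open PowerSeries Filter Topology

namespace Pool.Agent.Q189.MV

open Pool.Agent.Y119.ML (LL UU In geo adm adm_tail adm_none const_LL theta_LL theta_In const_In WI JJ S S_zero)
open Pool.Agent.Q189.Z3 (L α1 α1_inj α1_ne UU0 UU1 coeff_geo_mul B1L B1w summ S_Xmul hd0 hd1 const_lim S0 Snil sint_nat sint_card)
open Pool.Agent.H447R2.MZ (H Adm val Zs)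
open Pool.Agent.Q189.HL (JX GdL nn hl fam_hl size_hl conn_hl hgd)
open Pool.Agent.Y916.Al (evc)
open Pool.Agent.Y916.Sl Pool.Agent.Q189.MF Pool.Agent.Q246.NR Pool.Agent.Q246.NR2 Pool.Agent.Q246.LN

/-! ### integral combinations -/

/-- the integral combinations of given numbers with coefficients at most `H` -/
def Cf {ι : Type} [Fintype ι] (θ : ι → ℂ) (H : ℝ) : Set ℂ :=
  {r | ∃ a : ι → ℤ, (∀ l, |((a l : ℤ) : ℝ)| ≤ H) ∧ r = ∑ l, (a l : ℂ) * θ l}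

section
variable {ι : Type} [Fintype ι] {θ : ι → ℂ} {H H' : ℝ} {r s : ℂ}

lemma Cf.zero (hH : 0 ≤ H) : (0 : ℂ) ∈ Cf θ H := ⟨0, fun l => by simpa using hH, by simp⟩

lemma Cf.mono (h : r ∈ Cf θ H) (hH : H ≤ H') : r ∈ Cf θ H' := by
  obtain ⟨a, ha, h1⟩ := h
  exact ⟨a, fun l => (ha l).trans hH, h1⟩

lemma Cf.add (h : r ∈ Cf θ H) (h' : s ∈ Cf θ H') : r + s ∈ Cf θ (H + H') := by
  obtain ⟨a, ha, rfl⟩ := h
  obtain ⟨b, hb, rfl⟩ := h'
  refine ⟨a + b, fun l => ?_, ?_⟩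
  · rw [Pi.add_apply]
    push_cast
    exact (abs_add_le _ _).trans (add_le_add (ha l) (hb l))
  · rw [← Finset.sum_add_distrib]
    refine Finset.sum_congr rfl fun l _ => ?_
    rw [Pi.add_apply]
    push_cast
    ring

lemma Cf.int_mul (h : r ∈ Cf θ H) (m : ℤ) : (m : ℂ) * r ∈ Cf θ (|(m : ℝ)| * H) := by
  obtain ⟨a, ha, rfl⟩ := h
  refine ⟨fun l => m * a l, fun l => ?_, ?_⟩
  · push_cast
    rw [abs_mul]
    exact mul_le_mul_of_nonneg_left (ha l) (abs_nonneg _)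
  · rw [Finset.mul_sum]
    refine Finset.sum_congr rfl fun l _ => ?_
    push_cast
    ring

lemma Cf.sub (h : r ∈ Cf θ H) (h' : s ∈ Cf θ H') : r - s ∈ Cf θ (H + H') := by
  have h1 := Cf.int_mul h' (-1)
  push_cast at h1
  rw [abs_neg, abs_one, one_mul] at h1
  have h2 := Cf.add h h1
  have h3 : r + -1 * s = r - s := by ring
  rw [h3] at h2
  exact h2

lemma Cf.sum {β : Type} (S : Finset β) (f : β → ℂ) (h : ∀ b ∈ S, f b ∈ Cf θ H) : ∑ b ∈ S, f b ∈ Cf θ (S.card * H) := by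
  classical
  induction S using Finset.induction_on with
  | empty => simpa using Cf.zero (θ := θ) le_rfl
  | insert b S hb ih =>
    rw [Finset.sum_insert hb, Finset.card_insert_of_notMem hb]
    have h1 := Cf.add (h b (Finset.mem_insert_self _ _)) (ih fun b hb => h b (Finset.mem_insert_of_mem hb))
    have h2 : H + S.card * H = ((S.card + 1 : ℕ) : ℝ) * H := by push_cast; ring
    rw [h2] at h1
    exact h1

/-- the constants multiplied by given numbers -/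
lemma Cf.pair {κ : Type} [Fintype κ] [DecidableEq κ] (y : κ → ℂ) (o : κ) (h : r ∈ Cf θ H) (hH : 0 ≤ H) :
    y o * r ∈ Cf (fun p : κ × ι => y p.1 * θ p.2) H := by
  obtain ⟨a, ha, rfl⟩ := h
  refine ⟨fun p => if p.1 = o then a p.2 else 0, fun p => ?_, ?_⟩
  · show |((if p.1 = o then a p.2 else 0 : ℤ) : ℝ)| ≤ H
    by_cases hp : p.1 = o
    · rw [if_pos hp]
      exact ha _
    · rw [if_neg hp]
      simpa using hH
  · rw [Fintype.sum_prod_type, Finset.sum_eq_single_of_mem o (Finset.mem_univ _)]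
    · rw [Finset.mul_sum]
      refine Finset.sum_congr rfl fun l _ => ?_
      show y o * ((a l : ℂ) * θ l) = ((if o = o then a l else 0 : ℤ) : ℂ) * (y o * θ l)
      rw [if_pos rfl]
      ring
    · intro o' _ ho
      refine Finset.sum_eq_zero fun l _ => ?_
      show ((if o' = o then a l else 0 : ℤ) : ℂ) * (y o' * θ l) = 0
      rw [if_neg ho]
      simp

lemma Cf.reindex {κ : Type} [Fintype κ] (e : κ ≃ ι) (h : r ∈ Cf θ H) : r ∈ Cf (θ ∘ e) H := by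
  obtain ⟨a, ha, rfl⟩ := h
  exact ⟨a ∘ e, fun l => ha _, (Equiv.sum_comp e fun l => (a l : ℂ) * θ l).symm⟩

end

/-! ### forms -/

/-- small forms have small coefficients -/
def GF {G : ℕ} (W B : ℕ) (ζ : Fin G → ℂ) (n : ℕ) (H : ℝ) : Prop :=
  ∀ z : JJ 1 W → ℂ, (∀ b, z b ∈ Cf ζ H) → ∀ b₀, ‖z b₀‖ ≤
    H ^ B * ‖∑ b, z b * ((Real.log n ^ (b.1 : ℕ) * V b.2.1 (1 / n) : ℝ) : ℂ)‖

theorem GF_of {G W B : ℕ} {ζ : Fin G → ℂ} {n : ℕ} {H : ℝ} (hn : 2 ≤ n) (hnH : (n : ℝ) ≤ H)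
    (h : GdL (r := fun _ : Fin 1 => 1) (fun _ => α1) W 1 B ζ (fun _ => (n : ℂ)) H) : GF W B ζ n H := by
  classical
  intro z hz b₀
  have hn0 : (2 : ℝ) ≤ n := by exact_mod_cast hn
  choose a ha hza using hz
  set Pj : JJ 1 W → MvPolynomial (Fin G ⊕ Fin 1) ℤ := fun b =>
    ∑ i, MvPolynomial.monomial (Finsupp.single (Sum.inl i) 1) (a b i) with hPj
  have hmon : ∀ b, Pj b = ∑ i, MvPolynomial.C (a b i) * MvPolynomial.X (Sum.inl i) := fun b => by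
    refine Finset.sum_congr rfl fun i _ => ?_
    rw [MvPolynomial.C_mul_X_eq_monomial]
  have hPd : ∀ b, (Pj b).totalDegree ≤ 1 := fun b => by
    rw [hmon]
    exact MvPolynomial.totalDegree_finsetSum_le fun i _ => (MvPolynomial.totalDegree_mul _ _).trans (by
      rw [MvPolynomial.totalDegree_C, zero_add]
      exact Pool.Agent.Q189.JM.dX' _)
  have hH0 : 0 ≤ H := by linarith
  have hPH : ∀ b e, |(((Pj b).coeff e : ℤ) : ℝ)| ≤ H := by
    intro b e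
    rw [hPj]
    simp only [MvPolynomial.coeff_sum, MvPolynomial.coeff_monomial]
    by_cases hex : ∃ i : Fin G, Finsupp.single (Sum.inl i : Fin G ⊕ Fin 1) 1 = e
    · obtain ⟨i, hi⟩ := hex
      rw [Finset.sum_eq_single_of_mem i (Finset.mem_univ _), if_pos hi]
      · exact ha b i
      · intro i' _ hi'
        rw [if_neg]
        intro h'
        apply hi'
        rw [← hi] at h'
        exact Sum.inl_injective (Finsupp.single_left_injective one_ne_zero h')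
    · push Not at hex
      rw [Finset.sum_eq_zero fun i _ => if_neg (hex i)]
      simpa using hH0
  obtain ⟨-, g2⟩ := h (fun _ => ((Real.log n : ℝ) : ℂ)) (fun _ => by
    rw [← Complex.ofReal_exp, Real.exp_log (by linarith)]
    simp) (fun _ => by
    have h1 : 0 ≤ Real.log (n : ℝ) := Real.log_nonneg (by linarith)
    rw [Complex.norm_real, Real.norm_eq_abs, abs_of_nonneg h1]
    have h2 := Real.log_le_sub_one_of_pos (x := (n : ℝ)) (by linarith)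
    linarith)
  have hval : ∀ b : JJ 1 W, MvPolynomial.aeval (Sum.elim ζ fun _ : Fin 1 => (n : ℂ)) (Pj b) = z b := by
    intro b
    rw [hmon, map_sum, hza]
    refine Finset.sum_congr rfl fun i _ => ?_
    rw [map_mul, MvPolynomial.aeval_C, MvPolynomial.aeval_X]
    rfl
  have hsum : ∑ b : JX (fun _ : Fin 1 => 1) W, MvPolynomial.aeval (Sum.elim ζ fun _ : Fin 1 => (n : ℂ)) (Pj (b 0)) *
      ∏ j, ((((Real.log n : ℝ) : ℂ)) ^ ((b j).1 : ℕ) * evc (1 / (n : ℂ)) (LL α1 0 (b j).2.1)) =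
      ∑ b : JJ 1 W, z b * ((Real.log n ^ (b.1 : ℕ) * V b.2.1 (1 / n) : ℝ) : ℂ) := by
    refine Fintype.sum_equiv (Equiv.funUnique (Fin 1) (JJ 1 W)) _ _ fun b => ?_
    rw [Fin.prod_univ_one, hval]
    have e2 : Equiv.funUnique (Fin 1) (JJ 1 W) b = b 0 := rfl
    rw [e2]
    have e3 := evc_V (b 0).2.1 (n : ℝ)
    rw [Complex.ofReal_natCast] at e3
    rw [e3, Complex.ofReal_mul, Complex.ofReal_pow]
  have h3 := g2 (fun b => Pj (b 0)) (fun b => hPd _) (fun b e => hPH _ e) (fun _ => b₀)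
  rw [hsum, hval] at h3
  exact h3

/-- the theorem at almost all integers -/
theorem mainN (W G : ℕ) {Z : Type} (zf : Z → Fin G → ℂ) (Gd : ℕ → Z → ℕ → ℝ → Prop)
    (hg : ∀ B₀ : ℕ, ∃ B : ℕ, ∀ T : ℕ, 1 ≤ T → ∃ H₀ : ℝ, ∀ (z : Z) (n : ℕ) (H : ℝ), H₀ ≤ H → 2 ≤ n → n ≤ T →
      GF W B₀ (zf z) n (H ^ 2) → Gd B z n H)
    (hmono : ∀ (B : ℕ) (z : Z) (n : ℕ) (H H' : ℝ), 1 ≤ H → H ≤ H' → H' ≤ H ^ 2 → Gd B z n H' → Gd (2 * B) z n H) :
    ∃ (B : ℕ) (C c : ℝ), 0 < c ∧ ∀ T : ℕ, 1 ≤ T →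
    (∃ H₀ : ℝ, ∀ H₁ : ℝ, H₀ ≤ H₁ → ∀ z : Z,
      (({n : ℕ | 2 ≤ n ∧ n ≤ T ∧ ¬ ∀ H : ℝ, H₁ ≤ H → H ≤ H₁ ^ Real.exp ((T : ℝ) ^ c) → Gd B z n H}.ncard : ℕ) : ℝ) ≤
        C * (T : ℝ) ^ (1 - c)) ∧
    ∀ z : Z, (({n : ℕ | 2 ≤ n ∧ n ≤ T ∧ ¬ ∀ N₀ : ℕ, ∃ N, N₀ ≤ N ∧
      (({j : ℕ | j < N ∧ ¬ ∀ H : ℝ, 2 ^ (2 ^ j) ≤ H → H ≤ 2 ^ (2 ^ (j + 1)) → Gd B z n H}.ncard : ℕ) : ℝ) ≤
          (T : ℝ) ^ (-c) * N}.ncard : ℕ) : ℝ) ≤ C * (T : ℝ) ^ (1 - c) := by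
  classical
  obtain ⟨K, hs⟩ : ∃ C : ℝ, ∀ i m, |((coeff m (hl α1 W i) : ℚ) : ℝ)| ≤ C ^ (m + 1) := by
    obtain ⟨K, _, h⟩ := size_hl α1 W
    exact ⟨K, h⟩
  obtain ⟨B, C, c, hc, hmain⟩ := torD (k := 1) (r := fun _ => nn 1 W * nn 1 W) (h := fun _ => hl α1 W)
    (fun _ => fam_hl α1 W) (fun _ => ⟨K, hs⟩) (fun _ => conn_hl α1 α1_inj α1_ne W) G 1 (1 + 1 * (W + 1)) 4 0 le_rfl
    (by norm_num) zf (fun B z x H => ∀ n : ℕ, 2 ≤ n → x = (fun _ => (n : ℂ)) → Gd B z n H) (fun B₀ => by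
      obtain ⟨B₁, H₁, hB₁⟩ := hgd (k := 1) (r := fun _ => 1) (fun _ => α1) (fun _ => α1_inj) (fun _ => α1_ne) W G 1 B₀
      obtain ⟨B, hB⟩ := hg B₁
      refine ⟨B, fun T hT => ?_⟩
      obtain ⟨H₀, hH₀⟩ := hB T hT
      refine ⟨max (max H₀ H₁) (max 1 T), fun z x H hH hx _ hgood n hn hxn => ?_⟩
      have hHa : H₀ ≤ H := (le_max_left _ _).trans ((le_max_left _ _).trans hH)
      have hHb : H₁ ≤ H := (le_max_right _ _).trans ((le_max_left _ _).trans hH)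
      have hHc : 1 ≤ H := (le_max_left _ _).trans ((le_max_right _ _).trans hH)
      have hHd : (T : ℝ) ≤ H := (le_max_right _ _).trans ((le_max_right _ _).trans hH)
      have hHH : H ≤ H ^ 2 := le_self_pow₀ hHc (by norm_num)
      have hnT : n ≤ T := by
        obtain ⟨f, _, _, h3, h4⟩ := hx 0
        have h5 := h4 _ h3
        rw [hxn, Complex.norm_natCast] at h5
        exact_mod_cast h5
      have hnT' : (n : ℝ) ≤ T := by exact_mod_cast hnT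
      refine hH₀ z n H hHa hn hnT (GF_of hn (by linarith) ?_)
      rw [← hxn]
      refine hB₁ (zf z) x (H ^ 2) (hHb.trans hHH) ?_
      rw [← pow_mul]
      exact hgood) (fun B z x H H' h1 h2 h3 hgg n hn hxn => hmono B z n H H' h1 h2 h3 (hgg n hn hxn))
  have key : ∀ (P : (Fin 1 → ℂ) → Prop) (A : ℕ → Prop) (T : ℕ), 1 ≤ T → (∀ n : ℕ, 2 ≤ n → P (fun _ => (n : ℂ)) → A n) →
      (({x : Fin 1 → ℂ | (∀ j, SInt 1 T (x j)) ∧ ¬ P x}.ncard : ℕ) : ℝ) ≤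
        C * (T : ℝ) ^ (-c) * (({ξ : ℂ | SInt 1 T ξ}.ncard : ℕ) : ℝ) ^ 1 →
      (({n : ℕ | 2 ≤ n ∧ n ≤ T ∧ ¬ A n}.ncard : ℕ) : ℝ) ≤ 3 * max C 0 * (T : ℝ) ^ (1 - c) := by
    intro P A T hT hPA h
    have hT0 : (0 : ℝ) < T := by exact_mod_cast hT
    have hδ0 : 0 < (T : ℝ) ^ (-c) := Real.rpow_pos_of_pos hT0 _
    rw [pow_one] at h
    have h2 : (({ξ : ℂ | SInt 1 T ξ}.ncard : ℕ) : ℝ) ≤ 3 * T := by
      have h3 := sint_card T
      calc (({ξ : ℂ | SInt 1 T ξ}.ncard : ℕ) : ℝ) ≤ ((2 * T + 1 : ℕ) : ℝ) := by exact_mod_cast h3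
        _ ≤ 3 * T := by
          push_cast
          have : (1 : ℝ) ≤ T := by exact_mod_cast hT
          linarith
    refine (Nat.cast_le.2 ?_).trans (h.trans ?_)
    · refine Set.ncard_le_ncard_of_injOn (fun n : ℕ => fun _ : Fin 1 => (n : ℂ)) (fun n hn => ?_)
        (fun a _ b _ hab => Nat.cast_injective (R := ℂ) (congrFun hab 0))
        ((Set.Finite.pi' fun _ : Fin 1 => sint_fin 1 T).subset fun x hx => hx.1)
      exact ⟨fun _ => sint_nat hn.2.1, fun hcon => hn.2.2 (hPA n hn.1 hcon)⟩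
    · calc C * (T : ℝ) ^ (-c) * (({ξ : ℂ | SInt 1 T ξ}.ncard : ℕ) : ℝ) ≤ max C 0 * (T : ℝ) ^ (-c) * (3 * T) :=
          mul_le_mul (mul_le_mul_of_nonneg_right (le_max_left _ _) hδ0.le) h2 (by positivity) (by positivity)
        _ = 3 * max C 0 * ((T : ℝ) ^ (-c) * T) := by ring
        _ = 3 * max C 0 * (T : ℝ) ^ (1 - c) := by
          congr 1
          rw [← Real.rpow_add_one hT0.ne']
          congr 1
          ring
  refine ⟨B, 3 * max C 0, c, hc, fun T hT => ?_⟩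
  obtain ⟨⟨H₀, m1⟩, m2⟩ := hmain T hT
  refine ⟨⟨H₀, fun H₁ hH₁ z => key _ _ T hT (fun n hn h H ha hb => h H ha hb n hn rfl) (m1 H₁ hH₁ z)⟩, fun z => ?_⟩
  refine key _ _ T hT (fun n hn h N₀ => ?_) (m2 z)
  obtain ⟨N, hN, hbad⟩ := h N₀
  refine ⟨N, hN, le_trans (Nat.cast_le.2 (Set.ncard_le_ncard ?_ ((Set.finite_lt_nat N).subset fun j hj => hj.1))) hbad⟩
  rintro j ⟨hj, hj'⟩
  exact ⟨hj, fun hcon => hj' fun H ha hb => hcon H ha hb n hn rfl⟩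

end Pool.Agent.Q189.MV
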