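import Pool.Agent.Q189.MV.Hof3
import Pool.Agent.Q187.ZD.KZ

/-!
# Graded complex coefficients
-/

set_option autoImplicit false

open PowerSeries Filter Topology Module

namespace Pool.Agent.Q189.MV

open Pool.Agent.Y119.ML (adm adm_tail adm_none WI JJ)
open Pool.Agent.H447R2.MZ (H Adm val Zs)

/-- spans of real numbers times a complex number -/
lemma span_ofReal {A : Set ℝ} {M : Submodule ℚ ℂ} {g : ℂ} (h : ∀ a ∈ A, g * ((a : ℝ) : ℂ) ∈ M) {r : ℝ}
    (hr : r ∈ Submodule.span ℚ A) : g * ((r : ℝ) : ℂ) ∈ M := by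
  induction hr using Submodule.span_induction with
  | mem r hr => exact h r hr
  | zero => simp
  | add r s _ _ hr hs =>
    rw [Complex.ofReal_add, mul_add]
    exact Submodule.add_mem _ hr hs
  | smul c r _ hr =>
    have h1 : g * (((c • r : ℝ)) : ℂ) = c • (g * ((r : ℝ) : ℂ)) := by
      rw [Rat.smul_def, Rat.smul_def]
      push_cast
      ring
    rw [h1]
    exact Submodule.smul_mem _ _ hr

section
variable (G : ℕ → Submodule ℚ ℂ)

/-- the span of the products with the values at `1 - x` and `x` -/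
noncomputable def VG (x : ℝ) (N : ℕ) : Submodule ℚ ℂ :=
  Submodule.span ℚ {r : ℂ | ∃ (k : ℕ) (g : ℂ) (s t : List ℕ), g ∈ G k ∧ (∀ a ∈ s, 1 ≤ a) ∧ (∀ a ∈ t, 1 ≤ a) ∧
    k + s.sum + t.sum = N ∧ r = g * ((Lis s (1 - x) * Lis t x : ℝ) : ℂ)}

/-- the span of the products with powers of the logarithm and values at `x` -/
noncomputable def PG (x : ℝ) (N : ℕ) : Submodule ℚ ℂ :=
  Submodule.span ℚ {r : ℂ | ∃ (k a : ℕ) (g : ℂ) (w : List (Option (Fin 1))), g ∈ G k ∧ adm w ∧ k + a + w.length = N ∧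
    r = g * ((Real.log x ^ a * V w x : ℝ) : ℂ)}

variable {G} (hZ : ∀ i j, ∀ z ∈ Zs i, ∀ g ∈ G j, (z : ℂ) * g ∈ G (i + j)) {x : ℝ}
include hZ

theorem VG_eq (hx : 0 < x) (hx1 : x < 1) (N : ℕ) : VG G x N = PG G x N := by
  have h1 : |x| < 1 := by rw [abs_of_pos hx]; exact hx1
  have h2 : |1 - x| < 1 := by rw [abs_of_pos (by linarith)]; linarith
  refine le_antisymm ?_ ?_
  · unfold VG
    rw [Submodule.span_le]
    rintro _ ⟨k, g, s, t, hg, hs, ht, hN, rfl⟩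
    have h3 : Lis s (1 - x) * Lis t x ∈ PZ x (s.sum + t.sum) := by
      rw [← VN_eq hx hx1, Lis_eq s hs h2, Lis_eq t ht h1]
      exact Submodule.subset_span ⟨wd s, wd t, adm_wd s, adm_wd t, by rw [len_wd s hs, len_wd t ht], rfl⟩
    unfold PZ at h3
    refine span_ofReal ?_ h3
    rintro _ ⟨i, a, z, w, hz, hw, hi, rfl⟩
    refine Submodule.subset_span ⟨i + k, a, (z : ℂ) * g, w, hZ i k z hz g hg, hw, by omega, ?_⟩
    push_cast
    ring
  · unfold PG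
    rw [Submodule.span_le]
    rintro _ ⟨k, a, g, w, hg, hw, hN, rfl⟩
    have h3 : Real.log x ^ a * V w x ∈ VN x (a + w.length) := VN_mul hx hx1 (log_mem_VN hx hx1 a) (V_mem_VN hw)
    unfold VN at h3
    refine span_ofReal ?_ h3
    rintro _ ⟨u, v, hu, hv, huv, rfl⟩
    obtain ⟨s, hs, rfl⟩ := exists_index u hu
    obtain ⟨t, ht, rfl⟩ := exists_index v hv
    rw [len_wd s hs, len_wd t ht] at huv
    refine Submodule.subset_span ⟨k, g, s, t, hg, hs, ht, by omega, ?_⟩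
    rw [Lis_eq s hs h2, Lis_eq t ht h1]

end

/-- the combinations with coefficients in given spaces -/
noncomputable def PhC (x : ℝ) {N : ℕ} (F : JJ 1 N → Submodule ℚ ℂ) : (∀ b, F b) →ₗ[ℚ] ℂ :=
  ∑ b, (LinearMap.mulRight ℚ ((pp x b : ℝ) : ℂ)).comp ((F b).subtype.comp (LinearMap.proj b))

lemma PhC_apply (x : ℝ) {N : ℕ} (F : JJ 1 N → Submodule ℚ ℂ) (z : ∀ b, F b) :
    PhC x F z = ∑ b, (z b : ℂ) * ((pp x b : ℝ) : ℂ) := by
  unfold PhC
  rw [LinearMap.sum_apply]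
  rfl

lemma mem_PhC {x : ℝ} {N : ℕ} {F : JJ 1 N → Submodule ℚ ℂ} {r : ℂ} :
    r ∈ LinearMap.range (PhC x F) ↔ ∃ z : JJ 1 N → ℂ, (∀ b, z b ∈ F b) ∧ r = ∑ b, z b * ((pp x b : ℝ) : ℂ) := by
  constructor
  · rintro ⟨z, rfl⟩
    exact ⟨fun b => z b, fun b => (z b).2, PhC_apply x F z⟩
  · rintro ⟨z, hz, rfl⟩
    exact ⟨fun b => ⟨z b, hz b⟩, PhC_apply x F _⟩

/-- the family of spaces belonging to a sequence of spaces -/
noncomputable def FG {N : ℕ} (G : ℕ → Submodule ℚ ℂ) (M : ℕ) (b : JJ 1 N) : Submodule ℚ ℂ :=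
  if wtx b ≤ M then G (M - wtx b) else ⊥

lemma FG_le {N : ℕ} {G : ℕ → Submodule ℚ ℂ} {K : Submodule ℚ ℂ} (hG : ∀ k, k ≤ N → G k ≤ K) {M : ℕ} (hM : M ≤ N) (b : JJ 1 N) :
    FG G M b ≤ K := by
  unfold FG
  split_ifs
  · exact hG _ (by omega)
  · exact bot_le

lemma sum_FG {N : ℕ} (G : ℕ → Submodule ℚ ℂ) {M : ℕ} (hM : M ≤ N) :
    ∑ b : JJ 1 N, finrank ℚ (FG G M b) = ∑ k ∈ Finset.range (M + 1), 2 ^ k * finrank ℚ (G (M - k)) := by
  classical
  have h1 : ∀ b : JJ 1 N, finrank ℚ (FG G M b) = if wtx b ≤ M then finrank ℚ (G (M - wtx b)) else 0 := by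
    intro b
    by_cases hb : wtx b ≤ M
    · have h2 : FG G M b = G (M - wtx b) := if_pos hb
      rw [h2, if_pos hb]
    · have h2 : FG G M b = ⊥ := if_neg hb
      rw [h2, if_neg hb]
      exact finrank_bot ℚ ℂ
  simp only [h1]
  rw [← Finset.sum_filter]
  rw [← Finset.sum_fiberwise_of_maps_to (t := Finset.range (M + 1)) (g := fun b : JJ 1 N => wtx b)
    (fun b hb => by rw [Finset.mem_filter] at hb; rw [Finset.mem_range]; omega)]
  refine Finset.sum_congr rfl fun k hk => ?_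
  have hk' := Finset.mem_range.1 hk
  rw [Finset.sum_congr rfl (g := fun _ => finrank ℚ (G (M - k))) (fun b hb => by
    rw [(Finset.mem_filter.1 hb).2])]
  rw [Finset.sum_const, smul_eq_mul, Finset.filter_filter, ← card_wt (N := N) (k := k) (by omega)]
  congr 2
  ext b
  simp only [Finset.mem_filter, Finset.mem_univ, true_and]
  omega

theorem PG_eq_range (G : ℕ → Submodule ℚ ℂ) (x : ℝ) {N M : ℕ} (hM : M ≤ N) :
    PG G x M = LinearMap.range (PhC x (FG (N := N) G M)) := by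
  refine le_antisymm ?_ ?_
  · unfold PG
    rw [Submodule.span_le]
    rintro _ ⟨k, a, z, w, hz, hw, hk, rfl⟩
    rw [SetLike.mem_coe, mem_PhC]
    set b₀ : JJ 1 N := (⟨a, by omega⟩, ⟨w, by omega, hw⟩) with hb₀
    have hwt : wtx b₀ = a + w.length := rfl
    refine ⟨Pi.single b₀ z, fun b => ?_, ?_⟩
    · by_cases hb : b = b₀
      · subst hb
        rw [Pi.single_eq_same]
        unfold FG
        rw [if_pos (by omega)]
        have h1 : M - wtx b₀ = k := by omega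
        rw [h1]
        exact hz
      · rw [Pi.single_eq_of_ne hb]
        exact Submodule.zero_mem _
    · rw [Finset.sum_eq_single_of_mem b₀ (Finset.mem_univ _), Pi.single_eq_same]
      · rfl
      · intro b _ hb
        rw [Pi.single_eq_of_ne hb, zero_mul]
  · intro r hr
    rw [mem_PhC] at hr
    obtain ⟨z, hz, rfl⟩ := hr
    refine Submodule.sum_mem _ fun b _ => ?_
    have h1 := hz b
    unfold FG at h1
    split_ifs at h1 with h2
    · exact Submodule.subset_span ⟨M - wtx b, b.1, z b, b.2.1, h1, b.2.2.2, by unfold wtx at *; omega, rfl⟩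
    · rw [Submodule.mem_bot] at h1
      rw [h1, zero_mul]
      exact Submodule.zero_mem _

lemma fd_FG {N : ℕ} {G : ℕ → Submodule ℚ ℂ} (hfd : ∀ k, FiniteDimensional ℚ (G k)) (M : ℕ) (b : JJ 1 N) :
    FiniteDimensional ℚ (FG G M b) := by
  by_cases hb : wtx b ≤ M
  · have h2 : FG G M b = G (M - wtx b) := if_pos hb
    rw [h2]
    exact hfd _
  · have h2 : FG G M b = ⊥ := if_neg hb
    rw [h2]
    infer_instance

theorem finrank_PG_le {G : ℕ → Submodule ℚ ℂ} (hfd : ∀ k, FiniteDimensional ℚ (G k)) (x : ℝ) (M : ℕ) :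
    finrank ℚ (PG G x M) ≤ ∑ k ∈ Finset.range (M + 1), 2 ^ k * finrank ℚ (G (M - k)) := by
  rw [PG_eq_range G x (N := M) le_rfl, ← sum_FG (N := M) G le_rfl]
  have := fun b : JJ 1 M => fd_FG hfd M b
  rw [← finrank_pi_fintype]
  exact LinearMap.finrank_range_le _

theorem finrank_PG {G : ℕ → Submodule ℚ ℂ} (hfd : ∀ k, FiniteDimensional ℚ (G k)) {x : ℝ} {N : ℕ} {K : Submodule ℚ ℂ}
    (hK : ∀ k, k ≤ N → G k ≤ K) (h : IndC x N K) {M : ℕ} (hM : M ≤ N) :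
    finrank ℚ (PG G x M) = ∑ k ∈ Finset.range (M + 1), 2 ^ k * finrank ℚ (G (M - k)) := by
  rw [PG_eq_range G x hM, ← sum_FG G hM]
  have := fun b : JJ 1 N => fd_FG hfd M b
  rw [LinearMap.finrank_range_of_inj, finrank_pi_fintype]
  rw [← LinearMap.ker_eq_bot, LinearMap.ker_eq_bot']
  intro z hz
  rw [PhC_apply] at hz
  have h1 := h (fun b => z b) (fun b => FG_le hK hM b (z b).2) hz
  funext b
  exact Subtype.ext (congrFun h1 b)

/-- almost all integers are good for finitely generated constants -/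
theorem few_indK (N : ℕ) {K : Submodule ℚ ℂ} (hK : K.FG) : ∃ C c : ℝ, 0 < c ∧ ∀ T : ℕ, 1 ≤ T →
    (({n : ℕ | 3 ≤ n ∧ n ≤ T ∧ ¬ IndC (1 / n) N K}.ncard : ℕ) : ℝ) ≤ C * (T : ℝ) ^ (1 - c) := by
  obtain ⟨g, ζ, hζ⟩ := Submodule.fg_iff_exists_fin_generating_family.1 hK
  obtain ⟨C, c, hc, h⟩ := few_badC N g
  refine ⟨C, c, hc, fun T hT => ?_⟩
  have h1 := h ζ T hT
  rw [hζ] at h1
  exact h1

lemma fg_sup {G : ℕ → Submodule ℚ ℂ} (hfd : ∀ k, FiniteDimensional ℚ (G k)) (N : ℕ) : ((Finset.range (N + 1)).sup G).FG := by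
  have h1 : ∀ s : Finset ℕ, (s.sup G).FG := by
    intro s
    classical
    induction s using Finset.induction_on with
    | empty => rw [Finset.sup_empty]; exact Submodule.fg_bot
    | insert a s _ ih =>
      rw [Finset.sup_insert]
      exact Submodule.FG.sup (Module.Finite.iff_fg.1 (hfd a)) ih
  exact h1 _

/-- **dimensions at almost all integers** -/
theorem dimsG {G : ℕ → Submodule ℚ ℂ} (hfd : ∀ k, FiniteDimensional ℚ (G k))
    (hZ : ∀ i j, ∀ z ∈ Zs i, ∀ g ∈ G j, (z : ℂ) * g ∈ G (i + j)) (N : ℕ) : ∃ C c : ℝ, 0 < c ∧ ∀ T : ℕ, 1 ≤ T →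
    (({n : ℕ | 3 ≤ n ∧ n ≤ T ∧ ¬ ∀ M ≤ N, finrank ℚ (VG G (1 / n) M) =
      ∑ k ∈ Finset.range (M + 1), 2 ^ k * finrank ℚ (G (M - k))}.ncard : ℕ) : ℝ) ≤ C * (T : ℝ) ^ (1 - c) := by
  obtain ⟨C, c, hc, h⟩ := few_indK N (fg_sup hfd N)
  refine ⟨C, c, hc, fun T hT => ?_⟩
  refine le_trans (Nat.cast_le.2 (Set.ncard_le_ncard ?_ ((Set.finite_le_nat T).subset fun n hn => hn.2.1))) (h T hT)
  rintro n ⟨h1, h2, h3⟩
  refine ⟨h1, h2, fun h4 => h3 fun M hM => ?_⟩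
  obtain ⟨e1, e2⟩ := inv_pos_lt (n := n) (by omega)
  rw [VG_eq hZ e1 e2]
  exact finrank_PG hfd (fun k hk => Finset.le_sup (f := G) (Finset.mem_range.2 (by omega))) h4 hM

theorem finrank_VG_le {G : ℕ → Submodule ℚ ℂ} (hfd : ∀ k, FiniteDimensional ℚ (G k))
    (hZ : ∀ i j, ∀ z ∈ Zs i, ∀ g ∈ G j, (z : ℂ) * g ∈ G (i + j)) {n : ℕ} (hn : 2 ≤ n) (N : ℕ) :
    finrank ℚ (VG G (1 / n) N) ≤ ∑ k ∈ Finset.range (N + 1), 2 ^ k * finrank ℚ (G (N - k)) := by
  obtain ⟨e1, e2⟩ := inv_pos_lt hn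
  rw [VG_eq hZ e1 e2]
  exact finrank_PG_le hfd _ N

/-- the criterion by one integer -/
theorem critG {G : ℕ → Submodule ℚ ℂ} (hfd : ∀ k, FiniteDimensional ℚ (G k))
    (hZ : ∀ i j, ∀ z ∈ Zs i, ∀ g ∈ G j, (z : ℂ) * g ∈ G (i + j)) {r : ℕ → ℕ} (hr : ∀ k, finrank ℚ (G k) ≤ r k) (N : ℕ) :
    (∀ k ≤ N, finrank ℚ (G k) = r k) ↔
      ∃ n : ℕ, 2 ≤ n ∧ finrank ℚ (VG G (1 / n) N) = ∑ k ∈ Finset.range (N + 1), 2 ^ k * r (N - k) := by
  constructor
  · intro h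
    obtain ⟨C, c, hc, hf⟩ := dimsG hfd hZ N
    obtain ⟨n, hn, h1⟩ := Pool.Agent.Q189.Z3.exists_of_few hc hf
    refine ⟨n, by omega, ?_⟩
    rw [not_not.1 h1 N le_rfl]
    refine Finset.sum_congr rfl fun k _ => ?_
    rw [h (N - k) (by omega)]
  · rintro ⟨n, hn, h⟩
    exact eq_of_sum (f := fun k => finrank ℚ (G k)) hr (h.ge.trans (finrank_VG_le hfd hZ hn N))

end Pool.Agent.Q189.MV
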