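import Pool.Agent.Q189.MV.Hof

/-!
# Bases
-/

set_option autoImplicit false

open PowerSeries Filter Topology Module

namespace Pool.Agent.Q189.MV

open Pool.Agent.Y119.ML (adm WI JJ)
open Pool.Agent.H447R2.MZ (H Adm val Zs)

variable {x : ℝ}

lemma pp_mem (hx : 0 < x) (hx1 : x < 1) {N : ℕ} (b : JJ 1 N) {s : List ℕ} (hs : ∀ a ∈ s, 1 ≤ a) :
    pp x b * V (wd s) (1 - x) ∈ VN x (wtx b + s.sum) := by
  have h1 : V (wd s) (1 - x) ∈ VN x s.sum :=
    Submodule.subset_span ⟨wd s, [], adm_wd s, adm_nil, by rw [len_wd s hs]; rfl, by rw [V_nil, mul_one]⟩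
  exact VN_mul hx hx1 (VN_mul hx hx1 (log_mem_VN hx hx1 b.1) (V_mem_VN (x := x) b.2.2.2)) h1

/-- the number of the elements of the family -/
lemma card_family {N : ℕ} {F : List ℕ → Prop} (hF : ∀ s, F s → Adm s) {R : ℕ → ℕ → Prop} (hR : ∀ m k, R m k → m + k ≤ N) :
    Nat.card (Fi N F R) = ∑ m ∈ Finset.range (N + 1), 2 ^ m * Nat.card {s : List ℕ // F s ∧ R m s.sum} := by
  classical
  have hfs : ∀ m, {s : List ℕ | F s ∧ R m s.sum}.Finite := fun m =>
    (fin_index N).subset fun s hs => ⟨hF s hs.1, by have := hR _ _ hs.2; omega⟩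
  have hft : ∀ m, Finite {s : List ℕ // F s ∧ R m s.sum} := fun m => (hfs m).to_subtype
  have := fun m => Fintype.ofFinite {s : List ℕ // F s ∧ R m s.sum}
  let e : Fi N F R ≃ Σ b : JJ 1 N, {s : List ℕ // F s ∧ R (wtx b) s.sum} :=
    { toFun := fun p => ⟨p.1.1, p.1.2, p.2⟩
      invFun := fun q => ⟨(q.1, q.2.1), q.2.2⟩
      left_inv := fun _ => rfl
      right_inv := fun _ => rfl }
  rw [Nat.card_congr e, Nat.card_sigma]
  have h1 : ∀ b : JJ 1 N, ¬ wtx b ≤ N → Nat.card {s : List ℕ // F s ∧ R (wtx b) s.sum} = 0 := by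
    intro b hb
    rw [Nat.card_eq_zero]
    left
    refine ⟨fun s => hb ?_⟩
    have := hR _ _ s.2.2
    omega
  rw [← Finset.sum_filter_add_sum_filter_not Finset.univ (fun b : JJ 1 N => wtx b ≤ N)]
  have h2 : ∑ b ∈ Finset.univ.filter (fun b : JJ 1 N => ¬ wtx b ≤ N), Nat.card {s : List ℕ // F s ∧ R (wtx b) s.sum} = 0 :=
    Finset.sum_eq_zero fun b hb => h1 b (Finset.mem_filter.1 hb).2
  rw [h2, add_zero, ← Finset.sum_fiberwise_of_maps_to (t := Finset.range (N + 1)) (g := fun b : JJ 1 N => wtx b)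
    (fun b hb => by rw [Finset.mem_filter] at hb; rw [Finset.mem_range]; omega)]
  refine Finset.sum_congr rfl fun k hk => ?_
  have hk' := Finset.mem_range.1 hk
  rw [Finset.sum_congr rfl (g := fun _ => Nat.card {s : List ℕ // F s ∧ R k s.sum}) (fun b hb => by
    rw [(Finset.mem_filter.1 hb).2])]
  rw [Finset.sum_const, smul_eq_mul, Finset.filter_filter, ← card_wt (N := N) (k := k) (by omega)]
  congr 2
  ext b
  simp only [Finset.mem_filter, Finset.mem_univ, true_and]
  omega

/-- the members of the family are in the space -/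
lemma card_le {N : ℕ} {F : List ℕ → Prop} (hF : ∀ s, F s → Adm s) {R : ℕ → ℕ → Prop} (hR : ∀ m k, R m k → m + k ≤ N)
    {W : Submodule ℚ ℝ} (hW : FiniteDimensional ℚ W)
    (hmem : ∀ p : Fi N F R, pp x p.1.1 * V (wd p.1.2) (1 - x) ∈ W)
    (h : LinearIndependent ℚ fun p : Fi N F R => pp x p.1.1 * V (wd p.1.2) (1 - x)) : Nat.card (Fi N F R) ≤ finrank ℚ W := by
  classical
  have hfin : Finite (Fi N F R) := by
    have h1 : {p : JJ 1 N × List ℕ | F p.2 ∧ R (wtx p.1) p.2.sum}.Finite := by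
      refine (Set.finite_univ.prod (fin_index N)).subset ?_
      rintro ⟨b, s⟩ ⟨h1, h2⟩
      exact ⟨Set.mem_univ _, hF s h1, by have := hR _ _ h2; omega⟩
    exact h1.to_subtype
  have := Fintype.ofFinite (Fi N F R)
  rw [Nat.card_eq_fintype_card]
  have h2 : LinearIndependent ℚ (fun p : Fi N F R => (⟨pp x p.1.1 * V (wd p.1.2) (1 - x), hmem p⟩ : W)) :=
    LinearIndependent.of_comp W.subtype h
  exact h2.fintype_card_le_finrank

lemma span_card_le {F : List ℕ → Prop} {P : ℕ → Prop} (hfin : Finite {s : List ℕ // F s ∧ P s.sum}) :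
    finrank ℚ (Submodule.span ℚ (Set.range fun s : {s : List ℕ // F s ∧ P s.sum} => val s.1)) ≤
      Nat.card {s : List ℕ // F s ∧ P s.sum} := by
  have := Fintype.ofFinite {s : List ℕ // F s ∧ P s.sum}
  rw [Nat.card_eq_fintype_card]
  exact finrank_range_le_card _

lemma li_of_card {F : List ℕ → Prop} {P : ℕ → Prop} (hfin : Finite {s : List ℕ // F s ∧ P s.sum})
    (h : Nat.card {s : List ℕ // F s ∧ P s.sum} ≤
      finrank ℚ (Submodule.span ℚ (Set.range fun s : {s : List ℕ // F s ∧ P s.sum} => val s.1))) :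
    LinearIndependent ℚ fun s : {s : List ℕ // F s ∧ P s.sum} => val s.1 := by
  have := Fintype.ofFinite {s : List ℕ // F s ∧ P s.sum}
  rw [linearIndependent_iff_card_eq_finrank_span]
  refine le_antisymm ?_ (finrank_range_le_card _)
  rw [← Nat.card_eq_fintype_card]
  exact h

section
variable {F : List ℕ → Prop} (hF : ∀ s, F s → Adm s)
  (hB : ∀ k, Zs k ≤ Submodule.span ℚ (Set.range fun s : {s : List ℕ // F s ∧ s.sum = k} => val s.1))
include hF hB

lemma Tz_span (N : ℕ) : Tz N = Submodule.span ℚ (Set.range fun s : {s : List ℕ // F s ∧ s.sum ≤ N} => val s.1) := by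
  refine le_antisymm ?_ ?_
  · refine Finset.sup_le fun k hk => (hB k).trans ?_
    rw [Submodule.span_le]
    rintro _ ⟨s, rfl⟩
    have := Finset.mem_range.1 hk
    exact Submodule.subset_span ⟨⟨s.1, s.2.1, by rw [s.2.2]; omega⟩, rfl⟩
  · rw [Submodule.span_le]
    rintro _ ⟨s, rfl⟩
    exact Zs_le_Tz s.2.2 (Pool.Agent.H447R2.MZ.val_mem _ (hF _ s.2.1))

lemma Zs_span (k : ℕ) : Zs k = Submodule.span ℚ (Set.range fun s : {s : List ℕ // F s ∧ s.sum = k} => val s.1) := by
  refine le_antisymm (hB k) ?_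
  rw [Submodule.span_le]
  rintro _ ⟨s, rfl⟩
  have h := Pool.Agent.H447R2.MZ.val_mem _ (hF _ s.2.1)
  rw [s.2.2] at h
  exact h

/-- all weights at most `N` -/
theorem basis_T {N : ℕ} (hx : 0 < x) (hx1 : x < 1) (h : Ind x N)
    (hli : LinearIndependent ℚ fun s : {s : List ℕ // F s ∧ s.sum ≤ N} => val s.1) :
    LinearIndependent ℚ (fun p : Fi N F (fun m k => m + k ≤ N) => pp x p.1.1 * V (wd p.1.2) (1 - x)) ∧
      Submodule.span ℚ (Set.range fun p : Fi N F (fun m k => m + k ≤ N) => pp x p.1.1 * V (wd p.1.2) (1 - x)) = VT x N := by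
  classical
  have hR : ∀ m k, (fun m k => m + k ≤ N) m k → m + k ≤ N := fun m k h => h
  have hli' : ∀ m, LinearIndependent ℚ fun s : {s : List ℕ // F s ∧ m + s.sum ≤ N} => val s.1 := by
    intro m
    let e : {s : List ℕ // F s ∧ m + s.sum ≤ N} → {s : List ℕ // F s ∧ s.sum ≤ N} := fun s => ⟨s.1, s.2.1, by have := s.2.2; omega⟩
    exact hli.comp e fun s t hst => Subtype.ext (by have h := congrArg Subtype.val hst; exact h)
  have h1 := li_family hx hx1 h hF hR hli'
  refine ⟨h1, ?_⟩
  have hfd : FiniteDimensional ℚ (VT x N) := by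
    rw [VT_eq_range hx hx1 (N := N) le_rfl]
    have : ∀ b : JJ 1 N, FiniteDimensional ℚ (Fm Tz N b) := fun b => by
      have := fd_Tz N
      exact Submodule.finiteDimensional_of_le (Fm_le (fun k hk => Tz_mono hk) le_rfl b)
    infer_instance
  have hmem : ∀ p : Fi N F (fun m k => m + k ≤ N), pp x p.1.1 * V (wd p.1.2) (1 - x) ∈ VT x N := fun p =>
    Finset.le_sup (f := VN x) (Finset.mem_range.2 (by have := p.2.2; simp only at this; omega))
      (pp_mem hx hx1 p.1.1 (hF _ p.2.1).1)
  refine Submodule.eq_of_le_of_finrank_le ?_ ?_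
  · rw [Submodule.span_le]
    rintro _ ⟨p, rfl⟩
    exact hmem p
  · have hfin : Finite (Fi N F (fun m k => m + k ≤ N)) := by
      have h1 : {p : JJ 1 N × List ℕ | F p.2 ∧ wtx p.1 + p.2.sum ≤ N}.Finite := by
        refine (Set.finite_univ.prod (fin_index N)).subset ?_
        rintro ⟨b, s⟩ ⟨h1, h2⟩
        exact ⟨Set.mem_univ _, hF s h1, by show s.sum ≤ N; simp only at h2; omega⟩
      exact h1.to_subtype
    have := Fintype.ofFinite (Fi N F (fun m k => m + k ≤ N))
    rw [finrank_span_eq_card h1, ← Nat.card_eq_fintype_card, card_family hF hR]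
    refine (finrank_VT_le hx hx1 N).trans (Finset.sum_le_sum fun k hk => Nat.mul_le_mul_left _ ?_)
    have hk' := Finset.mem_range.1 hk
    rw [Tz_span hF hB]
    have hft : Finite {s : List ℕ // F s ∧ s.sum ≤ N - k} :=
      ((fin_index (N - k)).subset fun s (hs : F s ∧ s.sum ≤ N - k) => ⟨hF s hs.1, hs.2⟩).to_subtype
    refine (span_card_le (P := fun j => j ≤ N - k) hft).trans (le_of_eq (Nat.card_congr ?_))
    refine Equiv.subtypeEquivRight fun s => ?_
    constructor
    · exact fun h => ⟨h.1, by have := h.2; omega⟩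
    · exact fun h => ⟨h.1, by have := h.2; omega⟩

theorem li_of_T {N : ℕ} (hx : 0 < x) (hx1 : x < 1)
    (h : LinearIndependent ℚ (fun p : Fi N F (fun m k => m + k ≤ N) => pp x p.1.1 * V (wd p.1.2) (1 - x))) :
    LinearIndependent ℚ fun s : {s : List ℕ // F s ∧ s.sum ≤ N} => val s.1 := by
  classical
  have hR : ∀ m k, (fun m k => m + k ≤ N) m k → m + k ≤ N := fun m k h => h
  have hfd : FiniteDimensional ℚ (VT x N) := by
    rw [VT_eq_range hx hx1 (N := N) le_rfl]
    have : ∀ b : JJ 1 N, FiniteDimensional ℚ (Fm Tz N b) := fun b => by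
      have := fd_Tz N
      exact Submodule.finiteDimensional_of_le (Fm_le (fun k hk => Tz_mono hk) le_rfl b)
    infer_instance
  have hmem : ∀ p : Fi N F (fun m k => m + k ≤ N), pp x p.1.1 * V (wd p.1.2) (1 - x) ∈ VT x N := fun p =>
    Finset.le_sup (f := VN x) (Finset.mem_range.2 (by have := p.2.2; simp only at this; omega))
      (pp_mem hx hx1 p.1.1 (hF _ p.2.1).1)
  have h1 := card_le hF hR hfd hmem h
  rw [card_family hF hR] at h1
  have hft : ∀ M, Finite {s : List ℕ // F s ∧ s.sum ≤ M} := fun M =>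
    ((fin_index M).subset fun s (hs : F s ∧ s.sum ≤ M) => ⟨hF s hs.1, hs.2⟩).to_subtype
  have h2 : ∀ k, finrank ℚ (Tz k) ≤ Nat.card {s : List ℕ // F s ∧ s.sum ≤ k} := fun k => by
    rw [Tz_span hF hB]
    exact span_card_le (P := fun j => j ≤ k) (hft k)
  have h3 := eq_of_sum (f := fun k => finrank ℚ (Tz k)) (d := fun k => Nat.card {s : List ℕ // F s ∧ s.sum ≤ k}) (N := N) h2
    ((by
      refine (le_of_eq (Finset.sum_congr rfl fun k hk => ?_)).trans (h1.trans (finrank_VT_le hx hx1 N))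
      have hk' := Finset.mem_range.1 hk
      congr 1
      refine Nat.card_congr (Equiv.subtypeEquivRight fun s => ?_)
      constructor
      · exact fun h => ⟨h.1, by have := h.2; omega⟩
      · exact fun h => ⟨h.1, by have := h.2; omega⟩) )
  refine li_of_card (P := fun j => j ≤ N) (hft N) ?_
  have h4 := h3 N le_rfl
  rw [← h4, Tz_span hF hB]

/-- one weight -/
theorem basis_N {N : ℕ} (hx : 0 < x) (hx1 : x < 1) (h : Ind x N)
    (hli : ∀ k ≤ N, LinearIndependent ℚ fun s : {s : List ℕ // F s ∧ s.sum = k} => val s.1) :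
    LinearIndependent ℚ (fun p : Fi N F (fun m k => m + k = N) => pp x p.1.1 * V (wd p.1.2) (1 - x)) ∧
      Submodule.span ℚ (Set.range fun p : Fi N F (fun m k => m + k = N) => pp x p.1.1 * V (wd p.1.2) (1 - x)) = VN x N := by
  classical
  have hR : ∀ m k, (fun m k => m + k = N) m k → m + k ≤ N := fun m k h => le_of_eq h
  have hli' : ∀ m, LinearIndependent ℚ fun s : {s : List ℕ // F s ∧ m + s.sum = N} => val s.1 := by
    intro m
    let e : {s : List ℕ // F s ∧ m + s.sum = N} → {s : List ℕ // F s ∧ s.sum = N - m} := fun s => ⟨s.1, s.2.1, by have := s.2.2; omega⟩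
    exact (hli (N - m) (by omega)).comp e fun s t hst => Subtype.ext (by have h := congrArg Subtype.val hst; exact h)
  have h1 := li_family hx hx1 h hF hR hli'
  refine ⟨h1, ?_⟩
  have hfd : FiniteDimensional ℚ (VN x N) := by
    rw [VN_eq hx hx1, PZ_eq_range (N := N) le_rfl]
    have : ∀ b : JJ 1 N, FiniteDimensional ℚ (Fm Zs N b) := fun b => by
      have := fd_Tz N
      exact Submodule.finiteDimensional_of_le (Fm_le (fun k hk => Zs_le_Tz hk) le_rfl b)
    infer_instance
  have hmem : ∀ p : Fi N F (fun m k => m + k = N), pp x p.1.1 * V (wd p.1.2) (1 - x) ∈ VN x N := fun p => by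
    have h2 := pp_mem hx hx1 p.1.1 (hF _ p.2.1).1
    have h3 : wtx p.1.1 + p.1.2.sum = N := p.2.2
    rw [h3] at h2
    exact h2
  refine Submodule.eq_of_le_of_finrank_le ?_ ?_
  · rw [Submodule.span_le]
    rintro _ ⟨p, rfl⟩
    exact hmem p
  · have hfin : Finite (Fi N F (fun m k => m + k = N)) := by
      have h1 : {p : JJ 1 N × List ℕ | F p.2 ∧ wtx p.1 + p.2.sum = N}.Finite := by
        refine (Set.finite_univ.prod (fin_index N)).subset ?_
        rintro ⟨b, s⟩ ⟨h1, h2⟩
        exact ⟨Set.mem_univ _, hF s h1, by show s.sum ≤ N; simp only at h2; omega⟩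
      exact h1.to_subtype
    have := Fintype.ofFinite (Fi N F (fun m k => m + k = N))
    rw [finrank_span_eq_card h1, ← Nat.card_eq_fintype_card, card_family hF hR]
    refine (finrank_VN_le hx hx1 N).trans (Finset.sum_le_sum fun k hk => Nat.mul_le_mul_left _ ?_)
    have hk' := Finset.mem_range.1 hk
    rw [Zs_span hF hB]
    have hft : Finite {s : List ℕ // F s ∧ s.sum = N - k} :=
      ((fin_index (N - k)).subset fun s (hs : F s ∧ s.sum = N - k) => ⟨hF s hs.1, le_of_eq hs.2⟩).to_subtype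
    refine (span_card_le (P := fun j => j = N - k) hft).trans (le_of_eq (Nat.card_congr ?_))
    refine Equiv.subtypeEquivRight fun s => ?_
    constructor
    · exact fun h => ⟨h.1, by have := h.2; omega⟩
    · exact fun h => ⟨h.1, by have := h.2; omega⟩

theorem li_of_N {N : ℕ} (hx : 0 < x) (hx1 : x < 1)
    (h : LinearIndependent ℚ (fun p : Fi N F (fun m k => m + k = N) => pp x p.1.1 * V (wd p.1.2) (1 - x))) :
    ∀ k ≤ N, LinearIndependent ℚ fun s : {s : List ℕ // F s ∧ s.sum = k} => val s.1 := by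
  classical
  have hR : ∀ m k, (fun m k => m + k = N) m k → m + k ≤ N := fun m k h => le_of_eq h
  have hfd : FiniteDimensional ℚ (VN x N) := by
    rw [VN_eq hx hx1, PZ_eq_range (N := N) le_rfl]
    have : ∀ b : JJ 1 N, FiniteDimensional ℚ (Fm Zs N b) := fun b => by
      have := fd_Tz N
      exact Submodule.finiteDimensional_of_le (Fm_le (fun k hk => Zs_le_Tz hk) le_rfl b)
    infer_instance
  have hmem : ∀ p : Fi N F (fun m k => m + k = N), pp x p.1.1 * V (wd p.1.2) (1 - x) ∈ VN x N := fun p => by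
    have h2 := pp_mem hx hx1 p.1.1 (hF _ p.2.1).1
    have h3 : wtx p.1.1 + p.1.2.sum = N := p.2.2
    rw [h3] at h2
    exact h2
  have h1 := card_le hF hR hfd hmem h
  rw [card_family hF hR] at h1
  have hft : ∀ M, Finite {s : List ℕ // F s ∧ s.sum = M} := fun M =>
    ((fin_index M).subset fun s (hs : F s ∧ s.sum = M) => ⟨hF s hs.1, le_of_eq hs.2⟩).to_subtype
  have h2 : ∀ k, finrank ℚ (Zs k) ≤ Nat.card {s : List ℕ // F s ∧ s.sum = k} := fun k => by
    rw [Zs_span hF hB]
    exact span_card_le (P := fun j => j = k) (hft k)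
  have h3 := eq_of_sum (f := fun k => finrank ℚ (Zs k)) (d := fun k => Nat.card {s : List ℕ // F s ∧ s.sum = k}) (N := N) h2
    ((by
      refine (le_of_eq (Finset.sum_congr rfl fun k hk => ?_)).trans (h1.trans (finrank_VN_le hx hx1 N))
      have hk' := Finset.mem_range.1 hk
      congr 1
      refine Nat.card_congr (Equiv.subtypeEquivRight fun s => ?_)
      constructor
      · exact fun h => ⟨h.1, by have := h.2; omega⟩
      · exact fun h => ⟨h.1, by have := h.2; omega⟩) )
  intro k hk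
  refine li_of_card (P := fun j => j = k) (hft k) ?_
  have h4 := h3 k hk
  rw [← h4, Zs_span hF hB]

end

/-- independence of an infinite family from the finite parts -/
lemma li_all {F : List ℕ → Prop} (h : ∀ N₀, ∃ N, N₀ ≤ N ∧ LinearIndependent ℚ fun s : {s : List ℕ // F s ∧ s.sum ≤ N} => val s.1) :
    LinearIndependent ℚ fun s : {s : List ℕ // F s} => val s.1 := by
  classical
  rw [linearIndependent_iff']
  intro A c hc i hi
  obtain ⟨N, hN, hli⟩ := h (A.sup fun s => s.1.sum)
  have hle : ∀ s ∈ A, s.1.sum ≤ N := fun s hs => (Finset.le_sup (f := fun s : {s : List ℕ // F s} => s.1.sum) hs).trans hN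
  rw [linearIndependent_iff'] at hli
  have h1 := hli (A.attach.image fun s => (⟨s.1.1, s.1.2, hle s.1 s.2⟩ : {s : List ℕ // F s ∧ s.sum ≤ N}))
    (fun s => c ⟨s.1, s.2.1⟩) (by
      rw [Finset.sum_image]
      · rw [← hc, ← Finset.sum_attach A]
      · intro a _ b _ hab
        exact Subtype.ext (Subtype.ext (by have h := congrArg Subtype.val hab; exact h))) ⟨i.1, i.2, hle i hi⟩ (by
      rw [Finset.mem_image]
      exact ⟨⟨i, hi⟩, Finset.mem_attach _ _, rfl⟩)
  exact h1

end Pool.Agent.Q189.MV
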