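import Pool.Agent.Q189.MV.Hof2

/-!
# Reindexing
-/

set_option autoImplicit false

open PowerSeries Filter Topology Module

namespace Pool.Agent.Q189.MV

open Pool.Agent.Y119.ML (adm WI JJ)
open Pool.Agent.H447R2.MZ (H Adm val Zs)

lemma rep_inj : ∀ (i j : ℕ) (u v : List (Option (Fin 1))),
    List.replicate i none ++ some 0 :: u = List.replicate j none ++ some 0 :: v → i = j ∧ u = v := by
  intro i
  induction i with
  | zero =>
    intro j u v h
    rcases j with _ | j
    · exact ⟨rfl, (List.cons.inj h).2⟩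
    · rw [List.replicate_succ, List.cons_append] at h
      exact absurd (List.cons.inj h).1 (by simp)
  | succ i ih =>
    intro j u v h
    rcases j with _ | j
    · rw [List.replicate_succ, List.cons_append] at h
      exact absurd (List.cons.inj h).1 (by simp)
    · rw [List.replicate_succ, List.cons_append, List.replicate_succ, List.cons_append] at h
      obtain ⟨h1, h2⟩ := ih j u v (List.cons.inj h).2
      exact ⟨by omega, h2⟩

lemma wd_inj : ∀ (s t : List ℕ), (∀ a ∈ s, 1 ≤ a) → (∀ a ∈ t, 1 ≤ a) → wd s = wd t → s = t := by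
  intro s
  induction s with
  | nil =>
    intro t _ _ h
    rcases t with _ | ⟨b, t⟩
    · rfl
    · rw [wd_cons] at h
      exact absurd h (by simp [wd])
  | cons a s ih =>
    intro t hs ht h
    rcases t with _ | ⟨b, t⟩
    · rw [wd_cons] at h
      exact absurd h (by simp [wd])
    · rw [wd_cons, wd_cons] at h
      obtain ⟨h1, h2⟩ := rep_inj _ _ _ _ h
      have ha := hs a (by simp)
      have hb := ht b (by simp)
      have h3 := ih t (fun c hc => hs c (by simp [hc])) (fun c hc => ht c (by simp [hc])) h2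
      have h4 : a = b := by omega
      rw [h3, h4]

/-- the indices: a power of the logarithm, an index for `x`, an index in `F` for `1 - x` -/
abbrev Ei (F : List ℕ → Prop) (R : ℕ → ℕ → Prop) : Type :=
  {p : ℕ × List ℕ × List ℕ // (∀ a ∈ p.2.1, 1 ≤ a) ∧ F p.2.2 ∧ R (p.1 + p.2.1.sum) p.2.2.sum}

/-- the value of an index -/
noncomputable def vl (x : ℝ) (p : ℕ × List ℕ × List ℕ) : ℝ := Real.log x ^ p.1 * Lis p.2.1 x * Lis p.2.2 (1 - x)

theorem reindex {x : ℝ} (hx : 0 < x) (hx1 : x < 1) {N : ℕ} {F : List ℕ → Prop} (hF : ∀ s, F s → Adm s) {R : ℕ → ℕ → Prop}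
    (hR : ∀ m k, R m k → m + k ≤ N) : ∃ e : Ei F R ≃ Fi N F R,
      ∀ p, vl x p.1 = pp x (e p).1.1 * V (wd (e p).1.2) (1 - x) := by
  have h1 : |x| < 1 := by rw [abs_of_pos hx]; exact hx1
  have h2 : |1 - x| < 1 := by rw [abs_of_pos (by linarith)]; linarith
  let f : Ei F R → Fi N F R := fun p =>
    ⟨((⟨p.1.1, by have := hR _ _ p.2.2.2; omega⟩, ⟨wd p.1.2.1, by
      rw [len_wd _ p.2.1]; have := hR _ _ p.2.2.2; omega, adm_wd _⟩), p.1.2.2), p.2.2.1, by
      have h3 := p.2.2.2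
      show R (p.1.1 + (wd p.1.2.1).length) p.1.2.2.sum
      rw [len_wd _ p.2.1]
      exact h3⟩
  have hf : Function.Bijective f := by
    constructor
    · intro p q h
      have h3 := congrArg (fun r : Fi N F R => r.1) h
      have h4 : p.1.1 = q.1.1 := congrArg (fun r : JJ 1 N × List ℕ => (r.1.1 : ℕ)) h3
      have h5 : wd p.1.2.1 = wd q.1.2.1 := congrArg (fun r : JJ 1 N × List ℕ => r.1.2.1) h3
      have h6 : p.1.2.2 = q.1.2.2 := congrArg (fun r : JJ 1 N × List ℕ => r.2) h3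
      exact Subtype.ext (Prod.ext h4 (Prod.ext (wd_inj _ _ p.2.1 q.2.1 h5) h6))
    · rintro ⟨⟨⟨a, ⟨w, hw, hw'⟩⟩, s⟩, hs, hr⟩
      obtain ⟨t, ht, rfl⟩ := exists_index w hw'
      refine ⟨⟨((a : ℕ), t, s), ht, hs, ?_⟩, rfl⟩
      have h3 : wtx ((a, ⟨wd t, hw, hw'⟩) : JJ 1 N) = (a : ℕ) + t.sum := by
        show (a : ℕ) + (wd t).length = _
        rw [len_wd t ht]
      simp only at hr
      rw [h3] at hr
      exact hr
  refine ⟨Equiv.ofBijective f hf, fun p => ?_⟩
  show Real.log x ^ p.1.1 * Lis p.1.2.1 x * Lis p.1.2.2 (1 - x) = Real.log x ^ p.1.1 * V (wd p.1.2.1) x * V (wd p.1.2.2) (1 - x)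
  rw [Lis_eq _ p.2.1 h1, Lis_eq _ (hF _ p.2.2.1).1 h2]

/-- the independence of the reindexed family -/
theorem li_iff {x : ℝ} (hx : 0 < x) (hx1 : x < 1) {N : ℕ} {F : List ℕ → Prop} (hF : ∀ s, F s → Adm s) {R : ℕ → ℕ → Prop}
    (hR : ∀ m k, R m k → m + k ≤ N) :
    (LinearIndependent ℚ fun p : Ei F R => vl x p.1) ↔
      LinearIndependent ℚ fun p : Fi N F R => pp x p.1.1 * V (wd p.1.2) (1 - x) := by
  obtain ⟨e, he⟩ := reindex hx hx1 hF hR
  rw [← linearIndependent_equiv e]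
  have h1 : (fun p : Ei F R => vl x p.1) = (fun p : Fi N F R => pp x p.1.1 * V (wd p.1.2) (1 - x)) ∘ e := funext he
  rw [h1]

theorem range_eq {x : ℝ} (hx : 0 < x) (hx1 : x < 1) {N : ℕ} {F : List ℕ → Prop} (hF : ∀ s, F s → Adm s) {R : ℕ → ℕ → Prop}
    (hR : ∀ m k, R m k → m + k ≤ N) :
    Set.range (fun p : Ei F R => vl x p.1) = Set.range fun p : Fi N F R => pp x p.1.1 * V (wd p.1.2) (1 - x) := by
  obtain ⟨e, he⟩ := reindex hx hx1 hF hR
  have h1 : (fun p : Ei F R => vl x p.1) = (fun p : Fi N F R => pp x p.1.1 * V (wd p.1.2) (1 - x)) ∘ e := funext he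
  rw [h1, Set.range_comp, e.surjective.range_eq, Set.image_univ]

/-- multiple zeta values as sums over tuples -/
lemma val_tsum (s : List ℕ) (hs : Adm s) :
    ∑' m : {m : Fin s.length → ℕ // StrictAnti m ∧ ∀ i, 0 < m i}, ∏ i, ((m.1 i : ℝ) ^ (s.get i))⁻¹ = val s := by
  have h1 := Pool.Agent.H447R2.MZ.hasSum_val s.length s.get (by rw [List.ofFn_get]; exact hs)
  rw [List.ofFn_get] at h1
  exact h1.tsum_eq

end Pool.Agent.Q189.MV
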