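import Pool.Agent.Q189.MV.Dim
import Pool.Agent.Q189.Z3.Crit
import Pool.Agent.Q189.HL.Fin2
import Pool.Agent.Q189.HC.Mes

/-!
# Independence at almost all integers
-/

set_option autoImplicit false

open PowerSeries Filter Topology

namespace Pool.Agent.Q189.MV

open Pool.Agent.Y119.ML (LL UU In geo adm adm_tail adm_none const_LL theta_LL theta_In const_In WI JJ S S_zero)
open Pool.Agent.Q189.Z3 (L α1 α1_inj α1_ne UU0 UU1 coeff_geo_mul B1L B1w summ S_Xmul hd0 hd1 const_lim S0 Snil sint_nat sint_card)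
open Pool.Agent.H447R2.MZ (H Adm val Zs)
open Pool.Agent.Q189.HL (JX GdL)
open Pool.Agent.Y916.Al (evc)
open Pool.Agent.Y916.Sl (SInt sint_fin)
open Pool.Agent.Q246.NR Pool.Agent.Q246.NR2 Pool.Agent.Q246.LN

/-- arbitrarily large good heights -/
def Often (Gd : (Fin 1 → ℂ) → ℝ → Prop) (n : ℕ) : Prop := ∀ H₀ : ℝ, ∃ H, H₀ ≤ H ∧ Gd (fun _ => (n : ℂ)) H

/-- the integers with arbitrarily large good heights -/
theorem exc {Gd : (Fin 1 → ℂ) → ℝ → Prop} {C c : ℝ} (hc : 0 < c) {T : ℕ} (hT : 1 ≤ T)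
    (h : (({x : Fin 1 → ℂ | (∀ j, SInt 1 T (x j)) ∧ ¬ ∀ N₀ : ℕ, ∃ N, N₀ ≤ N ∧
      (({j : ℕ | j < N ∧ ¬ ∀ H : ℝ, 2 ^ (2 ^ j) ≤ H → H ≤ 2 ^ (2 ^ (j + 1)) → Gd x H}.ncard : ℕ) : ℝ) ≤
          (T : ℝ) ^ (-c) * N}.ncard : ℕ) : ℝ) ≤ C * (T : ℝ) ^ (-c) * (({ξ : ℂ | SInt 1 T ξ}.ncard : ℕ) : ℝ) ^ 1) :
    (({n : ℕ | 3 ≤ n ∧ n ≤ T ∧ ¬ Often Gd n}.ncard : ℕ) : ℝ) ≤ 3 * max C 0 * (T : ℝ) ^ (1 - c) := by
  classical
  have hT0 : (0 : ℝ) < T := by exact_mod_cast hT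
  rcases Nat.lt_or_ge T 2 with hT2 | hT2
  · have h1 : {n : ℕ | 3 ≤ n ∧ n ≤ T ∧ ¬ Often Gd n} = ∅ := by
      ext n
      simp only [Set.mem_ofPred_eq, Set.mem_empty_iff_false, iff_false]
      rintro ⟨ha, hb, -⟩
      omega
    rw [h1, Set.ncard_empty, Nat.cast_zero]
    positivity
  set δ : ℝ := (T : ℝ) ^ (-c) with hδ
  have hδ1 : δ < 1 := Real.rpow_lt_one_of_one_lt_of_neg (by exact_mod_cast hT2) (by linarith)
  have hδ0 : 0 < δ := Real.rpow_pos_of_pos hT0 _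
  rw [pow_one] at h
  have h2 : (({ξ : ℂ | SInt 1 T ξ}.ncard : ℕ) : ℝ) ≤ 3 * T := by
    have h3 := sint_card T
    calc (({ξ : ℂ | SInt 1 T ξ}.ncard : ℕ) : ℝ) ≤ ((2 * T + 1 : ℕ) : ℝ) := by exact_mod_cast h3
      _ ≤ 3 * T := by
        push_cast
        have : (1 : ℝ) ≤ T := by exact_mod_cast hT
        linarith
  refine (Nat.cast_le.2 ?_).trans (h.trans ?_)
  · refine Set.ncard_le_ncard_of_injOn (fun n : ℕ => fun _ : Fin 1 => (n : ℂ)) (fun n hn => ?_)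
      (fun a _ b _ hab => Nat.cast_injective (R := ℂ) (congrFun hab 0))
      ((Set.Finite.pi' fun _ : Fin 1 => sint_fin 1 T).subset fun x hx => hx.1)
    obtain ⟨hn3, hnT, hno⟩ := hn
    refine ⟨fun _ => sint_nat hnT, fun hcon => hno fun H₀ => ?_⟩
    obtain ⟨j₀, hj₀⟩ : ∃ j₀ : ℕ, H₀ ≤ 2 ^ (2 ^ j₀) := by
      refine ⟨⌈H₀⌉₊, (Nat.le_ceil H₀).trans ?_⟩
      have h3 : ∀ j : ℕ, j ≤ 2 ^ (2 ^ j) := fun j =>
        (Nat.lt_two_pow_self (n := j)).le.trans (Nat.pow_le_pow_right (by norm_num) (Nat.lt_two_pow_self (n := j)).le)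
      exact_mod_cast h3 _
    obtain ⟨N, hN, hbad⟩ := hcon (⌈(j₀ : ℝ) / (1 - δ)⌉₊ + 1)
    have hδ' : 0 < 1 - δ := by linarith
    have hN1 : (j₀ : ℝ) < N * (1 - δ) := by
      rw [← div_lt_iff₀ hδ']
      exact lt_of_le_of_lt (Nat.le_ceil _) (by exact_mod_cast hN)
    have hex : ∃ j, j₀ ≤ j ∧ ∀ H : ℝ, 2 ^ (2 ^ j) ≤ H → H ≤ 2 ^ (2 ^ (j + 1)) → Gd (fun _ : Fin 1 => (n : ℂ)) H := by
      by_contra hne
      push Not at hne
      have h5 : ((Finset.Ico j₀ N : Finset ℕ) : Set ℕ) ⊆ {j : ℕ | j < N ∧ ¬ ∀ H : ℝ, 2 ^ (2 ^ j) ≤ H → H ≤ 2 ^ (2 ^ (j + 1)) →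
          Gd (fun _ : Fin 1 => (n : ℂ)) H} := by
        intro j hj
        rw [Finset.mem_coe, Finset.mem_Ico] at hj
        refine ⟨hj.2, fun hall => ?_⟩
        obtain ⟨H, ha, hb, hcc⟩ := hne j hj.1
        exact hcc (hall H ha hb)
      have h6 := Set.ncard_le_ncard h5 ((Set.finite_lt_nat N).subset fun j hj => hj.1)
      rw [Set.ncard_coe_finset, Nat.card_Ico] at h6
      have h7 : ((N - j₀ : ℕ) : ℝ) ≤ δ * N := (Nat.cast_le.2 h6).trans hbad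
      have h8 : (N : ℝ) - j₀ ≤ ((N - j₀ : ℕ) : ℝ) := by
        rw [sub_le_iff_le_add]
        exact_mod_cast Nat.sub_le_iff_le_add.1 le_rfl
      nlinarith
    obtain ⟨j, hj, hgood⟩ := hex
    exact ⟨2 ^ (2 ^ j), hj₀.trans (pow_le_pow_right₀ (by norm_num) (Nat.pow_le_pow_right (by norm_num) hj)),
      hgood _ le_rfl (pow_le_pow_right₀ (by norm_num) (Nat.pow_le_pow_right (by norm_num) (Nat.le_succ j)))⟩
  · calc C * δ * (({ξ : ℂ | SInt 1 T ξ}.ncard : ℕ) : ℝ) ≤ max C 0 * δ * (3 * T) :=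
        mul_le_mul (mul_le_mul_of_nonneg_right (le_max_left _ _) hδ0.le) h2 (by positivity) (by positivity)
      _ = 3 * max C 0 * (δ * T) := by ring
      _ = 3 * max C 0 * (T : ℝ) ^ (1 - c) := by
        congr 1
        rw [hδ, ← Real.rpow_add_one hT0.ne']
        congr 1
        ring

lemma evc_V (w : List (Option (Fin 1))) (t : ℝ) : evc (1 / (t : ℂ)) (LL α1 0 w) = ((V w (1 / t) : ℝ) : ℂ) := by
  unfold evc V S
  rw [Complex.ofReal_tsum]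
  refine tsum_congr fun m => ?_
  push_cast
  rfl

/-- independence over a space of complex numbers -/
def IndC (x : ℝ) (N : ℕ) (K : Submodule ℚ ℂ) : Prop :=
  ∀ z : JJ 1 N → ℂ, (∀ b, z b ∈ K) → ∑ b, z b * ((pp x b : ℝ) : ℂ) = 0 → z = 0

theorem ind_of {N g B : ℕ} (ζ : Fin g → ℂ) {n : ℕ} (hn : 2 ≤ n)
    (h : Often (fun x H => GdL (r := fun _ : Fin 1 => 1) (fun _ => α1) N 1 B ζ x H) n) :
    IndC (1 / n) N (Submodule.span ℚ (Set.range ζ)) := by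
  classical
  intro z hz h0
  have hn0 : (2 : ℝ) ≤ n := by exact_mod_cast hn
  have h1 : ∀ b, ∃ c : Fin g → ℚ, ∑ i, c i • ζ i = z b := fun b => (Submodule.mem_span_range_iff_exists_fun ℚ).1 (hz b)
  choose c hc using h1
  obtain ⟨D, a, hD, ha⟩ := Pool.Agent.Q189.HC.rat_den (fun p : JJ 1 N × Fin g => c p.1 p.2)
  set Pj : JJ 1 N → MvPolynomial (Fin g ⊕ Fin 1) ℤ := fun b =>
    ∑ i, MvPolynomial.C ((-1) ^ (b.1 : ℕ) * a (b, i)) * MvPolynomial.X (Sum.inl i) with hPj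
  have hPd : ∀ b, (Pj b).totalDegree ≤ 1 := fun b =>
    MvPolynomial.totalDegree_finsetSum_le fun i _ => (MvPolynomial.totalDegree_mul _ _).trans (by
      rw [MvPolynomial.totalDegree_C, zero_add]
      exact Pool.Agent.Q189.JM.dX' _)
  obtain ⟨M, hM⟩ : ∃ M : ℝ, ∀ b e, |(((Pj b).coeff e : ℤ) : ℝ)| ≤ M := by
    refine ⟨∑ b, len (Pj b), fun b e => (abs_coeff_le_len _ _).trans ?_⟩
    exact Finset.single_le_sum (f := fun b => len (Pj b)) (fun b _ => len_nonneg _) (Finset.mem_univ b)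
  obtain ⟨H, hH, hgd⟩ := h (max M n)
  have hHM : M ≤ H := (le_max_left _ _).trans hH
  have hHn : (n : ℝ) ≤ H := (le_max_right _ _).trans hH
  obtain ⟨-, g2⟩ := hgd (fun _ => ((Real.log n : ℝ) : ℂ)) (fun _ => by
    rw [← Complex.ofReal_exp, Real.exp_log (by linarith)]
    simp) (fun _ => by
    have h1 : 0 ≤ Real.log (n : ℝ) := Real.log_nonneg (by linarith)
    rw [Complex.norm_real, Real.norm_eq_abs, abs_of_nonneg h1]
    have h2 := Real.log_le_sub_one_of_pos (x := (n : ℝ)) (by linarith)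
    linarith)
  have hval : ∀ b : JJ 1 N, MvPolynomial.aeval (Sum.elim ζ fun _ : Fin 1 => (n : ℂ)) (Pj b) =
      (-1) ^ (b.1 : ℕ) * (D : ℂ) * z b := by
    intro b
    rw [hPj, map_sum, ← hc, Finset.mul_sum]
    refine Finset.sum_congr rfl fun i _ => ?_
    rw [map_mul, MvPolynomial.aeval_C, MvPolynomial.aeval_X]
    have h2 : ((a (b, i) : ℤ) : ℂ) = (D : ℂ) * ((c b i : ℚ) : ℂ) := by
      have h3 := ha (b, i)
      have h4 : (((a (b, i) : ℤ) : ℚ) : ℂ) = (((D : ℚ) * c b i : ℚ) : ℂ) := by rw [h3]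
      push_cast at h4
      exact h4
    show ((((-1) ^ (b.1 : ℕ) * a (b, i) : ℤ)) : ℂ) * ζ i = _
    push_cast
    rw [h2, Rat.smul_def]
    ring
  have hsum : ∑ b : JX (fun _ : Fin 1 => 1) N, MvPolynomial.aeval (Sum.elim ζ fun _ : Fin 1 => (n : ℂ)) (Pj (b 0)) *
      ∏ j, ((((Real.log n : ℝ) : ℂ)) ^ ((b j).1 : ℕ) * evc (1 / (n : ℂ)) (LL α1 0 (b j).2.1)) = 0 := by
    have e1 : ∑ b : JX (fun _ : Fin 1 => 1) N, MvPolynomial.aeval (Sum.elim ζ fun _ : Fin 1 => (n : ℂ)) (Pj (b 0)) *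
        ∏ j, ((((Real.log n : ℝ) : ℂ)) ^ ((b j).1 : ℕ) * evc (1 / (n : ℂ)) (LL α1 0 (b j).2.1)) =
        ∑ b : JJ 1 N, (D : ℂ) * (z b * ((pp (1 / n) b : ℝ) : ℂ)) := by
      refine Fintype.sum_equiv (Equiv.funUnique (Fin 1) (JJ 1 N)) _ _ fun b => ?_
      rw [Fin.prod_univ_one, hval]
      have e2 : Equiv.funUnique (Fin 1) (JJ 1 N) b = b 0 := rfl
      rw [e2]
      have e3 := evc_V (b 0).2.1 (n : ℝ)
      rw [Complex.ofReal_natCast] at e3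
      rw [e3]
      have e5 : Real.log (1 / (n : ℝ)) = -Real.log n := by rw [one_div, Real.log_inv]
      unfold pp
      rw [e5, Complex.ofReal_mul, Complex.ofReal_pow, Complex.ofReal_neg, neg_pow ((Real.log n : ℝ) : ℂ)]
      ring
    rw [e1, ← Finset.mul_sum, h0, mul_zero]
  funext b₀
  have h3 := g2 (fun b => Pj (b 0)) (fun b => hPd _) (fun b e => (hM _ e).trans hHM) (fun _ => b₀)
  rw [hsum, norm_zero, mul_zero, hval] at h3
  have h4 := norm_le_zero_iff.1 h3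
  have hD' : (D : ℂ) ≠ 0 := by exact_mod_cast hD
  have h5 : ((-1 : ℂ)) ^ (b₀.1 : ℕ) ≠ 0 := pow_ne_zero _ (by norm_num)
  rcases mul_eq_zero.1 h4 with h6 | h6
  · exact absurd h6 (mul_ne_zero h5 hD')
  · exact h6

/-- independence over any finitely generated space of complex numbers at almost all integers -/
theorem few_badC (N g : ℕ) : ∃ C c : ℝ, 0 < c ∧ ∀ ζ : Fin g → ℂ, ∀ T : ℕ, 1 ≤ T →
    (({n : ℕ | 3 ≤ n ∧ n ≤ T ∧ ¬ IndC (1 / n) N (Submodule.span ℚ (Set.range ζ))}.ncard : ℕ) : ℝ) ≤ C * (T : ℝ) ^ (1 - c) := by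
  obtain ⟨B, C, c, hc, hmain⟩ := Pool.Agent.Q189.HL.main (k := 1) (r := fun _ => 1) (fun _ => α1) (fun _ => α1_inj)
    (fun _ => α1_ne) N g 1 1 le_rfl
  refine ⟨3 * max C 0, c, hc, fun ζ T hT => ?_⟩
  refine le_trans (Nat.cast_le.2 (Set.ncard_le_ncard ?_ ((Set.finite_le_nat T).subset fun n hn => hn.2.1))) (exc hc hT ((hmain T hT).2 ζ))
  rintro n ⟨h1, h2, h3⟩
  exact ⟨h1, h2, fun h4 => h3 (ind_of ζ (by omega) h4)⟩

/-- real constants -/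
lemma ind_real {x : ℝ} {N g : ℕ} (ζ : Fin g → ℝ) (hζ : Submodule.span ℚ (Set.range ζ) = Tz N)
    (h : IndC x N (Submodule.span ℚ (Set.range fun i => ((ζ i : ℝ) : ℂ)))) : Ind x N := by
  intro z hz h0
  have h1 : ∀ b, ((z b : ℝ) : ℂ) ∈ Submodule.span ℚ (Set.range fun i => ((ζ i : ℝ) : ℂ)) := by
    intro b
    have h2 := hz b
    rw [← hζ, Submodule.mem_span_range_iff_exists_fun] at h2
    obtain ⟨c, hc⟩ := h2
    rw [Submodule.mem_span_range_iff_exists_fun]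
    refine ⟨c, ?_⟩
    rw [← hc]
    rw [Complex.ofReal_sum]
    refine Finset.sum_congr rfl fun i _ => ?_
    rw [Rat.smul_def, Rat.smul_def]
    push_cast
    rfl
  have h2 := h (fun b => ((z b : ℝ) : ℂ)) h1 (by
    have h3 : ((∑ b, z b * pp x b : ℝ) : ℂ) = 0 := by rw [h0]; rfl
    push_cast at h3
    exact h3)
  funext b
  exact Complex.ofReal_eq_zero.1 (congrFun h2 b)

theorem few_bad (N : ℕ) : ∃ C c : ℝ, 0 < c ∧ ∀ T : ℕ, 1 ≤ T →
    (({n : ℕ | 3 ≤ n ∧ n ≤ T ∧ ¬ Ind (1 / n) N}.ncard : ℕ) : ℝ) ≤ C * (T : ℝ) ^ (1 - c) := by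
  have hfg : (Tz N).FG := by
    rw [Tz_eq]
    exact Submodule.fg_span ((fin_index N).image _)
  obtain ⟨g, ζ, hζ⟩ := Submodule.fg_iff_exists_fin_generating_family.1 hfg
  obtain ⟨C, c, hc, h⟩ := few_badC N g
  refine ⟨C, c, hc, fun T hT => ?_⟩
  refine le_trans (Nat.cast_le.2 (Set.ncard_le_ncard ?_ ((Set.finite_le_nat T).subset fun n hn => hn.2.1))) (h (fun i => ((ζ i : ℝ) : ℂ)) T hT)
  rintro n ⟨h1, h2, h3⟩
  exact ⟨h1, h2, fun h4 => h3 (ind_real ζ hζ h4)⟩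

end Pool.Agent.Q189.MV
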