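import Pool.Agent.Q189.MV.GrC

/-!
# The KZ associator and one integer
-/

set_option autoImplicit false

open Module

namespace Pool.Agent.Q189.MV.KZ2

open Pool.Agent.H447R2.MZ (H Adm val Zs)
open Pool.Agent.Q187.ZD
open Pool.Agent.Q187.ZD.KZ

/-- the span of the products of powers of `2 π i` and values at `1 - 1/n` and `1/n` -/
noncomputable def Wn (n N : ℕ) : Submodule ℚ ℂ :=
  Submodule.span ℚ {r : ℂ | ∃ (a : ℕ) (s t : List ℕ), (∀ b ∈ s, 1 ≤ b) ∧ (∀ b ∈ t, 1 ≤ b) ∧ a + s.sum + t.sum ≤ N ∧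
    r = (2 * Real.pi * Complex.I) ^ a * ((Lis s (1 - 1 / n) * Lis t (1 / n) : ℝ) : ℂ)}

lemma T_mul (i j : ℕ) : ∀ z ∈ Zs i, ∀ g ∈ T j, (z : ℂ) * g ∈ T (i + j) := by
  intro z hz g hg
  unfold T at hg
  induction hg using Submodule.span_induction with
  | mem g hg =>
    obtain ⟨a, w, y, h1, h2, rfl⟩ := hg
    refine Submodule.subset_span ⟨a, i + w, z * y, by omega, Pool.Agent.H447R2.MZ.mul_mem i w z y hz h2, ?_⟩
    push_cast
    ring
  | zero => rw [mul_zero]; exact Submodule.zero_mem _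
  | add r s _ _ hr hs => rw [mul_add]; exact Submodule.add_mem _ hr hs
  | smul c r _ hr =>
    rw [mul_smul_comm]
    exact Submodule.smul_mem _ _ hr

lemma T_fd (N : ℕ) : FiniteDimensional ℚ (T N) := by
  have h1 : T N ≤ Submodule.span ℚ ((fun p : ℕ × ℝ => (2 * Real.pi * Complex.I) ^ p.1 * ((p.2 : ℝ) : ℂ)) ''
      ((Finset.range (N + 1) : Set ℕ) ×ˢ (val '' {s : List ℕ | Adm s ∧ s.sum ≤ N}))) := by
    unfold T
    rw [Submodule.span_le]
    rintro _ ⟨a, w, z, h1, h2, rfl⟩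
    have h3 : z ∈ Submodule.span ℚ (val '' {s : List ℕ | Adm s ∧ s.sum ≤ N}) := by
      rw [← Tz_eq]
      exact Zs_le_Tz (by omega) h2
    have ha : a ∈ ((Finset.range (N + 1) : Finset ℕ) : Set ℕ) := by
      rw [Finset.mem_coe, Finset.mem_range]
      omega
    refine span_ofReal (fun r hr => ?_) h3
    refine Submodule.subset_span ?_
    exact ⟨(a, r), Set.mk_mem_prod ha hr, rfl⟩
  have h2 : FiniteDimensional ℚ (Submodule.span ℚ ((fun p : ℕ × ℝ => (2 * Real.pi * Complex.I) ^ p.1 * ((p.2 : ℝ) : ℂ)) ''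
      ((Finset.range (N + 1) : Set ℕ) ×ˢ (val '' {s : List ℕ | Adm s ∧ s.sum ≤ N})))) :=
    FiniteDimensional.span_of_finite ℚ (((Finset.finite_toSet _).prod ((fin_index N).image _)).image _)
  exact Submodule.finiteDimensional_of_le h1

theorem Wn_eq {n : ℕ} (hn : 2 ≤ n) (N : ℕ) : Wn n N = VG T (1 / n) N := by
  obtain ⟨e1, e2⟩ := inv_pos_lt hn
  refine le_antisymm ?_ ?_
  · unfold Wn
    rw [Submodule.span_le]
    rintro _ ⟨a, s, t, hs, ht, hN, rfl⟩
    refine Submodule.subset_span ⟨N - s.sum - t.sum, (2 * Real.pi * Complex.I) ^ a, s, t, ?_, hs, ht, by omega, rfl⟩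
    refine Submodule.subset_span ⟨a, 0, 1, by omega, Pool.Agent.H447R2.MZ.one_mem, ?_⟩
    rw [Complex.ofReal_one, mul_one]
  · unfold VG
    rw [Submodule.span_le]
    rintro _ ⟨k, g, s, t, hg, hs, ht, hN, rfl⟩
    rw [SetLike.mem_coe]
    have key : ∀ g ∈ T k, g * ((Lis s (1 - 1 / n) * Lis t (1 / n) : ℝ) : ℂ) ∈ Wn n N := by
      intro g hg
      unfold T at hg
      induction hg using Submodule.span_induction with
      | mem g hg =>
        obtain ⟨a, w, z, h1, h2, rfl⟩ := hg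
        have h3 : z * (Lis s (1 - 1 / n) * Lis t (1 / n)) ∈ VN (1 / (n : ℝ)) (w + (s.sum + t.sum)) := by
          refine VN_mul e1 e2 (Zs_le_VN e1 e2 w h2) ?_
          rw [← Spc_eq e1 e2]
          exact Submodule.subset_span ⟨s, t, hs, ht, rfl, rfl⟩
        rw [← Spc_eq e1 e2] at h3
        have h4 : (2 * Real.pi * Complex.I) ^ a * ((z : ℝ) : ℂ) * ((Lis s (1 - 1 / n) * Lis t (1 / n) : ℝ) : ℂ) =
            (2 * Real.pi * Complex.I) ^ a * ((z * (Lis s (1 - 1 / n) * Lis t (1 / n)) : ℝ) : ℂ) := by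
          push_cast
          ring
        rw [h4]
        unfold Spc at h3
        refine span_ofReal ?_ h3
        rintro _ ⟨s', t', hs', ht', hst, rfl⟩
        exact Submodule.subset_span ⟨a, s', t', hs', ht', by omega, rfl⟩
      | zero => rw [zero_mul]; exact Submodule.zero_mem _
      | add r s _ _ hr hs => rw [add_mul]; exact Submodule.add_mem _ hr hs
      | smul c r _ hr =>
        rw [smul_mul_assoc]
        exact Submodule.smul_mem _ _ hr
    exact key g hg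

/-- the weighted sum -/
def RR (r : ℕ → ℕ) (N : ℕ) : ℕ := ∑ k ∈ Finset.range (N + 1), 2 ^ k * r (N - k)

lemma RR_succ (r : ℕ → ℕ) (N : ℕ) : RR r (N + 1) = 2 * RR r N + r (N + 1) := by
  unfold RR
  rw [Finset.sum_range_succ', Finset.mul_sum]
  congr 1
  · refine Finset.sum_congr rfl fun k _ => ?_
    rw [show N + 1 - (k + 1) = N - k by omega, pow_succ]
    ring
  · simp

lemma RR_le {r : ℕ → ℕ} (hr : ∀ N, r N ≤ 2 ^ (N + 2)) (N : ℕ) : RR r N ≤ (N + 1) * 2 ^ (N + 2) := by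
  unfold RR
  refine (Finset.sum_le_sum (g := fun _ => 2 ^ (N + 2)) fun k hk => ?_).trans ?_
  · have hk' := Finset.mem_range.1 hk
    calc 2 ^ k * r (N - k) ≤ 2 ^ k * 2 ^ (N - k + 2) := Nat.mul_le_mul_left _ (hr _)
      _ = 2 ^ (N + 2) := by
        rw [← pow_add]
        congr 1
        omega
  · rw [Finset.sum_const, Finset.card_range, smul_eq_mul]

lemma growth2 (D : ℕ → ℕ) (h0 : ∀ N, 1 ≤ D N) (hD : ∀ N, D N ≤ (N + 1) * 2 ^ (N + 2)) (p N₀ : ℕ) :
    ∃ N ≥ N₀, D (N + p) < 2 ^ (p + 1) * D N := by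
  by_contra hcon
  push Not at hcon
  have key : ∀ i, (2 ^ (p + 1)) ^ i ≤ D (N₀ + i * p) := by
    intro i
    induction i with
    | zero => simpa using h0 N₀
    | succ i ih =>
      have := hcon (N₀ + i * p) (by omega)
      calc (2 ^ (p + 1)) ^ (i + 1) = 2 ^ (p + 1) * (2 ^ (p + 1)) ^ i := by ring
        _ ≤ 2 ^ (p + 1) * D (N₀ + i * p) := Nat.mul_le_mul_left _ ih
        _ ≤ D (N₀ + i * p + p) := this
        _ = D (N₀ + (i + 1) * p) := by congr 1; ring
  -- compare the growth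
  have h1 : ∀ i, 2 ^ i ≤ (N₀ + i * p + 1) * 2 ^ (N₀ + 2) := by
    intro i
    have h2 := (key i).trans (hD _)
    have h3 : (2 ^ (p + 1)) ^ i = 2 ^ i * 2 ^ (i * p) := by
      rw [← pow_mul, ← pow_add]
      congr 1
      ring
    have h4 : (N₀ + i * p + 1) * 2 ^ (N₀ + i * p + 2) = (N₀ + i * p + 1) * 2 ^ (N₀ + 2) * 2 ^ (i * p) := by
      rw [mul_assoc, ← pow_add]
      congr 2
      ring
    rw [h3, h4] at h2
    exact Nat.le_of_mul_le_mul_right h2 (by positivity)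
  obtain ⟨i, hi⟩ : ∃ i : ℕ, (N₀ + i * p + 1) * 2 ^ (N₀ + 2) < 2 ^ i := by
    have h5 : Filter.Tendsto (fun i : ℕ => ((N₀ + 1 + i * p : ℝ) * 2 ^ (N₀ + 2)) / 2 ^ i) Filter.atTop (nhds 0) := by
      have h6 := tendsto_pow_const_div_const_pow_of_one_lt 1 (show (1 : ℝ) < 2 by norm_num)
      have h7 := tendsto_pow_const_div_const_pow_of_one_lt 0 (show (1 : ℝ) < 2 by norm_num)
      have h8 := ((h7.const_mul (((N₀ : ℝ) + 1) * 2 ^ (N₀ + 2))).add (h6.const_mul ((p : ℝ) * 2 ^ (N₀ + 2))))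
      simp only [mul_zero, add_zero] at h8
      refine h8.congr fun i => ?_
      simp only [pow_zero, pow_one]
      ring
    have h9 := (h5.eventually (gt_mem_nhds one_pos)).exists
    obtain ⟨i, hi⟩ := h9
    refine ⟨i, ?_⟩
    rw [div_lt_one (by positivity)] at hi
    have h10 : (((N₀ + i * p + 1) * 2 ^ (N₀ + 2) : ℕ) : ℝ) < ((2 ^ i : ℕ) : ℝ) := by
      push_cast
      linarith
    exact_mod_cast h10
  exact absurd (h1 i) (by omega)

section
variable {R : Type} [CommRing R] [Algebra ℚ R] {gr : ℕ → Submodule ℚ R} {μ : R} {φ : R →ₐ[ℚ] ℂ}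
  (h : IsAssociatorRing gr μ φ)
include h

lemma T_le (k : ℕ) : finrank ℚ (T k) ≤ finrank ℚ (tot gr k) := by
  have := finite_tot gr h.finite k
  rw [← h.image k]
  exact Submodule.finrank_map_le _ _

lemma T_eq_iff (N : ℕ) : finrank ℚ (T N) = finrank ℚ (tot gr N) ↔ ¬ Relation gr φ N := by
  have := finite_tot gr h.finite N
  have h1 := LinearMap.finrank_range_add_finrank_ker (φ.toLinearMap.comp (tot gr N).subtype)
  have h2 : LinearMap.range (φ.toLinearMap.comp (tot gr N).subtype) = T N := by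
    rw [← h.image N, LinearMap.range_comp, Submodule.range_subtype]
  rw [h2] at h1
  constructor
  · intro h3
    have h4 : finrank ℚ (LinearMap.ker (φ.toLinearMap.comp (tot gr N).subtype)) = 0 := by omega
    rw [Submodule.finrank_eq_zero, LinearMap.ker_eq_bot'] at h4
    rintro ⟨x, hx, hx0, h0⟩
    exact hx0 (congrArg Subtype.val (h4 ⟨x, hx⟩ h0))
  · intro h3
    have h4 : LinearMap.ker (φ.toLinearMap.comp (tot gr N).subtype) = ⊥ := by
      rw [LinearMap.ker_eq_bot']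
      rintro ⟨x, hx⟩ h0
      by_contra hne
      exact h3 ⟨x, hx, fun h5 => hne (Subtype.ext h5), h0⟩
    rw [h4, finrank_bot] at h1
    omega

theorem bound {n : ℕ} (hn : 2 ≤ n) (N : ℕ) : finrank ℚ (Wn n N) ≤ RR (fun k => finrank ℚ (tot gr k)) N := by
  rw [Wn_eq hn]
  exact (finrank_VG_le T_fd T_mul hn N).trans (Finset.sum_le_sum fun k _ => Nat.mul_le_mul_left _ (T_le h _))

theorem one_iff (N : ℕ) : (¬ Relation gr φ N) ↔ ∃ n : ℕ, 2 ≤ n ∧ finrank ℚ (Wn n N) = RR (fun k => finrank ℚ (tot gr k)) N := by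
  have h1 := critG T_fd T_mul (r := fun k => finrank ℚ (tot gr k)) (T_le h) N
  have h2 : (¬ Relation gr φ N) ↔ ∀ k ≤ N, finrank ℚ (T k) = finrank ℚ (tot gr k) := by
    constructor
    · intro h3 k hk
      rw [T_eq_iff h]
      rintro ⟨x, hx, hx'⟩
      exact h3 ⟨x, tot_mono gr hk hx, hx'⟩
    · intro h3
      exact (T_eq_iff h N).1 (h3 N le_rfl)
  rw [h2, h1]
  refine exists_congr fun n => and_congr_right fun hn => ?_
  rw [Wn_eq hn]
  exact Iff.rfl

theorem drop2 {p : ℕ} (hr : Relation gr φ p) {n : ℕ} (hn : 2 ≤ n) (N : ℕ) :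
    finrank ℚ (Wn n (N + p)) + RR (fun k => finrank ℚ (tot gr k)) N ≤ RR (fun k => finrank ℚ (tot gr k)) (N + p) := by
  rw [Wn_eq hn]
  refine (Nat.add_le_add_right (finrank_VG_le T_fd T_mul hn (N + p)) _).trans ?_
  unfold RR
  rw [show N + p + 1 = (N + 1) + p by ring, Finset.sum_range_add, Finset.sum_range_add _ (N + 1) p, add_right_comm, ← Finset.sum_add_distrib]
  refine Nat.add_le_add (Finset.sum_le_sum fun k hk => ?_) (Finset.sum_le_sum fun k _ => Nat.mul_le_mul_left _ (T_le h _))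
  have hk' := Finset.mem_range.1 hk
  have h3 := drop h (p := p) (N := N + p - k) (by omega) hr
  rw [show N + p - k - p = N - k by omega] at h3
  rw [← mul_add]
  exact Nat.mul_le_mul_left _ h3

lemma RR_pos (N : ℕ) : 1 ≤ RR (fun k => finrank ℚ (tot gr k)) N := by
  unfold RR
  rw [Finset.sum_range_succ']
  have := r_pos h (N - 0)
  simp only [pow_zero, one_mul]
  omega

theorem counts2 : Function.Injective φ ↔ ∀ p, ∃ N n : ℕ, 2 ≤ n ∧
    RR (fun k => finrank ℚ (tot gr k)) (N + p) < finrank ℚ (Wn n (N + p)) + RR (fun k => finrank ℚ (tot gr k)) N := by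
  rw [injective_iff h]
  constructor
  · intro hp p
    obtain ⟨n, hn, h1⟩ := (one_iff h (0 + p)).1 (hp (0 + p))
    refine ⟨0, n, hn, ?_⟩
    rw [h1]
    have := RR_pos h 0
    omega
  · intro hp p hr
    obtain ⟨N, n, hn, h1⟩ := hp p
    have := drop2 h hr hn N
    omega

theorem limit2 : Function.Injective φ ↔ ∀ ε : ℝ, 0 < ε → ∃ N₀ : ℕ, ∀ N ≥ N₀, ∃ n : ℕ, 2 ≤ n ∧
    (1 - ε) * RR (fun k => finrank ℚ (tot gr k)) N ≤ finrank ℚ (Wn n N) := by
  rw [injective_iff h]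
  constructor
  · intro hp ε hε
    refine ⟨0, fun N _ => ?_⟩
    obtain ⟨n, hn, h1⟩ := (one_iff h N).1 (hp N)
    refine ⟨n, hn, ?_⟩
    rw [h1]
    have : (0 : ℝ) ≤ RR (fun k => finrank ℚ (tot gr k)) N := by positivity
    nlinarith
  · intro hε p hr
    obtain ⟨N₀, h0⟩ := hε ((2 ^ (p + 1) : ℝ)⁻¹ / 2) (by positivity)
    obtain ⟨N, hN, h1⟩ := growth2 (RR (fun k => finrank ℚ (tot gr k))) (RR_pos h) (RR_le h.growth) p N₀
    obtain ⟨n, hn, h2⟩ := h0 (N + p) (by omega)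
    have h3 := drop2 h hr hn N
    have h4 : (finrank ℚ (Wn n (N + p)) : ℝ) + RR (fun k => finrank ℚ (tot gr k)) N ≤ RR (fun k => finrank ℚ (tot gr k)) (N + p) := by
      exact_mod_cast h3
    have h5 : (RR (fun k => finrank ℚ (tot gr k)) (N + p) : ℝ) < 2 ^ (p + 1) * RR (fun k => finrank ℚ (tot gr k)) N := by
      exact_mod_cast h1
    have h6 : (2 ^ (p + 1) : ℝ)⁻¹ * RR (fun k => finrank ℚ (tot gr k)) (N + p) < RR (fun k => finrank ℚ (tot gr k)) N := by
      rw [inv_mul_lt_iff₀ (by positivity)]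
      exact h5
    have h7 : (0 : ℝ) < (2 ^ (p + 1) : ℝ)⁻¹ * RR (fun k => finrank ℚ (tot gr k)) (N + p) := by
      have h8 : (0 : ℝ) < RR (fun k => finrank ℚ (tot gr k)) (N + p) := by exact_mod_cast RR_pos h (N + p)
      positivity
    nlinarith

end

/-- almost all integers -/
theorem few_W (N : ℕ) : ∃ C c : ℝ, 0 < c ∧ ∀ T' : ℕ, 1 ≤ T' →
    (({n : ℕ | 3 ≤ n ∧ n ≤ T' ∧ ¬ ∀ M ≤ N, finrank ℚ (Wn n M) = RR (fun k => finrank ℚ (T k)) M}.ncard : ℕ) : ℝ) ≤
      C * (T' : ℝ) ^ (1 - c) := by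
  obtain ⟨C, c, hc, hf⟩ := dimsG T_fd T_mul N
  refine ⟨C, c, hc, fun T' hT => ?_⟩
  refine le_trans (Nat.cast_le.2 (Set.ncard_le_ncard ?_ ((Set.finite_le_nat T').subset fun n hn => hn.2.1))) (hf T' hT)
  rintro n ⟨h1, h2, h3⟩
  refine ⟨h1, h2, fun h4 => h3 fun M hM => ?_⟩
  rw [Wn_eq (by omega)]
  exact h4 M hM

end Pool.Agent.Q189.MV.KZ2
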