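import Pool.Agent.Q189.MV.Niel4

/-!
# Linear relations between three values of the single-valued trilogarithm
-/

set_option autoImplicit false

open PowerSeries Filter Topology

namespace Pool.Agent.Q189.MV

open Pool.Agent.Y119.ML (LL UU In geo adm adm_tail adm_none const_LL theta_LL theta_In const_In WI JJ S S_zero)
open Pool.Agent.Q189.Z3 (L α1 L3 L3_eq Li SL1 SL11 vals)
open Pool.Agent.H447R2.MZ (H Adm val Zs)

/-- small forms in a family of different products have small coefficients -/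
lemma GF.apply {G W B : ℕ} {ζ : Fin G → ℂ} {n : ℕ} {H : ℝ} (h : GF W B ζ n H) (hH : 0 ≤ H) {m : ℕ} (b : Fin m → JJ 1 W)
    (hb : Function.Injective b) (v : Fin m → ℂ) (hv : ∀ k, v k ∈ Cf ζ H) (k : Fin m) :
    ‖v k‖ ≤ H ^ B * ‖∑ k, v k * ((Real.log n ^ ((b k).1 : ℕ) * V (b k).2.1 (1 / n) : ℝ) : ℂ)‖ := by
  classical
  have h1 : ∑ b', Function.extend b v 0 b' * ((Real.log n ^ ((b' : JJ 1 W).1 : ℕ) * V b'.2.1 (1 / n) : ℝ) : ℂ) =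
      ∑ k, v k * ((Real.log n ^ ((b k).1 : ℕ) * V (b k).2.1 (1 / n) : ℝ) : ℂ) := by
    rw [← Finset.sum_subset (Finset.subset_univ (Finset.univ.image b))]
    · rw [Finset.sum_image fun k _ k' _ h => hb h]
      refine Finset.sum_congr rfl fun k _ => ?_
      rw [hb.extend_apply]
    · intro b' _ hb'
      rw [Function.extend_apply', Pi.zero_apply, zero_mul]
      rintro ⟨k, rfl⟩
      exact hb' (Finset.mem_image_of_mem _ (Finset.mem_univ k))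
  have h2 := h (Function.extend b v 0) (fun b' => by
    by_cases hex : ∃ k, b k = b'
    · obtain ⟨k, rfl⟩ := hex
      rw [hb.extend_apply]
      exact hv k
    · rw [Function.extend_apply' _ _ _ hex]
      exact Cf.zero hH) (b k)
  rw [hb.extend_apply, h1] at h2
  exact h2

/-- the indices -/
def b3 : Fin 6 → JJ 1 3 := ![(0, ⟨[], by decide, by decide⟩), (0, ⟨[none, none, some 0], by decide, by decide⟩),
  (1, ⟨[none, some 0], by decide, by decide⟩), (2, ⟨[some 0], by decide, by decide⟩),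
  (0, ⟨[none, some 0, some 0], by decide, by decide⟩), (1, ⟨[some 0, some 0], by decide, by decide⟩)]

lemma b3_inj : Function.Injective b3 := by decide

/-- the linear form -/
noncomputable def F3 (β : Fin 3 → ℂ) (κ : ℂ) (n : ℕ) : ℂ :=
  κ + ∑ i, β i * ((Pool.Agent.Q189.Z3.trip n i : ℝ) : ℂ)

lemma Li_ze : Li 3 1 = ze 3 := by
  unfold Li ze
  simp only [one_pow]

/-- the coefficients -/
noncomputable def v3 (β : Fin 3 → ℂ) (κ : ℂ) : Fin 6 → ℂ :=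
  ![3 * (κ + β 1 * ((ze 3 : ℝ) : ℂ)), 3 * (β 0 - β 2), 3 * (β 0 - β 2), β 0 - β 2, -(3 * (β 1 - β 2)), -(β 1 - β 2)]

lemma F3_eq {n : ℕ} (hn : 3 ≤ n) (β : Fin 3 → ℂ) (κ : ℂ) :
    ∑ k, v3 β κ k * ((Real.log n ^ ((b3 k).1 : ℕ) * V (b3 k).2.1 (1 / n) : ℝ) : ℂ) = 3 * F3 β κ n := by
  have hn0 : (3 : ℝ) ≤ n := by exact_mod_cast hn
  have hx : (0 : ℝ) < 1 / n := by positivity
  have hx1 : (1 : ℝ) / n < 1 / 2 := by
    rw [div_lt_div_iff₀ (by linarith) (by norm_num)]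
    linarith
  have hax : |1 / (n : ℝ)| < 1 := by rw [abs_of_pos hx]; linarith
  have e1 := L3_eq hax
  have e2 := (vals hx hx1).1
  have e3 := Pool.Agent.Q189.Z3.trip_sum hn
  have e4 : Real.log (1 / (n : ℝ)) = -Real.log n := by rw [one_div, Real.log_inv]
  have e5 := SL1 hax
  have e6 := SL11 hax
  rw [Li_ze] at e2 e3
  have t0 : Pool.Agent.Q189.Z3.trip n 0 = V [none, none, some 0] (1 / n) + Real.log n * V [none, some 0] (1 / n) +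
      1 / 3 * Real.log n ^ 2 * V [some 0] (1 / n) := by
    show L3 (1 / n) = _
    rw [e1, e4]
    unfold V
    rw [e5]
    ring
  have t1 : Pool.Agent.Q189.Z3.trip n 1 = ze 3 - (V [none, some 0, some 0] (1 / n) +
      1 / 3 * Real.log n * V [some 0, some 0] (1 / n)) := by
    show L3 (1 - 1 / n) = _
    rw [e2, e4]
    unfold V
    rw [e6]
    ring
  have t2 : Pool.Agent.Q189.Z3.trip n 2 = ze 3 - Pool.Agent.Q189.Z3.trip n 0 - Pool.Agent.Q189.Z3.trip n 1 := by linarith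
  unfold F3
  rw [Fin.sum_univ_three, t2, t1, t0]
  have h6 : ∀ f : Fin 6 → ℂ, ∑ k, f k = f 0 + f 1 + f 2 + f 3 + f 4 + f 5 := fun f => by
    rw [Fin.sum_univ_six]
  rw [h6]
  have s0 : v3 β κ 0 * ((Real.log n ^ ((b3 0).1 : ℕ) * V (b3 0).2.1 (1 / n) : ℝ) : ℂ) = 3 * (κ + β 1 * ((ze 3 : ℝ) : ℂ)) := by
    show 3 * (κ + β 1 * ((ze 3 : ℝ) : ℂ)) * ((Real.log n ^ 0 * V [] (1 / n) : ℝ) : ℂ) = _
    rw [V_nil]
    simp
  have s1 : v3 β κ 1 * ((Real.log n ^ ((b3 1).1 : ℕ) * V (b3 1).2.1 (1 / n) : ℝ) : ℂ) =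
      3 * (β 0 - β 2) * ((V [none, none, some 0] (1 / n) : ℝ) : ℂ) := by
    show 3 * (β 0 - β 2) * ((Real.log n ^ 0 * V [none, none, some 0] (1 / n) : ℝ) : ℂ) = _
    rw [pow_zero, one_mul]
  have s2 : v3 β κ 2 * ((Real.log n ^ ((b3 2).1 : ℕ) * V (b3 2).2.1 (1 / n) : ℝ) : ℂ) =
      3 * (β 0 - β 2) * ((Real.log n * V [none, some 0] (1 / n) : ℝ) : ℂ) := by
    show 3 * (β 0 - β 2) * ((Real.log n ^ 1 * V [none, some 0] (1 / n) : ℝ) : ℂ) = _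
    rw [pow_one]
  have s3 : v3 β κ 3 * ((Real.log n ^ ((b3 3).1 : ℕ) * V (b3 3).2.1 (1 / n) : ℝ) : ℂ) =
      (β 0 - β 2) * ((Real.log n ^ 2 * V [some 0] (1 / n) : ℝ) : ℂ) := rfl
  have s4 : v3 β κ 4 * ((Real.log n ^ ((b3 4).1 : ℕ) * V (b3 4).2.1 (1 / n) : ℝ) : ℂ) =
      -(3 * (β 1 - β 2)) * ((V [none, some 0, some 0] (1 / n) : ℝ) : ℂ) := by
    show -(3 * (β 1 - β 2)) * ((Real.log n ^ 0 * V [none, some 0, some 0] (1 / n) : ℝ) : ℂ) = _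
    rw [pow_zero, one_mul]
  have s5 : v3 β κ 5 * ((Real.log n ^ ((b3 5).1 : ℕ) * V (b3 5).2.1 (1 / n) : ℝ) : ℂ) =
      -(β 1 - β 2) * ((Real.log n * V [some 0, some 0] (1 / n) : ℝ) : ℂ) := by
    show -(β 1 - β 2) * ((Real.log n ^ 1 * V [some 0, some 0] (1 / n) : ℝ) : ℂ) = _
    rw [pow_one]
  rw [s0, s1, s2, s3, s4, s5]
  push_cast
  ring

/-- small forms have small coefficients -/
def G3 {g : ℕ} (B : ℕ) (θ : Fin g → ℂ) (n : ℕ) (H : ℝ) : Prop :=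
  ∀ (β : Fin 3 → ℂ) (κ : ℂ), (∀ i, β i ∈ Cf θ H) → κ ∈ Cf θ H →
    ‖κ + β 2 * ((ze 3 : ℝ) : ℂ)‖ ≤ H ^ B * ‖F3 β κ n‖ ∧ ‖β 0 - β 2‖ ≤ H ^ B * ‖F3 β κ n‖ ∧ ‖β 1 - β 2‖ ≤ H ^ B * ‖F3 β κ n‖

lemma G3.mono {g B : ℕ} {θ : Fin g → ℂ} {n : ℕ} {H H' : ℝ} (h1 : 1 ≤ H) (h2 : H ≤ H') (h3 : H' ≤ H ^ 2)
    (hg : G3 B θ n H') : G3 (2 * B) θ n H := by
  intro β κ hβ hκ
  obtain ⟨g1, g2, g3⟩ := hg β κ (fun i => Cf.mono (hβ i) h2) (Cf.mono hκ h2)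
  have h4 : H' ^ B * ‖F3 β κ n‖ ≤ H ^ (2 * B) * ‖F3 β κ n‖ := by
    refine mul_le_mul_of_nonneg_right ?_ (norm_nonneg _)
    rw [pow_mul]
    exact pow_le_pow_left₀ (by linarith) h3 _
  exact ⟨g1.trans h4, g2.trans h4, g3.trans h4⟩

theorem G3_of {g B : ℕ} {θ : Fin g → ℂ} {n : ℕ} {H : ℝ} (hn : 3 ≤ n) (hH : 15 ≤ H)
    (hz : |ze 3| ≤ H) (h : GF 3 B (cs 3 g θ) n (H ^ 2)) : G3 (2 * B + 2) θ n H := by
  intro β κ hβ hκ
  have hH0 : 0 ≤ H := by linarith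
  have hH1 : 1 ≤ H := by linarith
  have hd : ∀ i j, β i - β j ∈ Cf (cs 3 g θ) (2 * H) := fun i j => by
    have := Cf.sub (cs_one (W := 3) hH0 (hβ i)) (cs_one (W := 3) hH0 (hβ j))
    rw [← two_mul] at this
    exact this
  have h3 : ∀ r ∈ Cf (cs 3 g θ) (2 * H), 3 * r ∈ Cf (cs 3 g θ) (H ^ 2) := by
    intro r hr
    have := Cf.int_mul hr 3
    push_cast at this
    refine Cf.mono this ?_
    rw [abs_of_pos (by norm_num)]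
    nlinarith
  have h4 : ∀ r ∈ Cf (cs 3 g θ) (H ^ 2), -r ∈ Cf (cs 3 g θ) (H ^ 2) := by
    intro r hr
    have := Cf.int_mul hr (-1)
    push_cast at this
    rw [abs_neg, abs_one, one_mul] at this
    have h5 : -1 * r = -r := by ring
    rw [h5] at this
    exact this
  have h2H : 2 * H ≤ H ^ 2 := by nlinarith
  have hv : ∀ k, v3 β κ k ∈ Cf (cs 3 g θ) (H ^ 2) := by
    intro k
    fin_cases k
    · refine h3 _ ?_
      have := Cf.add (cs_one (W := 3) hH0 hκ) (cs_ze (W := 3) hH0 (hβ 1) (le_refl 3))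
      rw [← two_mul] at this
      exact this
    · exact h3 _ (hd 0 2)
    · exact h3 _ (hd 0 2)
    · exact Cf.mono (hd 0 2) h2H
    · exact h4 _ (h3 _ (hd 1 2))
    · exact h4 _ (Cf.mono (hd 1 2) h2H)
  have h5 := GF.apply h (by positivity) b3 b3_inj (v3 β κ) hv
  rw [F3_eq hn] at h5
  have h6 : ∀ k, ‖v3 β κ k‖ ≤ 3 * (H ^ (2 * B) * ‖F3 β κ n‖) := by
    intro k
    refine (h5 k).trans (le_of_eq ?_)
    rw [norm_mul, ← pow_mul, Complex.norm_ofNat]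
    ring
  have hX : 0 ≤ H ^ (2 * B) * ‖F3 β κ n‖ := by positivity
  have k0 : ‖κ + β 1 * ((ze 3 : ℝ) : ℂ)‖ ≤ H ^ (2 * B) * ‖F3 β κ n‖ := by
    have := h6 0
    have e : v3 β κ 0 = 3 * (κ + β 1 * ((ze 3 : ℝ) : ℂ)) := rfl
    rw [e, norm_mul, Complex.norm_ofNat] at this
    linarith
  have k1 : ‖β 0 - β 2‖ ≤ H ^ (2 * B) * ‖F3 β κ n‖ := by
    have := h6 1
    have e : v3 β κ 1 = 3 * (β 0 - β 2) := rfl
    rw [e, norm_mul, Complex.norm_ofNat] at this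
    linarith
  have k2 : ‖β 1 - β 2‖ ≤ H ^ (2 * B) * ‖F3 β κ n‖ := by
    have := h6 4
    have e : v3 β κ 4 = -(3 * (β 1 - β 2)) := rfl
    rw [e, norm_neg, norm_mul, Complex.norm_ofNat] at this
    linarith
  have k3 : H ^ (2 * B) * ‖F3 β κ n‖ ≤ H ^ (2 * B + 2) * ‖F3 β κ n‖ :=
    mul_le_mul_of_nonneg_right (pow_le_pow_right₀ hH1 (by omega)) (norm_nonneg _)
  refine ⟨?_, k1.trans k3, k2.trans k3⟩
  have e1 : κ + β 2 * ((ze 3 : ℝ) : ℂ) = (κ + β 1 * ((ze 3 : ℝ) : ℂ)) - (β 1 - β 2) * ((ze 3 : ℝ) : ℂ) := by ring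
  rw [e1]
  refine (norm_sub_le _ _).trans ?_
  rw [norm_mul, Complex.norm_real, Real.norm_eq_abs]
  calc ‖κ + β 1 * ((ze 3 : ℝ) : ℂ)‖ + ‖β 1 - β 2‖ * |ze 3| ≤
        H ^ (2 * B) * ‖F3 β κ n‖ + (H ^ (2 * B) * ‖F3 β κ n‖) * H :=
        add_le_add k0 (mul_le_mul k2 hz (abs_nonneg _) hX)
    _ = (1 + H) * (H ^ (2 * B) * ‖F3 β κ n‖) := by ring
    _ ≤ H ^ 2 * (H ^ (2 * B) * ‖F3 β κ n‖) := mul_le_mul_of_nonneg_right (by nlinarith) hX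
    _ = _ := by rw [pow_add]; ring

/-- the theorem at almost all integers -/
theorem main3 (g : ℕ) : ∃ (B : ℕ) (C c : ℝ), 0 < c ∧ ∀ T : ℕ, 1 ≤ T →
    (∃ H₀ : ℝ, ∀ H₁ : ℝ, H₀ ≤ H₁ → ∀ θ : Fin g → ℂ,
      (({n : ℕ | 2 ≤ n ∧ n ≤ T ∧ ¬ ∀ H : ℝ, H₁ ≤ H → H ≤ H₁ ^ Real.exp ((T : ℝ) ^ c) → (3 ≤ n → G3 B θ n H)}.ncard : ℕ) : ℝ) ≤
        C * (T : ℝ) ^ (1 - c)) ∧
    ∀ θ : Fin g → ℂ, (({n : ℕ | 2 ≤ n ∧ n ≤ T ∧ ¬ ∀ N₀ : ℕ, ∃ M, N₀ ≤ M ∧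
      (({j : ℕ | j < M ∧ ¬ ∀ H : ℝ, 2 ^ (2 ^ j) ≤ H → H ≤ 2 ^ (2 ^ (j + 1)) → (3 ≤ n → G3 B θ n H)}.ncard : ℕ) : ℝ) ≤
          (T : ℝ) ^ (-c) * M}.ncard : ℕ) : ℝ) ≤ C * (T : ℝ) ^ (1 - c) := by
  refine mainN 3 _ (cs 3 g) (fun B θ n H => 3 ≤ n → G3 B θ n H) (fun B₀ => ⟨2 * B₀ + 2, fun T _ =>
    ⟨max 15 |ze 3|, fun θ n H hH hn _ hGF hn3 =>
      G3_of hn3 ((le_max_left _ _).trans hH) ((le_max_right _ _).trans hH) hGF⟩⟩)
    (fun B θ n H H' h1 h2 h3 hGN hn3 => G3.mono h1 h2 h3 (hGN hn3))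

/-- relations over a space -/
def E3 (K : Submodule ℚ ℂ) (n : ℕ) : Prop :=
  ∀ (β : Fin 3 → ℂ) (κ : ℂ), (∀ i, β i ∈ K) → κ ∈ K → F3 β κ n = 0 →
    κ + β 2 * ((ze 3 : ℝ) : ℂ) = 0 ∧ β 0 = β 2 ∧ β 1 = β 2

lemma F3_mul (D : ℂ) (β : Fin 3 → ℂ) (κ : ℂ) (n : ℕ) : F3 (fun i => D * β i) (D * κ) n = D * F3 β κ n := by
  unfold F3
  rw [mul_add, Finset.mul_sum]
  congr 1
  refine Finset.sum_congr rfl fun i _ => ?_
  ring

theorem E3_of {g B : ℕ} {θ : Fin g → ℂ} {n : ℕ} (h : ∀ H₀ : ℝ, ∃ H, H₀ ≤ H ∧ G3 B θ n H) :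
    E3 (Submodule.span ℚ (Set.range θ)) n := by
  classical
  intro β κ hβ hκ h0
  obtain ⟨D, H₁, hD, h1⟩ := Cf_of_span (Finset.univ : Finset (Option (Fin 3))) (fun o => o.elim κ β) (fun o _ => by
    rcases o with _ | i
    · exact hκ
    · exact hβ i)
  obtain ⟨H, hH, hg⟩ := h H₁
  obtain ⟨g1, g2, g3⟩ := hg (fun i => (D : ℂ) * β i) ((D : ℂ) * κ) (fun i => Cf.mono (h1 (some i) (Finset.mem_univ _)) hH)
    (Cf.mono (h1 none (Finset.mem_univ _)) hH)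
  rw [F3_mul, h0, mul_zero, norm_zero, mul_zero] at g1 g2 g3
  have hDc : (D : ℂ) ≠ 0 := by exact_mod_cast hD
  refine ⟨?_, ?_, ?_⟩
  · have e := norm_le_zero_iff.1 g1
    have e' : (D : ℂ) * κ + (D : ℂ) * β 2 * ((ze 3 : ℝ) : ℂ) = (D : ℂ) * (κ + β 2 * ((ze 3 : ℝ) : ℂ)) := by ring
    rw [e'] at e
    exact (mul_eq_zero.1 e).resolve_left hDc
  · have e := norm_le_zero_iff.1 g2
    rw [← mul_sub] at e
    exact sub_eq_zero.1 ((mul_eq_zero.1 e).resolve_left hDc)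
  · have e := norm_le_zero_iff.1 g3
    rw [← mul_sub] at e
    exact sub_eq_zero.1 ((mul_eq_zero.1 e).resolve_left hDc)

theorem few_E3 (g : ℕ) : ∃ C c : ℝ, 0 < c ∧ ∀ θ : Fin g → ℂ, ∀ T : ℕ, 1 ≤ T →
    (({n : ℕ | 3 ≤ n ∧ n ≤ T ∧ ¬ E3 (Submodule.span ℚ (Set.range θ)) n}.ncard : ℕ) : ℝ) ≤ C * (T : ℝ) ^ (1 - c) := by
  obtain ⟨B, C, c, hc, h⟩ := main3 g
  refine ⟨max C 0, c, hc, fun θ T hT => ?_⟩
  rcases Nat.lt_or_ge T 2 with hT2 | hT2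
  · have h1 : {n : ℕ | 3 ≤ n ∧ n ≤ T ∧ ¬ E3 (Submodule.span ℚ (Set.range θ)) n} = ∅ := by
      ext n
      simp only [Set.mem_ofPred_eq, Set.mem_empty_iff_false, iff_false]
      rintro ⟨ha, hb, -⟩
      omega
    rw [h1, Set.ncard_empty, Nat.cast_zero]
    positivity
  · have hT0 : (0 : ℝ) < T := by exact_mod_cast hT
    have hδ1 : (T : ℝ) ^ (-c) < 1 := Real.rpow_lt_one_of_one_lt_of_neg (by exact_mod_cast hT2) (by linarith)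
    refine le_trans (Nat.cast_le.2 (Set.ncard_le_ncard ?_ ((Set.finite_le_nat T).subset fun n hn => hn.2.1)))
      (((h T hT).2 θ).trans (mul_le_mul_of_nonneg_right (le_max_left _ _) (by positivity)))
    rintro n ⟨h1, h2, h3⟩
    refine ⟨by omega, h2, fun h4 => h3 (E3_of (B := B) fun H₀ => ?_)⟩
    obtain ⟨H, hH, hg⟩ := often_of hδ1 h4 H₀
    exact ⟨H, hH, hg h1⟩

end Pool.Agent.Q189.MV
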