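import Pool.Agent.Q189.MV.Lin3

/-!
# The criterion for the quotient of `ζ(3)` by a given number
-/

set_option autoImplicit false

open PowerSeries Filter Topology

namespace Pool.Agent.Q189.MV

open Pool.Agent.H447R2.MZ (H Adm val Zs)

/-- independence of four numbers over a space -/
def Ind4 (K : Submodule ℚ ℂ) (θ : ℂ) (n : ℕ) : Prop :=
  ∀ (α : ℂ) (β : Fin 3 → ℂ), α ∈ K → (∀ i, β i ∈ K) → F3 β (α * θ) n = 0 → α = 0 ∧ ∀ i, β i = 0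

/-- independence of two numbers over a space -/
def Ind2 (K : Submodule ℚ ℂ) (θ : ℂ) : Prop :=
  ∀ α ∈ K, ∀ β ∈ K, α * θ + β * ((ze 3 : ℝ) : ℂ) = 0 → α = 0 ∧ β = 0

lemma Ind4_of {K K' : Submodule ℚ ℂ} {θ : ℂ} {n : ℕ} (h1 : K ≤ K') (h2 : ∀ α ∈ K, α * θ ∈ K') (hE : E3 K' n)
    (h : Ind2 K θ) : Ind4 K θ n := by
  intro α β hα hβ h0
  obtain ⟨e1, e2, e3⟩ := hE β (α * θ) (fun i => h1 (hβ i)) (h2 α hα) h0
  obtain ⟨e4, e5⟩ := h α hα (β 2) (hβ 2) e1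
  refine ⟨e4, fun i => ?_⟩
  fin_cases i
  · exact e2.trans e5
  · exact e3.trans e5
  · exact e5

lemma Ind2_of {K : Submodule ℚ ℂ} {θ : ℂ} {n : ℕ} (hn : 3 ≤ n) (h : Ind4 K θ n) : Ind2 K θ := by
  intro α hα β hβ h0
  have h1 := h α (fun _ => β) hα (fun _ => hβ) (by
    have h2 := Pool.Agent.Q189.Z3.trip_sum hn
    rw [Li_ze] at h2
    have h3 : ((ze 3 : ℝ) : ℂ) = ((Pool.Agent.Q189.Z3.trip n 0 : ℝ) : ℂ) + ((Pool.Agent.Q189.Z3.trip n 1 : ℝ) : ℂ) +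
        ((Pool.Agent.Q189.Z3.trip n 2 : ℝ) : ℂ) := by
      rw [← h2]
      push_cast
      ring
    rw [h3] at h0
    unfold F3
    rw [Fin.sum_univ_three, ← h0]
    ring)
  exact ⟨h1.1, h1.2 0⟩

theorem few_Ind4 (g : ℕ) : ∃ C c : ℝ, 0 < c ∧ ∀ (η : Fin g → ℂ) (θ : ℂ), Ind2 (Submodule.span ℚ (Set.range η)) θ →
    ∀ T : ℕ, 1 ≤ T → (({n : ℕ | 3 ≤ n ∧ n ≤ T ∧ ¬ Ind4 (Submodule.span ℚ (Set.range η)) θ n}.ncard : ℕ) : ℝ) ≤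
      C * (T : ℝ) ^ (1 - c) := by
  obtain ⟨C, c, hc, h⟩ := few_E3 (g + g)
  refine ⟨C, c, hc, fun η θ h2 T hT => ?_⟩
  refine le_trans (Nat.cast_le.2 (Set.ncard_le_ncard ?_ ((Set.finite_le_nat T).subset fun n hn => hn.2.1)))
    (h (Fin.append η fun i => η i * θ) T hT)
  rintro n ⟨e1, e2, e3⟩
  refine ⟨e1, e2, fun e4 => e3 (Ind4_of (Submodule.span_mono ?_) (fun α hα => ?_) e4 h2)⟩
  · rintro _ ⟨i, rfl⟩
    exact ⟨Fin.castAdd g i, Fin.append_left _ _ _⟩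
  · obtain ⟨c', rfl⟩ := (Submodule.mem_span_range_iff_exists_fun ℚ).1 hα
    rw [Finset.sum_mul]
    refine Submodule.sum_mem _ fun i _ => ?_
    rw [smul_mul_assoc]
    refine Submodule.smul_mem _ _ (Submodule.subset_span ⟨Fin.natAdd g i, Fin.append_right _ _ _⟩)

/-- the criterion -/
theorem crit4 {K : Submodule ℚ ℂ} (hK : K.FG) (θ : ℂ) :
    (Ind2 K θ ↔ ∃ n : ℕ, 3 ≤ n ∧ Ind4 K θ n) ∧
    (Ind2 K θ ↔ ∃ C c : ℝ, 0 < c ∧ ∀ T : ℕ, 1 ≤ T →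
      (({n : ℕ | 3 ≤ n ∧ n ≤ T ∧ ¬ Ind4 K θ n}.ncard : ℕ) : ℝ) ≤ C * (T : ℝ) ^ (1 - c)) := by
  obtain ⟨g, η, hη⟩ := Submodule.fg_iff_exists_fin_generating_family.1 hK
  have e1 : Ind2 K θ → ∃ C c : ℝ, 0 < c ∧ ∀ T : ℕ, 1 ≤ T →
      (({n : ℕ | 3 ≤ n ∧ n ≤ T ∧ ¬ Ind4 K θ n}.ncard : ℕ) : ℝ) ≤ C * (T : ℝ) ^ (1 - c) := by
    intro h
    obtain ⟨C, c, hc, hf⟩ := few_Ind4 g
    refine ⟨C, c, hc, ?_⟩
    rw [← hη] at h ⊢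
    exact hf η θ h
  have e2 : (∃ C c : ℝ, 0 < c ∧ ∀ T : ℕ, 1 ≤ T →
      (({n : ℕ | 3 ≤ n ∧ n ≤ T ∧ ¬ Ind4 K θ n}.ncard : ℕ) : ℝ) ≤ C * (T : ℝ) ^ (1 - c)) → ∃ n : ℕ, 3 ≤ n ∧ Ind4 K θ n := by
    rintro ⟨C, c, hc, hf⟩
    obtain ⟨n, hn, h⟩ := Pool.Agent.Q189.Z3.exists_of_few (A := fun n => ¬ Ind4 K θ n) hc hf
    exact ⟨n, hn, not_not.1 h⟩
  have e3 : (∃ n : ℕ, 3 ≤ n ∧ Ind4 K θ n) → Ind2 K θ := by
    rintro ⟨n, hn, h⟩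
    exact Ind2_of hn h
  exact ⟨⟨fun h => e2 (e1 h), e3⟩, ⟨e1, fun h => e3 (e2 h)⟩⟩

/-- independence over a field -/
lemma Ind2_field {K : Subalgebra ℚ ℂ} (hinv : ∀ x ∈ K, x⁻¹ ∈ K) {θ : ℝ} (hθ : θ ≠ 0) :
    Ind2 (Subalgebra.toSubmodule K) (θ : ℂ) ↔ (((ze 3 / θ : ℝ)) : ℂ) ∉ K := by
  have hθ' : (θ : ℂ) ≠ 0 := Complex.ofReal_ne_zero.2 hθ
  constructor
  · intro h hmem
    have h1 := h (-(((ze 3 / θ : ℝ)) : ℂ)) (K.neg_mem hmem) 1 K.one_mem (by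
      push_cast
      field_simp
      ring)
    exact one_ne_zero h1.2
  · intro h α hα β hβ h0
    have hβ0 : β = 0 := by
      by_contra hne
      apply h
      have h1 : (((ze 3 / θ : ℝ)) : ℂ) = -(α * β⁻¹) := by
        push_cast
        rw [div_eq_iff hθ']
        field_simp
        linear_combination h0
      rw [h1]
      exact K.neg_mem (K.mul_mem hα (hinv β hβ))
    rw [hβ0, zero_mul, add_zero] at h0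
    exact ⟨(mul_eq_zero.1 h0).resolve_right hθ', hβ0⟩

end Pool.Agent.Q189.MV
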