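import Pool.Agent.Q189.MV.KZ2
import Pool.Agent.Q187.ZD.MT
import Pool.Agent.H447R2.MZ.Dich

/-!
# The period map of mixed Tate motives over the integers and one integer
-/

set_option autoImplicit false

open Module

namespace Pool.Agent.Q189.MV.MT2

open Pool.Agent.H447R2.MZ (H Adm val Zs)
open Pool.Agent.Q187.ZD
open Pool.Agent.Q187.ZD.KZ (T)
open Pool.Agent.Q189.MV.KZ2

/-- the real and the imaginary part -/
noncomputable def Zm (N : ℕ) : Submodule ℚ ℝ := if N = 0 then ⊥ else Tz (N - 1)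

/-- `(a, b) ↦ a + 2 π i b` -/
noncomputable def Psi (N : ℕ) : (Tz N × Zm N) →ₗ[ℚ] ℂ :=
  (LinearMap.coprod ((Complex.ofRealLI.toLinearMap.restrictScalars ℚ).comp (Tz N).subtype)
    ((LinearMap.mulLeft ℚ (2 * Real.pi * Complex.I)).comp ((Complex.ofRealLI.toLinearMap.restrictScalars ℚ).comp (Zm N).subtype)))

lemma Psi_apply (N : ℕ) (p : Tz N × Zm N) : Psi N p = ((p.1 : ℝ) : ℂ) + 2 * Real.pi * Complex.I * ((p.2 : ℝ) : ℂ) := rfl

lemma pow_even (c : ℕ) : (2 * Real.pi * Complex.I) ^ (2 * c) = (((-4) ^ c * Real.pi ^ (2 * c) : ℝ) : ℂ) := by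
  rw [pow_mul, mul_pow, mul_pow, Complex.I_sq]
  push_cast
  rw [pow_mul (Real.pi : ℂ) 2 c, ← mul_pow]
  congr 1
  ring

lemma even_mem (c : ℕ) {w : ℕ} {z : ℝ} (hz : z ∈ Zs w) : (-4) ^ c * Real.pi ^ (2 * c) * z ∈ Zs (2 * c + w) := by
  have h1 : Real.pi ^ (2 * c) ∈ Zs (2 * c) := Pool.Agent.H447R2.MZ.pi_pow_mem c
  have h2 := Pool.Agent.H447R2.MZ.mul_mem (2 * c) w _ _ h1 hz
  have h3 : (-4) ^ c * Real.pi ^ (2 * c) * z = ((-4 : ℚ) ^ c) • (Real.pi ^ (2 * c) * z) := by
    rw [Rat.smul_def]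
    push_cast
    ring
  rw [h3]
  exact Submodule.smul_mem _ _ h2

theorem Psi_range (N : ℕ) : LinearMap.range (Psi N) = T N := by
  refine le_antisymm ?_ ?_
  · rintro _ ⟨⟨⟨a, ha⟩, ⟨b, hb⟩⟩, rfl⟩
    rw [Psi_apply]
    refine Submodule.add_mem _ ?_ ?_
    · rw [Tz_eq] at ha
      have h1 : (1 : ℂ) * ((a : ℝ) : ℂ) ∈ T N := by
        refine span_ofReal ?_ ha
        rintro _ ⟨s, ⟨hs, hN⟩, rfl⟩
        exact Submodule.subset_span ⟨0, s.sum, val s, by omega, Pool.Agent.H447R2.MZ.val_mem s hs, by rw [pow_zero]⟩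
      rwa [one_mul] at h1
    · show 2 * Real.pi * Complex.I * ((b : ℝ) : ℂ) ∈ T N
      unfold Zm at hb
      split_ifs at hb with h0
      · rw [Submodule.mem_bot] at hb
        rw [hb, Complex.ofReal_zero, mul_zero]
        exact Submodule.zero_mem _
      · rw [Tz_eq] at hb
        refine span_ofReal ?_ hb
        rintro _ ⟨s, ⟨hs, hN⟩, rfl⟩
        exact Submodule.subset_span ⟨1, s.sum, val s, by omega, Pool.Agent.H447R2.MZ.val_mem s hs, by rw [pow_one]⟩
  · unfold T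
    rw [Submodule.span_le]
    rintro _ ⟨a, w, z, h1, hz, rfl⟩
    rcases Nat.even_or_odd' a with ⟨c, rfl | rfl⟩
    · have h2 := even_mem c hz
      refine ⟨(⟨_, Zs_le_Tz (show 2 * c + w ≤ N by omega) h2⟩, 0), ?_⟩
      rw [Psi_apply, pow_even]
      simp
    · have h2 := even_mem c hz
      have h3 : (-4) ^ c * Real.pi ^ (2 * c) * z ∈ Zm N := by
        unfold Zm
        rw [if_neg (by omega)]
        exact Zs_le_Tz (show 2 * c + w ≤ N - 1 by omega) h2
      refine ⟨(0, ⟨_, h3⟩), ?_⟩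
      rw [Psi_apply, pow_succ, pow_even]
      simp
      ring

lemma fd_Zm (N : ℕ) : FiniteDimensional ℚ (Zm N) := by
  by_cases h : N = 0
  · have h2 : Zm N = ⊥ := if_pos h
    rw [h2]
    infer_instance
  · have h2 : Zm N = Tz (N - 1) := if_neg h
    rw [h2]
    exact fd_Tz _

theorem finrank_T (N : ℕ) : finrank ℚ (T N) = finrank ℚ (Tz N) + finrank ℚ (Zm N) := by
  have := fd_Tz N
  have := fd_Zm N
  rw [← Psi_range, LinearMap.finrank_range_of_inj, finrank_prod]
  rw [← LinearMap.ker_eq_bot, LinearMap.ker_eq_bot']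
  rintro ⟨⟨a, ha⟩, ⟨b, hb⟩⟩ h0
  rw [Psi_apply] at h0
  have hre := congrArg Complex.re h0
  have him := congrArg Complex.im h0
  simp at hre him
  have hb0 : b = 0 := him
  refine Prod.ext (Subtype.ext hre) (Subtype.ext hb0)

/-- the dimension of the effective motivic periods of weight at most `N` -/
def rr (d : ℕ → ℕ) : ℕ → ℕ
  | 0 => S d 0
  | N + 1 => S d (N + 1) + S d N

lemma tot_Zs (N : ℕ) : tot Zs N = Tz N := rfl

lemma finrank_T_le {d : ℕ → ℕ} (h : ∀ N, finrank ℚ (Tz N) ≤ S d N) (N : ℕ) : finrank ℚ (T N) ≤ rr d N := by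
  rw [finrank_T]
  rcases N with _ | N
  · have h2 : Zm 0 = ⊥ := if_pos rfl
    rw [h2, finrank_bot, add_zero]
    exact h 0
  · have h2 : Zm (N + 1) = Tz N := if_neg (by omega)
    rw [h2]
    exact Nat.add_le_add (h _) (h _)

lemma finrank_T_eq {d : ℕ → ℕ} (h : ∀ N, finrank ℚ (Tz N) ≤ S d N) (N : ℕ) :
    (∀ k ≤ N, finrank ℚ (T k) = rr d k) ↔ ∀ k ≤ N, finrank ℚ (Tz k) = S d k := by
  constructor
  · intro h1 k hk
    have h2 := h1 k hk
    rw [finrank_T] at h2
    rcases k with _ | k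
    · have h3 : Zm 0 = ⊥ := if_pos rfl
      rw [h3, finrank_bot, add_zero] at h2
      exact h2
    · have h3 : Zm (k + 1) = Tz k := if_neg (by omega)
      rw [h3] at h2
      have h4 : finrank ℚ (Tz (k + 1)) + finrank ℚ (Tz k) = S d (k + 1) + S d k := h2
      have h5 := h (k + 1)
      have h6 := h k
      omega
  · intro h1 k hk
    rw [finrank_T]
    rcases k with _ | k
    · have h3 : Zm 0 = ⊥ := if_pos rfl
      rw [h3, finrank_bot, add_zero]
      exact h1 0 hk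
    · have h3 : Zm (k + 1) = Tz k := if_neg (by omega)
      rw [h3, h1 (k + 1) hk, h1 k (by omega)]
      rfl

/-- the explicit value of the weighted sum -/
theorem RR_value {d : ℕ → ℕ} (hd : IsZagier d) (N : ℕ) :
    5 * RR (rr d) N + 13 * d N + 22 * d (N + 1) + 16 * d (N + 2) = 24 * 2 ^ N + 10 := by
  obtain ⟨h0, h1, h2, h3⟩ := hd
  have hS : ∀ N, S d N + 1 = d (N + 5) := by
    intro N
    induction N with
    | zero =>
      have e1 : S d 0 = d 0 := by simp [S]
      have e3 := h3 0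
      have e4 := h3 1
      have e5 := h3 2
      simp only [zero_add] at e3 e4 e5 ⊢
      norm_num at e4 e5
      omega
    | succ N ih =>
      have e1 : S d (N + 1) = S d N + d (N + 1) := Finset.sum_range_succ _ _
      have e2 := h3 (N + 3)
      have e3 := h3 (N + 1)
      have e4 := h3 (N + 2)
      have e5 := h3 N
      have f1 : d (N + 1 + 5) = d (N + 3 + 3) := rfl
      have f2 : d (N + 3 + 1) = d (N + 1 + 3) := rfl
      have f3 : d (N + 5) = d (N + 2 + 3) := rfl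
      have f4 : d (N + 1 + 1) = d (N + 2) := rfl
      have f5 : d (N + 2 + 1) = d (N + 3) := rfl
      omega
  induction N with
  | zero =>
    have e1 : RR (rr d) 0 = S d 0 := by simp [RR, rr]
    have e2 : S d 0 = d 0 := by simp [S]
    rw [e1, e2, h0]
    simp only [zero_add]
    rw [h1, h2]
    norm_num
  | succ N ih =>
    rw [RR_succ]
    have e1 : rr d (N + 1) = S d (N + 1) + S d N := rfl
    have e2 := hS N
    have e3 := hS (N + 1)
    have g1 := h3 (N + 3)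
    have g2 := h3 (N + 1)
    have g3 := h3 (N + 2)
    have g4 := h3 N
    have f1 : d (N + 1 + 5) = d (N + 3 + 3) := rfl
    have f2 : d (N + 3 + 1) = d (N + 1 + 3) := rfl
    have f3 : d (N + 5) = d (N + 2 + 3) := rfl
    have f4 : d (N + 1 + 1) = d (N + 2) := rfl
    have f5 : d (N + 2 + 1) = d (N + 3) := rfl
    have f6 : d (N + 1 + 2) = d (N + 3) := rfl
    rw [e1, pow_succ]
    omega

lemma rr_pos {d : ℕ → ℕ} (hd : IsZagier d) (N : ℕ) : 1 ≤ rr d N := by
  rcases N with _ | N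
  · exact S_pos hd 0
  · have := S_pos hd N
    show 1 ≤ S d (N + 1) + S d N
    omega

/-- a missing dimension is visible -/
theorem lose {r r' : ℕ → ℕ} (h : ∀ k, r' k ≤ r k) {p : ℕ} (hp : r' p < r p) {N : ℕ} (hN : p ≤ N) :
    RR r' N + 2 ^ (N - p) ≤ RR r N := by
  unfold RR
  have h7 : N - p ∈ Finset.range (N + 1) := Finset.mem_range.2 (by omega)
  rw [← Finset.add_sum_erase _ _ h7, ← Finset.add_sum_erase _ _ h7, show N - (N - p) = p by omega]
  have h9 : ∑ k ∈ (Finset.range (N + 1)).erase (N - p), 2 ^ k * r' (N - k) ≤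
      ∑ k ∈ (Finset.range (N + 1)).erase (N - p), 2 ^ k * r (N - k) :=
    Finset.sum_le_sum fun k _ => Nat.mul_le_mul_left _ (h _)
  have h10 : 2 ^ (N - p) * r' p + 2 ^ (N - p) ≤ 2 ^ (N - p) * r p := by
    calc 2 ^ (N - p) * r' p + 2 ^ (N - p) = 2 ^ (N - p) * (r' p + 1) := by ring
      _ ≤ _ := Nat.mul_le_mul_left _ hp
  omega

section
variable {d : ℕ → ℕ} (hd : IsZagier d) (hT : ∀ N, finrank ℚ (Tz N) ≤ S d N)
include hT

theorem one_iff' (N : ℕ) : (∀ k ≤ N, finrank ℚ (Tz k) = S d k) ↔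
    ∃ n : ℕ, 2 ≤ n ∧ finrank ℚ (Wn n N) = RR (rr d) N := by
  rw [← finrank_T_eq hT N, critG T_fd T_mul (finrank_T_le hT) N]
  refine exists_congr fun n => and_congr_right fun hn => ?_
  rw [Wn_eq hn]
  exact Iff.rfl

include hd

theorem limit' : (∀ N, finrank ℚ (Tz N) = S d N) ↔ ∀ ε : ℝ, 0 < ε → ∀ N₀ : ℕ, ∃ N n : ℕ, N₀ ≤ N ∧ 2 ≤ n ∧
    (24 / 5 - ε) * 2 ^ N ≤ finrank ℚ (Wn n N) := by
  have hval : ∀ N, (RR (rr d) N : ℝ) = 24 / 5 * 2 ^ N - (13 * (d N : ℝ) + 22 * d (N + 1) + 16 * d (N + 2) - 10) / 5 := by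
    intro N
    have h1 := RR_value hd N
    have h2 : (5 : ℝ) * RR (rr d) N + 13 * d N + 22 * d (N + 1) + 16 * d (N + 2) = 24 * 2 ^ N + 10 := by exact_mod_cast h1
    linarith
  obtain ⟨h0, h1, h2, h3⟩ := hd
  constructor
  · intro h ε hε N₀
    have hlim : Filter.Tendsto (fun N : ℕ => (100 : ℝ) * (3 / 4) ^ N) Filter.atTop (nhds 0) := by
      have := (tendsto_pow_atTop_nhds_zero_of_lt_one (show (0 : ℝ) ≤ 3 / 4 by norm_num) (by norm_num)).const_mul 100
      rwa [mul_zero] at this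
    obtain ⟨N, hN1, hN2⟩ := ((hlim.eventually (gt_mem_nhds hε)).and (Filter.eventually_ge_atTop N₀)).exists
    obtain ⟨n, hn, h4⟩ := (one_iff' hT N).1 fun k _ => h k
    refine ⟨N, n, hN2, hn, ?_⟩
    rw [h4, hval]
    have e0 := d_le h0 h1 h2 h3 N
    have e1 := d_le h0 h1 h2 h3 (N + 1)
    have e2 := d_le h0 h1 h2 h3 (N + 2)
    have e3 : (0 : ℝ) < (3 / 2) ^ N := by positivity
    have e4 : ((3 : ℝ) / 2) ^ N = (3 / 4) ^ N * 2 ^ N := by rw [← mul_pow]; norm_num
    have e5 : (0 : ℝ) < 2 ^ N := by positivity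
    rw [pow_succ] at e1
    rw [pow_succ, pow_succ] at e2
    have e6 : (100 : ℝ) * (3 / 2) ^ N ≤ ε * 2 ^ N := by
      rw [e4]
      nlinarith
    nlinarith
  · intro h N
    by_contra hne
    have hlt : finrank ℚ (Tz N) < S d N := lt_of_le_of_ne (hT N) hne
    have hrr : ∃ p, finrank ℚ (T p) < rr d p := by
      by_contra hcon
      push Not at hcon
      have h5 : ∀ k ≤ N, finrank ℚ (T k) = rr d k := fun k _ => le_antisymm (finrank_T_le hT k) (hcon k)
      have h6 := (finrank_T_eq hT N).1 h5 N le_rfl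
      omega
    obtain ⟨p, hp⟩ := hrr
    obtain ⟨M, n, hM, hn, hb⟩ := h (1 / (2 * 2 ^ p)) (by positivity) p
    have h5 := lose (finrank_T_le hT) hp hM
    have h6 := finrank_VG_le T_fd T_mul hn M
    rw [← Wn_eq hn] at h6
    have h7 : finrank ℚ (Wn n M) + 2 ^ (M - p) ≤ RR (rr d) M := by
      refine le_trans (Nat.add_le_add_right h6 _) h5
    have h8 : (finrank ℚ (Wn n M) : ℝ) + 2 ^ (M - p) ≤ RR (rr d) M := by exact_mod_cast h7
    rw [hval] at h8
    have h9 : (2 : ℝ) ^ (M - p) * 2 ^ p = 2 ^ M := by rw [← pow_add]; congr 1; omega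
    have h10 : (1 : ℝ) / (2 * 2 ^ p) * 2 ^ M = 2 ^ (M - p) / 2 := by
      rw [← h9]
      field_simp
    have h11 : (1 : ℝ) ≤ d (M + 2) := by
      have := d_pos ⟨h0, h1, h2, h3⟩ (n := M + 2) (by omega)
      exact_mod_cast this
    have h12 : (0 : ℝ) ≤ d M := by positivity
    have h13 : (0 : ℝ) ≤ d (M + 1) := by positivity
    have h14 : (0 : ℝ) < 2 ^ (M - p) := by positivity
    nlinarith

end

/-! ### the transfer -/

/-- the products of elements of `F j`, powers of `lam` and the `l t` of total weight at most `N` -/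
def Prods {P : Type} [CommRing P] [Algebra ℚ P] (F : ℕ → Submodule ℚ P) (lam : P) (l : List ℕ → P) (N : ℕ) : Submodule ℚ P :=
  Submodule.span ℚ {y | ∃ (j a : ℕ) (f : P) (t : List ℕ), f ∈ F j ∧ (∀ b ∈ t, 1 ≤ b) ∧ j + a + t.sum ≤ N ∧ y = f * (lam ^ a * l t)}

/-- the transfer for one integer -/
theorem transfer {N n : ℕ} (hn : 2 ≤ n) (h : IndC (1 / n) N ((Finset.range (N + 1)).sup T)) {P : Type} [CommRing P] [Algebra ℚ P]
    (per : P →ₐ[ℚ] ℂ) (F : ℕ → Submodule ℚ P) (hmono : Monotone F) (hF : ∀ j ≤ N, ∀ f ∈ F j, per f ∈ T j) (lam : P)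
    (l : List ℕ → P) (hlam : per lam = ((Real.log (1 / n) : ℝ) : ℂ)) (hl : ∀ t : List ℕ, (∀ b ∈ t, 1 ≤ b) → per (l t) = ((Lis t (1 / n) : ℝ) : ℂ))
    (hinj : ∀ y ∈ F N, per y = 0 → y = 0) : ∀ y ∈ Prods F lam l N, per y = 0 → y = 0 := by
  classical
  obtain ⟨e1, e2⟩ := inv_pos_lt hn
  have e3 : |(1 : ℝ) / n| < 1 := by rw [abs_of_pos e1]; exact e2
  -- a choice of the index for a word
  have hidx : ∀ w : Pool.Agent.Y119.ML.WI 1 N, ∃ s : List ℕ, (∀ a ∈ s, 1 ≤ a) ∧ wd s = w.1 := fun w => exists_index w.1 w.2.2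
  choose si hsi hsw using hidx
  set M : Submodule ℚ P :=
    { carrier := {y | ∃ f : Pool.Agent.Y119.ML.JJ 1 N → P, (∀ b, f b ∈ F N ∧ per (f b) ∈ (Finset.range (N + 1)).sup T) ∧
        y = ∑ b, f b * (lam ^ (b.1 : ℕ) * l (si b.2))}
      add_mem' := by
        rintro _ _ ⟨f, hf, rfl⟩ ⟨f', hf', rfl⟩
        refine ⟨f + f', fun b => ⟨Submodule.add_mem _ (hf b).1 (hf' b).1, ?_⟩, ?_⟩
        · rw [Pi.add_apply, map_add]
          exact Submodule.add_mem _ (hf b).2 (hf' b).2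
        · rw [← Finset.sum_add_distrib]
          refine Finset.sum_congr rfl fun b _ => ?_
          rw [Pi.add_apply]
          ring
      zero_mem' := ⟨0, fun b => ⟨Submodule.zero_mem _, by simp⟩, by simp⟩
      smul_mem' := by
        rintro c _ ⟨f, hf, rfl⟩
        refine ⟨c • f, fun b => ⟨Submodule.smul_mem _ _ (hf b).1, ?_⟩, ?_⟩
        · rw [Pi.smul_apply, map_smul]
          exact Submodule.smul_mem _ _ (hf b).2
        · rw [Finset.smul_sum]
          refine Finset.sum_congr rfl fun b _ => ?_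
          rw [Pi.smul_apply, smul_mul_assoc] } with hM
  have hle : Prods F lam l N ≤ M := by
    unfold Prods
    rw [Submodule.span_le]
    rintro _ ⟨j, a, f, t, hf, ht, hN, rfl⟩
    set b₀ : Pool.Agent.Y119.ML.JJ 1 N := (⟨a, by omega⟩, ⟨wd t, by rw [len_wd t ht]; omega, adm_wd t⟩) with hb₀
    have hst : si b₀.2 = t := wd_inj _ _ (hsi b₀.2) ht (hsw b₀.2)
    refine ⟨Pi.single b₀ f, fun b => ?_, ?_⟩
    · by_cases hb : b = b₀
      · subst hb
        rw [Pi.single_eq_same]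
        exact ⟨hmono (show j ≤ N by omega) hf, Finset.le_sup (f := T) (Finset.mem_range.2 (by omega)) (hF j (by omega) f hf)⟩
      · rw [Pi.single_eq_of_ne hb, map_zero]
        exact ⟨Submodule.zero_mem _, Submodule.zero_mem _⟩
    · rw [Finset.sum_eq_single_of_mem b₀ (Finset.mem_univ _), Pi.single_eq_same, hst]
      intro b _ hb
      rw [Pi.single_eq_of_ne hb, zero_mul]
  intro y hy h0
  obtain ⟨f, hf, rfl⟩ := hle hy
  have h1 : (fun b => per (f b)) = 0 := by
    refine h _ (fun b => (hf b).2) ?_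
    rw [← h0, map_sum]
    refine Finset.sum_congr rfl fun b _ => ?_
    rw [map_mul, map_mul, map_pow, hlam, hl _ (hsi b.2), Lis_eq _ (hsi b.2) e3, hsw]
    unfold pp
    push_cast
    rfl
  refine Finset.sum_eq_zero fun b _ => ?_
  rw [hinj _ (hf b).1 (congrFun h1 b), zero_mul]

end Pool.Agent.Q189.MV.MT2

namespace Pool.Agent.Q189.MV.MT2

open Module
open Pool.Agent.H447R2.MZ (H Adm val Zs)
open Pool.Agent.Q187.ZD
open Pool.Agent.Q187.ZD.KZ (T)
open Pool.Agent.Q187.ZD.MT (IsFull)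
open Pool.Agent.Q189.MV.KZ2

section
variable {P H : Type} [CommRing P] [Algebra ℚ P] [CommRing H] [Algebra ℚ H]
  {ι : H →ₐ[ℚ] P} {L : P} {per : P →ₐ[ℚ] ℂ} {per' : H →ₐ[ℚ] ℝ} (h : IsFull ι L per per')
  {gr : ℕ → Submodule ℚ H} {d : ℕ → ℕ} (hd : IsZagier d) (hm : IsMotivic d Zs gr per') (he : ∀ x : H, ∃ N, x ∈ tot gr N)

include hm in
theorem tz_le (N : ℕ) : finrank ℚ (Tz N) ≤ S d N := by
  have := finite_tot gr hm.finite N
  rw [← tot_Zs, ← map_tot_mot hm, ← finrank_tot_mot hm]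
  exact Submodule.finrank_map_le _ _

include h hm he in
theorem inj_iff : Function.Injective per ↔ ∀ N, finrank ℚ (Tz N) = S d N := by
  rw [Pool.Agent.Q187.ZD.MT.injective_iff h]
  constructor
  · intro hi N
    have h1 := finrank_map_inj per'.toLinearMap (tot gr N) (fun x _ hx => hi (by
      rw [map_zero]
      exact hx))
    rw [map_tot_mot hm, finrank_tot_mot hm] at h1
    exact h1
  · intro hN
    rw [injective_iff_map_eq_zero]
    intro x hx
    obtain ⟨p, hp⟩ := he x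
    have := finite_tot gr hm.finite p
    have h1 := LinearMap.finrank_range_add_finrank_ker (per'.toLinearMap.comp (tot gr p).subtype)
    have h2 : LinearMap.range (per'.toLinearMap.comp (tot gr p).subtype) = Tz p := by
      rw [LinearMap.range_comp, Submodule.range_subtype, map_tot_mot hm, tot_Zs]
    rw [h2, hN p, finrank_tot_mot hm] at h1
    have h4 : finrank ℚ (LinearMap.ker (per'.toLinearMap.comp (tot gr p).subtype)) = 0 := by omega
    rw [Submodule.finrank_eq_zero, LinearMap.ker_eq_bot'] at h4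
    exact congrArg Subtype.val (h4 ⟨x, hp⟩ hx)

end

end Pool.Agent.Q189.MV.MT2
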