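import Pool.Agent.Q189.MV.Out

/-!
# Truncated integrals for the values of the zeta function
-/

set_option autoImplicit false

open PowerSeries Filter Topology

namespace Pool.Agent.Q189.MV

open Pool.Agent.Y119.ML (LL UU In geo adm adm_tail adm_none const_LL theta_LL theta_In const_In WI JJ S S_zero)
open Pool.Agent.Q189.Z3 (L α1 α1_inj α1_ne UU0 UU1 coeff_geo_mul B1L B1w summ S_Xmul hd0 hd1 const_lim S0 Snil sint_nat sint_card)
open Pool.Agent.H447R2.MZ (H Adm val Zs)
open Pool.Agent.Q189.HL (sh sh_nil sh_cons_nil sh_cons length_sh adm_sh LL_mul)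

/-- the powers of the letter `1` -/
lemma V_ones {y : ℝ} (hy : |y| < 1) (m : ℕ) : V (List.replicate m o1) y = V [o1] y ^ m / m.factorial := by
  induction m with
  | zero => simp [V_nil]
  | succ m ih =>
    have h3 := V_mul (u := [o1]) (v := List.replicate m o1 ++ []) (adm_one adm_nil) (adm_rep m adm_nil) hy
    rw [sh_one (fun w => V w y) m [], sh_cons_nil] at h3
    simp only [List.map_cons, List.map_nil, List.sum_cons, List.sum_nil, add_zero] at h3
    have h6 : List.replicate m o1 ++ [o1] = List.replicate (m + 1) o1 := by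
      rw [← List.replicate_succ']
    rw [h6, List.append_nil, List.append_nil, ih] at h3
    rw [Nat.factorial_succ, pow_succ]
    push_cast
    have h7 : ((m : ℝ) + 1) ≠ 0 := by positivity
    have h8 : ((m.factorial : ℕ) : ℝ) ≠ 0 := by exact_mod_cast Nat.factorial_ne_zero m
    have h9 : V (List.replicate (m + 1) o1) y = V [o1] y * (V [o1] y ^ m / (m.factorial : ℝ)) / ((m : ℝ) + 1) := by
      rw [h3]
      field_simp
    rw [h9]
    field_simp

/-- the word of the polylogarithm -/
def pw (i : ℕ) : List (Option (Fin 1)) := List.replicate i none ++ [o1]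

lemma pw_adm (i : ℕ) : adm (pw i) := adm_app _ (adm_one adm_nil) (by simp)

lemma pw_len (i : ℕ) : (pw i).length = i + 1 := by
  unfold pw
  simp

lemma pc_ones (m : ℕ) : ∀ (j : ℕ) (y : ℝ), pc (pw j) (List.replicate m o1) y =
    ∑ i ∈ Finset.range (m + 1), V (pw (j + i)) (1 - y) * V (List.replicate (m - i) o1) y := by
  induction m with
  | zero =>
    intro j y
    rw [Finset.sum_range_one]
    show V (pw j) (1 - y) = V (pw (j + 0)) (1 - y) * V [] y
    rw [V_nil, mul_one, add_zero]
  | succ m ih =>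
    intro j y
    rw [List.replicate_succ]
    show V (pw j) (1 - y) * V (o1 :: List.replicate m o1) y + pc (none :: pw j) (List.replicate m o1) y = _
    have h1 : none :: pw j = pw (j + 1) := by
      unfold pw
      rw [List.replicate_succ, List.cons_append]
    rw [h1, ih, Finset.sum_range_succ' _ (m + 1), add_comm]
    refine congrArg₂ (· + ·) (Finset.sum_congr rfl fun i _ => ?_) ?_
    · have h2 : j + 1 + i = j + (i + 1) := by omega
      have h3 : m - i = m + 1 - (i + 1) := by omega
      rw [h2, h3]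
    · rw [add_zero, Nat.sub_zero, List.replicate_succ]

/-- the truncated value -/
noncomputable def Inn (N : ℕ) (x : ℝ) : ℝ := V (none :: List.replicate (N - 1) o1) (1 - x)

variable {x : ℝ}

lemma ok_ones {m : ℕ} (hm : 1 ≤ m) : OK [] (none :: List.replicate m o1) := by
  refine ⟨adm_nil, ?_, fun _ i => by simp⟩
  obtain ⟨c, rfl⟩ : ∃ c, m = c + 1 := ⟨m - 1, by omega⟩
  have h1 := adm_rep (c + 1) adm_nil
  rw [List.append_nil] at h1
  exact Pool.Agent.Q189.HL.adm_cons h1 (by simp)

lemma rv_ones (m : ℕ) : rv [] (none :: List.replicate m o1) = wd [m + 1] := by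
  rw [rv_eq, List.append_nil, List.map_cons, List.map_replicate, List.reverse_cons, List.reverse_replicate]
  rfl

lemma val_nil_eq : val [] = 1 := by
  have h0 : Adm [] := ⟨by simp, by simp⟩
  have h2 := Pool.Agent.H447R2.MZ.tendsto_H [] h0
  have h3 : Tendsto (H []) atTop (𝓝 1) := tendsto_const_nhds.congr fun N => (Pool.Agent.H447R2.MZ.H_nil N).symm
  exact tendsto_nhds_unique h2 h3

/-- the formula for `ζ(N)` -/
theorem zeta_eq (hx : 0 < x) (hx1 : x < 1) {N : ℕ} (hN : 2 ≤ N) :
    val [N] = Inn N x + ∑ i ∈ Finset.range N, (-Real.log x) ^ (N - 1 - i) / ((N - 1 - i).factorial : ℝ) * V (pw i) x := by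
  have h2 : |1 - x| < 1 := by rw [abs_of_pos (by linarith)]; linarith
  obtain ⟨m, rfl⟩ : ∃ m, N = m + 2 := ⟨N - 2, by omega⟩
  have hs : Adm [m + 2] := ⟨fun a ha => by simp only [List.mem_singleton] at ha; omega, fun a t h => by
    have := (List.cons.inj h).1
    omega⟩
  have h1 := pc_eq (ok_ones (m := m + 1) (by omega)) hs (rv_ones (m + 1)) (x := 1 - x) (by linarith) (by linarith)
  rw [← h1]
  show V [] (1 - (1 - x)) * V (none :: List.replicate (m + 1) o1) (1 - x) + pc (pw 0) (List.replicate (m + 1) o1) (1 - x) = _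
  rw [V_nil, one_mul, pc_ones]
  have h3 : Inn (m + 2) x = V (none :: List.replicate (m + 1) o1) (1 - x) := rfl
  rw [h3]
  congr 1
  refine Finset.sum_congr rfl fun i _ => ?_
  rw [V_ones h2, V_one hx hx1, zero_add, sub_sub_cancel]
  have h4 : m + 2 - 1 - i = m + 1 - i := by omega
  rw [h4, mul_comm]

/-- the polylogarithm -/
noncomputable def Lp (s : ℕ) (x : ℝ) : ℝ := ∑' m : ℕ, x ^ (m + 1) / ((m : ℝ) + 1) ^ s

lemma pw_eq (hx : 0 < x) (hx1 : x < 1) (i : ℕ) : V (pw i) x = Lp (i + 1) x := by
  have h1 : |x| < 1 := by rw [abs_of_pos hx]; exact hx1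
  have h2 := Lis_eq [i + 1] (by simp) h1
  have h3 : wd [i + 1] = pw i := rfl
  rw [← h3, ← h2]
  show ∑' n : ℕ, x ^ (n + 1) / ((n : ℝ) + 1) ^ (i + 1) * 1 = _
  simp only [mul_one]
  rfl

/-- the derivative -/
lemma hd_Inn (hx : 0 < x) (hx1 : x < 1) {N : ℕ} (hN : 2 ≤ N) :
    HasDerivAt (Inn N) (-(Real.log (1 / x) ^ (N - 1) / (1 - x) / ((N - 1).factorial : ℝ))) x := by
  have h2 : |1 - x| < 1 := by rw [abs_of_pos (by linarith)]; linarith
  have h1 := hdV1 (w := none :: List.replicate (N - 1) o1) (ok_ones (by omega)).2.1 hx hx1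
  refine h1.congr_deriv ?_
  show -(1 / (1 - x) * V (List.replicate (N - 1) o1) (1 - x)) = _
  rw [V_ones h2, V_one hx hx1]
  have h3 : Real.log (1 / x) = -Real.log x := by rw [one_div, Real.log_inv]
  rw [h3]
  ring

lemma cont_V (w : List (Option (Fin 1))) {y : ℝ} (hy : |y| < 1) : ContinuousAt (V w) y :=
  (Pool.Agent.Q189.Z3.hd (B1w w) hy).continuousAt

/-- the truncated value is the truncated integral -/
theorem Inn_int (hx : 0 < x) (hx1 : x < 1) {N : ℕ} (hN : 2 ≤ N) :
    Inn N x = (∫ v in x..1, Real.log (1 / v) ^ (N - 1) / (1 - v)) / ((N - 1).factorial : ℝ) := by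
  have hf : ((N - 1).factorial : ℝ) ≠ 0 := by exact_mod_cast Nat.factorial_ne_zero _
  set g : ℝ → ℝ := fun v => -(Inn N v * ((N - 1).factorial : ℝ)) with hg
  have hc : ContinuousOn g (Set.Icc x 1) := by
    intro v hv
    refine ContinuousAt.continuousWithinAt ?_
    have h1 : |1 - v| < 1 := by
      rw [abs_of_nonneg (by linarith [hv.2])]
      linarith [hv.1]
    have h2 : ContinuousAt (Inn N) v := by
      have h3 : ContinuousAt (fun v : ℝ => 1 - v) v := by fun_prop
      exact ContinuousAt.comp (f := fun v : ℝ => 1 - v) (g := V (none :: List.replicate (N - 1) o1)) (cont_V _ h1) h3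
    exact (h2.mul continuousAt_const).neg
  have hd : ∀ v ∈ Set.Ioo x 1, HasDerivAt g (Real.log (1 / v) ^ (N - 1) / (1 - v)) v := by
    intro v hv
    have h1 := ((hd_Inn (x := v) (hx.trans hv.1) hv.2 hN).mul_const ((N - 1).factorial : ℝ)).neg
    refine h1.congr_deriv ?_
    field_simp
  have hpos : ∀ v ∈ Set.Ioo x 1, 0 ≤ Real.log (1 / v) ^ (N - 1) / (1 - v) := by
    intro v hv
    have h1 : 0 < v := hx.trans hv.1
    have h2 : 1 ≤ 1 / v := by
      rw [le_div_iff₀ h1]
      linarith [hv.2]
    have h3 := Real.log_nonneg h2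
    have h4 : 0 < 1 - v := by linarith [hv.2]
    positivity
  have hint := intervalIntegral.intervalIntegrable_deriv_of_nonneg (a := x) (b := 1) (g := g)
    (g' := fun v => Real.log (1 / v) ^ (N - 1) / (1 - v)) (by rw [Set.uIcc_of_le hx1.le]; exact hc)
    (by rw [min_eq_left hx1.le, max_eq_right hx1.le]; exact hd) (by rw [min_eq_left hx1.le, max_eq_right hx1.le]; exact hpos)
  have h1 := intervalIntegral.integral_eq_sub_of_hasDerivAt_of_le hx1.le hc hd hint
  have h2 : Inn N 1 = 0 := by
    show V _ (1 - 1) = 0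
    rw [sub_self]
    exact S0 (by simp)
  rw [h1, hg]
  simp only [h2]
  field_simp
  ring

end Pool.Agent.Q189.MV
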