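import Pool.Agent.Q189.MV.Form

/-!
# Linear forms in truncated integrals and products of logarithms and polylogarithms
-/

set_option autoImplicit false

open PowerSeries Filter Topology

namespace Pool.Agent.Q189.MV

open Pool.Agent.Y119.ML (LL UU In geo adm adm_tail adm_none const_LL theta_LL theta_In const_In WI JJ S S_zero)
open Pool.Agent.Q189.Z3 (L α1 α1_inj α1_ne UU0 UU1 coeff_geo_mul B1L B1w summ S_Xmul hd0 hd1 const_lim S0 Snil sint_nat sint_card)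
open Pool.Agent.H447R2.MZ (H Adm val Zs)

/-- the word of `Li_j`, the empty word for `j = 0` -/
def pv : ℕ → List (Option (Fin 1))
  | 0 => []
  | j + 1 => pw j

lemma pv_len (j : ℕ) : (pv j).length = j := by
  rcases j with _ | j
  · rfl
  · exact pw_len j

lemma pv_adm (j : ℕ) : adm (pv j) := by
  rcases j with _ | j
  · exact adm_nil
  · exact pw_adm j

/-- the polylogarithm, `1` for `j = 0` -/
noncomputable def Lv : ℕ → ℝ → ℝ
  | 0, _ => 1
  | j + 1, x => Lp (j + 1) x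

lemma pv_eq {x : ℝ} (hx : 0 < x) (hx1 : x < 1) (j : ℕ) : V (pv j) x = Lv j x := by
  rcases j with _ | j
  · exact V_nil x
  · exact pw_eq hx hx1 j

/-- the index of `log ^ i Li_j` -/
def ij (W i j : ℕ) (h : i + j ≤ W) : JJ 1 W :=
  (⟨i, by omega⟩, ⟨pv j, by rw [pv_len]; omega, pv_adm j⟩)

lemma sum_ij (W : ℕ) (F : ℕ → ℕ → ℂ) :
    ∑ b : JJ 1 W, (if (b.1 : ℕ) + b.2.1.length ≤ W ∧ b.2.1 = pv b.2.1.length then F b.1 b.2.1.length else 0) =
      ∑ i ∈ Finset.range (W + 1), ∑ j ∈ Finset.range (W + 1 - i), F i j := by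
  classical
  rw [← Finset.sum_filter, Finset.sum_sigma']
  symm
  have key : ∀ x ∈ (Finset.range (W + 1)).sigma fun i => Finset.range (W + 1 - i), x.1 + x.2 ≤ W := by
    intro x hx
    rw [Finset.mem_sigma, Finset.mem_range, Finset.mem_range] at hx
    omega
  refine Finset.sum_bij (fun x hx => ij W x.1 x.2 (key x hx)) (fun x hx => ?_) (fun x hx x' hx' h => ?_)
    (fun b hb => ?_) (fun x hx => ?_)
  · rw [Finset.mem_filter]
    refine ⟨Finset.mem_univ _, ?_, ?_⟩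
    · show x.1 + (pv x.2).length ≤ W
      rw [pv_len]
      exact key x hx
    · show pv x.2 = pv (pv x.2).length
      rw [pv_len]
  · have h1 : x.1 = x'.1 := congrArg (fun b : JJ 1 W => (b.1 : ℕ)) h
    have h2 : x.2 = x'.2 := by
      have h3 := congrArg (fun b : JJ 1 W => b.2.1.length) h
      simp only [ij, pv_len] at h3
      exact h3
    obtain ⟨i, j⟩ := x
    obtain ⟨i', j'⟩ := x'
    simp only at h1 h2
    subst h1 h2
    rfl
  · rw [Finset.mem_filter] at hb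
    obtain ⟨_, h1, h2⟩ := hb
    refine ⟨⟨(b.1 : ℕ), b.2.1.length⟩, ?_, ?_⟩
    · rw [Finset.mem_sigma, Finset.mem_range, Finset.mem_range]
      simp only
      omega
    · refine Prod.ext (Fin.ext rfl) (Subtype.ext ?_)
      exact h2.symm
  · show F x.1 x.2 = F x.1 (pv x.2).length
    rw [pv_len]

/-- the zeta value -/
noncomputable def ze (s : ℕ) : ℝ := ∑' n : ℕ, (1 : ℝ) / ((n : ℝ) + 1) ^ s

lemma ze_eq {N : ℕ} (hN : 2 ≤ N) : val [N] = ze N := by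
  exact (Pool.Agent.H447R2.MZ.val_single N hN).tsum_eq.symm

/-- the formula -/
lemma Inn_eq {n : ℕ} (hn : 2 ≤ n) {N : ℕ} (hN : 2 ≤ N) : Inn N (1 / n) = ze N - ∑ i ∈ Finset.range N,
    1 / (i.factorial : ℝ) * (Real.log n ^ i * Lv (N - i) (1 / n)) := by
  obtain ⟨h1, h2⟩ := inv_pos_lt hn
  have h3 := zeta_eq h1 h2 hN
  rw [ze_eq hN] at h3
  rw [h3, ← Finset.sum_range_reflect]
  have h4 : ∑ j ∈ Finset.range N, (-Real.log (1 / (n : ℝ))) ^ (N - 1 - (N - 1 - j)) / ((N - 1 - (N - 1 - j)).factorial : ℝ) *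
      V (pw (N - 1 - j)) (1 / n) = ∑ i ∈ Finset.range N, 1 / (i.factorial : ℝ) * (Real.log n ^ i * Lv (N - i) (1 / n)) := by
    refine Finset.sum_congr rfl fun i hi => ?_
    have hi' := Finset.mem_range.1 hi
    have e1 : N - 1 - (N - 1 - i) = i := by omega
    have e2 : N - i = (N - 1 - i) + 1 := by omega
    rw [e1, e2, pw_eq h1 h2, one_div (n : ℝ), Real.log_inv, neg_neg]
    show _ = 1 / (i.factorial : ℝ) * (Real.log n ^ i * Lp (N - 1 - i + 1) ((n : ℝ)⁻¹))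
    ring
  rw [h4]
  ring

/-- the linear form -/
noncomputable def Lf (W : ℕ) (a : ℕ → ℂ) (c : ℕ → ℕ → ℂ) (n : ℕ) : ℂ :=
  ∑ N ∈ Finset.Icc 2 W, a N * ((Inn N (1 / n) : ℝ) : ℂ) +
    ∑ i ∈ Finset.range (W + 1), ∑ j ∈ Finset.range (W + 1 - i), c i j * ((Real.log n ^ i * Lv j (1 / n) : ℝ) : ℂ)

/-- the coefficients after the substitution -/
noncomputable def cc (W : ℕ) (a : ℕ → ℂ) (c : ℕ → ℕ → ℂ) (i j : ℕ) : ℂ :=
  c i j - (if 1 ≤ j ∧ 2 ≤ i + j then a (i + j) / (i.factorial : ℂ) else 0) +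
    (if i = 0 ∧ j = 0 then ∑ N ∈ Finset.Icc 2 W, a N * ((ze N : ℝ) : ℂ) else 0)

lemma swap_ij (W : ℕ) (F : ℕ → ℕ → ℂ) : ∑ N ∈ Finset.Icc 2 W, ∑ i ∈ Finset.range N, F i (N - i) =
    ∑ i ∈ Finset.range (W + 1), ∑ j ∈ Finset.range (W + 1 - i), (if 1 ≤ j ∧ 2 ≤ i + j then F i j else 0) := by
  classical
  rw [Finset.sum_sigma', Finset.sum_sigma', ← Finset.sum_filter]
  refine Finset.sum_bij' (fun x _ => ⟨x.2, x.1 - x.2⟩) (fun y _ => ⟨y.1 + y.2, y.1⟩) (fun x hx => ?_) (fun y hy => ?_)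
    (fun x hx => ?_) (fun y hy => ?_) (fun x hx => rfl)
  · rw [Finset.mem_sigma, Finset.mem_Icc, Finset.mem_range] at hx
    rw [Finset.mem_filter, Finset.mem_sigma, Finset.mem_range, Finset.mem_range]
    simp only
    omega
  · rw [Finset.mem_filter, Finset.mem_sigma, Finset.mem_range, Finset.mem_range] at hy
    rw [Finset.mem_sigma, Finset.mem_Icc, Finset.mem_range]
    simp only
    omega
  · rw [Finset.mem_sigma, Finset.mem_Icc, Finset.mem_range] at hx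
    obtain ⟨N, i⟩ := x
    simp only at hx ⊢
    have h1 : i + (N - i) = N := by omega
    rw [h1]
  · obtain ⟨i, j⟩ := y
    simp only
    have h1 : i + j - i = j := by omega
    rw [h1]

lemma Lf_eq {W : ℕ} (a : ℕ → ℂ) (c : ℕ → ℕ → ℂ) {n : ℕ} (hn : 2 ≤ n) : Lf W a c n =
    ∑ i ∈ Finset.range (W + 1), ∑ j ∈ Finset.range (W + 1 - i), cc W a c i j * ((Real.log n ^ i * Lv j (1 / n) : ℝ) : ℂ) := by
  classical
  have h1 : ∑ N ∈ Finset.Icc 2 W, a N * ((Inn N (1 / n) : ℝ) : ℂ) = ∑ N ∈ Finset.Icc 2 W, a N * ((ze N : ℝ) : ℂ) -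
      ∑ i ∈ Finset.range (W + 1), ∑ j ∈ Finset.range (W + 1 - i),
        (if 1 ≤ j ∧ 2 ≤ i + j then a (i + j) / (i.factorial : ℂ) else 0) * ((Real.log n ^ i * Lv j (1 / n) : ℝ) : ℂ) := by
    have h2 := swap_ij W fun i j => a (i + j) / (i.factorial : ℂ) * ((Real.log n ^ i * Lv j (1 / n) : ℝ) : ℂ)
    have h3 : ∑ i ∈ Finset.range (W + 1), ∑ j ∈ Finset.range (W + 1 - i),
        (if 1 ≤ j ∧ 2 ≤ i + j then a (i + j) / (i.factorial : ℂ) else 0) * ((Real.log n ^ i * Lv j (1 / n) : ℝ) : ℂ) =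
        ∑ i ∈ Finset.range (W + 1), ∑ j ∈ Finset.range (W + 1 - i), (if 1 ≤ j ∧ 2 ≤ i + j then
          a (i + j) / (i.factorial : ℂ) * ((Real.log n ^ i * Lv j (1 / n) : ℝ) : ℂ) else 0) := by
      refine Finset.sum_congr rfl fun i _ => Finset.sum_congr rfl fun j _ => ?_
      split_ifs <;> simp
    rw [h3, ← h2, ← Finset.sum_sub_distrib]
    refine Finset.sum_congr rfl fun N hN => ?_
    rw [Finset.mem_Icc] at hN
    rw [Inn_eq hn hN.1]
    push_cast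
    rw [mul_sub, Finset.mul_sum]
    congr 1
    refine Finset.sum_congr rfl fun i hi => ?_
    have hi' := Finset.mem_range.1 hi
    have e1 : i + (N - i) = N := by omega
    rw [e1]
    ring
  have h2 : ∑ i ∈ Finset.range (W + 1), ∑ j ∈ Finset.range (W + 1 - i),
      (if i = 0 ∧ j = 0 then ∑ N ∈ Finset.Icc 2 W, a N * ((ze N : ℝ) : ℂ) else 0) *
        ((Real.log n ^ i * Lv j (1 / n) : ℝ) : ℂ) = ∑ N ∈ Finset.Icc 2 W, a N * ((ze N : ℝ) : ℂ) := by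
    rw [Finset.sum_eq_single_of_mem 0 (Finset.mem_range.2 (by omega)),
      Finset.sum_eq_single_of_mem 0 (Finset.mem_range.2 (by omega))]
    · rw [if_pos ⟨rfl, rfl⟩]
      show _ * ((Real.log n ^ 0 * 1 : ℝ) : ℂ) = _
      simp
    · intro j _ hj
      rw [if_neg (fun h => hj h.2), zero_mul]
    · intro i _ hi
      refine Finset.sum_eq_zero fun j _ => ?_
      rw [if_neg (fun h => hi h.1), zero_mul]
  unfold Lf cc
  rw [h1]
  have h3 : ∀ i j : ℕ, (c i j - (if 1 ≤ j ∧ 2 ≤ i + j then a (i + j) / (i.factorial : ℂ) else 0) +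
      (if i = 0 ∧ j = 0 then ∑ N ∈ Finset.Icc 2 W, a N * ((ze N : ℝ) : ℂ) else 0)) *
        ((Real.log n ^ i * Lv j (1 / n) : ℝ) : ℂ) =
      c i j * ((Real.log n ^ i * Lv j (1 / n) : ℝ) : ℂ) -
      (if 1 ≤ j ∧ 2 ≤ i + j then a (i + j) / (i.factorial : ℂ) else 0) * ((Real.log n ^ i * Lv j (1 / n) : ℝ) : ℂ) +
      (if i = 0 ∧ j = 0 then ∑ N ∈ Finset.Icc 2 W, a N * ((ze N : ℝ) : ℂ) else 0) *
        ((Real.log n ^ i * Lv j (1 / n) : ℝ) : ℂ) := fun i j => by ring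
  simp only [h3, Finset.sum_add_distrib, Finset.sum_sub_distrib]
  rw [h2]
  ring

/-- the constants -/
noncomputable def ys (W : ℕ) : Option (Fin (W + 1)) → ℂ
  | none => 1
  | some N => ((ze N : ℝ) : ℂ)

/-- the constants multiplied by the zeta values -/
noncomputable def cs (W g : ℕ) (θ : Fin g → ℂ) : Fin (Fintype.card (Option (Fin (W + 1)) × Fin g)) → ℂ :=
  (fun p : Option (Fin (W + 1)) × Fin g => ys W p.1 * θ p.2) ∘ (Fintype.equivFin _).symm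

lemma cs_one {W g : ℕ} {θ : Fin g → ℂ} {H : ℝ} (hH : 0 ≤ H) {r : ℂ} (h : r ∈ Cf θ H) : r ∈ Cf (cs W g θ) H := by
  have h1 := Cf.pair (ys W) none h hH
  have h2 : ys W none * r = r := one_mul r
  rw [h2] at h1
  exact Cf.reindex _ h1

lemma cs_ze {W g : ℕ} {θ : Fin g → ℂ} {H : ℝ} (hH : 0 ≤ H) {r : ℂ} (h : r ∈ Cf θ H) {N : ℕ} (hN : N ≤ W) :
    r * ((ze N : ℝ) : ℂ) ∈ Cf (cs W g θ) H := by
  have h1 := Cf.pair (ys W) (some ⟨N, by omega⟩) h hH
  have h2 : ys W (some ⟨N, by omega⟩) * r = r * ((ze N : ℝ) : ℂ) := mul_comm _ _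
  rw [h2] at h1
  exact Cf.reindex _ h1

lemma cc_mem {W g : ℕ} {θ : Fin g → ℂ} {H : ℝ} (hH : ((W + 2 : ℕ) : ℝ) * W.factorial ≤ H) {a : ℕ → ℂ} {c : ℕ → ℕ → ℂ}
    (ha : ∀ N, a N ∈ Cf θ H) (hc : ∀ i j, c i j ∈ Cf θ H) {i j : ℕ} (hij : i + j ≤ W) :
    (W.factorial : ℂ) * cc W a c i j ∈ Cf (cs W g θ) (H ^ 2) := by
  have hH0 : 0 ≤ H := le_trans (by positivity) hH
  have hD : (0 : ℝ) ≤ W.factorial := by positivity
  have h1 : (W.factorial : ℂ) * c i j ∈ Cf (cs W g θ) (W.factorial * H) := by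
    have := Cf.int_mul (cs_one (W := W) hH0 (hc i j)) (W.factorial : ℤ)
    push_cast at this
    rw [abs_of_nonneg hD] at this
    exact this
  have h2 : (W.factorial : ℂ) * (if 1 ≤ j ∧ 2 ≤ i + j then a (i + j) / (i.factorial : ℂ) else 0) ∈
      Cf (cs W g θ) (W.factorial * H) := by
    split_ifs
    · obtain ⟨q, hq⟩ : i.factorial ∣ W.factorial := Nat.factorial_dvd_factorial (by omega)
      have h3 : (W.factorial : ℂ) * (a (i + j) / (i.factorial : ℂ)) = ((q : ℤ) : ℂ) * a (i + j) := by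
        have h4 : (i.factorial : ℂ) ≠ 0 := by exact_mod_cast Nat.factorial_ne_zero i
        rw [hq]
        push_cast
        field_simp
      rw [h3]
      have h5 := Cf.int_mul (cs_one (W := W) hH0 (ha (i + j))) (q : ℤ)
      refine Cf.mono h5 (mul_le_mul_of_nonneg_right ?_ hH0)
      rw [Int.cast_natCast, abs_of_nonneg (by positivity)]
      have h6 : q ≤ W.factorial := by
        rw [hq]
        exact Nat.le_mul_of_pos_left q (Nat.factorial_pos i)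
      exact_mod_cast h6
    · rw [mul_zero]
      exact Cf.zero (by positivity)
  have h3 : (W.factorial : ℂ) * (if i = 0 ∧ j = 0 then ∑ N ∈ Finset.Icc 2 W, a N * ((ze N : ℝ) : ℂ) else 0) ∈
      Cf (cs W g θ) (W * (W.factorial * H)) := by
    split_ifs
    · have h4 : (∑ N ∈ Finset.Icc 2 W, a N * ((ze N : ℝ) : ℂ)) ∈ Cf (cs W g θ) ((Finset.Icc 2 W).card * H) := by
        refine Cf.sum _ _ fun N hN => cs_ze hH0 (ha N) (Finset.mem_Icc.1 hN).2
      have h5 := Cf.int_mul h4 (W.factorial : ℤ)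
      push_cast at h5
      rw [abs_of_nonneg hD] at h5
      refine Cf.mono h5 ?_
      have h6 : (((Finset.Icc 2 W).card : ℕ) : ℝ) ≤ W := by
        have : (Finset.Icc 2 W).card ≤ W := by rw [Nat.card_Icc]; omega
        exact_mod_cast this
      calc (W.factorial : ℝ) * (((Finset.Icc 2 W).card : ℕ) * H) ≤ (W.factorial : ℝ) * (W * H) :=
            mul_le_mul_of_nonneg_left (mul_le_mul_of_nonneg_right h6 hH0) hD
        _ = _ := by ring
    · rw [mul_zero]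
      exact Cf.zero (by positivity)
  have h4 := Cf.add (Cf.sub h1 h2) h3
  have h5 : (W.factorial : ℂ) * c i j - (W.factorial : ℂ) * (if 1 ≤ j ∧ 2 ≤ i + j then a (i + j) / (i.factorial : ℂ) else 0) +
      (W.factorial : ℂ) * (if i = 0 ∧ j = 0 then ∑ N ∈ Finset.Icc 2 W, a N * ((ze N : ℝ) : ℂ) else 0) =
      (W.factorial : ℂ) * cc W a c i j := by
    unfold cc
    ring
  rw [h5] at h4
  refine Cf.mono h4 ?_
  calc (W.factorial : ℝ) * H + W.factorial * H + W * (W.factorial * H) = (((W + 2 : ℕ) : ℝ) * W.factorial) * H := by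
        push_cast
        ring
    _ ≤ H * H := mul_le_mul_of_nonneg_right hH hH0
    _ = H ^ 2 := by ring

/-- small forms have small coefficients -/
def GN {g : ℕ} (W B : ℕ) (θ : Fin g → ℂ) (n : ℕ) (H : ℝ) : Prop :=
  ∀ (a : ℕ → ℂ) (c : ℕ → ℕ → ℂ), (∀ N, a N ∈ Cf θ H) → (∀ i j, c i j ∈ Cf θ H) →
    ‖c 0 0 + ∑ N ∈ Finset.Icc 2 W, a N * ((ze N : ℝ) : ℂ)‖ ≤ H ^ B * ‖Lf W a c n‖ ∧
    ∀ i j, 1 ≤ i + j → i + j ≤ W →
      ‖(i.factorial : ℂ) * c i j - (if 1 ≤ j ∧ 2 ≤ i + j then a (i + j) else 0)‖ ≤ H ^ B * ‖Lf W a c n‖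

lemma GN.mono {g W B : ℕ} {θ : Fin g → ℂ} {n : ℕ} {H H' : ℝ} (h1 : 1 ≤ H) (h2 : H ≤ H') (h3 : H' ≤ H ^ 2)
    (hg : GN W B θ n H') : GN W (2 * B) θ n H := by
  intro a c ha hc
  obtain ⟨g1, g2⟩ := hg a c (fun N => Cf.mono (ha N) h2) fun i j => Cf.mono (hc i j) h2
  have h4 : H' ^ B * ‖Lf W a c n‖ ≤ H ^ (2 * B) * ‖Lf W a c n‖ := by
    refine mul_le_mul_of_nonneg_right ?_ (norm_nonneg _)
    rw [pow_mul]
    exact pow_le_pow_left₀ (by linarith) h3 _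
  exact ⟨g1.trans h4, fun i j ha hb => (g2 i j ha hb).trans h4⟩

theorem GN_of {g W B : ℕ} {θ : Fin g → ℂ} {n : ℕ} {H : ℝ} (hn : 2 ≤ n) (hH : ((W + 2 : ℕ) : ℝ) * W.factorial ≤ H)
    (h : GF W B (cs W g θ) n (H ^ 2)) : GN W (2 * B + 1) θ n H := by
  classical
  intro a c ha hc
  have hf1 : (1 : ℝ) ≤ W.factorial := by exact_mod_cast Nat.one_le_iff_ne_zero.2 (Nat.factorial_ne_zero W)
  have hH1 : 1 ≤ H := by
    have : (1 : ℝ) ≤ ((W + 2 : ℕ) : ℝ) := by push_cast; linarith [(Nat.cast_nonneg W : (0 : ℝ) ≤ W)]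
    nlinarith
  have hfH : (W.factorial : ℝ) ≤ H := by
    have : (1 : ℝ) ≤ ((W + 2 : ℕ) : ℝ) := by push_cast; linarith [(Nat.cast_nonneg W : (0 : ℝ) ≤ W)]
    nlinarith
  obtain ⟨e1, e2⟩ := inv_pos_lt hn
  set z : JJ 1 W → ℂ := fun b => if (b.1 : ℕ) + b.2.1.length ≤ W ∧ b.2.1 = pv b.2.1.length then
    (W.factorial : ℂ) * cc W a c b.1 b.2.1.length else 0 with hz
  have h1 : ∀ b, z b ∈ Cf (cs W g θ) (H ^ 2) := by
    intro b
    rw [hz]
    show (if _ then _ else _) ∈ _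
    split_ifs with hb
    · exact cc_mem hH ha hc hb.1
    · exact Cf.zero (by positivity)
  have h2 : ∑ b, z b * ((Real.log n ^ (b.1 : ℕ) * V b.2.1 (1 / n) : ℝ) : ℂ) = (W.factorial : ℂ) * Lf W a c n := by
    rw [Lf_eq a c hn, ← sum_ij W fun i j => cc W a c i j * ((Real.log n ^ i * Lv j (1 / n) : ℝ) : ℂ), Finset.mul_sum]
    refine Finset.sum_congr rfl fun b _ => ?_
    rw [hz]
    show (if _ then _ else _) * _ = _ * (if _ then _ else _)
    split_ifs with hb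
    · rw [← pv_eq e1 e2, ← hb.2]
      ring
    · simp
  have h3 : ∀ i j, i + j ≤ W → ‖cc W a c i j‖ ≤ H ^ (2 * B) * ‖Lf W a c n‖ := by
    intro i j hij
    have h4 := h z h1 (ij W i j hij)
    rw [h2] at h4
    have h5 : z (ij W i j hij) = (W.factorial : ℂ) * cc W a c i j := by
      rw [hz]
      show (if i + (pv j).length ≤ W ∧ pv j = pv (pv j).length then (W.factorial : ℂ) * cc W a c i (pv j).length else 0) = _
      rw [pv_len, if_pos ⟨hij, rfl⟩]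
    rw [h5, norm_mul, norm_mul, Complex.norm_natCast, ← pow_mul] at h4
    have h6 : (0 : ℝ) < W.factorial := by linarith
    have h7 : (W.factorial : ℝ) * ‖cc W a c i j‖ ≤ (W.factorial : ℝ) * (H ^ (2 * B) * ‖Lf W a c n‖) := by
      calc _ ≤ _ := h4
        _ = _ := by ring
    exact le_of_mul_le_mul_left h7 h6
  have h8 : H ^ (2 * B) * ‖Lf W a c n‖ ≤ H ^ (2 * B + 1) * ‖Lf W a c n‖ :=
    mul_le_mul_of_nonneg_right (pow_le_pow_right₀ hH1 (by omega)) (norm_nonneg _)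
  refine ⟨?_, fun i j hij1 hij => ?_⟩
  · have h4 := (h3 0 0 (by omega)).trans h8
    have h5 : cc W a c 0 0 = c 0 0 + ∑ N ∈ Finset.Icc 2 W, a N * ((ze N : ℝ) : ℂ) := by
      unfold cc
      rw [if_neg (by omega), if_pos ⟨rfl, rfl⟩, sub_zero]
    rw [h5] at h4
    exact h4
  · have h4 := h3 i j hij
    have h5 : (i.factorial : ℂ) * c i j - (if 1 ≤ j ∧ 2 ≤ i + j then a (i + j) else 0) = (i.factorial : ℂ) * cc W a c i j := by
      unfold cc
      have h6 : (i.factorial : ℂ) ≠ 0 := by exact_mod_cast Nat.factorial_ne_zero i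
      rw [if_neg (show ¬ (i = 0 ∧ j = 0) by omega), add_zero]
      split_ifs
      · field_simp
      · ring
    rw [h5, norm_mul, Complex.norm_natCast]
    have h6 : (i.factorial : ℝ) ≤ H := by
      have : i.factorial ≤ W.factorial := Nat.factorial_le (by omega)
      exact le_trans (by exact_mod_cast this) hfH
    calc (i.factorial : ℝ) * ‖cc W a c i j‖ ≤ H * (H ^ (2 * B) * ‖Lf W a c n‖) := by
          exact mul_le_mul h6 h4 (norm_nonneg _) (by linarith)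
      _ = _ := by rw [pow_succ]; ring

/-- the theorem for the truncated integrals -/
theorem mainZ (W g : ℕ) : ∃ (B : ℕ) (C c : ℝ), 0 < c ∧ ∀ T : ℕ, 1 ≤ T →
    (∃ H₀ : ℝ, ∀ H₁ : ℝ, H₀ ≤ H₁ → ∀ θ : Fin g → ℂ,
      (({n : ℕ | 2 ≤ n ∧ n ≤ T ∧ ¬ ∀ H : ℝ, H₁ ≤ H → H ≤ H₁ ^ Real.exp ((T : ℝ) ^ c) → GN W B θ n H}.ncard : ℕ) : ℝ) ≤
        C * (T : ℝ) ^ (1 - c)) ∧
    ∀ θ : Fin g → ℂ, (({n : ℕ | 2 ≤ n ∧ n ≤ T ∧ ¬ ∀ N₀ : ℕ, ∃ N, N₀ ≤ N ∧
      (({j : ℕ | j < N ∧ ¬ ∀ H : ℝ, 2 ^ (2 ^ j) ≤ H → H ≤ 2 ^ (2 ^ (j + 1)) → GN W B θ n H}.ncard : ℕ) : ℝ) ≤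
          (T : ℝ) ^ (-c) * N}.ncard : ℕ) : ℝ) ≤ C * (T : ℝ) ^ (1 - c) := by
  refine mainN W _ (cs W g) (fun B θ n H => GN W B θ n H) (fun B₀ => ⟨2 * B₀ + 1, fun T _ =>
    ⟨((W + 2 : ℕ) : ℝ) * W.factorial, fun θ n H hH hn _ hGF => GN_of hn hH hGF⟩⟩)
    (fun B θ n H H' h1 h2 h3 hGN => GN.mono h1 h2 h3 hGN)

end Pool.Agent.Q189.MV
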