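import Pool.Agent.Q189.MV.Niel2

/-!
# The relations between the truncated integrals and the products
-/

set_option autoImplicit false

open PowerSeries Filter Topology

namespace Pool.Agent.Q189.MV

open Pool.Agent.H447R2.MZ (H Adm val Zs)

/-- good heights occur arbitrarily far -/
theorem often_of {P : ℝ → Prop} {δ : ℝ} (hδ : δ < 1) (h : ∀ N₀ : ℕ, ∃ N, N₀ ≤ N ∧
    (({j : ℕ | j < N ∧ ¬ ∀ H : ℝ, 2 ^ (2 ^ j) ≤ H → H ≤ 2 ^ (2 ^ (j + 1)) → P H}.ncard : ℕ) : ℝ) ≤ δ * N) :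
    ∀ H₀ : ℝ, ∃ H, H₀ ≤ H ∧ P H := by
  intro H₀
  obtain ⟨j₀, hj₀⟩ : ∃ j₀ : ℕ, H₀ ≤ 2 ^ (2 ^ j₀) := by
    refine ⟨⌈H₀⌉₊, (Nat.le_ceil H₀).trans ?_⟩
    have h3 : ∀ j : ℕ, j ≤ 2 ^ (2 ^ j) := fun j =>
      (Nat.lt_two_pow_self (n := j)).le.trans (Nat.pow_le_pow_right (by norm_num) (Nat.lt_two_pow_self (n := j)).le)
    exact_mod_cast h3 _
  obtain ⟨N, hN, hbad⟩ := h (⌈(j₀ : ℝ) / (1 - δ)⌉₊ + 1)
  have hδ' : 0 < 1 - δ := by linarith
  have hN1 : (j₀ : ℝ) < N * (1 - δ) := by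
    rw [← div_lt_iff₀ hδ']
    exact lt_of_le_of_lt (Nat.le_ceil _) (by exact_mod_cast hN)
  have hex : ∃ j, j₀ ≤ j ∧ ∀ H : ℝ, 2 ^ (2 ^ j) ≤ H → H ≤ 2 ^ (2 ^ (j + 1)) → P H := by
    by_contra hne
    push Not at hne
    have h5 : ((Finset.Ico j₀ N : Finset ℕ) : Set ℕ) ⊆ {j : ℕ | j < N ∧ ¬ ∀ H : ℝ, 2 ^ (2 ^ j) ≤ H → H ≤ 2 ^ (2 ^ (j + 1)) →
        P H} := by
      intro j hj
      rw [Finset.mem_coe, Finset.mem_Ico] at hj
      refine ⟨hj.2, fun hall => ?_⟩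
      obtain ⟨H, ha, hb, hcc⟩ := hne j hj.1
      exact hcc (hall H ha hb)
    have h6 := Set.ncard_le_ncard h5 ((Set.finite_lt_nat N).subset fun j hj => hj.1)
    rw [Set.ncard_coe_finset, Nat.card_Ico] at h6
    have h7 : ((N - j₀ : ℕ) : ℝ) ≤ δ * N := (Nat.cast_le.2 h6).trans hbad
    have h8 : (N : ℝ) - j₀ ≤ ((N - j₀ : ℕ) : ℝ) := by
      rw [sub_le_iff_le_add]
      exact_mod_cast Nat.sub_le_iff_le_add.1 le_rfl
    nlinarith
  obtain ⟨j, hj, hgood⟩ := hex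
  exact ⟨2 ^ (2 ^ j), hj₀.trans (pow_le_pow_right₀ (by norm_num) (Nat.pow_le_pow_right (by norm_num) hj)),
    hgood _ le_rfl (pow_le_pow_right₀ (by norm_num) (Nat.pow_le_pow_right (by norm_num) (Nat.le_succ j)))⟩

/-- the relations over a space are exactly those which come from relations of the zeta values -/
def Ex (W : ℕ) (K : Submodule ℚ ℂ) (n : ℕ) : Prop :=
  ∀ (a : ℕ → ℂ) (c : ℕ → ℕ → ℂ), (∀ N, a N ∈ K) → (∀ i j, c i j ∈ K) → Lf W a c n = 0 →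
    c 0 0 + ∑ N ∈ Finset.Icc 2 W, a N * ((ze N : ℝ) : ℂ) = 0 ∧
    ∀ i j, 1 ≤ i + j → i + j ≤ W → (i.factorial : ℂ) * c i j = if 1 ≤ j ∧ 2 ≤ i + j then a (i + j) else 0

/-- a common denominator for members of the span -/
lemma Cf_of_span {g : ℕ} {θ : Fin g → ℂ} {β : Type} (S : Finset β) (z : β → ℂ)
    (hz : ∀ b ∈ S, z b ∈ Submodule.span ℚ (Set.range θ)) :
    ∃ (D : ℤ) (H₀ : ℝ), D ≠ 0 ∧ ∀ b ∈ S, (D : ℂ) * z b ∈ Cf θ H₀ := by
  classical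
  have h1 : ∀ b : S, ∃ c : Fin g → ℚ, ∑ i, c i • θ i = z b := fun b =>
    (Submodule.mem_span_range_iff_exists_fun ℚ).1 (hz b b.2)
  choose c hc using h1
  obtain ⟨D, a, hD, ha⟩ := Pool.Agent.Q189.HC.rat_den (fun p : S × Fin g => c p.1 p.2)
  refine ⟨D, ∑ p : S × Fin g, |((a p : ℤ) : ℝ)|, hD, fun b hb => ⟨fun i => a ((⟨b, hb⟩, i) : S × Fin g), fun i => ?_, ?_⟩⟩
  · exact Finset.single_le_sum (f := fun p : S × Fin g => |((a p : ℤ) : ℝ)|) (fun _ _ => abs_nonneg _)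
      (Finset.mem_univ ((⟨b, hb⟩, i) : S × Fin g))
  · rw [← hc ⟨b, hb⟩, Finset.mul_sum]
    refine Finset.sum_congr rfl fun i _ => ?_
    have h3 := ha (⟨b, hb⟩, i)
    have h4 : (((a (⟨b, hb⟩, i) : ℤ) : ℚ) : ℂ) = (((D : ℚ) * c ⟨b, hb⟩ i : ℚ) : ℂ) := by rw [h3]
    push_cast at h4
    rw [h4, Rat.smul_def]
    ring

/-- the linear form depends only on finitely many coefficients -/
lemma Lf_congr {W n : ℕ} {a a' : ℕ → ℂ} {c c' : ℕ → ℕ → ℂ} (h : ∀ N ≤ W, a N = a' N) (h' : ∀ i ≤ W, ∀ j ≤ W, c i j = c' i j) :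
    Lf W a c n = Lf W a' c' n := by
  unfold Lf
  congr 1
  · refine Finset.sum_congr rfl fun N hN => ?_
    rw [h N (Finset.mem_Icc.1 hN).2]
  · refine Finset.sum_congr rfl fun i hi => Finset.sum_congr rfl fun j hj => ?_
    have h1 := Finset.mem_range.1 hi
    have h2 := Finset.mem_range.1 hj
    rw [h' i (by omega) j (by omega)]

lemma Lf_mul {W n : ℕ} (D : ℂ) (a : ℕ → ℂ) (c : ℕ → ℕ → ℂ) :
    Lf W (fun N => D * a N) (fun i j => D * c i j) n = D * Lf W a c n := by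
  unfold Lf
  rw [mul_add, Finset.mul_sum, Finset.mul_sum]
  congr 1
  · refine Finset.sum_congr rfl fun N _ => ?_
    ring
  · refine Finset.sum_congr rfl fun i _ => ?_
    rw [Finset.mul_sum]
    refine Finset.sum_congr rfl fun j _ => ?_
    ring

theorem Ex_of {g W B : ℕ} {θ : Fin g → ℂ} {n : ℕ} (h : ∀ H₀ : ℝ, ∃ H, H₀ ≤ H ∧ GN W B θ n H) :
    Ex W (Submodule.span ℚ (Set.range θ)) n := by
  classical
  intro a c ha hc h0
  obtain ⟨D, H₁, hD, h1⟩ := Cf_of_span (Finset.range (W + 1)) a fun N _ => ha N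
  obtain ⟨D', H₂, hD', h2⟩ := Cf_of_span (Finset.range (W + 1) ×ˢ Finset.range (W + 1)) (fun p : ℕ × ℕ => c p.1 p.2)
    fun p _ => hc p.1 p.2
  obtain ⟨H, hH, hg⟩ := h (max 0 (max (|(D' : ℝ)| * H₁) (|(D : ℝ)| * H₂)))
  have hH0 : 0 ≤ H := (le_max_left _ _).trans hH
  have hHa : |(D' : ℝ)| * H₁ ≤ H := (le_max_left _ _).trans ((le_max_right _ _).trans hH)
  have hHb : |(D : ℝ)| * H₂ ≤ H := (le_max_right _ _).trans ((le_max_right _ _).trans hH)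
  set a' : ℕ → ℂ := fun N => if N ≤ W then (D' : ℂ) * ((D : ℂ) * a N) else 0 with ha'
  set c' : ℕ → ℕ → ℂ := fun i j => if i ≤ W ∧ j ≤ W then (D : ℂ) * ((D' : ℂ) * c i j) else 0 with hc'
  have h3 : ∀ N, a' N ∈ Cf θ H := by
    intro N
    rw [ha']
    show (if N ≤ W then _ else _) ∈ _
    split_ifs with hN
    · exact Cf.mono (Cf.int_mul (h1 N (Finset.mem_range.2 (by omega))) D') hHa
    · exact Cf.zero hH0
  have h4 : ∀ i j, c' i j ∈ Cf θ H := by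
    intro i j
    rw [hc']
    show (if i ≤ W ∧ j ≤ W then _ else _) ∈ _
    split_ifs with hN
    · exact Cf.mono (Cf.int_mul (h2 (i, j) (Finset.mem_product.2
        ⟨Finset.mem_range.2 (by omega), Finset.mem_range.2 (by omega)⟩)) D) hHb
    · exact Cf.zero hH0
  obtain ⟨g1, g2⟩ := hg a' c' h3 h4
  have h5 : Lf W a' c' n = 0 := by
    have h6 : Lf W a' c' n = Lf W (fun N => ((D : ℂ) * D') * a N) (fun i j => ((D : ℂ) * D') * c i j) n := by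
      refine Lf_congr (fun N hN => ?_) fun i hi j hj => ?_
      · rw [ha']
        show (if N ≤ W then _ else _) = _
        rw [if_pos hN]
        ring
      · rw [hc']
        show (if i ≤ W ∧ j ≤ W then _ else _) = _
        rw [if_pos ⟨hi, hj⟩]
        ring
    rw [h6, Lf_mul, h0, mul_zero]
  rw [h5, norm_zero, mul_zero] at g1
  have hDD : (D : ℂ) * D' ≠ 0 := mul_ne_zero (by exact_mod_cast hD) (by exact_mod_cast hD')
  constructor
  · have g1' := norm_le_zero_iff.1 g1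
    have h6 : c' 0 0 + ∑ N ∈ Finset.Icc 2 W, a' N * ((ze N : ℝ) : ℂ) =
        ((D : ℂ) * D') * (c 0 0 + ∑ N ∈ Finset.Icc 2 W, a N * ((ze N : ℝ) : ℂ)) := by
      rw [mul_add, Finset.mul_sum]
      congr 1
      · rw [hc']
        show (if 0 ≤ W ∧ 0 ≤ W then _ else _) = _
        rw [if_pos ⟨Nat.zero_le _, Nat.zero_le _⟩]
        ring
      · refine Finset.sum_congr rfl fun N hN => ?_
        rw [ha']
        show (if N ≤ W then _ else _) * _ = _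
        rw [if_pos (Finset.mem_Icc.1 hN).2]
        ring
    rw [h6] at g1'
    exact (mul_eq_zero.1 g1').resolve_left hDD
  · intro i j hij1 hij
    have h6 := g2 i j hij1 hij
    rw [h5, norm_zero, mul_zero] at h6
    have h7 := norm_le_zero_iff.1 h6
    have h8 : (i.factorial : ℂ) * c' i j - (if 1 ≤ j ∧ 2 ≤ i + j then a' (i + j) else 0) =
        ((D : ℂ) * D') * ((i.factorial : ℂ) * c i j - if 1 ≤ j ∧ 2 ≤ i + j then a (i + j) else 0) := by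
      rw [ha', hc']
      show (i.factorial : ℂ) * (if i ≤ W ∧ j ≤ W then _ else _) - (if 1 ≤ j ∧ 2 ≤ i + j then (if i + j ≤ W then _ else _) else 0) = _
      rw [if_pos ⟨by omega, by omega⟩, if_pos hij]
      split_ifs <;> ring
    rw [h8] at h7
    exact sub_eq_zero.1 ((mul_eq_zero.1 h7).resolve_left hDD)

/-- the exceptional integers are few -/
theorem few_Ex (W g : ℕ) : ∃ C c : ℝ, 0 < c ∧ ∀ θ : Fin g → ℂ, ∀ T : ℕ, 1 ≤ T →
    (({n : ℕ | 2 ≤ n ∧ n ≤ T ∧ ¬ Ex W (Submodule.span ℚ (Set.range θ)) n}.ncard : ℕ) : ℝ) ≤ C * (T : ℝ) ^ (1 - c) := by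
  obtain ⟨B, C, c, hc, h⟩ := mainZ W g
  refine ⟨max C 0, c, hc, fun θ T hT => ?_⟩
  rcases Nat.lt_or_ge T 2 with hT2 | hT2
  · have h1 : {n : ℕ | 2 ≤ n ∧ n ≤ T ∧ ¬ Ex W (Submodule.span ℚ (Set.range θ)) n} = ∅ := by
      ext n
      simp only [Set.mem_ofPred_eq, Set.mem_empty_iff_false, iff_false]
      rintro ⟨ha, hb, -⟩
      omega
    rw [h1, Set.ncard_empty, Nat.cast_zero]
    positivity
  · have hT0 : (0 : ℝ) < T := by exact_mod_cast hT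
    have hδ1 : (T : ℝ) ^ (-c) < 1 := Real.rpow_lt_one_of_one_lt_of_neg (by exact_mod_cast hT2) (by linarith)
    refine le_trans (Nat.cast_le.2 (Set.ncard_le_ncard ?_ ((Set.finite_le_nat T).subset fun n hn => hn.2.1)))
      (((h T hT).2 θ).trans (mul_le_mul_of_nonneg_right (le_max_left _ _) (by positivity)))
    rintro n ⟨h1, h2, h3⟩
    exact ⟨h1, h2, fun h4 => h3 (Ex_of (often_of hδ1 h4))⟩

/-- the converse -/
theorem Lf_zero {W n : ℕ} (hn : 2 ≤ n) {a : ℕ → ℂ} {c : ℕ → ℕ → ℂ}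
    (h0 : c 0 0 + ∑ N ∈ Finset.Icc 2 W, a N * ((ze N : ℝ) : ℂ) = 0)
    (h : ∀ i j, 1 ≤ i + j → i + j ≤ W → (i.factorial : ℂ) * c i j = if 1 ≤ j ∧ 2 ≤ i + j then a (i + j) else 0) :
    Lf W a c n = 0 := by
  rw [Lf_eq a c hn]
  refine Finset.sum_eq_zero fun i hi => Finset.sum_eq_zero fun j hj => ?_
  have hi' := Finset.mem_range.1 hi
  have hj' := Finset.mem_range.1 hj
  have h1 : cc W a c i j = 0 := by
    unfold cc
    by_cases hij : i = 0 ∧ j = 0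
    · obtain ⟨rfl, rfl⟩ := hij
      rw [if_neg (by omega), if_pos ⟨rfl, rfl⟩, sub_zero]
      exact h0
    · rw [if_neg hij, add_zero]
      have h2 := h i j (by omega) (by omega)
      have h6 : (i.factorial : ℂ) ≠ 0 := by exact_mod_cast Nat.factorial_ne_zero i
      have h3 : c i j = (if 1 ≤ j ∧ 2 ≤ i + j then a (i + j) else 0) / (i.factorial : ℂ) := by
        rw [← h2]
        field_simp
      rw [h3]
      split_ifs
      · ring
      · simp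
  rw [h1, zero_mul]

/-! ### one zeta value -/

/-- the form for one zeta value -/
noncomputable def L1 (N : ℕ) (a κ : ℂ) (c : ℕ → ℂ) (n : ℕ) : ℂ :=
  a * ((Inn N (1 / n) : ℝ) : ℂ) + κ + ∑ i ∈ Finset.range N, c i * ((Real.log n ^ i * Lv (N - i) (1 / n) : ℝ) : ℂ)

lemma L1_eq {N : ℕ} (hN : 2 ≤ N) (a κ : ℂ) (c : ℕ → ℂ) (n : ℕ) :
    L1 N a κ c n = Lf N (fun M => if M = N then a else 0)
      (fun i j => if i = 0 ∧ j = 0 then κ else if 1 ≤ j ∧ i + j = N then c i else 0) n := by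
  classical
  unfold L1 Lf
  beta_reduce
  rw [Finset.sum_eq_single_of_mem N (Finset.mem_Icc.2 ⟨hN, le_rfl⟩), if_pos rfl, add_assoc]
  · congr 1
    have h1 : ∑ i ∈ Finset.range (N + 1), ∑ j ∈ Finset.range (N + 1 - i),
        (if i = 0 ∧ j = 0 then κ else if 1 ≤ j ∧ i + j = N then c i else 0) * ((Real.log n ^ i * Lv j (1 / n) : ℝ) : ℂ) =
        (∑ i ∈ Finset.range (N + 1), ∑ j ∈ Finset.range (N + 1 - i),
          (if i = 0 ∧ j = 0 then κ * ((Real.log n ^ i * Lv j (1 / n) : ℝ) : ℂ) else 0)) +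
        ∑ i ∈ Finset.range (N + 1), ∑ j ∈ Finset.range (N + 1 - i),
          (if 1 ≤ j ∧ i + j = N then c i * ((Real.log n ^ i * Lv j (1 / n) : ℝ) : ℂ) else 0) := by
      rw [← Finset.sum_add_distrib]
      refine Finset.sum_congr rfl fun i _ => ?_
      rw [← Finset.sum_add_distrib]
      refine Finset.sum_congr rfl fun j _ => ?_
      by_cases h1 : i = 0 ∧ j = 0
      · rw [if_pos h1, if_pos h1, if_neg (by omega), add_zero]
      · rw [if_neg h1, if_neg h1, zero_add]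
        split_ifs
        · rfl
        · rw [zero_mul]
    rw [h1]
    congr 1
    · rw [Finset.sum_eq_single_of_mem 0 (Finset.mem_range.2 (by omega)),
        Finset.sum_eq_single_of_mem 0 (Finset.mem_range.2 (by omega))]
      · rw [if_pos ⟨rfl, rfl⟩]
        show _ = κ * ((Real.log n ^ 0 * 1 : ℝ) : ℂ)
        simp
      · intro j _ hj
        rw [if_neg (fun h => hj h.2)]
      · intro i _ hi
        refine Finset.sum_eq_zero fun j _ => ?_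
        rw [if_neg (fun h => hi h.1)]
    · rw [Finset.sum_range_succ, add_comm]
      have h2 : ∑ j ∈ Finset.range (N + 1 - N), (if 1 ≤ j ∧ N + j = N then c N * ((Real.log n ^ N * Lv j (1 / n) : ℝ) : ℂ) else 0) =
          0 := Finset.sum_eq_zero fun j _ => if_neg (by omega)
      rw [h2, zero_add]
      refine Finset.sum_congr rfl fun i hi => ?_
      have hi' := Finset.mem_range.1 hi
      rw [Finset.sum_eq_single_of_mem (N - i) (Finset.mem_range.2 (by omega)), if_pos (by omega)]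
      intro j _ hj
      rw [if_neg (by omega)]
  · intro M _ hM
    rw [if_neg hM, zero_mul]

/-- the transfer for one zeta value -/
def G1 {g : ℕ} (N B : ℕ) (θ : Fin g → ℂ) (n : ℕ) (H : ℝ) : Prop :=
  ∀ (a κ : ℂ) (c : ℕ → ℂ), a ∈ Cf θ H → κ ∈ Cf θ H → (∀ i, c i ∈ Cf θ H) →
    ‖κ + a * ((ze N : ℝ) : ℂ)‖ ≤ H ^ B * ‖L1 N a κ c n‖ ∧
    ∀ i < N, ‖(i.factorial : ℂ) * c i - a‖ ≤ H ^ B * ‖L1 N a κ c n‖

lemma G1_of {g N B : ℕ} (hN : 2 ≤ N) {θ : Fin g → ℂ} {n : ℕ} {H : ℝ} (hH : 0 ≤ H) (h : GN N B θ n H) : G1 N B θ n H := by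
  classical
  intro a κ c ha hκ hc
  obtain ⟨g1, g2⟩ := h (fun M => if M = N then a else 0)
    (fun i j => if i = 0 ∧ j = 0 then κ else if 1 ≤ j ∧ i + j = N then c i else 0)
    (fun M => by
      show (if M = N then a else 0) ∈ _
      split_ifs
      · exact ha
      · exact Cf.zero hH)
    (fun i j => by
      show (if i = 0 ∧ j = 0 then κ else if 1 ≤ j ∧ i + j = N then c i else 0) ∈ _
      split_ifs
      · exact hκ
      · exact hc i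
      · exact Cf.zero hH)
  rw [← L1_eq hN] at g1 g2
  constructor
  · rw [if_pos ⟨rfl, rfl⟩, Finset.sum_eq_single_of_mem N (Finset.mem_Icc.2 ⟨hN, le_rfl⟩), if_pos rfl] at g1
    · exact g1
    · intro M _ hM
      rw [if_neg hM, zero_mul]
  · intro i hi
    have h1 := g2 i (N - i) (by omega) (by omega)
    have e1 : i + (N - i) = N := by omega
    simp only [e1] at h1
    rw [if_neg (by omega), if_pos ⟨by omega, trivial⟩, if_pos ⟨by omega, hN⟩, if_pos trivial] at h1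
    exact h1

lemma G1.mono {g N B : ℕ} {θ : Fin g → ℂ} {n : ℕ} {H H' : ℝ} (h1 : 1 ≤ H) (h2 : H ≤ H') (h3 : H' ≤ H ^ 2)
    (hg : G1 N B θ n H') : G1 N (2 * B) θ n H := by
  intro a κ c ha hκ hc
  obtain ⟨g1, g2⟩ := hg a κ c (Cf.mono ha h2) (Cf.mono hκ h2) fun i => Cf.mono (hc i) h2
  have h4 : H' ^ B * ‖L1 N a κ c n‖ ≤ H ^ (2 * B) * ‖L1 N a κ c n‖ := by
    refine mul_le_mul_of_nonneg_right ?_ (norm_nonneg _)
    rw [pow_mul]
    exact pow_le_pow_left₀ (by linarith) h3 _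
  exact ⟨g1.trans h4, fun i hi => (g2 i hi).trans h4⟩

theorem main1 {N : ℕ} (hN : 2 ≤ N) (g : ℕ) : ∃ (B : ℕ) (C c : ℝ), 0 < c ∧ ∀ T : ℕ, 1 ≤ T →
    (∃ H₀ : ℝ, ∀ H₁ : ℝ, H₀ ≤ H₁ → ∀ θ : Fin g → ℂ,
      (({n : ℕ | 2 ≤ n ∧ n ≤ T ∧ ¬ ∀ H : ℝ, H₁ ≤ H → H ≤ H₁ ^ Real.exp ((T : ℝ) ^ c) → G1 N B θ n H}.ncard : ℕ) : ℝ) ≤
        C * (T : ℝ) ^ (1 - c)) ∧
    ∀ θ : Fin g → ℂ, (({n : ℕ | 2 ≤ n ∧ n ≤ T ∧ ¬ ∀ N₀ : ℕ, ∃ M, N₀ ≤ M ∧
      (({j : ℕ | j < M ∧ ¬ ∀ H : ℝ, 2 ^ (2 ^ j) ≤ H → H ≤ 2 ^ (2 ^ (j + 1)) → G1 N B θ n H}.ncard : ℕ) : ℝ) ≤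
          (T : ℝ) ^ (-c) * M}.ncard : ℕ) : ℝ) ≤ C * (T : ℝ) ^ (1 - c) := by
  refine mainN N _ (cs N g) (fun B θ n H => G1 N B θ n H) (fun B₀ => ⟨2 * B₀ + 1, fun T _ =>
    ⟨((N + 2 : ℕ) : ℝ) * N.factorial, fun θ n H hH hn _ hGF => G1_of hN (le_trans (by positivity) hH) (GN_of hn hH hGF)⟩⟩)
    (fun B θ n H H' h1 h2 h3 hGN => G1.mono h1 h2 h3 hGN)

/-- relations for one zeta value -/
def E1 (N : ℕ) (K : Submodule ℚ ℂ) (n : ℕ) : Prop :=
  ∀ (a κ : ℂ) (c : ℕ → ℂ), a ∈ K → κ ∈ K → (∀ i, c i ∈ K) → L1 N a κ c n = 0 →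
    κ = -(a * ((ze N : ℝ) : ℂ)) ∧ ∀ i < N, (i.factorial : ℂ) * c i = a

lemma E1_of {N : ℕ} (hN : 2 ≤ N) {K : Submodule ℚ ℂ} {n : ℕ} (h : Ex N K n) : E1 N K n := by
  classical
  intro a κ c ha hκ hc h0
  rw [L1_eq hN] at h0
  obtain ⟨g1, g2⟩ := h (fun M => if M = N then a else 0)
    (fun i j => if i = 0 ∧ j = 0 then κ else if 1 ≤ j ∧ i + j = N then c i else 0)
    (fun M => by
      show (if M = N then a else 0) ∈ _
      split_ifs
      · exact ha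
      · exact Submodule.zero_mem _)
    (fun i j => by
      show (if i = 0 ∧ j = 0 then κ else if 1 ≤ j ∧ i + j = N then c i else 0) ∈ _
      split_ifs
      · exact hκ
      · exact hc i
      · exact Submodule.zero_mem _) h0
  constructor
  · rw [if_pos ⟨rfl, rfl⟩, Finset.sum_eq_single_of_mem N (Finset.mem_Icc.2 ⟨hN, le_rfl⟩), if_pos rfl] at g1
    · exact eq_neg_of_add_eq_zero_left g1
    · intro M _ hM
      rw [if_neg hM, zero_mul]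
  · intro i hi
    have h1 := g2 i (N - i) (by omega) (by omega)
    have e1 : i + (N - i) = N := by omega
    simp only [e1] at h1
    rw [if_neg (by omega), if_pos ⟨by omega, trivial⟩, if_pos ⟨by omega, hN⟩, if_pos trivial] at h1
    exact h1

lemma L1_zero {N n : ℕ} (hN : 2 ≤ N) (hn : 2 ≤ n) :
    L1 N 1 (-((ze N : ℝ) : ℂ)) (fun i => 1 / (i.factorial : ℂ)) n = 0 := by
  rw [L1, Inn_eq hn hN]
  push_cast
  ring

/-- the truncated integral is in the span over `K` -/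
def In1 (N : ℕ) (K : Submodule ℚ ℂ) (n : ℕ) : Prop :=
  ∃ (κ : ℂ) (c : ℕ → ℂ), κ ∈ K ∧ (∀ i, c i ∈ K) ∧ ((Inn N (1 / n) : ℝ) : ℂ) =
    κ + ∑ i ∈ Finset.range N, c i * ((Real.log n ^ i * Lv (N - i) (1 / n) : ℝ) : ℂ)

lemma In1_of {N n : ℕ} (hN : 2 ≤ N) (hn : 2 ≤ n) {K : Submodule ℚ ℂ} (h1 : (1 : ℂ) ∈ K) (h : ((ze N : ℝ) : ℂ) ∈ K) :
    In1 N K n := by
  refine ⟨((ze N : ℝ) : ℂ), fun i => -(1 / (i.factorial : ℂ)), h, fun i => ?_, ?_⟩
  · have h2 : -(1 / (i.factorial : ℂ)) = (-(1 / (i.factorial : ℚ))) • (1 : ℂ) := by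
      rw [Rat.smul_def]
      push_cast
      ring
    show -(1 / (i.factorial : ℂ)) ∈ K
    rw [h2]
    exact Submodule.smul_mem _ _ h1
  · rw [Inn_eq hn hN]
    push_cast
    rw [sub_eq_add_neg, ← Finset.sum_neg_distrib]
    congr 1
    refine Finset.sum_congr rfl fun i _ => ?_
    ring

lemma mem_of_In1 {N n : ℕ} {K K' : Submodule ℚ ℂ} (hK : K ≤ K') (h1 : (1 : ℂ) ∈ K') (hE : E1 N K' n) (h : In1 N K n) :
    ((ze N : ℝ) : ℂ) ∈ K := by
  obtain ⟨κ, c, hκ, hc, h2⟩ := h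
  have h3 := hE 1 (-κ) (fun i => -c i) h1 (Submodule.neg_mem _ (hK hκ)) (fun i => Submodule.neg_mem _ (hK (hc i))) (by
    rw [L1, h2]
    have : ∑ i ∈ Finset.range N, -c i * ((Real.log n ^ i * Lv (N - i) (1 / n) : ℝ) : ℂ) =
      -∑ i ∈ Finset.range N, c i * ((Real.log n ^ i * Lv (N - i) (1 / n) : ℝ) : ℂ) := by
      rw [← Finset.sum_neg_distrib]
      exact Finset.sum_congr rfl fun i _ => by ring
    rw [this]
    ring)
  have h4 := h3.1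
  rw [one_mul, neg_inj] at h4
  rw [← h4]
  exact hκ

/-- membership of the zeta value in a finitely generated space -/
theorem few_In1 {N : ℕ} (hN : 2 ≤ N) (g : ℕ) : ∃ C c : ℝ, 0 < c ∧ ∀ θ : Fin g → ℂ,
    ((ze N : ℝ) : ℂ) ∉ Submodule.span ℚ (Set.range θ) → ∀ T : ℕ, 1 ≤ T →
      (({n : ℕ | 2 ≤ n ∧ n ≤ T ∧ In1 N (Submodule.span ℚ (Set.range θ)) n}.ncard : ℕ) : ℝ) ≤ C * (T : ℝ) ^ (1 - c) := by
  obtain ⟨C, c, hc, h⟩ := few_Ex N (g + 1)
  refine ⟨C, c, hc, fun θ hθ T hT => ?_⟩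
  refine le_trans (Nat.cast_le.2 (Set.ncard_le_ncard ?_ ((Set.finite_le_nat T).subset fun n hn => hn.2.1)))
    (h (Fin.cons 1 θ) T hT)
  rintro n ⟨h1, h2, h3⟩
  refine ⟨h1, h2, fun h4 => hθ (mem_of_In1 (K' := Submodule.span ℚ (Set.range (Fin.cons 1 θ : Fin (g + 1) → ℂ)))
    (Submodule.span_mono ?_) (Submodule.subset_span ⟨0, rfl⟩) (E1_of hN h4) h3)⟩
  rintro _ ⟨i, rfl⟩
  exact ⟨i.succ, rfl⟩

/-- an integer outside an exceptional set -/
lemma exists_few {A : ℕ → Prop} {C c : ℝ} (hc : 0 < c) (h : ∀ T : ℕ, 1 ≤ T →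
    (({n : ℕ | 2 ≤ n ∧ n ≤ T ∧ A n}.ncard : ℕ) : ℝ) ≤ C * (T : ℝ) ^ (1 - c)) : ∃ n, 2 ≤ n ∧ ¬ A n := by
  obtain ⟨n, hn, hA⟩ := Pool.Agent.Q189.Z3.exists_of_few (A := A) hc (fun T hT => by
    refine le_trans (Nat.cast_le.2 (Set.ncard_le_ncard ?_ ((Set.finite_le_nat T).subset fun n hn => hn.2.1))) (h T hT)
    rintro n ⟨h1, h2, h3⟩
    exact ⟨by omega, h2, h3⟩)
  exact ⟨n, by omega, hA⟩

end Pool.Agent.Q189.MV
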