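import Pool.Agent.Q189.MV.Niel3

/-!
# Criteria for the irrationality and the transcendence of zeta values
-/

set_option autoImplicit false

open PowerSeries Filter Topology

namespace Pool.Agent.Q189.MV

open Pool.Agent.H447R2.MZ (H Adm val Zs)

/-- the truncated integral is a rational combination of `1` and the products -/
def Rat1 (N n : ℕ) : Prop :=
  ∃ (κ : ℚ) (c : ℕ → ℚ), Inn N (1 / n) = κ + ∑ i ∈ Finset.range N, (c i : ℝ) * (Real.log n ^ i * Lv (N - i) (1 / n))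

lemma mem_span_one {r : ℂ} : r ∈ Submodule.span ℚ (Set.range fun _ : Fin 1 => (1 : ℂ)) ↔ ∃ q : ℚ, r = q := by
  rw [Set.range_const, Submodule.mem_span_singleton]
  constructor
  · rintro ⟨q, rfl⟩
    exact ⟨q, by rw [Rat.smul_def, mul_one]⟩
  · rintro ⟨q, rfl⟩
    exact ⟨q, by rw [Rat.smul_def, mul_one]⟩

lemma Rat1_iff {N n : ℕ} : Rat1 N n ↔ In1 N (Submodule.span ℚ (Set.range fun _ : Fin 1 => (1 : ℂ))) n := by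
  constructor
  · rintro ⟨κ, c, h⟩
    refine ⟨(κ : ℂ), fun i => (c i : ℂ), mem_span_one.2 ⟨κ, rfl⟩, fun i => mem_span_one.2 ⟨c i, rfl⟩, ?_⟩
    rw [h]
    push_cast
    rfl
  · rintro ⟨κ, c, hκ, hc, h⟩
    obtain ⟨κ', rfl⟩ := mem_span_one.1 hκ
    choose c' hc' using fun i => mem_span_one.1 (hc i)
    refine ⟨κ', c', Complex.ofReal_injective ?_⟩
    rw [h]
    push_cast
    congr 1
    refine Finset.sum_congr rfl fun i _ => ?_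
    rw [hc']

lemma irr_iff {N : ℕ} : Irrational (ze N) ↔ ((ze N : ℝ) : ℂ) ∉ Submodule.span ℚ (Set.range fun _ : Fin 1 => (1 : ℂ)) := by
  rw [mem_span_one]
  unfold Irrational
  refine not_congr ⟨?_, ?_⟩
  · rintro ⟨q, hq⟩
    refine ⟨q, ?_⟩
    rw [← hq]
    push_cast
    rfl
  · rintro ⟨q, hq⟩
    refine ⟨q, Complex.ofReal_injective ?_⟩
    rw [hq]
    push_cast
    rfl

theorem crit_rat {N : ℕ} (hN : 2 ≤ N) : (Irrational (ze N) ↔ ∃ n : ℕ, 2 ≤ n ∧ ¬ Rat1 N n) ∧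
    (Irrational (ze N) ↔ ∃ C c : ℝ, 0 < c ∧ ∀ T : ℕ, 1 ≤ T →
      (({n : ℕ | 2 ≤ n ∧ n ≤ T ∧ Rat1 N n}.ncard : ℕ) : ℝ) ≤ C * (T : ℝ) ^ (1 - c)) := by
  have h1 : Irrational (ze N) → ∃ C c : ℝ, 0 < c ∧ ∀ T : ℕ, 1 ≤ T →
      (({n : ℕ | 2 ≤ n ∧ n ≤ T ∧ Rat1 N n}.ncard : ℕ) : ℝ) ≤ C * (T : ℝ) ^ (1 - c) := by
    intro h
    obtain ⟨C, c, hc, hf⟩ := few_In1 hN 1
    have h2 := hf (fun _ => 1) (irr_iff.1 h)
    refine ⟨C, c, hc, ?_⟩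
    simp only [Rat1_iff]
    exact h2
  have h2 : (∃ C c : ℝ, 0 < c ∧ ∀ T : ℕ, 1 ≤ T →
      (({n : ℕ | 2 ≤ n ∧ n ≤ T ∧ Rat1 N n}.ncard : ℕ) : ℝ) ≤ C * (T : ℝ) ^ (1 - c)) → ∃ n : ℕ, 2 ≤ n ∧ ¬ Rat1 N n := by
    rintro ⟨C, c, hc, hf⟩
    exact exists_few hc hf
  have h3 : (∃ n : ℕ, 2 ≤ n ∧ ¬ Rat1 N n) → Irrational (ze N) := by
    rintro ⟨n, hn, h⟩
    rw [irr_iff]
    intro h4
    exact h (Rat1_iff.2 (In1_of hN hn (Submodule.subset_span ⟨0, rfl⟩) h4))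
  exact ⟨⟨fun h => h2 (h1 h), h3⟩, ⟨h1, fun h => h3 (h2 h)⟩⟩

/-- the criterion for a finitely generated space which contains `1` -/
theorem crit_space {N : ℕ} (hN : 2 ≤ N) {K : Submodule ℚ ℂ} (hK : K.FG) (h1 : (1 : ℂ) ∈ K) :
    (((ze N : ℝ) : ℂ) ∉ K ↔ ∃ n : ℕ, 2 ≤ n ∧ ¬ In1 N K n) ∧
    (((ze N : ℝ) : ℂ) ∉ K ↔ ∃ C c : ℝ, 0 < c ∧ ∀ T : ℕ, 1 ≤ T →
      (({n : ℕ | 2 ≤ n ∧ n ≤ T ∧ In1 N K n}.ncard : ℕ) : ℝ) ≤ C * (T : ℝ) ^ (1 - c)) := by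
  obtain ⟨g, θ, hθ⟩ := Submodule.fg_iff_exists_fin_generating_family.1 hK
  have e1 : ((ze N : ℝ) : ℂ) ∉ K → ∃ C c : ℝ, 0 < c ∧ ∀ T : ℕ, 1 ≤ T →
      (({n : ℕ | 2 ≤ n ∧ n ≤ T ∧ In1 N K n}.ncard : ℕ) : ℝ) ≤ C * (T : ℝ) ^ (1 - c) := by
    intro h
    obtain ⟨C, c, hc, hf⟩ := few_In1 hN g
    refine ⟨C, c, hc, ?_⟩
    rw [← hθ] at h ⊢
    exact hf θ h
  have e2 : (∃ C c : ℝ, 0 < c ∧ ∀ T : ℕ, 1 ≤ T →
      (({n : ℕ | 2 ≤ n ∧ n ≤ T ∧ In1 N K n}.ncard : ℕ) : ℝ) ≤ C * (T : ℝ) ^ (1 - c)) → ∃ n : ℕ, 2 ≤ n ∧ ¬ In1 N K n := by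
    rintro ⟨C, c, hc, hf⟩
    exact exists_few hc hf
  have e3 : (∃ n : ℕ, 2 ≤ n ∧ ¬ In1 N K n) → ((ze N : ℝ) : ℂ) ∉ K := by
    rintro ⟨n, hn, h⟩ h4
    exact h (In1_of hN hn h1 h4)
  exact ⟨⟨fun h => e2 (e1 h), e3⟩, ⟨e1, fun h => e3 (e2 h)⟩⟩

theorem crit_trans {N : ℕ} (hN : 2 ≤ N) : Transcendental ℚ (ze N) ↔
    ∀ K : IntermediateField ℚ ℂ, FiniteDimensional ℚ K → ∃ n : ℕ, 2 ≤ n ∧ ¬ In1 N (Subalgebra.toSubmodule K.toSubalgebra) n := by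
  constructor
  · intro h K hK
    have hfg : (Subalgebra.toSubmodule K.toSubalgebra).FG := by
      have h1 : FiniteDimensional ℚ (Subalgebra.toSubmodule K.toSubalgebra) := hK
      exact (Submodule.fg_iff_finiteDimensional _).2 h1
    refine (crit_space hN hfg (one_mem K)).1.1 fun hmem => h ?_
    have h2 : IsAlgebraic ℚ (⟨((ze N : ℝ) : ℂ), hmem⟩ : K) := Algebra.IsAlgebraic.isAlgebraic _
    have h3 : IsAlgebraic ℚ ((ze N : ℝ) : ℂ) := h2.algebraMap (A := ℂ)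
    exact (isAlgebraic_algebraMap_iff (A := ℂ) (algebraMap ℝ ℂ).injective).1 h3
  · intro h halg
    have h3 : IsAlgebraic ℚ ((ze N : ℝ) : ℂ) := halg.algebraMap (A := ℂ)
    have h4 : FiniteDimensional ℚ (IntermediateField.adjoin ℚ {((ze N : ℝ) : ℂ)}) :=
      IntermediateField.adjoin.finiteDimensional h3.isIntegral
    obtain ⟨n, hn, hne⟩ := h _ h4
    exact hne (In1_of hN hn (one_mem (IntermediateField.adjoin ℚ {((ze N : ℝ) : ℂ)}))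
      (IntermediateField.mem_adjoin_simple_self ℚ ((ze N : ℝ) : ℂ)))

end Pool.Agent.Q189.MV
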