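import Pool.Agent.Q189.MV.Niel4

/-!
# Several zeta values
-/

set_option autoImplicit false

open PowerSeries Filter Topology Module

namespace Pool.Agent.Q189.MV

open Pool.Agent.H447R2.MZ (H Adm val Zs)

/-- the products of weight `s` -/
noncomputable def qq (n s i : ℕ) : ℝ := Real.log n ^ i * Lv (s - i) (1 / n)

/-- the linear form for several zeta values -/
noncomputable def LF (F : Finset ℕ) (a : ℕ → ℂ) (κ : ℂ) (c : ℕ → ℕ → ℂ) (n : ℕ) : ℂ :=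
  κ + ∑ s ∈ F, (a s * ((Inn s (1 / n) : ℝ) : ℂ) + ∑ i ∈ Finset.range s, c s i * ((qq n s i : ℝ) : ℂ))

/-- the coefficients -/
noncomputable def cF (F : Finset ℕ) (κ : ℂ) (c : ℕ → ℕ → ℂ) (i j : ℕ) : ℂ :=
  if i = 0 ∧ j = 0 then κ else if 1 ≤ j ∧ i + j ∈ F then c (i + j) i else 0

lemma LF_eq {F : Finset ℕ} {W : ℕ} (hF : F ⊆ Finset.Icc 2 W) (a : ℕ → ℂ) (κ : ℂ) (c : ℕ → ℕ → ℂ) (n : ℕ) :
    LF F a κ c n = Lf W (fun N => if N ∈ F then a N else 0) (cF F κ c) n := by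
  classical
  unfold LF Lf
  have h1 : ∑ N ∈ Finset.Icc 2 W, (if N ∈ F then a N else 0) * ((Inn N (1 / n) : ℝ) : ℂ) =
      ∑ s ∈ F, a s * ((Inn s (1 / n) : ℝ) : ℂ) := by
    rw [← Finset.sum_subset hF]
    · refine Finset.sum_congr rfl fun s hs => ?_
      rw [if_pos hs]
    · intro s _ hs
      rw [if_neg hs, zero_mul]
  have h2 : ∑ i ∈ Finset.range (W + 1), ∑ j ∈ Finset.range (W + 1 - i), cF F κ c i j * ((Real.log n ^ i * Lv j (1 / n) : ℝ) : ℂ) =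
      κ + ∑ s ∈ F, ∑ i ∈ Finset.range s, c s i * ((qq n s i : ℝ) : ℂ) := by
    have h3 := swap_ij W fun i j => if i + j ∈ F then c (i + j) i * ((Real.log n ^ i * Lv j (1 / n) : ℝ) : ℂ) else 0
    have h4 : ∑ N ∈ Finset.Icc 2 W, ∑ i ∈ Finset.range N, (if i + (N - i) ∈ F then c (i + (N - i)) i *
        ((Real.log n ^ i * Lv (N - i) (1 / n) : ℝ) : ℂ) else 0) = ∑ s ∈ F, ∑ i ∈ Finset.range s, c s i * ((qq n s i : ℝ) : ℂ) := by
      rw [← Finset.sum_subset hF]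
      · refine Finset.sum_congr rfl fun s hs => Finset.sum_congr rfl fun i hi => ?_
        have hi' := Finset.mem_range.1 hi
        have e1 : i + (s - i) = s := by omega
        rw [e1, if_pos hs]
        rfl
      · intro s _ hs
        refine Finset.sum_eq_zero fun i hi => ?_
        have hi' := Finset.mem_range.1 hi
        have e1 : i + (s - i) = s := by omega
        rw [e1, if_neg hs]
    beta_reduce at h3
    rw [h4] at h3
    rw [h3]
    have h5 : ∀ i j, cF F κ c i j * ((Real.log n ^ i * Lv j (1 / n) : ℝ) : ℂ) =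
        (if i = 0 ∧ j = 0 then κ * ((Real.log n ^ i * Lv j (1 / n) : ℝ) : ℂ) else 0) +
        (if 1 ≤ j ∧ 2 ≤ i + j then (if i + j ∈ F then c (i + j) i * ((Real.log n ^ i * Lv j (1 / n) : ℝ) : ℂ) else 0) else 0) := by
      intro i j
      unfold cF
      by_cases h1 : i = 0 ∧ j = 0
      · rw [if_pos h1, if_pos h1, if_neg (by omega), add_zero]
      · rw [if_neg h1, if_neg h1, zero_add]
        by_cases h6 : i + j ∈ F
        · have h7 := Finset.mem_Icc.1 (hF h6)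
          by_cases h8 : 1 ≤ j
          · rw [if_pos ⟨h8, h6⟩, if_pos ⟨h8, h7.1⟩, if_pos h6]
          · rw [if_neg (fun h => h8 h.1), if_neg (fun h => h8 h.1), zero_mul]
        · rw [if_neg (fun h => h6 h.2), if_neg h6, zero_mul, ite_self]
    simp only [h5, Finset.sum_add_distrib]
    congr 1
    rw [Finset.sum_eq_single_of_mem 0 (Finset.mem_range.2 (by omega)),
      Finset.sum_eq_single_of_mem 0 (Finset.mem_range.2 (by omega))]
    · rw [if_pos ⟨rfl, rfl⟩]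
      show κ * ((Real.log n ^ 0 * 1 : ℝ) : ℂ) = _
      simp
    · intro j _ hj
      rw [if_neg (fun h => hj h.2)]
    · intro i _ hi
      refine Finset.sum_eq_zero fun j _ => ?_
      rw [if_neg (fun h => hi h.1)]
  rw [h1, h2, Finset.sum_add_distrib]
  ring

/-- the transfer for several zeta values -/
def GS {g : ℕ} (F : Finset ℕ) (B : ℕ) (θ : Fin g → ℂ) (n : ℕ) (H : ℝ) : Prop :=
  ∀ (a : ℕ → ℂ) (κ : ℂ) (c : ℕ → ℕ → ℂ), (∀ s, a s ∈ Cf θ H) → κ ∈ Cf θ H → (∀ s i, c s i ∈ Cf θ H) →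
    ‖κ + ∑ s ∈ F, a s * ((ze s : ℝ) : ℂ)‖ ≤ H ^ B * ‖LF F a κ c n‖ ∧
    ∀ s ∈ F, ∀ i < s, ‖(i.factorial : ℂ) * c s i - a s‖ ≤ H ^ B * ‖LF F a κ c n‖

lemma sum_F {F : Finset ℕ} {W : ℕ} (hF : F ⊆ Finset.Icc 2 W) (a : ℕ → ℂ) :
    ∑ N ∈ Finset.Icc 2 W, (if N ∈ F then a N else 0) * ((ze N : ℝ) : ℂ) = ∑ s ∈ F, a s * ((ze s : ℝ) : ℂ) := by
  rw [← Finset.sum_subset hF]
  · refine Finset.sum_congr rfl fun s hs => ?_
    rw [if_pos hs]
  · intro s _ hs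
    rw [if_neg hs, zero_mul]

lemma GS_of {g W B : ℕ} {F : Finset ℕ} (hF : F ⊆ Finset.Icc 2 W) {θ : Fin g → ℂ} {n : ℕ} {H : ℝ} (hH : 0 ≤ H)
    (h : GN W B θ n H) : GS F B θ n H := by
  classical
  intro a κ c ha hκ hc
  obtain ⟨g1, g2⟩ := h (fun N => if N ∈ F then a N else 0) (cF F κ c)
    (fun M => by
      show (if M ∈ F then a M else 0) ∈ _
      split_ifs
      · exact ha M
      · exact Cf.zero hH)
    (fun i j => by
      unfold cF
      split_ifs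
      · exact hκ
      · exact hc _ _
      · exact Cf.zero hH)
  rw [← LF_eq hF] at g1 g2
  constructor
  · rw [sum_F hF] at g1
    unfold cF at g1
    rw [if_pos ⟨rfl, rfl⟩] at g1
    exact g1
  · intro s hs i hi
    have hs' := Finset.mem_Icc.1 (hF hs)
    have h1 := g2 i (s - i) (by omega) (by omega)
    have e1 : i + (s - i) = s := by omega
    unfold cF at h1
    rw [e1] at h1
    rw [if_neg (by omega), if_pos ⟨by omega, hs⟩, if_pos ⟨by omega, hs'.1⟩, if_pos hs] at h1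
    exact h1

lemma GS.mono {g B : ℕ} {F : Finset ℕ} {θ : Fin g → ℂ} {n : ℕ} {H H' : ℝ} (h1 : 1 ≤ H) (h2 : H ≤ H') (h3 : H' ≤ H ^ 2)
    (hg : GS F B θ n H') : GS F (2 * B) θ n H := by
  intro a κ c ha hκ hc
  obtain ⟨g1, g2⟩ := hg a κ c (fun s => Cf.mono (ha s) h2) (Cf.mono hκ h2) fun s i => Cf.mono (hc s i) h2
  have h4 : H' ^ B * ‖LF F a κ c n‖ ≤ H ^ (2 * B) * ‖LF F a κ c n‖ := by
    refine mul_le_mul_of_nonneg_right ?_ (norm_nonneg _)
    rw [pow_mul]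
    exact pow_le_pow_left₀ (by linarith) h3 _
  exact ⟨g1.trans h4, fun s hs i hi => (g2 s hs i hi).trans h4⟩

theorem mainS (F : Finset ℕ) (hF : ∀ s ∈ F, 2 ≤ s) (g : ℕ) : ∃ (B : ℕ) (C c : ℝ), 0 < c ∧ ∀ T : ℕ, 1 ≤ T →
    (∃ H₀ : ℝ, ∀ H₁ : ℝ, H₀ ≤ H₁ → ∀ θ : Fin g → ℂ,
      (({n : ℕ | 2 ≤ n ∧ n ≤ T ∧ ¬ ∀ H : ℝ, H₁ ≤ H → H ≤ H₁ ^ Real.exp ((T : ℝ) ^ c) → GS F B θ n H}.ncard : ℕ) : ℝ) ≤
        C * (T : ℝ) ^ (1 - c)) ∧
    ∀ θ : Fin g → ℂ, (({n : ℕ | 2 ≤ n ∧ n ≤ T ∧ ¬ ∀ N₀ : ℕ, ∃ M, N₀ ≤ M ∧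
      (({j : ℕ | j < M ∧ ¬ ∀ H : ℝ, 2 ^ (2 ^ j) ≤ H → H ≤ 2 ^ (2 ^ (j + 1)) → GS F B θ n H}.ncard : ℕ) : ℝ) ≤
          (T : ℝ) ^ (-c) * M}.ncard : ℕ) : ℝ) ≤ C * (T : ℝ) ^ (1 - c) := by
  have hF' : F ⊆ Finset.Icc 2 (F.sup id) := fun s hs => Finset.mem_Icc.2 ⟨hF s hs, Finset.le_sup (f := id) hs⟩
  refine mainN (F.sup id) _ (cs (F.sup id) g) (fun B θ n H => GS F B θ n H) (fun B₀ => ⟨2 * B₀ + 1, fun T _ =>
    ⟨((F.sup id + 2 : ℕ) : ℝ) * (F.sup id).factorial, fun θ n H hH hn _ hGF =>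
      GS_of hF' (le_trans (by positivity) hH) (GN_of hn hH hGF)⟩⟩)
    (fun B θ n H H' h1 h2 h3 hGN => GS.mono h1 h2 h3 hGN)

/-- relations for several zeta values -/
def ES (F : Finset ℕ) (K : Submodule ℚ ℂ) (n : ℕ) : Prop :=
  ∀ (a : ℕ → ℂ) (κ : ℂ) (c : ℕ → ℕ → ℂ), (∀ s, a s ∈ K) → κ ∈ K → (∀ s i, c s i ∈ K) → LF F a κ c n = 0 →
    κ + ∑ s ∈ F, a s * ((ze s : ℝ) : ℂ) = 0 ∧ ∀ s ∈ F, ∀ i < s, (i.factorial : ℂ) * c s i = a s

lemma ES_of {F : Finset ℕ} {W : ℕ} (hF : F ⊆ Finset.Icc 2 W) {K : Submodule ℚ ℂ} {n : ℕ} (h : Ex W K n) : ES F K n := by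
  classical
  intro a κ c ha hκ hc h0
  rw [LF_eq hF] at h0
  obtain ⟨g1, g2⟩ := h (fun N => if N ∈ F then a N else 0) (cF F κ c)
    (fun M => by
      show (if M ∈ F then a M else 0) ∈ _
      split_ifs
      · exact ha M
      · exact Submodule.zero_mem _)
    (fun i j => by
      unfold cF
      split_ifs
      · exact hκ
      · exact hc _ _
      · exact Submodule.zero_mem _) h0
  constructor
  · rw [sum_F hF] at g1
    unfold cF at g1
    rw [if_pos ⟨rfl, rfl⟩] at g1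
    exact g1
  · intro s hs i hi
    have hs' := Finset.mem_Icc.1 (hF hs)
    have h1 := g2 i (s - i) (by omega) (by omega)
    have e1 : i + (s - i) = s := by omega
    unfold cF at h1
    rw [e1] at h1
    rw [if_neg (by omega), if_pos ⟨by omega, hs⟩, if_pos ⟨by omega, hs'.1⟩, if_pos hs] at h1
    exact h1

theorem few_ES (F : Finset ℕ) (hF : ∀ s ∈ F, 2 ≤ s) (g : ℕ) : ∃ C c : ℝ, 0 < c ∧ ∀ θ : Fin g → ℂ, ∀ T : ℕ, 1 ≤ T →
    (({n : ℕ | 2 ≤ n ∧ n ≤ T ∧ ¬ ES F (Submodule.span ℚ (Set.range θ)) n}.ncard : ℕ) : ℝ) ≤ C * (T : ℝ) ^ (1 - c) := by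
  have hF' : F ⊆ Finset.Icc 2 (F.sup id) := fun s hs => Finset.mem_Icc.2 ⟨hF s hs, Finset.le_sup (f := id) hs⟩
  obtain ⟨C, c, hc, h⟩ := few_Ex (F.sup id) g
  refine ⟨C, c, hc, fun θ T hT => ?_⟩
  refine le_trans (Nat.cast_le.2 (Set.ncard_le_ncard ?_ ((Set.finite_le_nat T).subset fun n hn => hn.2.1))) (h θ T hT)
  rintro n ⟨h1, h2, h3⟩
  exact ⟨h1, h2, fun h4 => h3 (ES_of hF' h4)⟩

/-! ### dimensions -/

/-- the space of the zeta values and of given real numbers -/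
noncomputable def SZ {g : ℕ} (F : Finset ℕ) (θ : Fin g → ℝ) : Submodule ℚ ℝ :=
  Submodule.span ℚ (Set.range θ ∪ {r | ∃ s ∈ F, r = ze s})

/-- the space of the truncated integrals, the products and given real numbers -/
noncomputable def SP {g : ℕ} (F : Finset ℕ) (θ : Fin g → ℝ) (n : ℕ) : Submodule ℚ ℝ :=
  Submodule.span ℚ (Set.range θ ∪ {r | ∃ s ∈ F, r = Inn s (1 / n) ∨ ∃ i < s, r = qq n s i})

/-- the family of the products -/
noncomputable def qf (F : Finset ℕ) (n : ℕ) (p : F.sigma fun s => Finset.range s) : ℝ := qq n p.1.1 p.1.2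

lemma Inn_qq {n s : ℕ} (hn : 2 ≤ n) (hs : 2 ≤ s) :
    Inn s (1 / n) = ze s - ∑ i ∈ Finset.range s, 1 / (i.factorial : ℝ) * qq n s i := Inn_eq hn hs

lemma SP_eq {g : ℕ} {F : Finset ℕ} (hF : ∀ s ∈ F, 2 ≤ s) (θ : Fin g → ℝ) {n : ℕ} (hn : 2 ≤ n) :
    SP F θ n = SZ F θ ⊔ Submodule.span ℚ (Set.range (qf F n)) := by
  have hq : ∀ s ∈ F, ∀ i < s, qq n s i ∈ Submodule.span ℚ (Set.range (qf F n)) := fun s hs i hi =>
    Submodule.subset_span ⟨⟨⟨s, i⟩, Finset.mem_sigma.2 ⟨hs, Finset.mem_range.2 hi⟩⟩, rfl⟩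
  have hsum : ∀ s ∈ F, ∀ M : Submodule ℚ ℝ, (∀ i < s, qq n s i ∈ M) →
      ∑ i ∈ Finset.range s, 1 / (i.factorial : ℝ) * qq n s i ∈ M := by
    intro s _ M hM
    refine Submodule.sum_mem _ fun i hi => ?_
    have h2 : 1 / (i.factorial : ℝ) * qq n s i = (1 / (i.factorial : ℚ)) • qq n s i := by
      rw [Rat.smul_def]
      push_cast
      ring
    rw [h2]
    exact Submodule.smul_mem _ _ (hM i (Finset.mem_range.1 hi))
  refine le_antisymm ?_ (sup_le ?_ ?_)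
  · unfold SP
    rw [Submodule.span_le]
    rintro r (hr | ⟨s, hs, hr | ⟨i, hi, hr⟩⟩)
    · exact Submodule.mem_sup_left (Submodule.subset_span (Or.inl hr))
    · rw [hr, Inn_qq hn (hF s hs)]
      refine Submodule.sub_mem _ (Submodule.mem_sup_left (Submodule.subset_span (Or.inr ⟨s, hs, rfl⟩)))
        (Submodule.mem_sup_right (hsum s hs _ (hq s hs)))
    · rw [hr]
      exact Submodule.mem_sup_right (hq s hs i hi)
  · unfold SZ
    rw [Submodule.span_le]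
    rintro r (hr | ⟨s, hs, rfl⟩)
    · exact Submodule.subset_span (Or.inl hr)
    · have h1 : ze s = Inn s (1 / n) + ∑ i ∈ Finset.range s, 1 / (i.factorial : ℝ) * qq n s i := by
        rw [Inn_qq hn (hF s hs)]
        ring
      rw [h1]
      refine Submodule.add_mem _ (Submodule.subset_span (Or.inr ⟨s, hs, Or.inl rfl⟩)) (hsum s hs _ fun i hi => ?_)
      exact Submodule.subset_span (Or.inr ⟨s, hs, Or.inr ⟨i, hi, rfl⟩⟩)
  · rw [Submodule.span_le]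
    rintro _ ⟨⟨⟨s, i⟩, hp⟩, rfl⟩
    rw [Finset.mem_sigma, Finset.mem_range] at hp
    exact Submodule.subset_span (Or.inr ⟨s, hp.1, Or.inr ⟨i, hp.2, rfl⟩⟩)

lemma card_sig (F : Finset ℕ) : Fintype.card (F.sigma fun s => Finset.range s) = ∑ s ∈ F, s := by
  rw [Fintype.card_coe, Finset.card_sigma]
  refine Finset.sum_congr rfl fun s _ => Finset.card_range s

lemma fd_SZ {g : ℕ} (F : Finset ℕ) (θ : Fin g → ℝ) : FiniteDimensional ℚ (SZ F θ) := by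
  refine FiniteDimensional.span_of_finite ℚ ((Set.finite_range θ).union ?_)
  exact (F.finite_toSet.image ze).subset fun r ⟨s, hs, h⟩ => ⟨s, hs, h.symm⟩

theorem finrank_SP_le {g : ℕ} {F : Finset ℕ} (hF : ∀ s ∈ F, 2 ≤ s) (θ : Fin g → ℝ) {n : ℕ} (hn : 2 ≤ n) :
    finrank ℚ (SP F θ n) ≤ finrank ℚ (SZ F θ) + ∑ s ∈ F, s := by
  have := fd_SZ F θ
  have := FiniteDimensional.span_of_finite ℚ (Set.finite_range (qf F n))
  rw [SP_eq hF θ hn]
  refine (Submodule.finrank_add_le_finrank_add_finrank _ _).trans (Nat.add_le_add_left ?_ _)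
  rw [← card_sig]
  exact finrank_range_le_card _

/-- the real numbers of the space of the zeta values, as complex numbers -/
noncomputable def θc {g : ℕ} (F : Finset ℕ) (θ : Fin g → ℝ) : Fin (F.card + (g + 1)) → ℂ :=
  Fin.append (fun i : Fin F.card => ((ze ((F.equivFin.symm i : F) : ℕ) : ℝ) : ℂ)) (Fin.cons 1 fun l => ((θ l : ℝ) : ℂ))

lemma mem_θc {g : ℕ} {F : Finset ℕ} {θ : Fin g → ℝ} {x : ℝ} (hx : x ∈ SZ F θ) :
    (x : ℂ) ∈ Submodule.span ℚ (Set.range (θc F θ)) := by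
  unfold SZ at hx
  induction hx using Submodule.span_induction with
  | mem r hr =>
    rcases hr with ⟨l, rfl⟩ | ⟨s, hs, rfl⟩
    · refine Submodule.subset_span ⟨Fin.natAdd _ l.succ, ?_⟩
      unfold θc
      rw [Fin.append_right, Fin.cons_succ]
    · refine Submodule.subset_span ⟨Fin.castAdd _ (F.equivFin ⟨s, hs⟩), ?_⟩
      unfold θc
      rw [Fin.append_left, Equiv.symm_apply_apply]
  | zero => rw [Complex.ofReal_zero]; exact Submodule.zero_mem _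
  | add r s _ _ hr hs => rw [Complex.ofReal_add]; exact Submodule.add_mem _ hr hs
  | smul c r _ hr =>
    have h1 : ((c • r : ℝ) : ℂ) = c • (r : ℂ) := by
      rw [Rat.smul_def, Rat.smul_def]
      push_cast
      rfl
    rw [h1]
    exact Submodule.smul_mem _ _ hr

lemma rat_θc {g : ℕ} (F : Finset ℕ) (θ : Fin g → ℝ) (q : ℚ) : (q : ℂ) ∈ Submodule.span ℚ (Set.range (θc F θ)) := by
  have h1 : (1 : ℂ) ∈ Submodule.span ℚ (Set.range (θc F θ)) := by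
    refine Submodule.subset_span ⟨Fin.natAdd _ 0, ?_⟩
    unfold θc
    rw [Fin.append_right, Fin.cons_zero]
  have h2 : (q : ℂ) = q • (1 : ℂ) := by rw [Rat.smul_def, mul_one]
  rw [h2]
  exact Submodule.smul_mem _ _ h1

/-- independence modulo the space of the zeta values -/
lemma ind_mod {g : ℕ} {F : Finset ℕ} {θ : Fin g → ℝ} {n : ℕ} (h : ES F (Submodule.span ℚ (Set.range (θc F θ))) n)
    {x : ℝ} (hx : x ∈ SZ F θ) (c : ℕ → ℕ → ℚ) (h0 : x + ∑ s ∈ F, ∑ i ∈ Finset.range s, (c s i : ℝ) * qq n s i = 0) :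
    x = 0 ∧ ∀ s ∈ F, ∀ i < s, c s i = 0 := by
  obtain ⟨h1, h2⟩ := h 0 x (fun s i => (c s i : ℂ)) (fun s => Submodule.zero_mem _) (mem_θc hx) (fun s i => rat_θc F θ _) (by
    unfold LF
    have h3 := congrArg (fun r : ℝ => (r : ℂ)) h0
    push_cast at h3
    simp only [Pi.zero_apply, zero_mul, zero_add]
    exact h3)
  constructor
  · simp only [Pi.zero_apply, zero_mul, Finset.sum_const_zero, add_zero] at h1
    exact Complex.ofReal_eq_zero.1 h1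
  · intro s hs i hi
    have h3 := h2 s hs i hi
    rw [Pi.zero_apply, mul_eq_zero] at h3
    rcases h3 with h3 | h3
    · exact absurd h3 (by exact_mod_cast Nat.factorial_ne_zero i)
    · exact_mod_cast h3

theorem finrank_SP {g : ℕ} {F : Finset ℕ} (hF : ∀ s ∈ F, 2 ≤ s) (θ : Fin g → ℝ) {n : ℕ} (hn : 2 ≤ n)
    (h : ES F (Submodule.span ℚ (Set.range (θc F θ))) n) : finrank ℚ (SP F θ n) = finrank ℚ (SZ F θ) + ∑ s ∈ F, s := by
  classical
  have := fd_SZ F θ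
  have := FiniteDimensional.span_of_finite ℚ (Set.finite_range (qf F n))
  have hsum : ∀ c : (F.sigma fun s => Finset.range s) → ℚ, ∃ c' : ℕ → ℕ → ℚ,
      ∑ p, c p • qf F n p = ∑ s ∈ F, ∑ i ∈ Finset.range s, (c' s i : ℝ) * qq n s i ∧
      ∀ p, c' p.1.1 p.1.2 = c p := by
    intro c
    refine ⟨fun s i => if hp : (⟨s, i⟩ : Σ _ : ℕ, ℕ) ∈ F.sigma fun s => Finset.range s then c ⟨⟨s, i⟩, hp⟩ else 0, ?_, fun p => ?_⟩
    · rw [Finset.sum_sigma', ← Finset.sum_coe_sort (F.sigma fun s => Finset.range s)]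
      refine Finset.sum_congr rfl fun p _ => ?_
      beta_reduce
      rw [dif_pos (show (⟨p.1.1, p.1.2⟩ : Σ _ : ℕ, ℕ) ∈ F.sigma fun s => Finset.range s from p.2), Rat.smul_def]
      rfl
    · show (if hp : _ then _ else _) = _
      rw [dif_pos (show (⟨p.1.1, p.1.2⟩ : Σ _ : ℕ, ℕ) ∈ F.sigma fun s => Finset.range s from p.2)]
  have key : ∀ x ∈ SZ F θ, ∀ c : (F.sigma fun s => Finset.range s) → ℚ, x + ∑ p, c p • qf F n p = 0 → x = 0 ∧ ∀ p, c p = 0 := by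
    intro x hx c h0
    obtain ⟨c', h1, h2⟩ := hsum c
    rw [h1] at h0
    obtain ⟨h3, h4⟩ := ind_mod h hx c' h0
    refine ⟨h3, fun p => ?_⟩
    have hp := p.2
    rw [Finset.mem_sigma, Finset.mem_range] at hp
    rw [← h2 p]
    exact h4 _ hp.1 _ hp.2
  have hli : LinearIndependent ℚ (qf F n) := by
    rw [Fintype.linearIndependent_iff]
    intro c hc
    exact (key 0 (Submodule.zero_mem _) c (by rw [hc, add_zero])).2
  have hdis : SZ F θ ⊓ Submodule.span ℚ (Set.range (qf F n)) = ⊥ := by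
    rw [eq_bot_iff]
    rintro x ⟨hx, hx'⟩
    obtain ⟨c, hc⟩ := (Submodule.mem_span_range_iff_exists_fun ℚ).1 hx'
    rw [Submodule.mem_bot]
    refine (key x hx (fun p => -c p) ?_).1
    simp only [neg_smul, Finset.sum_neg_distrib]
    rw [hc]
    ring
  have h1 := Submodule.finrank_sup_add_finrank_inf_eq (SZ F θ) (Submodule.span ℚ (Set.range (qf F n)))
  rw [hdis, finrank_bot, add_zero, finrank_span_eq_card hli, card_sig] at h1
  rw [SP_eq hF θ hn]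
  exact h1

theorem few_SP (F : Finset ℕ) (hF : ∀ s ∈ F, 2 ≤ s) (g : ℕ) : ∃ C c : ℝ, 0 < c ∧ ∀ θ : Fin g → ℝ, ∀ T : ℕ, 1 ≤ T →
    (({n : ℕ | 2 ≤ n ∧ n ≤ T ∧ ¬ finrank ℚ (SP F θ n) = finrank ℚ (SZ F θ) + ∑ s ∈ F, s}.ncard : ℕ) : ℝ) ≤
      C * (T : ℝ) ^ (1 - c) := by
  obtain ⟨C, c, hc, h⟩ := few_ES F hF (F.card + (g + 1))
  refine ⟨C, c, hc, fun θ T hT => ?_⟩
  refine le_trans (Nat.cast_le.2 (Set.ncard_le_ncard ?_ ((Set.finite_le_nat T).subset fun n hn => hn.2.1))) (h (θc F θ) T hT)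
  rintro n ⟨h1, h2, h3⟩
  exact ⟨h1, h2, fun h4 => h3 (finrank_SP hF θ h1 h4)⟩

end Pool.Agent.Q189.MV
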