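import Pool.Agent.Q189.MV.Niel5

/-!
# A zeta value modulo others
-/

set_option autoImplicit false

open PowerSeries Filter Topology Module

namespace Pool.Agent.Q189.MV

open Pool.Agent.H447R2.MZ (H Adm val Zs)

/-- the space of the truncated integrals of the weights in `F` and the products of the weights in `F` and of weight `t` -/
noncomputable def SQ {g : ℕ} (F : Finset ℕ) (t : ℕ) (θ : Fin g → ℝ) (n : ℕ) : Submodule ℚ ℝ :=
  SP F θ n ⊔ Submodule.span ℚ {r | ∃ i < t, r = qq n t i}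

lemma SQ_le {g : ℕ} {F : Finset ℕ} (hF : ∀ s ∈ F, 2 ≤ s) (t : ℕ) (θ : Fin g → ℝ) {n : ℕ} (hn : 2 ≤ n) :
    SQ F t θ n ≤ SZ F θ ⊔ Submodule.span ℚ (Set.range (qf (insert t F) n)) := by
  unfold SQ
  refine sup_le ?_ ?_
  · rw [SP_eq hF θ hn]
    refine sup_le_sup_left (Submodule.span_mono ?_) _
    rintro _ ⟨⟨⟨s, i⟩, hp⟩, rfl⟩
    rw [Finset.mem_sigma] at hp
    exact ⟨⟨⟨s, i⟩, Finset.mem_sigma.2 ⟨Finset.mem_insert_of_mem hp.1, hp.2⟩⟩, rfl⟩
  · refine le_sup_of_le_right (Submodule.span_mono ?_)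
    rintro _ ⟨i, hi, rfl⟩
    exact ⟨⟨⟨t, i⟩, Finset.mem_sigma.2 ⟨Finset.mem_insert_self _ _, Finset.mem_range.2 hi⟩⟩, rfl⟩

theorem mem_SQ {g : ℕ} {F : Finset ℕ} (hF : ∀ s ∈ F, 2 ≤ s) {t : ℕ} (ht : 2 ≤ t) {θ : Fin g → ℝ} (h : ze t ∈ SZ F θ)
    {n : ℕ} (hn : 2 ≤ n) : Inn t (1 / n) ∈ SQ F t θ n := by
  rw [Inn_qq hn ht]
  refine Submodule.sub_mem _ (Submodule.mem_sup_left ?_) (Submodule.mem_sup_right ?_)
  · rw [SP_eq hF θ hn]
    exact Submodule.mem_sup_left h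
  · refine Submodule.sum_mem _ fun i hi => ?_
    have h2 : 1 / (i.factorial : ℝ) * qq n t i = (1 / (i.factorial : ℚ)) • qq n t i := by
      rw [Rat.smul_def]
      push_cast
      ring
    rw [h2]
    exact Submodule.smul_mem _ _ (Submodule.subset_span ⟨i, Finset.mem_range.1 hi, rfl⟩)

lemma qf_sum {F : Finset ℕ} {n : ℕ} {r : ℝ} (h : r ∈ Submodule.span ℚ (Set.range (qf F n))) :
    ∃ c : ℕ → ℕ → ℚ, r = ∑ s ∈ F, ∑ i ∈ Finset.range s, (c s i : ℝ) * qq n s i := by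
  classical
  induction h using Submodule.span_induction with
  | mem r hr =>
    obtain ⟨⟨⟨s, i⟩, hp⟩, rfl⟩ := hr
    rw [Finset.mem_sigma, Finset.mem_range] at hp
    refine ⟨fun s' i' => if s' = s ∧ i' = i then 1 else 0, ?_⟩
    beta_reduce
    rw [Finset.sum_eq_single_of_mem s hp.1, Finset.sum_eq_single_of_mem i (Finset.mem_range.2 hp.2)]
    · rw [if_pos ⟨rfl, rfl⟩]
      simp [qf]
    · intro i' _ hi'
      rw [if_neg (fun h => hi' h.2)]
      simp
    · intro s' _ hs'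
      refine Finset.sum_eq_zero fun i' _ => ?_
      rw [if_neg (fun h => hs' h.1)]
      simp
  | zero => exact ⟨0, by simp⟩
  | add r r' _ _ h h' =>
    obtain ⟨c, rfl⟩ := h
    obtain ⟨c', rfl⟩ := h'
    refine ⟨c + c', ?_⟩
    rw [← Finset.sum_add_distrib]
    refine Finset.sum_congr rfl fun s _ => ?_
    rw [← Finset.sum_add_distrib]
    refine Finset.sum_congr rfl fun i _ => ?_
    simp only [Pi.add_apply]
    push_cast
    ring
  | smul a r _ h =>
    obtain ⟨c, rfl⟩ := h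
    refine ⟨a • c, ?_⟩
    rw [Rat.smul_def, Finset.mul_sum]
    refine Finset.sum_congr rfl fun s _ => ?_
    rw [Finset.mul_sum]
    refine Finset.sum_congr rfl fun i _ => ?_
    simp only [Pi.smul_apply, smul_eq_mul]
    push_cast
    ring

theorem of_mem_SQ {g : ℕ} {F : Finset ℕ} (hF : ∀ s ∈ F, 2 ≤ s) {t : ℕ} (ht : 2 ≤ t) {θ : Fin g → ℝ} {n : ℕ} (hn : 2 ≤ n)
    (hE : ES (insert t F) (Submodule.span ℚ (Set.range (θc (insert t F) θ))) n) (h : Inn t (1 / n) ∈ SQ F t θ n) :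
    ze t ∈ SZ F θ := by
  classical
  have hF' : ∀ s ∈ insert t F, 2 ≤ s := fun s hs => by
    rcases Finset.mem_insert.1 hs with rfl | hs
    · exact ht
    · exact hF s hs
  obtain ⟨x, hx, y, hy, hxy⟩ := Submodule.mem_sup.1 (SQ_le hF t θ hn h)
  obtain ⟨c, rfl⟩ := qf_sum hy
  have hmono : SZ F θ ≤ SZ (insert t F) θ := by
    unfold SZ
    refine Submodule.span_mono (Set.union_subset_union_right _ ?_)
    rintro r ⟨s, hs, rfl⟩
    exact ⟨s, Finset.mem_insert_of_mem hs, rfl⟩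
  have ht' : ze t ∈ SZ (insert t F) θ := Submodule.subset_span (Or.inr ⟨t, Finset.mem_insert_self _ _, rfl⟩)
  have h1 : (x - ze t) + ∑ s ∈ insert t F, ∑ i ∈ Finset.range s,
      ((c s i + (if s = t then 1 / (i.factorial : ℚ) else 0) : ℚ) : ℝ) * qq n s i = 0 := by
    have h2 := Inn_qq hn ht
    rw [← hxy] at h2
    have h3 : ∑ s ∈ insert t F, ∑ i ∈ Finset.range s, ((c s i + (if s = t then 1 / (i.factorial : ℚ) else 0) : ℚ) : ℝ) * qq n s i =
        ∑ s ∈ insert t F, ∑ i ∈ Finset.range s, (c s i : ℝ) * qq n s i +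
        ∑ i ∈ Finset.range t, 1 / (i.factorial : ℝ) * qq n t i := by
      have h4 : ∑ i ∈ Finset.range t, 1 / (i.factorial : ℝ) * qq n t i =
          ∑ s ∈ insert t F, if s = t then ∑ i ∈ Finset.range s, 1 / (i.factorial : ℝ) * qq n s i else 0 := by
        rw [Finset.sum_ite_eq' (insert t F) t, if_pos (Finset.mem_insert_self _ _)]
      rw [h4, ← Finset.sum_add_distrib]
      refine Finset.sum_congr rfl fun s _ => ?_
      by_cases hs : s = t
      · rw [if_pos hs, ← Finset.sum_add_distrib]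
        refine Finset.sum_congr rfl fun i _ => ?_
        rw [if_pos hs]
        push_cast
        ring
      · rw [if_neg hs, add_zero]
        refine Finset.sum_congr rfl fun i _ => ?_
        rw [if_neg hs, add_zero]
    rw [h3]
    linarith
  have h5 := (ind_mod hE (Submodule.sub_mem _ (hmono hx) ht') _ h1).1
  have h6 : ze t = x := by linarith
  rw [h6]
  exact hx

theorem few_SQ (F : Finset ℕ) (hF : ∀ s ∈ F, 2 ≤ s) {t : ℕ} (ht : 2 ≤ t) (g : ℕ) : ∃ C c : ℝ, 0 < c ∧ ∀ θ : Fin g → ℝ,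
    ze t ∉ SZ F θ → ∀ T : ℕ, 1 ≤ T →
      (({n : ℕ | 2 ≤ n ∧ n ≤ T ∧ Inn t (1 / n) ∈ SQ F t θ n}.ncard : ℕ) : ℝ) ≤ C * (T : ℝ) ^ (1 - c) := by
  classical
  have hF' : ∀ s ∈ insert t F, 2 ≤ s := fun s hs => by
    rcases Finset.mem_insert.1 hs with rfl | hs
    · exact ht
    · exact hF s hs
  obtain ⟨C, c, hc, h⟩ := few_ES (insert t F) hF' ((insert t F).card + (g + 1))
  refine ⟨C, c, hc, fun θ hθ T hT => ?_⟩
  refine le_trans (Nat.cast_le.2 (Set.ncard_le_ncard ?_ ((Set.finite_le_nat T).subset fun n hn => hn.2.1)))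
    (h (θc (insert t F) θ) T hT)
  rintro n ⟨h1, h2, h3⟩
  exact ⟨h1, h2, fun h4 => hθ (of_mem_SQ hF ht h1 h4 h3)⟩

end Pool.Agent.Q189.MV
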