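import Pool.Agent.Q189.MV.Hof3

/-!
# Relations between multiple zeta values of a given weight and values at `1 - x`
-/

set_option autoImplicit false

open PowerSeries Filter Topology Module

namespace Pool.Agent.Q189.MV

open Pool.Agent.Y119.ML (LL UU In geo adm adm_tail adm_none const_LL theta_LL theta_In const_In WI JJ S S_zero)
open Pool.Agent.Q189.Z3 (L α1 α1_inj α1_ne)
open Pool.Agent.H447R2.MZ (H Adm val Zs)
open Pool.Agent.Q189.HL (sh sh_nil sh_cons_nil sh_cons length_sh adm_sh LL_mul)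

variable {x : ℝ}

lemma PR_mul' (hx : 0 < x) (hx1 : x < 1) {i : ℕ} {r : ℝ} (hr : r ∈ PZ x i) (a : ℕ) {v : List (Option (Fin 1))} (hv : adm v)
    (h : 1 ≤ a + v.length) : r * (Real.log x ^ a * V v x) ∈ PR x (i + a + v.length) := by
  have h1 : |x| < 1 := by rw [abs_of_pos hx]; exact hx1
  unfold PZ at hr
  induction hr using Submodule.span_induction with
  | mem r hr =>
    obtain ⟨k, b, z, w, hz, hw, hk, rfl⟩ := hr
    have h3 : z * (Real.log x ^ b * V w x) * (Real.log x ^ a * V v x) = z * Real.log x ^ (a + b) * (V w x * V v x) := by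
      rw [pow_add]
      ring
    rw [h3, V_mul hw hv h1, ← List.sum_map_mul_left]
    refine list_mem _ _ fun u hu => ?_
    have hl := length_sh _ w v rfl u hu
    exact Submodule.subset_span ⟨k, a + b, z, u, hz, adm_sh _ w v rfl hw hv u hu, by omega, by omega, by ring⟩
  | zero => rw [zero_mul]; exact Submodule.zero_mem _
  | add r s _ _ hr hs => rw [add_mul]; exact Submodule.add_mem _ hr hs
  | smul c r _ hr =>
    rw [smul_mul_assoc]
    exact Submodule.smul_mem _ _ hr

/-- the products of weight `k` of values at `1 - x` and a factor of positive weight at `x` -/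
noncomputable def Vp (x : ℝ) (k : ℕ) : Submodule ℚ ℝ :=
  Submodule.span ℚ {r | ∃ (a : ℕ) (t s : List ℕ), (∀ b ∈ t, 1 ≤ b) ∧ (∀ b ∈ s, 1 ≤ b) ∧ a + t.sum + s.sum = k ∧
    1 ≤ a + t.sum ∧ r = Real.log (1 / x) ^ a * Lis t x * Lis s (1 - x)}

theorem Vp_eq (hx : 0 < x) (hx1 : x < 1) (k : ℕ) : Vp x k = PR x k := by
  have h1 : |x| < 1 := by rw [abs_of_pos hx]; exact hx1
  have h2 : |1 - x| < 1 := by rw [abs_of_pos (by linarith)]; linarith
  have hlog : ∀ a : ℕ, Real.log (1 / x) ^ a = ((-1 : ℚ) ^ a : ℚ) • Real.log x ^ a := by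
    intro a
    rw [one_div, Real.log_inv, neg_pow, Rat.smul_def]
    push_cast
    rfl
  refine le_antisymm ?_ ?_
  · unfold Vp
    rw [Submodule.span_le]
    rintro _ ⟨a, t, s, ht, hs, hk, hpos, rfl⟩
    rw [Lis_eq t ht h1, Lis_eq s hs h2, hlog]
    have h3 := PR_mul' hx hx1 (V1_mem_PZ hx hx1 _ (wd s) (adm_wd s) rfl) a (adm_wd t) (by rw [len_wd t ht]; exact hpos)
    rw [len_wd s hs, len_wd t ht] at h3
    have h4 : s.sum + a + t.sum = k := by omega
    rw [h4] at h3
    have h5 : ((-1 : ℚ) ^ a : ℚ) • Real.log x ^ a * V (wd t) x * V (wd s) (1 - x) =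
        ((-1 : ℚ) ^ a : ℚ) • (V (wd s) (1 - x) * (Real.log x ^ a * V (wd t) x)) := by
      rw [Rat.smul_def, Rat.smul_def]
      ring
    rw [h5]
    exact Submodule.smul_mem _ _ h3
  · unfold PR
    rw [Submodule.span_le]
    rintro _ ⟨j, a, z, w, hz, hw, hk, hpos, rfl⟩
    have h3 := Zs_le_VN hx hx1 j hz
    unfold VN at h3
    rw [SetLike.mem_coe]
    have key : ∀ r ∈ Submodule.span ℚ {r | ∃ u v : List (Option (Fin 1)), adm u ∧ adm v ∧ u.length + v.length = j ∧
        r = V u (1 - x) * V v x}, r * (Real.log x ^ a * V w x) ∈ Vp x k := by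
      intro r hr
      induction hr using Submodule.span_induction with
      | mem r hr =>
        obtain ⟨u, v, hu, hv, huv, rfl⟩ := hr
        have h4 : V u (1 - x) * V v x * (Real.log x ^ a * V w x) = Real.log x ^ a * V u (1 - x) * (V v x * V w x) := by ring
        rw [h4, V_mul hv hw h1, ← List.sum_map_mul_left]
        refine list_mem _ _ fun w' hw' => ?_
        have hl := length_sh _ v w rfl w' hw'
        obtain ⟨t, ht, rfl⟩ := exists_index w' (adm_sh _ v w rfl hv hw w' hw')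
        obtain ⟨s, hs, rfl⟩ := exists_index u hu
        rw [len_wd t ht] at hl
        rw [len_wd s hs] at huv
        have h5 : Real.log x ^ a * V (wd s) (1 - x) * V (wd t) x =
            ((-1 : ℚ) ^ a : ℚ) • (Real.log (1 / x) ^ a * Lis t x * Lis s (1 - x)) := by
          rw [Lis_eq t ht h1, Lis_eq s hs h2, one_div, Real.log_inv, neg_pow, Rat.smul_def]
          push_cast
          have h6 : ((-1 : ℝ) ^ a) * (-1) ^ a = 1 := by
            rw [← pow_add, ← two_mul, pow_mul]
            norm_num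
          calc Real.log x ^ a * V (wd s) (1 - x) * V (wd t) x =
                ((-1 : ℝ) ^ a * (-1) ^ a) * (Real.log x ^ a * V (wd s) (1 - x) * V (wd t) x) := by rw [h6, one_mul]
            _ = _ := by ring
        rw [h5]
        refine Submodule.smul_mem _ _ (Submodule.subset_span ⟨a, t, s, ht, hs, by omega, by omega, rfl⟩)
      | zero => rw [zero_mul]; exact Submodule.zero_mem _
      | add r s _ _ hr hs => rw [add_mul]; exact Submodule.add_mem _ hr hs
      | smul c r _ hr =>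
        rw [smul_mul_assoc]
        exact Submodule.smul_mem _ _ hr
    exact key z h3

/-- the relations between the members of a family of multiple zeta values -/
def RF {m : ℕ} (s : Fin m → List ℕ) : Submodule ℚ (Fin m → ℚ) where
  carrier := {c | ∑ i, (c i : ℝ) * val (s i) = 0}
  add_mem' := by
    intro c c' h h'
    simp only [Set.mem_ofPred_eq, Pi.add_apply, Rat.cast_add, add_mul, Finset.sum_add_distrib] at *
    rw [h, h', add_zero]
  zero_mem' := by simp
  smul_mem' := by
    intro a c h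
    simp only [Set.mem_ofPred_eq, Pi.smul_apply, smul_eq_mul, Rat.cast_mul, mul_assoc, ← Finset.mul_sum] at *
    rw [h, mul_zero]

/-- the relations between the values at `1 - x` modulo the products -/
def RX {m : ℕ} (s : Fin m → List ℕ) (k : ℕ) (x : ℝ) : Submodule ℚ (Fin m → ℚ) where
  carrier := {c | ∑ i, (c i : ℝ) * Lis (s i) (1 - x) ∈ Vp x k}
  add_mem' := by
    intro c c' h h'
    simp only [Set.mem_ofPred_eq, Pi.add_apply, Rat.cast_add, add_mul, Finset.sum_add_distrib] at *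
    exact Submodule.add_mem _ h h'
  zero_mem' := by simp
  smul_mem' := by
    intro a c h
    simp only [Set.mem_ofPred_eq, Pi.smul_apply, smul_eq_mul, Rat.cast_mul, mul_assoc, ← Finset.mul_sum] at *
    rw [← Rat.smul_def]
    exact Submodule.smul_mem _ _ h

lemma mem_RX_iff (hx : 0 < x) (hx1 : x < 1) {m k : ℕ} {s : Fin m → List ℕ} (hs : ∀ i, Adm (s i)) (hk : ∀ i, (s i).sum = k)
    (c : Fin m → ℚ) : c ∈ RX s k x ↔ ∑ i, (c i : ℝ) * val (s i) ∈ PR x k := by
  have h2 : |1 - x| < 1 := by rw [abs_of_pos (by linarith)]; linarith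
  have h3 : ∑ i, (c i : ℝ) * val (s i) - ∑ i, (c i : ℝ) * Lis (s i) (1 - x) ∈ PR x k := by
    rw [← Finset.sum_sub_distrib]
    refine Submodule.sum_mem _ fun i _ => ?_
    have h4 := diff_mem hx hx1 (hs i)
    rw [hk, ← Lis_eq (s i) (hs i).1 h2] at h4
    have h5 : (c i : ℝ) * val (s i) - (c i : ℝ) * Lis (s i) (1 - x) = c i • (val (s i) - Lis (s i) (1 - x)) := by
      rw [Rat.smul_def]
      ring
    rw [h5]
    exact Submodule.smul_mem _ _ h4
  show ∑ i, (c i : ℝ) * Lis (s i) (1 - x) ∈ Vp x k ↔ _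
  rw [Vp_eq hx hx1]
  constructor
  · intro h
    have h4 := Submodule.add_mem _ h3 h
    rw [sub_add_cancel] at h4
    exact h4
  · intro h
    have h4 := Submodule.sub_mem _ h h3
    rw [sub_sub_cancel] at h4
    exact h4

theorem RF_le (hx : 0 < x) (hx1 : x < 1) {m k : ℕ} {s : Fin m → List ℕ} (hs : ∀ i, Adm (s i)) (hk : ∀ i, (s i).sum = k) :
    RF s ≤ RX s k x := by
  intro c hc
  rw [mem_RX_iff hx hx1 hs hk]
  have h1 : ∑ i, (c i : ℝ) * val (s i) = 0 := hc
  rw [h1]
  exact Submodule.zero_mem _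

theorem RF_eq (hx : 0 < x) (hx1 : x < 1) {m k : ℕ} (h : Ind x k) {s : Fin m → List ℕ} (hs : ∀ i, Adm (s i))
    (hk : ∀ i, (s i).sum = k) : RX s k x = RF s := by
  classical
  refine le_antisymm ?_ (RF_le hx hx1 hs hk)
  intro c hc
  rw [mem_RX_iff hx hx1 hs hk] at hc
  set b₀ : JJ 1 k := (0, ⟨[], by simp, by simp⟩) with hb₀
  have hb0 : pp x b₀ = 1 := by
    show Real.log x ^ 0 * V [] x = 1
    rw [V_nil]
    simp
  have hw0 : wtx b₀ = 0 := rfl
  obtain ⟨z, hz, hz0, hzs⟩ := mul_PR hx hx1 b₀ (j := k) (by rw [hw0]; omega) hc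
  rw [hb0, one_mul] at hzs
  set v : ℝ := ∑ i, (c i : ℝ) * val (s i) with hv
  have hvT : v ∈ Tz k := by
    refine Submodule.sum_mem _ fun i _ => ?_
    rw [← Rat.smul_def]
    refine Submodule.smul_mem _ _ (Zs_le_Tz le_rfl ?_)
    have := Pool.Agent.H447R2.MZ.val_mem (s i) (hs i)
    rw [hk] at this
    exact this
  have h1 : (fun b => (if b = b₀ then v else 0) - z b) = 0 := by
    refine h _ (fun b => Submodule.sub_mem _ ?_ (hz b)) ?_
    · split_ifs
      · exact hvT
      · exact Submodule.zero_mem _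
    · simp only [sub_mul, Finset.sum_sub_distrib]
      rw [← hzs]
      have h2 : ∑ b, (if b = b₀ then v else 0) * pp x b = v := by
        rw [Finset.sum_eq_single_of_mem b₀ (Finset.mem_univ _), if_pos rfl, hb0, mul_one]
        intro b _ hb
        rw [if_neg hb, zero_mul]
      rw [h2, sub_self]
  have h2 := congrFun h1 b₀
  simp only [if_true, Pi.zero_apply] at h2
  rw [hz0 b₀ le_rfl, sub_zero] at h2
  exact h2

/-- the exceptional integers are few, uniformly in the family -/
theorem few_RF (k : ℕ) : ∃ C c : ℝ, 0 < c ∧ ∀ T : ℕ, 1 ≤ T →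
    (({n : ℕ | 3 ≤ n ∧ n ≤ T ∧ ¬ ∀ (m : ℕ) (s : Fin m → List ℕ), (∀ i, Adm (s i)) → (∀ i, (s i).sum = k) →
      RX s k (1 / n) = RF s}.ncard : ℕ) : ℝ) ≤ C * (T : ℝ) ^ (1 - c) := by
  refine few_of (N := k) fun n hn h m s hs hk => ?_
  obtain ⟨h1, h2⟩ := inv_pos_lt (n := n) (by omega)
  exact RF_eq h1 h2 h hs hk

/-! ### double zeta values -/

/-- pairs of positive integers in decreasing order -/
def e2 : {m : Fin 2 → ℕ // StrictAnti m ∧ ∀ i, 0 < m i} ≃ ℕ × ℕ where
  toFun m := (m.1 0 - m.1 1 - 1, m.1 1 - 1)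
  invFun p := ⟨![p.1 + p.2 + 2, p.2 + 1], by
    refine ⟨?_, fun i => ?_⟩
    · intro i j hij
      fin_cases i <;> fin_cases j
      · exact absurd hij (lt_irrefl _)
      · show p.2 + 1 < p.1 + p.2 + 2
        omega
      · exact absurd hij (by decide)
      · exact absurd hij (lt_irrefl _)
    · fin_cases i
      · show 0 < p.1 + p.2 + 2
        omega
      · show 0 < p.2 + 1
        omega⟩
  left_inv := by
    rintro ⟨m, h1, h2⟩
    have h3 : m 1 < m 0 := h1 (by decide)
    have h4 := h2 1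
    refine Subtype.ext (funext fun i => ?_)
    fin_cases i
    · show m 0 - m 1 - 1 + (m 1 - 1) + 2 = m 0
      omega
    · show m 1 - 1 + 1 = m 1
      omega
  right_inv := by
    rintro ⟨a, b⟩
    refine Prod.ext ?_ ?_
    · show (a + b + 2) - (b + 1) - 1 = a
      omega
    · show b + 1 - 1 = b
      omega

/-- double zeta values -/
theorem val_two {a b : ℕ} (ha : 2 ≤ a) (hb : 1 ≤ b) :
    ∑' p : ℕ × ℕ, (1 : ℝ) / ((((p.1 + p.2 + 2 : ℕ) : ℝ) ^ a) * (((p.2 + 1 : ℕ) : ℝ) ^ b)) = val [a, b] := by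
  have hs : Adm [a, b] := ⟨fun c hc => by
    rcases List.mem_cons.1 hc with rfl | hc
    · omega
    · rw [List.mem_singleton.1 hc]
      exact hb, fun c t h => by
    have := (List.cons.inj h).1
    omega⟩
  rw [← val_tsum [a, b] hs]
  refine (e2.symm.tsum_eq (fun m : {m : Fin 2 → ℕ // StrictAnti m ∧ ∀ i, 0 < m i} =>
    ∏ i : Fin 2, ((m.1 i : ℝ) ^ ([a, b].get i))⁻¹)).symm.trans ?_ |>.symm
  refine tsum_congr fun p => ?_
  rw [Fin.prod_univ_two]
  show ((((p.1 + p.2 + 2 : ℕ) : ℝ)) ^ a)⁻¹ * ((((p.2 + 1 : ℕ) : ℝ)) ^ b)⁻¹ = _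
  rw [one_div, mul_inv]

end Pool.Agent.Q189.MV
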