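import Pool.Agent.Q189.MV.Ind

/-!
# Multiple polylogarithms and the criteria
-/

set_option autoImplicit false

open PowerSeries Filter Topology

namespace Pool.Agent.Q189.MV

open Pool.Agent.Y119.ML (LL UU In geo adm adm_tail adm_none const_LL theta_LL theta_In const_In WI JJ S S_zero)
open Pool.Agent.Q189.Z3 (L α1 α1_inj α1_ne UU0 UU1 coeff_geo_mul B1L B1w summ S_Xmul hd0 hd1 const_lim S0 Snil sint_nat sint_card)
open Pool.Agent.H447R2.MZ (H Adm val Zs)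

/-- truncated sums -/
noncomputable def trunc : List ℕ → ℕ → ℝ
  | [], _ => 1
  | a :: s, N => ∑ n ∈ Finset.range N, 1 / ((n : ℝ) + 1) ^ a * trunc s n

/-- multiple polylogarithms -/
noncomputable def Lis : List ℕ → ℝ → ℝ
  | [], _ => 1
  | a :: s, x => ∑' n : ℕ, x ^ (n + 1) / ((n : ℝ) + 1) ^ a * trunc s n

lemma trunc_eq (s : List ℕ) : ∀ N, trunc s N = H s N := by
  induction s with
  | nil => intro N; rw [Pool.Agent.H447R2.MZ.H_nil]; rfl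
  | cons a s ih =>
    intro N
    rw [Pool.Agent.H447R2.MZ.H_cons]
    show ∑ n ∈ Finset.range N, 1 / ((n : ℝ) + 1) ^ a * trunc s n = _
    refine Finset.sum_congr rfl fun n _ => ?_
    rw [ih]
    push_cast
    rw [one_div]

lemma Lis_eq (s : List ℕ) (hs : ∀ a ∈ s, 1 ≤ a) {x : ℝ} (hx : |x| < 1) : Lis s x = V (wd s) x := by
  rcases s with _ | ⟨a, s⟩
  · exact (V_nil x).symm
  · have hs' : ∀ b ∈ s, 1 ≤ b := fun b hb => hs b (by simp [hb])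
    have ha := hs a (by simp)
    unfold V S
    rw [(summ (B1w _) hx).tsum_eq_zero_add, coeff_zero (by rw [wd_cons]; simp), Rat.cast_zero, zero_mul, zero_add]
    show ∑' n : ℕ, x ^ (n + 1) / ((n : ℝ) + 1) ^ a * trunc s n = _
    refine tsum_congr fun m => ?_
    rw [wd_cons, coeff_rep, coeff_some, trunc_eq, ← partial_sum s hs' m]
    obtain ⟨c, rfl⟩ : ∃ c, a = c + 1 := ⟨a - 1, by omega⟩
    push_cast
    have h0 : ((m : ℝ) + 1) ≠ 0 := by positivity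
    field_simp
    ring

/-- the span of the products of values at `1 - x` and `x` -/
noncomputable def Spc (x : ℝ) (N : ℕ) : Submodule ℚ ℝ :=
  Submodule.span ℚ {r | ∃ s t : List ℕ, (∀ a ∈ s, 1 ≤ a) ∧ (∀ a ∈ t, 1 ≤ a) ∧ s.sum + t.sum = N ∧
    r = Lis s (1 - x) * Lis t x}

lemma Spc_eq {x : ℝ} (hx : 0 < x) (hx1 : x < 1) (N : ℕ) : Spc x N = VN x N := by
  have h1 : |x| < 1 := by rw [abs_of_pos hx]; exact hx1
  have h2 : |1 - x| < 1 := by rw [abs_of_pos (by linarith)]; linarith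
  unfold Spc VN
  congr 1
  ext r
  constructor
  · rintro ⟨s, t, hs, ht, hst, rfl⟩
    exact ⟨wd s, wd t, adm_wd s, adm_wd t, by rw [len_wd s hs, len_wd t ht, hst], by rw [Lis_eq s hs h2, Lis_eq t ht h1]⟩
  · rintro ⟨u, v, hu, hv, huv, rfl⟩
    obtain ⟨s, hs, hsu⟩ := exists_index u hu
    obtain ⟨t, ht, htv⟩ := exists_index v hv
    refine ⟨s, t, hs, ht, ?_, ?_⟩
    · rw [← len_wd s hs, ← len_wd t ht, hsu, htv, huv]
    · rw [Lis_eq s hs h2, Lis_eq t ht h1, hsu, htv]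

lemma inv_pos_lt {n : ℕ} (hn : 2 ≤ n) : (0 : ℝ) < 1 / n ∧ (1 : ℝ) / n < 1 := by
  have hn0 : (2 : ℝ) ≤ n := by exact_mod_cast hn
  refine ⟨by positivity, ?_⟩
  rw [div_lt_one (by linarith)]
  linarith

/-- the upper bound for the dimension -/
theorem finrank_Ph_le {x : ℝ} {N : ℕ} {F : JJ 1 N → Submodule ℚ ℝ} (hF : ∀ b, F b ≤ Tz N) :
    Module.finrank ℚ (LinearMap.range (Ph x F)) ≤ ∑ b, Module.finrank ℚ (F b) := by
  have hfd : ∀ b, FiniteDimensional ℚ (F b) := fun b => by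
    have := fd_Tz N
    exact Submodule.finiteDimensional_of_le (hF b)
  rw [← Module.finrank_pi_fintype]
  exact LinearMap.finrank_range_le _

theorem finrank_VN_le {x : ℝ} (hx : 0 < x) (hx1 : x < 1) (M : ℕ) :
    Module.finrank ℚ (VN x M) ≤ ∑ k ∈ Finset.range (M + 1), 2 ^ k * Module.finrank ℚ (Zs (M - k)) := by
  rw [VN_eq hx hx1, PZ_eq_range (N := M) le_rfl, ← sum_Fm (N := M) Zs le_rfl]
  exact finrank_Ph_le (Fm_le (fun k hk => Zs_le_Tz hk) le_rfl)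

theorem finrank_VT_le {x : ℝ} (hx : 0 < x) (hx1 : x < 1) (M : ℕ) :
    Module.finrank ℚ (VT x M) ≤ ∑ k ∈ Finset.range (M + 1), 2 ^ k * Module.finrank ℚ (Tz (M - k)) := by
  rw [VT_eq_range hx hx1 (N := M) le_rfl, ← sum_Fm (N := M) Tz le_rfl]
  exact finrank_Ph_le (Fm_le (fun k hk => Tz_mono hk) le_rfl)

/-- equality of weighted sums -/
lemma eq_of_sum {f d : ℕ → ℕ} {N : ℕ} (hf : ∀ k, f k ≤ d k)
    (h : ∑ k ∈ Finset.range (N + 1), 2 ^ k * d (N - k) ≤ ∑ k ∈ Finset.range (N + 1), 2 ^ k * f (N - k)) :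
    ∀ k ≤ N, f k = d k := by
  have h1 : ∀ k ∈ Finset.range (N + 1), 2 ^ k * f (N - k) ≤ 2 ^ k * d (N - k) := fun k _ => Nat.mul_le_mul_left _ (hf _)
  have h2 := (Finset.sum_eq_sum_iff_of_le h1).1 (le_antisymm (Finset.sum_le_sum h1) h)
  intro k hk
  have h3 := h2 (N - k) (Finset.mem_range.2 (by omega))
  have h4 : N - (N - k) = k := by omega
  rw [h4] at h3
  exact Nat.eq_of_mul_eq_mul_left (by positivity) h3

lemma eq_of_sums {f d : ℕ → ℕ} {N : ℕ}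
    (h : ∀ M ≤ N, ∑ k ∈ Finset.range (M + 1), 2 ^ k * d (M - k) = ∑ k ∈ Finset.range (M + 1), 2 ^ k * f (M - k)) :
    ∀ k ≤ N, f k = d k := by
  intro k
  induction k using Nat.strong_induction_on with
  | _ k ih =>
    intro hk
    have h1 := h k hk
    rw [Finset.sum_range_succ', Finset.sum_range_succ'] at h1
    have h2 : ∑ i ∈ Finset.range k, 2 ^ (i + 1) * d (k - (i + 1)) = ∑ i ∈ Finset.range k, 2 ^ (i + 1) * f (k - (i + 1)) := by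
      refine Finset.sum_congr rfl fun i hi => ?_
      have hi' := Finset.mem_range.1 hi
      rw [ih (k - (i + 1)) (by omega) (by omega)]
    rw [h2] at h1
    simp only [pow_zero, one_mul, Nat.sub_zero] at h1
    omega

/-- the bad integers are few for a consequence of independence -/
theorem few_of {N : ℕ} {A : ℕ → Prop} (h : ∀ n : ℕ, 3 ≤ n → Ind (1 / n) N → A n) : ∃ C c : ℝ, 0 < c ∧ ∀ T : ℕ, 1 ≤ T →
    (({n : ℕ | 3 ≤ n ∧ n ≤ T ∧ ¬ A n}.ncard : ℕ) : ℝ) ≤ C * (T : ℝ) ^ (1 - c) := by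
  obtain ⟨C, c, hc, hf⟩ := few_bad N
  refine ⟨C, c, hc, fun T hT => ?_⟩
  refine le_trans (Nat.cast_le.2 (Set.ncard_le_ncard ?_ ((Set.finite_le_nat T).subset fun n hn => hn.2.1))) (hf T hT)
  rintro n ⟨h1, h2, h3⟩
  exact ⟨h1, h2, fun h4 => h3 (h n h1 h4)⟩

/-- good integers exist -/
theorem exists_good (N : ℕ) : ∃ n : ℕ, 3 ≤ n ∧ Ind (1 / n) N := by
  obtain ⟨C, c, hc, hf⟩ := few_bad N
  obtain ⟨n, hn, h⟩ := Pool.Agent.Q189.Z3.exists_of_few hc hf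
  exact ⟨n, hn, not_not.1 h⟩

/-- two small sets of exceptions -/
lemma exists_of_few2 {A A' : ℕ → Prop} {C c C' c' : ℝ} (hc : 0 < c) (hc' : 0 < c')
    (h : ∀ T : ℕ, 1 ≤ T → (({n : ℕ | 3 ≤ n ∧ n ≤ T ∧ A n}.ncard : ℕ) : ℝ) ≤ C * (T : ℝ) ^ (1 - c))
    (h' : ∀ T : ℕ, 1 ≤ T → (({n : ℕ | 3 ≤ n ∧ n ≤ T ∧ A' n}.ncard : ℕ) : ℝ) ≤ C' * (T : ℝ) ^ (1 - c')) :
    ∃ n, 3 ≤ n ∧ ¬ (A n ∨ A' n) := by
  refine Pool.Agent.Q189.Z3.exists_of_few (C := |C| + |C'|) (c := min c c') (lt_min hc hc') fun T hT => ?_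
  have hT1 : (1 : ℝ) ≤ T := by exact_mod_cast hT
  have h1 : {n : ℕ | 3 ≤ n ∧ n ≤ T ∧ (A n ∨ A' n)} ⊆ {n : ℕ | 3 ≤ n ∧ n ≤ T ∧ A n} ∪ {n : ℕ | 3 ≤ n ∧ n ≤ T ∧ A' n} := by
    rintro n ⟨h2, h3, h4 | h4⟩
    · exact Or.inl ⟨h2, h3, h4⟩
    · exact Or.inr ⟨h2, h3, h4⟩
  have h2 := (Set.ncard_le_ncard h1 (((Set.finite_le_nat T).subset fun n hn => hn.2.1).union
    ((Set.finite_le_nat T).subset fun n hn => hn.2.1))).trans (Set.ncard_union_le _ _)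
  have h3 : (T : ℝ) ^ (1 - c) ≤ (T : ℝ) ^ (1 - min c c') :=
    Real.rpow_le_rpow_of_exponent_le hT1 (by linarith [min_le_left c c'])
  have h4 : (T : ℝ) ^ (1 - c') ≤ (T : ℝ) ^ (1 - min c c') :=
    Real.rpow_le_rpow_of_exponent_le hT1 (by linarith [min_le_right c c'])
  have h5 : (0 : ℝ) ≤ (T : ℝ) ^ (1 - c) := by positivity
  have h6 : (0 : ℝ) ≤ (T : ℝ) ^ (1 - c') := by positivity
  calc (({n : ℕ | 3 ≤ n ∧ n ≤ T ∧ (A n ∨ A' n)}.ncard : ℕ) : ℝ) ≤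
        (({n : ℕ | 3 ≤ n ∧ n ≤ T ∧ A n}.ncard : ℕ) : ℝ) + (({n : ℕ | 3 ≤ n ∧ n ≤ T ∧ A' n}.ncard : ℕ) : ℝ) := by exact_mod_cast h2
    _ ≤ C * (T : ℝ) ^ (1 - c) + C' * (T : ℝ) ^ (1 - c') := add_le_add (h T hT) (h' T hT)
    _ ≤ |C| * (T : ℝ) ^ (1 - min c c') + |C'| * (T : ℝ) ^ (1 - min c c') :=
        add_le_add ((mul_le_mul_of_nonneg_right (le_abs_self C) h5).trans (mul_le_mul_of_nonneg_left h3 (abs_nonneg _)))
          ((mul_le_mul_of_nonneg_right (le_abs_self C') h6).trans (mul_le_mul_of_nonneg_left h4 (abs_nonneg _)))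
    _ = _ := by ring

/-! ### the dimension of the space of weight `N` -/

theorem dims (N : ℕ) : ∃ C c : ℝ, 0 < c ∧ ∀ T : ℕ, 1 ≤ T →
    (({n : ℕ | 3 ≤ n ∧ n ≤ T ∧ ¬ ∀ M ≤ N, Module.finrank ℚ (Spc (1 / n) M) =
      ∑ k ∈ Finset.range (M + 1), 2 ^ k * Module.finrank ℚ (Zs (M - k))}.ncard : ℕ) : ℝ) ≤ C * (T : ℝ) ^ (1 - c) := by
  refine few_of (N := N) fun n hn h M hM => ?_
  obtain ⟨h1, h2⟩ := inv_pos_lt (n := n) (by omega)
  rw [Spc_eq h1 h2]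
  exact finrank_VN h1 h2 h hM

theorem dim_crit {d : ℕ → ℕ} (hd : ∀ k, Module.finrank ℚ (Zs k) ≤ d k) (N : ℕ) :
    (∀ k ≤ N, Module.finrank ℚ (Zs k) = d k) ↔
      ∃ n : ℕ, 2 ≤ n ∧ ∑ k ∈ Finset.range (N + 1), 2 ^ k * d (N - k) ≤ Module.finrank ℚ (Spc (1 / n) N) := by
  constructor
  · intro h
    obtain ⟨n, hn, hi⟩ := exists_good N
    obtain ⟨h1, h2⟩ := inv_pos_lt (n := n) (by omega)
    refine ⟨n, by omega, ?_⟩
    rw [Spc_eq h1 h2, finrank_VN h1 h2 hi le_rfl]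
    refine le_of_eq (Finset.sum_congr rfl fun k _ => ?_)
    rw [h (N - k) (by omega)]
  · rintro ⟨n, hn, h⟩
    obtain ⟨h1, h2⟩ := inv_pos_lt hn
    rw [Spc_eq h1 h2] at h
    exact eq_of_sum (f := fun k => Module.finrank ℚ (Zs k)) hd (h.trans (finrank_VN_le h1 h2 N))

/-! ### the dimension of the space of the weights at most `N` -/

/-- the space of the weights at most `M` -/
noncomputable def SpT (x : ℝ) (M : ℕ) : Submodule ℚ ℝ := (Finset.range (M + 1)).sup (Spc x)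

lemma SpT_eq {x : ℝ} (hx : 0 < x) (hx1 : x < 1) (M : ℕ) : SpT x M = VT x M := by
  unfold SpT VT
  exact Finset.sup_congr rfl fun j _ => Spc_eq hx hx1 j

theorem dimsT (N : ℕ) : ∃ C c : ℝ, 0 < c ∧ ∀ T : ℕ, 1 ≤ T →
    (({n : ℕ | 3 ≤ n ∧ n ≤ T ∧ ¬ ∀ M ≤ N, Module.finrank ℚ (SpT (1 / n) M) =
      ∑ k ∈ Finset.range (M + 1), 2 ^ k * Module.finrank ℚ (Tz (M - k))}.ncard : ℕ) : ℝ) ≤ C * (T : ℝ) ^ (1 - c) := by
  refine few_of (N := N) fun n hn h M hM => ?_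
  obtain ⟨h1, h2⟩ := inv_pos_lt (n := n) (by omega)
  rw [SpT_eq h1 h2]
  exact finrank_VT h1 h2 h hM

theorem dimT_crit {d : ℕ → ℕ} (hd : ∀ k, Module.finrank ℚ (Tz k) ≤ d k) (N : ℕ) :
    (∀ k ≤ N, Module.finrank ℚ (Tz k) = d k) ↔
      ∃ n : ℕ, 2 ≤ n ∧ ∑ k ∈ Finset.range (N + 1), 2 ^ k * d (N - k) ≤ Module.finrank ℚ (SpT (1 / n) N) := by
  constructor
  · intro h
    obtain ⟨n, hn, hi⟩ := exists_good N
    obtain ⟨h1, h2⟩ := inv_pos_lt (n := n) (by omega)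
    refine ⟨n, by omega, ?_⟩
    rw [SpT_eq h1 h2, finrank_VT h1 h2 hi le_rfl]
    refine le_of_eq (Finset.sum_congr rfl fun k _ => ?_)
    rw [h (N - k) (by omega)]
  · rintro ⟨n, hn, h⟩
    obtain ⟨h1, h2⟩ := inv_pos_lt hn
    rw [SpT_eq h1 h2] at h
    exact eq_of_sum (f := fun k => Module.finrank ℚ (Tz k)) hd (h.trans (finrank_VT_le h1 h2 N))

/-! ### directness -/

theorem dir_of {p n : ℕ} (hn : 2 ≤ n) (h : Dir (Spc (1 / n)) p) : Dir Zs p := by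
  obtain ⟨h1, h2⟩ := inv_pos_lt hn
  refine h.mono fun j => ?_
  rw [Spc_eq h1 h2]
  exact Zs_le_VN h1 h2 j

theorem dir_few {p : ℕ} (hp : Dir Zs p) : ∃ C c : ℝ, 0 < c ∧ ∀ T : ℕ, 1 ≤ T →
    (({n : ℕ | 3 ≤ n ∧ n ≤ T ∧ ¬ Dir (Spc (1 / n)) p}.ncard : ℕ) : ℝ) ≤ C * (T : ℝ) ^ (1 - c) := by
  refine few_of (N := p) fun n hn h => ?_
  obtain ⟨h1, h2⟩ := inv_pos_lt (n := n) (by omega)
  have h3 := dir_VN h1 h2 h hp
  intro z hz
  refine h3 z fun j hj => ?_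
  rw [← Spc_eq h1 h2]
  exact hz j hj

end Pool.Agent.Q189.MV
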