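import Pool.Agent.Q189.MV.Out
import Pool.Agent.Q187.ZD.Basic

/-!
# All weights together
-/

set_option autoImplicit false

open PowerSeries Filter Topology Module

namespace Pool.Agent.Q189.MV

open Pool.Agent.H447R2.MZ (H Adm val Zs)
open Pool.Agent.Q187.ZD (tot exists_sum sum_mem_tot finrank_tot_le)

/-- the sum of all members -/
noncomputable def Ps (G : ℕ → Submodule ℚ ℝ) (N : ℕ) : (∀ j : Fin (N + 1), G j) →ₗ[ℚ] ℝ :=
  ∑ j : Fin (N + 1), (G j).subtype.comp (LinearMap.proj j)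

lemma Ps_apply (G : ℕ → Submodule ℚ ℝ) (N : ℕ) (z : ∀ j : Fin (N + 1), G j) : Ps G N z = ∑ j, (z j : ℝ) := by
  unfold Ps
  rw [LinearMap.sum_apply]
  rfl

lemma Ps_range (G : ℕ → Submodule ℚ ℝ) (N : ℕ) : LinearMap.range (Ps G N) = (Finset.range (N + 1)).sup G := by
  refine le_antisymm ?_ ?_
  · rintro _ ⟨z, rfl⟩
    rw [Ps_apply]
    exact Submodule.sum_mem _ fun j _ => Finset.le_sup (f := G) (Finset.mem_range.2 j.2) (z j).2
  · intro x hx
    obtain ⟨z, hz, rfl⟩ := exists_sum G (show x ∈ tot G N from hx)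
    refine ⟨fun j => ⟨z j, hz j⟩, ?_⟩
    rw [Ps_apply]
    exact (Finset.sum_range fun j => z j).symm

lemma Ps_ker {G : ℕ → Submodule ℚ ℝ} {N : ℕ} : LinearMap.ker (Ps G N) = ⊥ ↔ Dir G N := by
  classical
  rw [LinearMap.ker_eq_bot']
  constructor
  · intro h z hz h0 j hj
    have h1 := h (fun j => ⟨z j, hz j (by omega)⟩) (by rw [Ps_apply]; exact ((Finset.sum_range fun j => z j).symm.trans h0))
    have h2 := congrFun h1 ⟨j, by omega⟩
    exact congrArg Subtype.val h2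
  · intro h z hz
    rw [Ps_apply] at hz
    have h1 := h (fun j => if hj : j < N + 1 then (z ⟨j, hj⟩ : ℝ) else 0) (fun j hj => by
      have : j < N + 1 := by omega
      simp only [this, dif_pos]
      exact (z ⟨j, this⟩).2) (by
      rw [Finset.sum_range]
      rw [← hz]
      refine Finset.sum_congr rfl fun j _ => ?_
      rw [dif_pos j.2])
    funext j
    refine Subtype.ext ?_
    have h2 := h1 j (by omega)
    simp only [j.2, dif_pos] at h2
    exact h2

section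
variable {G : ℕ → Submodule ℚ ℝ}

theorem finrank_sup_le (hG : ∀ j, FiniteDimensional ℚ (G j)) (N : ℕ) :
    finrank ℚ ((Finset.range (N + 1)).sup G : Submodule ℚ ℝ) ≤ ∑ j ∈ Finset.range (N + 1), finrank ℚ (G j) :=
  finrank_tot_le G hG N

theorem dir_iff (hG : ∀ j, FiniteDimensional ℚ (G j)) (N : ℕ) :
    Dir G N ↔ finrank ℚ ((Finset.range (N + 1)).sup G : Submodule ℚ ℝ) = ∑ j ∈ Finset.range (N + 1), finrank ℚ (G j) := by
  rw [← Ps_ker, ← Ps_range]
  have h1 := LinearMap.finrank_range_add_finrank_ker (Ps G N)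
  rw [Module.finrank_pi_fintype] at h1
  have h2 : ∑ j : Fin (N + 1), finrank ℚ (G j) = ∑ j ∈ Finset.range (N + 1), finrank ℚ (G j) :=
    (Finset.sum_range fun j => finrank ℚ (G j)).symm
  rw [h2] at h1
  constructor
  · intro h
    rw [h, finrank_bot, add_zero] at h1
    exact h1
  · intro h
    have h3 : finrank ℚ (LinearMap.ker (Ps G N)) = 0 := by omega
    exact Submodule.finrank_eq_zero.1 h3

lemma Dir.le {p q : ℕ} (h : Dir G q) (hpq : p ≤ q) : Dir G p := by
  intro z hz h0 j hj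
  have h1 := h (fun i => if i ≤ p then z i else 0) (fun i _ => by
    by_cases hi : i ≤ p
    · rw [if_pos hi]
      exact hz i hi
    · rw [if_neg hi]
      exact Submodule.zero_mem _) (by
    refine Eq.trans ?_ h0
    rw [← Finset.sum_subset (Finset.range_mono (show p + 1 ≤ q + 1 by omega))]
    · refine Finset.sum_congr rfl fun i hi => ?_
      have := Finset.mem_range.1 hi
      rw [if_pos (by omega)]
    · intro i _ hi
      rw [Finset.mem_range] at hi
      rw [if_neg (by omega)]) j (hj.trans hpq)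
  simp only [hj, if_true] at h1
  exact h1

theorem indep_iff : iSupIndep G ↔ ∀ p, Dir G p := by
  rw [iSupIndep_iff_finsetSum_eq_zero_imp_eq_zero]
  constructor
  · intro h p z hz h0 j hj
    exact h (Finset.range (p + 1)) z (fun i hi => hz i (by have := Finset.mem_range.1 hi; omega)) h0 j
      (Finset.mem_range.2 (by omega))
  · intro h s v hv h0 i hi
    have h1 := h (s.sup id) (fun j => if j ∈ s then v j else 0) (fun j _ => by
      by_cases hj : j ∈ s
      · rw [if_pos hj]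
        exact hv j hj
      · rw [if_neg hj]
        exact Submodule.zero_mem _) (by
      refine Eq.trans ?_ h0
      rw [← Finset.sum_filter]
      refine Finset.sum_congr ?_ fun _ _ => rfl
      ext j
      rw [Finset.mem_filter, Finset.mem_range]
      constructor
      · exact fun h => h.2
      · intro hj
        exact ⟨Nat.lt_succ_of_le (Finset.le_sup (f := id) hj), hj⟩) i (Finset.le_sup (f := id) hi)
    simp only [hi, if_true] at h1
    exact h1

end

/-- the criterion for all weights together -/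
theorem total_crit {d : ℕ → ℕ} (hd : ∀ k, finrank ℚ (Zs k) ≤ d k) (N : ℕ) :
    ((∀ k ≤ N, finrank ℚ (Zs k) = d k) ∧ Dir Zs N) ↔
      ∃ n : ℕ, 2 ≤ n ∧ ∑ k ∈ Finset.range (N + 1), 2 ^ k * (∑ j ∈ Finset.range (N - k + 1), d j) ≤
        finrank ℚ (SpT (1 / n) N) := by
  have hT : ∀ M, finrank ℚ (Tz M) ≤ ∑ j ∈ Finset.range (M + 1), d j := fun M =>
    (finrank_sup_le fd_Zs M).trans (Finset.sum_le_sum fun j _ => hd j)
  have h1 := dimT_crit (d := fun M => ∑ j ∈ Finset.range (M + 1), d j) hT N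
  rw [← h1]
  constructor
  · rintro ⟨h2, h3⟩ k hk
    rw [show finrank ℚ (Tz k) = _ from (dir_iff fd_Zs k).1 (h3.le hk)]
    refine Finset.sum_congr rfl fun j hj => ?_
    have := Finset.mem_range.1 hj
    exact h2 j (by omega)
  · intro h
    have h2 := h N le_rfl
    have h3 : finrank ℚ (Tz N) ≤ ∑ j ∈ Finset.range (N + 1), finrank ℚ (Zs j) := finrank_sup_le fd_Zs N
    have h4 : ∑ j ∈ Finset.range (N + 1), finrank ℚ (Zs j) ≤ ∑ j ∈ Finset.range (N + 1), d j := Finset.sum_le_sum fun j _ => hd j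
    have h5 : ∑ j ∈ Finset.range (N + 1), finrank ℚ (Zs j) = ∑ j ∈ Finset.range (N + 1), d j := by
      refine le_antisymm h4 ?_
      omega
    refine ⟨fun k hk => ?_, ?_⟩
    · exact (Finset.sum_eq_sum_iff_of_le fun j _ => hd j).1 h5 k (Finset.mem_range.2 (by omega))
    · rw [dir_iff fd_Zs]
      show finrank ℚ (Tz N) = _
      omega

/-! ### the asymptotic criterion -/

section
variable {d : ℕ → ℕ} (h0 : d 0 = 1) (h1 : d 1 = 0) (h2 : d 2 = 1) (h3 : ∀ n, d (n + 3) = d (n + 1) + d n)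
include h0 h1 h2 h3

lemma d_le (n : ℕ) : (d n : ℝ) ≤ (3 / 2) ^ n := by
  induction n using Nat.strong_induction_on with
  | _ n ih =>
    rcases n with _ | _ | _ | n
    · rw [h0]; norm_num
    · rw [h1]; norm_num
    · rw [h2]; norm_num
    · rw [h3]
      push_cast
      have e1 := ih (n + 1) (by omega)
      have e2 := ih n (by omega)
      have e3 : (0 : ℝ) < (3 / 2) ^ n := by positivity
      rw [pow_succ] at e1
      rw [pow_succ, pow_succ, pow_succ]
      nlinarith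

lemma S_le (n : ℕ) : ((∑ j ∈ Finset.range (n + 1), d j : ℕ) : ℝ) ≤ 3 * (3 / 2) ^ n := by
  push_cast
  refine (Finset.sum_le_sum fun j _ => d_le h0 h1 h2 h3 j).trans ?_
  rw [geom_sum_eq (by norm_num)]
  rw [pow_succ]
  have : (0 : ℝ) < (3 / 2) ^ n := by positivity
  rw [div_le_iff₀ (by norm_num)]
  nlinarith

lemma R_le' (N : ℕ) : ((∑ k ∈ Finset.range (N + 1), 2 ^ k * (∑ j ∈ Finset.range (N - k + 1), d j) : ℕ) : ℝ) ≤
    12 * 2 ^ N - 9 * (3 / 2) ^ N := by
  induction N with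
  | zero =>
    simp [h0]
    norm_num
  | succ N ih =>
    have e1 : ∑ k ∈ Finset.range (N + 1 + 1), 2 ^ k * (∑ j ∈ Finset.range (N + 1 - k + 1), d j) =
        2 * ∑ k ∈ Finset.range (N + 1), 2 ^ k * (∑ j ∈ Finset.range (N - k + 1), d j) + ∑ j ∈ Finset.range (N + 1 + 1), d j := by
      rw [Finset.sum_range_succ']
      refine congrArg₂ (· + ·) (Eq.trans (Finset.sum_congr rfl fun k _ => ?_) (Finset.mul_sum _ _ _).symm) (by simp)
      have : N + 1 - (k + 1) = N - k := by omega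
      rw [this, pow_succ]
      ring
    rw [e1]
    have e2 := S_le h0 h1 h2 h3 (N + 1)
    have e3 : ((2 * ∑ k ∈ Finset.range (N + 1), 2 ^ k * (∑ j ∈ Finset.range (N - k + 1), d j) +
        ∑ j ∈ Finset.range (N + 1 + 1), d j : ℕ) : ℝ) =
        2 * ((∑ k ∈ Finset.range (N + 1), 2 ^ k * (∑ j ∈ Finset.range (N - k + 1), d j) : ℕ) : ℝ) +
        ((∑ j ∈ Finset.range (N + 1 + 1), d j : ℕ) : ℝ) := by
      push_cast
      ring
    rw [e3]
    rw [pow_succ] at e2 ⊢
    rw [pow_succ (3 / 2 : ℝ)]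
    linarith

lemma R_le (N : ℕ) : ((∑ k ∈ Finset.range (N + 1), 2 ^ k * (∑ j ∈ Finset.range (N - k + 1), d j) : ℕ) : ℝ) ≤ 12 * 2 ^ N := by
  have := R_le' h0 h1 h2 h3 N
  have h4 : (0 : ℝ) ≤ (3 / 2) ^ N := by positivity
  linarith

/-- the asymptotic criterion -/
theorem asym (hd : ∀ k, finrank ℚ (Zs k) ≤ d k)
    (h : ∀ ε : ℝ, 0 < ε → ∀ N₀ : ℕ, ∃ N n : ℕ, N₀ ≤ N ∧ 2 ≤ n ∧
      (1 - ε) * ((∑ k ∈ Finset.range (N + 1), 2 ^ k * (∑ j ∈ Finset.range (N - k + 1), d j) : ℕ) : ℝ) ≤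
        finrank ℚ (SpT (1 / n) N)) (p : ℕ) : finrank ℚ (Tz p) = ∑ j ∈ Finset.range (p + 1), d j := by
  have hT : ∀ M, finrank ℚ (Tz M) ≤ ∑ j ∈ Finset.range (M + 1), d j := fun M =>
    (finrank_sup_le fd_Zs M).trans (Finset.sum_le_sum fun j _ => hd j)
  by_contra hne
  have hlt : finrank ℚ (Tz p) + 1 ≤ ∑ j ∈ Finset.range (p + 1), d j := by
    have := hT p
    omega
  set ε : ℝ := 1 / (24 * 2 ^ p) with hε
  have hε0 : 0 < ε := by positivity
  obtain ⟨N, n, hN, hn, hb⟩ := h ε hε0 p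
  obtain ⟨e1, e2⟩ := inv_pos_lt hn
  have h5 := finrank_VT_le e1 e2 N
  rw [← SpT_eq e1 e2] at h5
  have h6 : ∑ k ∈ Finset.range (N + 1), 2 ^ k * finrank ℚ (Tz (N - k)) + 2 ^ (N - p) ≤
      ∑ k ∈ Finset.range (N + 1), 2 ^ k * (∑ j ∈ Finset.range (N - k + 1), d j) := by
    have h7 : N - p ∈ Finset.range (N + 1) := Finset.mem_range.2 (by omega)
    rw [← Finset.add_sum_erase _ _ h7, ← Finset.add_sum_erase _ _ h7]
    have h8 : N - (N - p) = p := by omega
    rw [h8]
    have h9 : ∑ k ∈ (Finset.range (N + 1)).erase (N - p), 2 ^ k * finrank ℚ (Tz (N - k)) ≤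
        ∑ k ∈ (Finset.range (N + 1)).erase (N - p), 2 ^ k * (∑ j ∈ Finset.range (N - k + 1), d j) :=
      Finset.sum_le_sum fun k _ => Nat.mul_le_mul_left _ (hT _)
    have h10 : 2 ^ (N - p) * finrank ℚ (Tz p) + 2 ^ (N - p) ≤ 2 ^ (N - p) * (∑ j ∈ Finset.range (p + 1), d j) := by
      calc 2 ^ (N - p) * finrank ℚ (Tz p) + 2 ^ (N - p) = 2 ^ (N - p) * (finrank ℚ (Tz p) + 1) := by ring
        _ ≤ _ := Nat.mul_le_mul_left _ hlt
    omega
  have h7 : (finrank ℚ (SpT (1 / n) N) : ℝ) + 2 ^ (N - p) ≤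
      ((∑ k ∈ Finset.range (N + 1), 2 ^ k * (∑ j ∈ Finset.range (N - k + 1), d j) : ℕ) : ℝ) := by
    have := (Nat.add_le_add_right h5 (2 ^ (N - p))).trans h6
    exact_mod_cast this
  have h8 := R_le h0 h1 h2 h3 N
  set R : ℝ := ((∑ k ∈ Finset.range (N + 1), 2 ^ k * (∑ j ∈ Finset.range (N - k + 1), d j) : ℕ) : ℝ) with hR
  have h9 : (2 : ℝ) ^ (N - p) * 2 ^ p = 2 ^ N := by rw [← pow_add]; congr 1; omega
  have h10 : (2 : ℝ) ^ (N - p) ≤ ε * R := by linarith
  have h11 : ε * R ≤ ε * (12 * 2 ^ N) := mul_le_mul_of_nonneg_left h8 hε0.le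
  have h12 : ε * (12 * 2 ^ N) = 2 ^ (N - p) / 2 := by
    rw [← h9, hε]
    field_simp
    norm_num
  have h13 : (0 : ℝ) < 2 ^ (N - p) := by positivity
  linarith

end

/-! ### defects -/

/-- the dimension of the space of the relations -/
noncomputable def defect (G : ℕ → Submodule ℚ ℝ) (p : ℕ) : ℕ :=
  ∑ j ∈ Finset.range (p + 1), finrank ℚ (G j) - finrank ℚ ((Finset.range (p + 1)).sup G : Submodule ℚ ℝ)

lemma swap_sum (f : ℕ → ℕ) (p : ℕ) : ∑ M ∈ Finset.range (p + 1), ∑ k ∈ Finset.range (M + 1), 2 ^ k * f (M - k) =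
    ∑ k ∈ Finset.range (p + 1), 2 ^ k * ∑ j ∈ Finset.range (p - k + 1), f j := by
  induction p with
  | zero => simp
  | succ p ih =>
    rw [Finset.sum_range_succ, ih, Finset.sum_range_succ _ (p + 1), Finset.sum_range_succ _ (p + 1), ← add_assoc,
      ← Finset.sum_add_distrib]
    congr 1
    · refine Finset.sum_congr rfl fun k hk => ?_
      have hk' := Finset.mem_range.1 hk
      have h1 : p + 1 - k = p - k + 1 := by omega
      rw [h1, Finset.sum_range_succ _ (p - k + 1)]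
      ring
    · simp

theorem defects (N : ℕ) : ∃ C c : ℝ, 0 < c ∧ ∀ T : ℕ, 1 ≤ T →
    (({n : ℕ | 3 ≤ n ∧ n ≤ T ∧ ¬ ∀ p ≤ N, defect (Spc (1 / n)) p =
      ∑ k ∈ Finset.range (p + 1), 2 ^ k * defect Zs (p - k)}.ncard : ℕ) : ℝ) ≤ C * (T : ℝ) ^ (1 - c) := by
  refine few_of (N := N) fun n hn h p hp => ?_
  obtain ⟨h1, h2⟩ := inv_pos_lt (n := n) (by omega)
  unfold defect
  have e1 : ∑ j ∈ Finset.range (p + 1), finrank ℚ (Spc (1 / n) j) =
      ∑ k ∈ Finset.range (p + 1), 2 ^ k * ∑ j ∈ Finset.range (p - k + 1), finrank ℚ (Zs j) := by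
    rw [← swap_sum (fun j => finrank ℚ (Zs j))]
    refine Finset.sum_congr rfl fun M hM => ?_
    have hM' := Finset.mem_range.1 hM
    rw [Spc_eq h1 h2]
    exact finrank_VN h1 h2 h (by omega)
  have e2 : finrank ℚ ((Finset.range (p + 1)).sup (Spc (1 / n)) : Submodule ℚ ℝ) =
      ∑ k ∈ Finset.range (p + 1), 2 ^ k * finrank ℚ (Tz (p - k)) := by
    have e3 := SpT_eq h1 h2 p
    unfold SpT at e3
    rw [e3]
    exact finrank_VT h1 h2 h hp
  rw [e1, e2, ← Finset.sum_tsub_distrib]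
  · refine Finset.sum_congr rfl fun k _ => ?_
    rw [Nat.mul_sub]
    rfl
  · intro k _
    exact Nat.mul_le_mul_left _ (finrank_sup_le fd_Zs _)

end Pool.Agent.Q189.MV
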