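import Pool.Agent.Q189.MV.Val

/-!
# Path composition between `0` and `1`
-/

set_option autoImplicit false

open PowerSeries Filter Topology

namespace Pool.Agent.Q189.MV

open Pool.Agent.Y119.ML (LL UU In geo adm adm_tail adm_none const_LL theta_LL theta_In const_In WI S S_zero)
open Pool.Agent.Q189.Z3 (L α1 UU0 UU1 coeff_geo_mul B1L B1w summ S_Xmul hd0 hd1 const_lim S0 Snil)
open Pool.Agent.H447R2.MZ (H Adm val Zs)

/-- the other letter -/
def sw : Option (Fin 1) → Option (Fin 1)
  | none => some 0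
  | some _ => none

/-- the value of a word -/
noncomputable def V (w : List (Option (Fin 1))) (x : ℝ) : ℝ := S (L w) x

/-- the sum over the decompositions of a word, the first factors reversed and with the letters exchanged -/
noncomputable def pc : List (Option (Fin 1)) → List (Option (Fin 1)) → ℝ → ℝ
  | ρ, [], x => V ρ (1 - x)
  | ρ, a :: v, x => V ρ (1 - x) * V (a :: v) x + pc (sw a :: ρ) v x

/-- the weight function of a letter -/
noncomputable def fw : Option (Fin 1) → ℝ → ℝ
  | none, x => 1 / x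
  | some _, x => 1 / (1 - x)

lemma fw_sw (o : Option (Fin 1)) (x : ℝ) : fw (sw o) (1 - x) = fw o x := by
  rcases o with _ | i
  · show 1 / (1 - (1 - x)) = 1 / x
    congr 1
    ring
  · rfl

lemma hdV {o : Option (Fin 1)} {w : List (Option (Fin 1))} (hw : adm (o :: w)) {x : ℝ} (hx : 0 < x) (hx1 : x < 1) :
    HasDerivAt (V (o :: w)) (fw o x * V w x) x := by
  have h1 : |x| < 1 := by rw [abs_of_pos hx]; exact hx1
  rcases o with _ | i
  · refine (hd0 hw h1 hx.ne').congr_deriv ?_
    show S (L w) x / x = 1 / x * S (L w) x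
    ring
  · have hi : i = 0 := Subsingleton.elim _ _
    subst hi
    refine (hd1 hw h1).congr_deriv ?_
    show S (L w) x / (1 - x) = 1 / (1 - x) * S (L w) x
    ring

lemma hdnil {x : ℝ} : HasDerivAt (V []) 0 x := by
  have h1 : V [] = fun _ => 1 := funext fun y => Snil y
  rw [h1]
  exact hasDerivAt_const x 1

/-- the derivative of the first factor -/
noncomputable def dV : List (Option (Fin 1)) → ℝ → ℝ
  | [], _ => 0
  | o :: w, x => fw o x * V w x

lemma hdV' {w : List (Option (Fin 1))} (hw : adm w) {x : ℝ} (hx : 0 < x) (hx1 : x < 1) : HasDerivAt (V w) (dV w x) x := by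
  rcases w with _ | ⟨o, w⟩
  · exact hdnil
  · exact hdV hw hx hx1

lemma hdV1 {w : List (Option (Fin 1))} (hw : adm w) {x : ℝ} (hx : 0 < x) (hx1 : x < 1) :
    HasDerivAt (fun x => V w (1 - x)) (-dV w (1 - x)) x := by
  have h1 := (hdV' hw (x := 1 - x) (by linarith) (by linarith)).scomp x ((hasDerivAt_id x).const_sub 1)
  simp only [smul_eq_mul] at h1
  refine h1.congr_deriv ?_
  ring

/-- the words for which all reversed prefixes are admissible -/
def OK (ρ w : List (Option (Fin 1))) : Prop := adm ρ ∧ adm w ∧ (ρ = [] → ∀ i, w.head? ≠ some (some i))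

lemma OK.step {ρ w : List (Option (Fin 1))} {a : Option (Fin 1)} (h : OK ρ (a :: w)) : OK (sw a :: ρ) w := by
  obtain ⟨h1, h2, h3⟩ := h
  refine ⟨?_, adm_tail h2, fun h => absurd h (by simp)⟩
  by_cases hρ : ρ = []
  · rcases a with _ | i
    · subst hρ
      exact adm_one adm_nil
    · exact absurd rfl (h3 hρ i)
  · exact Pool.Agent.Q189.HL.adm_cons h1 hρ

lemma hd_pc (w : List (Option (Fin 1))) : ∀ (ρ : List (Option (Fin 1))), OK ρ w → ∀ {x : ℝ}, 0 < x → x < 1 →
    HasDerivAt (pc ρ w) (-dV ρ (1 - x) * V w x) x := by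
  induction w with
  | nil =>
    intro ρ h x hx hx1
    refine (hdV1 h.1 hx hx1).congr_deriv ?_
    show _ = -dV ρ (1 - x) * S (L []) x
    rw [Snil, mul_one]
  | cons a w ih =>
    intro ρ h x hx hx1
    have h1 := ((hdV1 h.1 hx hx1).mul (hdV h.2.1 hx hx1)).add (ih _ h.step hx hx1)
    refine h1.congr_deriv ?_
    show -dV ρ (1 - x) * V (a :: w) x + V ρ (1 - x) * (fw a x * V w x) + -(fw (sw a) (1 - x) * V ρ (1 - x)) * V w x = _
    rw [fw_sw]
    ring

/-- the reversed word with the letters exchanged, in front of another word -/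
def rv : List (Option (Fin 1)) → List (Option (Fin 1)) → List (Option (Fin 1))
  | ρ, [] => ρ
  | ρ, a :: v => rv (sw a :: ρ) v

lemma V_lim0 {w : List (Option (Fin 1))} (hw : w ≠ []) : Tendsto (fun x => x⁻¹ * V w x) (𝓝[>] 0)
    (𝓝 (S (d⁄dX ℚ (L w)) 0)) := by
  have h1 := Pool.Agent.Q189.Z3.hd (B1w w) (x := 0) (by simp)
  have h2 := h1.tendsto_slope_zero
  simp only [zero_add, S0 hw, sub_zero, smul_eq_mul] at h2
  exact h2.mono_left (nhdsWithin_mono _ fun x hx => ne_of_gt hx)

lemma lim_pc (w : List (Option (Fin 1))) : ∀ (ρ : List (Option (Fin 1))) {c : ℝ},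
    Tendsto (fun x => V (rv ρ w) (1 - x)) (𝓝[>] 0) (𝓝 c) → Tendsto (pc ρ w) (𝓝[>] 0) (𝓝 c) := by
  induction w with
  | nil => exact fun ρ c h => h
  | cons a w ih =>
    intro ρ c h
    have h1 := ih (sw a :: ρ) h
    have h2 := (xS_lim ρ).mul (V_lim0 (w := a :: w) (by simp))
    rw [zero_mul] at h2
    have h3 : Tendsto (fun x => V ρ (1 - x) * V (a :: w) x) (𝓝[>] 0) (𝓝 0) := by
      refine h2.congr' ?_
      filter_upwards [self_mem_nhdsWithin] with x hx
      have hx' : (0 : ℝ) < x := hx
      show x * S (L ρ) (1 - x) * (x⁻¹ * V (a :: w) x) = S (L ρ) (1 - x) * V (a :: w) x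
      field_simp
    have h4 := h3.add h1
    rw [zero_add] at h4
    exact h4

/-- path composition -/
theorem pc_eq {w : List (Option (Fin 1))} (hw : OK [] w) {s : List ℕ} (hs : Adm s) (hsw : rv [] w = wd s) {x : ℝ} (hx : 0 < x)
    (hx1 : x < 1) : pc [] w x = val s := by
  refine const_lim (b := 1) (fun y hy hy1 => ?_) (lim_pc w [] ?_) hx hx1
  · refine (hd_pc w [] hw hy hy1).congr_deriv ?_
    show -0 * V w y = 0
    ring
  · rw [hsw]
    exact val_lim s hs

end Pool.Agent.Q189.MV
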