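import Pool.Agent.Q189.MV.Alg

/-!
# Regularisation: the values at `1 - x` in terms of those at `x`
-/

set_option autoImplicit false

open PowerSeries Filter Topology

namespace Pool.Agent.Q189.MV

open Pool.Agent.Y119.ML (LL UU In geo adm adm_tail adm_none const_LL theta_LL theta_In const_In WI S S_zero)
open Pool.Agent.Q189.Z3 (L α1 UU0 UU1 coeff_geo_mul B1L B1w summ S_Xmul hd0 hd1 const_lim S0 Snil)
open Pool.Agent.H447R2.MZ (H Adm val Zs)
open Pool.Agent.Q189.HL (sh sh_nil sh_cons_nil sh_cons length_sh adm_sh LL_mul)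

/-- shuffles with one letter `1` -/
lemma sh_one (F : List (Option (Fin 1)) → ℝ) (a : ℕ) : ∀ w₀ : List (Option (Fin 1)),
    ((sh [o1] (List.replicate a o1 ++ w₀)).map F).sum = a * F (List.replicate (a + 1) o1 ++ w₀) +
      ((sh [o1] w₀).map fun w => F (List.replicate a o1 ++ w)).sum := by
  induction a generalizing F with
  | zero =>
    intro w₀
    simp
  | succ a ih =>
    intro w₀
    have h1 : List.replicate (a + 1) o1 ++ w₀ = o1 :: (List.replicate a o1 ++ w₀) := by
      rw [List.replicate_succ, List.cons_append]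
    rw [h1, sh_cons, sh_nil, List.map_append, List.sum_append, List.map_map, List.map_map]
    have h2 := ih (F ∘ fun w => o1 :: w) w₀
    rw [h2]
    simp only [List.map_cons, List.map_nil, List.sum_cons, List.sum_nil, Function.comp]
    have h3 : o1 :: o1 :: (List.replicate a o1 ++ w₀) = List.replicate (a + 1 + 1) o1 ++ w₀ := by
      rw [List.replicate_succ, List.replicate_succ, List.cons_append, List.cons_append]
    have h4 : o1 :: (List.replicate (a + 1) o1 ++ w₀) = List.replicate (a + 1 + 1) o1 ++ w₀ := by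
      rw [List.replicate_succ (n := a + 1), List.cons_append]
    have h5 : (fun w => F (o1 :: (List.replicate a o1 ++ w))) = fun w => F (List.replicate (a + 1) o1 ++ w) := by
      funext w
      rw [List.replicate_succ (n := a), List.cons_append]
    rw [h3, h4, h5]
    push_cast
    ring

/-- the span of the products of powers of `-log (1 - y)` and the values of the words which do not begin with `1` -/
noncomputable def AZ (y : ℝ) (N : ℕ) : Submodule ℚ ℝ :=
  Submodule.span ℚ {r | ∃ (b : ℕ) (w : List (Option (Fin 1))), adm w ∧ (w = [] ∨ ∃ w', w = none :: w') ∧ b + w.length = N ∧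
    r = V [o1] y ^ b * V w y}

lemma AZ_mul {y : ℝ} {N : ℕ} {r : ℝ} (hr : r ∈ AZ y N) : V [o1] y * r ∈ AZ y (N + 1) := by
  unfold AZ at hr
  induction hr using Submodule.span_induction with
  | mem r hr =>
    obtain ⟨b, w, hw, hw', hN, rfl⟩ := hr
    exact Submodule.subset_span ⟨b + 1, w, hw, hw', by omega, by ring⟩
  | zero => rw [mul_zero]; exact Submodule.zero_mem _
  | add r s _ _ hr hs => rw [mul_add]; exact Submodule.add_mem _ hr hs
  | smul c r _ hr =>
    rw [mul_smul_comm]
    exact Submodule.smul_mem _ _ hr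

lemma adm_rep (a : ℕ) {w : List (Option (Fin 1))} (hw : adm w) : adm (List.replicate a o1 ++ w) := by
  induction a with
  | zero => simpa using hw
  | succ a ih =>
    rw [List.replicate_succ, List.cons_append]
    exact adm_one ih

theorem reg {y : ℝ} (hy : |y| < 1) (a : ℕ) : ∀ w₀ : List (Option (Fin 1)), adm w₀ → (w₀ = [] ∨ ∃ w', w₀ = none :: w') →
    V (List.replicate a o1 ++ w₀) y ∈ AZ y (a + w₀.length) := by
  induction a with
  | zero =>
    intro w₀ h1 h2
    refine Submodule.subset_span ⟨0, w₀, h1, h2, rfl, ?_⟩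
    rw [pow_zero, one_mul]
    rfl
  | succ a ih =>
    intro w₀ h1 h2
    have h3 := V_mul (u := [o1]) (v := List.replicate a o1 ++ w₀) (adm_one adm_nil) (adm_rep a h1) hy
    rw [sh_one (fun w => V w y) a w₀] at h3
    have h4 := AZ_mul (ih w₀ h1 h2)
    have h5 : a + 1 + w₀.length = a + w₀.length + 1 := by omega
    rw [h5]
    have ha : ((a : ℝ) + 1) ≠ 0 := by positivity
    rcases h2 with rfl | ⟨w', rfl⟩
    · rw [sh_cons_nil] at h3
      simp only [List.map_cons, List.map_nil, List.sum_cons, List.sum_nil, add_zero] at h3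
      have h6 : List.replicate a o1 ++ [o1] = List.replicate (a + 1) o1 ++ [] := by
        rw [List.append_nil, ← List.replicate_succ']
      rw [h6] at h3
      have h7 : V (List.replicate (a + 1) o1 ++ []) y = ((1 / ((a : ℚ) + 1)) : ℚ) • (V [o1] y * V (List.replicate a o1 ++ []) y) := by
        rw [h3, Rat.smul_def]
        push_cast
        field_simp
      rw [h7]
      exact Submodule.smul_mem _ _ h4
    · rw [sh_cons, sh_nil, List.map_append, List.sum_append, List.map_map, List.map_map] at h3
      simp only [List.map_cons, List.map_nil, List.sum_cons, List.sum_nil, add_zero, Function.comp] at h3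
      have h6 : List.replicate a o1 ++ o1 :: none :: w' = List.replicate (a + 1) o1 ++ none :: w' := by
        rw [List.replicate_succ', List.append_assoc]
        rfl
      rw [h6, show ((fun w => V (List.replicate a o1 ++ w) y) ∘ fun w => none :: w) =
        fun w => V (List.replicate a o1 ++ none :: w) y from rfl] at h3
      have h8 : ((sh [o1] w').map fun w => V (List.replicate a o1 ++ none :: w) y).sum ∈ AZ y (a + (none :: w').length + 1) := by
        refine list_mem _ _ fun w hw => ?_
        have hl := length_sh _ [o1] w' rfl w hw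
        have h9 := ih (none :: w) (Pool.Agent.Q189.HL.adm_cons (adm_sh _ [o1] w' rfl (adm_one adm_nil) (adm_tail h1) w hw)
          (by intro h0; rw [h0] at hl; simp only [List.length_cons, List.length_nil] at hl; omega)) (Or.inr ⟨w, rfl⟩)
        have h10 : a + (none :: w').length + 1 = a + (none :: w).length := by
          simp only [List.length_cons, List.length_nil] at hl ⊢
          omega
        rw [h10]
        exact h9
      have h7 : V (List.replicate (a + 1) o1 ++ none :: w') y = ((1 / ((a : ℚ) + 1)) : ℚ) • (V [o1] y *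
          V (List.replicate a o1 ++ none :: w') y - ((sh [o1] w').map fun w => V (List.replicate a o1 ++ none :: w) y).sum) := by
        rw [h3, Rat.smul_def]
        push_cast
        field_simp
        ring
      rw [h7]
      exact Submodule.smul_mem _ _ (Submodule.sub_mem _ h4 h8)

/-- every word is a power of `1` followed by a word which does not begin with `1` -/
lemma split_word (u : List (Option (Fin 1))) (hu : adm u) : ∃ (a : ℕ) (w₀ : List (Option (Fin 1))),
    u = List.replicate a o1 ++ w₀ ∧ adm w₀ ∧ (w₀ = [] ∨ ∃ w', w₀ = none :: w') := by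
  induction u with
  | nil => exact ⟨0, [], rfl, hu, Or.inl rfl⟩
  | cons o u ih =>
    rcases o with _ | i
    · exact ⟨0, none :: u, rfl, hu, Or.inr ⟨u, rfl⟩⟩
    · have hi : i = 0 := Subsingleton.elim _ _
      subst hi
      obtain ⟨a, w₀, h1, h2, h3⟩ := ih (adm_tail hu)
      refine ⟨a + 1, w₀, ?_, h2, h3⟩
      rw [h1, List.replicate_succ, List.cons_append]

variable {x : ℝ}

lemma V_mem_PZ {w : List (Option (Fin 1))} (hw : adm w) : V w x ∈ PZ x w.length :=
  Submodule.subset_span ⟨0, 0, 1, w, Pool.Agent.H447R2.MZ.one_mem, hw, by omega, by rw [pow_zero, one_mul, one_mul]⟩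

lemma z_mem_PZ {k : ℕ} {z : ℝ} (hz : z ∈ Zs k) : z ∈ PZ x k :=
  Submodule.subset_span ⟨k, 0, z, [], hz, adm_nil, rfl, by rw [V_nil, pow_zero, one_mul, mul_one]⟩

lemma log_mem_PZ : Real.log x ∈ PZ x 1 :=
  Submodule.subset_span ⟨0, 1, 1, [], Pool.Agent.H447R2.MZ.one_mem, adm_nil, rfl, by rw [V_nil, pow_one, one_mul, mul_one]⟩

lemma pow_mem_PZ (hx : 0 < x) (hx1 : x < 1) {r : ℝ} {i : ℕ} (hr : r ∈ PZ x i) (b : ℕ) : r ^ b ∈ PZ x (b * i) := by
  induction b with
  | zero =>
    rw [pow_zero, zero_mul]
    exact z_mem_PZ Pool.Agent.H447R2.MZ.one_mem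
  | succ b ih =>
    rw [pow_succ, Nat.succ_mul]
    exact PZ_mul hx hx1 ih hr

lemma pc_diff (hx : 0 < x) (hx1 : x < 1) (n : ℕ) (hyp : ∀ ρ : List (Option (Fin 1)), adm ρ → ρ.length < n → V ρ (1 - x) ∈ PZ x ρ.length)
    (w : List (Option (Fin 1))) : ∀ ρ : List (Option (Fin 1)), OK ρ w → ρ.length + w.length = n →
      pc ρ w x - V (rv ρ w) (1 - x) ∈ PZ x n := by
  induction w with
  | nil =>
    intro ρ _ _
    show V ρ (1 - x) - V ρ (1 - x) ∈ _
    rw [sub_self]
    exact Submodule.zero_mem _
  | cons a w ih =>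
    intro ρ h hn
    rw [List.length_cons] at hn
    show V ρ (1 - x) * V (a :: w) x + pc (sw a :: ρ) w x - V (rv (sw a :: ρ) w) (1 - x) ∈ _
    rw [add_sub_assoc]
    refine Submodule.add_mem _ ?_ (ih _ h.step (by rw [List.length_cons]; omega))
    have h1 := PZ_mul hx hx1 (hyp ρ h.1 (by omega)) (V_mem_PZ (x := x) h.2.1)
    rw [List.length_cons] at h1
    have h2 : ρ.length + (w.length + 1) = n := by omega
    rw [h2] at h1
    exact h1

theorem V1_mem_PZ (hx : 0 < x) (hx1 : x < 1) (n : ℕ) : ∀ u : List (Option (Fin 1)), adm u → u.length = n →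
    V u (1 - x) ∈ PZ x n := by
  have h2 : |1 - x| < 1 := by rw [abs_of_pos (by linarith)]; linarith
  induction n using Nat.strong_induction_on with
  | _ n ih =>
    intro u hu hn
    -- words which do not begin with `1`
    have key : ∀ w : List (Option (Fin 1)), adm w → (w = [] ∨ ∃ w', w = none :: w') → w.length ≤ n →
        V w (1 - x) ∈ PZ x w.length := by
      intro w hw hw' hwn
      rcases hw' with rfl | ⟨w', rfl⟩
      · rw [V_nil]
        exact z_mem_PZ Pool.Agent.H447R2.MZ.one_mem
      · obtain ⟨s, hs, hsw⟩ := exists_index' hw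
        obtain ⟨d, hd, hok⟩ := exists_dual hw
        have h3 := pc_eq hok hs (hd.trans hsw.symm) hx hx1
        have hl : ([] : List (Option (Fin 1))).length + d.length = (none :: w').length := by rw [← rv_len, hd]
        have h4 := pc_diff hx hx1 (none :: w').length (fun ρ hρ hlt => ih _ (lt_of_lt_of_le hlt hwn) ρ hρ rfl) d [] hok hl
        rw [h3, hd] at h4
        have h5 : val s ∈ PZ x (none :: w').length := by
          refine z_mem_PZ ?_
          have h6 := Pool.Agent.H447R2.MZ.val_mem s hs
          rw [← len_wd s hs.1, hsw] at h6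
          exact h6
        have h6 := Submodule.sub_mem _ h5 h4
        have h7 : val s - (val s - V (none :: w') (1 - x)) = V (none :: w') (1 - x) := by ring
        rw [h7] at h6
        exact h6
    obtain ⟨a, w₀, rfl, h3, h4⟩ := split_word u hu
    have h5 := reg h2 a w₀ h3 h4
    rw [List.length_append, List.length_replicate] at hn
    rw [hn] at h5
    refine (show AZ (1 - x) n ≤ PZ x n from ?_) h5
    unfold AZ
    rw [Submodule.span_le]
    rintro _ ⟨b, w, hw, hw', hb, rfl⟩
    have h6 := key w hw hw' (by omega)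
    have h7 : V [o1] (1 - x) ∈ PZ x 1 := by
      rw [V_one hx hx1]
      exact Submodule.neg_mem _ log_mem_PZ
    have h8 := PZ_mul hx hx1 (pow_mem_PZ hx hx1 h7 b) h6
    rw [mul_one, hb] at h8
    exact h8

theorem VN_eq (hx : 0 < x) (hx1 : x < 1) (N : ℕ) : VN x N = PZ x N := by
  refine le_antisymm ?_ (PZ_le_VN hx hx1 N)
  unfold VN
  rw [Submodule.span_le]
  rintro _ ⟨u, v, hu, hv, huv, rfl⟩
  have h1 := PZ_mul hx hx1 (V1_mem_PZ hx hx1 _ u hu rfl) (V_mem_PZ (x := x) hv)
  rw [huv] at h1
  exact h1

end Pool.Agent.Q189.MV
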