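import Pool.Agent.Q189.MV.Asy

/-!
# The expansion of words beginning with a power of `1`
-/

set_option autoImplicit false

open PowerSeries Filter Topology

namespace Pool.Agent.Q189.MV

open Pool.Agent.Y119.ML (LL UU In geo adm adm_tail adm_none const_LL theta_LL theta_In const_In WI JJ S S_zero)
open Pool.Agent.Q189.Z3 (L α1 α1_inj α1_ne UU0 UU1 coeff_geo_mul B1L B1w summ S_Xmul hd0 hd1 const_lim S0 Snil sint_nat sint_card)
open Pool.Agent.H447R2.MZ (H Adm val Zs st H_mul H_mono H_nonneg H_cons H_le_val tendsto_H st_pos)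
open Pool.Agent.Q189.HL (sh sh_nil sh_cons_nil sh_cons length_sh adm_sh LL_mul)

/-- the sum over the shuffles of a power of `1` with a word, the letter `0` in front -/
noncomputable def Sw (i : ℕ) (u : List (Option (Fin 1))) (y : ℝ) : ℝ :=
  ((sh (List.replicate i o1) u).map fun r => V (none :: r) y).sum

/-- the combination of products -/
noncomputable def Rw (n : ℕ) (u : List (Option (Fin 1))) (y : ℝ) : ℝ :=
  ∑ i ∈ Finset.range (n + 1), (-1) ^ i * Sw i u y * (V [o1] y ^ (n - i) / (n - i).factorial)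

lemma adm_ones (i : ℕ) : adm (List.replicate i o1) := by
  have h := adm_rep i adm_nil
  rw [List.append_nil] at h
  exact h

lemma hd_Sw {i : ℕ} {u : List (Option (Fin 1))} (hu : adm u) (hu0 : u ≠ []) {y : ℝ} (hy : 0 < y) (hy1 : y < 1) :
    HasDerivAt (Sw i u) (1 / y * (V [o1] y ^ i / i.factorial * V u y)) y := by
  have h1 : |y| < 1 := by rw [abs_of_pos hy]; exact hy1
  have hadm := adm_sh_none (adm_ones i) hu (Or.inr hu0)
  have h2 := hasDerivAt_list (sh (List.replicate i o1) u) (f := fun r y => V (none :: r) y) (f' := fun r y => 1 / y * V r y) (x := y)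
    (fun r hr => hdV (hadm r hr) hy hy1)
  refine h2.congr_deriv ?_
  rw [List.sum_map_mul_left, ← V_mul (adm_ones i) hu h1, V_ones h1]

lemma V_to_zero {w : List (Option (Fin 1))} (hw : w ≠ []) : Tendsto (V w) (𝓝[>] 0) (𝓝 0) := by
  have h := (Pool.Agent.Q189.Z3.hd (B1w w) (x := 0) (by simp)).continuousAt.tendsto
  rw [S0 hw] at h
  exact h.mono_left nhdsWithin_le_nhds

lemma alt_sum {n : ℕ} (hn : 1 ≤ n) : ∑ i ∈ Finset.range (n + 1), (-1 : ℝ) ^ i * ((1 / (i.factorial : ℝ)) * (1 / ((n - i).factorial : ℝ))) = 0 := by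
  have h1 := Int.alternating_sum_range_choose (n := n)
  rw [if_neg (by omega)] at h1
  have h2 : ∑ i ∈ Finset.range (n + 1), (-1 : ℝ) ^ i * (n.choose i : ℝ) = 0 := by exact_mod_cast h1
  have h3 : ∀ i ∈ Finset.range (n + 1), (-1 : ℝ) ^ i * ((1 / (i.factorial : ℝ)) * (1 / ((n - i).factorial : ℝ))) =
      (1 / (n.factorial : ℝ)) * ((-1 : ℝ) ^ i * (n.choose i : ℝ)) := by
    intro i hi
    have hi' := Finset.mem_range.1 hi
    rw [Nat.cast_choose ℝ (show i ≤ n by omega)]
    have e1 : ((n.factorial : ℕ) : ℝ) ≠ 0 := by exact_mod_cast Nat.factorial_ne_zero n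
    have e2 : ((i.factorial : ℕ) : ℝ) ≠ 0 := by exact_mod_cast Nat.factorial_ne_zero i
    have e3 : (((n - i).factorial : ℕ) : ℝ) ≠ 0 := by exact_mod_cast Nat.factorial_ne_zero _
    field_simp
  rw [Finset.sum_congr rfl h3, ← Finset.mul_sum, h2, mul_zero]

lemma hd_Rw {n : ℕ} {u : List (Option (Fin 1))} (hu : adm u) (hu0 : u ≠ []) {y : ℝ} (hy : 0 < y) (hy1 : y < 1) :
    HasDerivAt (Rw (n + 1) u) (1 / (1 - y) * Rw n u y) y := by
  have hL : HasDerivAt (V [o1]) (1 / (1 - y)) y := by
    refine (hdV (adm_one adm_nil) hy hy1).congr_deriv ?_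
    show 1 / (1 - y) * V [] y = _
    rw [V_nil, mul_one]
  have hterm : ∀ i, i ≤ n + 1 → HasDerivAt (fun y => (-1) ^ i * Sw i u y * (V [o1] y ^ (n + 1 - i) / (n + 1 - i).factorial))
      ((-1) ^ i * (1 / y * (V [o1] y ^ i / i.factorial * V u y)) * (V [o1] y ^ (n + 1 - i) / (n + 1 - i).factorial) +
        (-1) ^ i * Sw i u y * (if i ≤ n then V [o1] y ^ (n - i) / (n - i).factorial * (1 / (1 - y)) else 0)) y := by
    intro i hi
    have h1 := (hd_Sw (i := i) hu hu0 hy hy1).const_mul ((-1 : ℝ) ^ i)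
    have h2 := (hL.pow (n + 1 - i)).div_const ((n + 1 - i).factorial : ℝ)
    refine (h1.mul h2).congr_deriv ?_
    congr 1
    congr 1
    split_ifs with hin
    · have e1 : n + 1 - i = (n - i) + 1 := by omega
      rw [e1, Nat.factorial_succ]
      push_cast
      have e2 : (((n - i).factorial : ℕ) : ℝ) ≠ 0 := by exact_mod_cast Nat.factorial_ne_zero _
      have e3 : (((n - i : ℕ) : ℝ) + 1) ≠ 0 := by positivity
      field_simp
    · have e1 : n + 1 - i = 0 := by omega
      rw [e1]
      simp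
  have hsum := HasDerivAt.fun_sum (u := Finset.range (n + 1 + 1)) (fun i hi => hterm i (by have := Finset.mem_range.1 hi; omega))
  refine hsum.congr_deriv ?_
  rw [Finset.sum_add_distrib]
  have h1 : ∑ i ∈ Finset.range (n + 1 + 1), (-1) ^ i * (1 / y * (V [o1] y ^ i / i.factorial * V u y)) *
      (V [o1] y ^ (n + 1 - i) / (n + 1 - i).factorial) = 0 := by
    have h2 : ∀ i ∈ Finset.range (n + 1 + 1), (-1) ^ i * (1 / y * (V [o1] y ^ i / i.factorial * V u y)) *
        (V [o1] y ^ (n + 1 - i) / (n + 1 - i).factorial) =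
        (1 / y * V u y * V [o1] y ^ (n + 1)) * ((-1) ^ i * ((1 / (i.factorial : ℝ)) * (1 / ((n + 1 - i).factorial : ℝ)))) := by
      intro i hi
      have hi' := Finset.mem_range.1 hi
      have e1 : V [o1] y ^ (n + 1) = V [o1] y ^ i * V [o1] y ^ (n + 1 - i) := by
        rw [← pow_add]
        congr 1
        omega
      rw [e1]
      ring
    rw [Finset.sum_congr rfl h2, ← Finset.mul_sum, alt_sum (by omega), mul_zero]
  rw [h1, zero_add, Finset.sum_range_succ, if_neg (by omega), mul_zero, add_zero]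
  unfold Rw
  rw [Finset.mul_sum]
  refine Finset.sum_congr rfl fun i hi => ?_
  rw [if_pos (by have := Finset.mem_range.1 hi; omega)]
  ring

/-- **the expansion** -/
theorem V_rep (n : ℕ) {u : List (Option (Fin 1))} (hu : adm u) (hu0 : u ≠ []) : ∀ {y : ℝ}, 0 < y → y < 1 →
    V (List.replicate n o1 ++ none :: u) y = Rw n u y := by
  induction n with
  | zero =>
    intro y hy hy1
    show V (none :: u) y = Rw 0 u y
    unfold Rw Sw
    rw [Finset.sum_range_one, List.replicate_zero, sh_nil]
    simp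
  | succ n ih =>
    intro y hy hy1
    have hadm : adm (none :: u) := Pool.Agent.Q189.HL.adm_cons hu hu0
    have hadm2 : adm (o1 :: (List.replicate n o1 ++ none :: u)) := adm_one (adm_rep n hadm)
    have h1 := const_lim (f := fun y => V (o1 :: (List.replicate n o1 ++ none :: u)) y - Rw (n + 1) u y) (b := 1) (c := 0)
      (fun z hz hz1 => by
        refine ((hdV hadm2 hz hz1).sub (hd_Rw hu hu0 hz hz1)).congr_deriv ?_
        rw [ih hz hz1]
        show 1 / (1 - z) * Rw n u z - 1 / (1 - z) * Rw n u z = 0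
        ring) ?_ hy hy1
    · rw [List.replicate_succ, List.cons_append]
      linarith
    · have h2 := V_to_zero (w := o1 :: (List.replicate n o1 ++ none :: u)) (by simp)
      have h3 : Tendsto (Rw (n + 1) u) (𝓝[>] 0) (𝓝 0) := by
        unfold Rw
        refine (?_ : Tendsto _ _ (𝓝 (∑ i ∈ Finset.range (n + 1 + 1), (0 : ℝ)))).trans (by simp)
        refine tendsto_finset_sum _ fun i _ => ?_
        have h4 : Tendsto (Sw i u) (𝓝[>] 0) (𝓝 0) := by
          unfold Sw
          have h5 := tendsto_list_sum (sh (List.replicate i o1) u) (f := fun r y => V (none :: r) y) (a := fun _ => 0) (x := 𝓝[>] (0 : ℝ))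
            (fun r _ => V_to_zero (by simp))
          simpa using h5
        have h6 : Tendsto (fun y => V [o1] y ^ (n + 1 - i) / ((n + 1 - i).factorial : ℝ)) (𝓝[>] 0)
            (𝓝 (0 ^ (n + 1 - i) / ((n + 1 - i).factorial : ℝ))) :=
          ((V_to_zero (w := [o1]) (by simp)).pow _).div_const _
        have h7 := ((h4.const_mul ((-1 : ℝ) ^ i)).mul h6)
        rw [mul_zero, zero_mul] at h7
        exact h7
      have h4 := h2.sub h3
      rw [sub_zero] at h4
      exact h4

/-- the limits of the sums -/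
noncomputable def Lw (i : ℕ) (u : List (Option (Fin 1))) : ℝ := ((sh (List.replicate i o1) u).map fun r => LV (none :: r)).sum

/-- the polynomial of a word -/
noncomputable def Pw (n : ℕ) (u : List (Option (Fin 1))) : Polynomial ℝ :=
  ∑ i ∈ Finset.range (n + 1), Polynomial.C ((-1) ^ i * Lw i u / ((n - i).factorial : ℝ)) * Polynomial.X ^ (n - i)

lemma Pw_eval (n : ℕ) (u : List (Option (Fin 1))) (l : ℝ) : (Pw n u).eval l =
    ∑ i ∈ Finset.range (n + 1), (-1) ^ i * Lw i u * (l ^ (n - i) / ((n - i).factorial : ℝ)) := by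
  unfold Pw
  rw [Polynomial.eval_finset_sum]
  refine Finset.sum_congr rfl fun i _ => ?_
  rw [Polynomial.eval_mul, Polynomial.eval_C, Polynomial.eval_pow, Polynomial.eval_X]
  ring

lemma Pw_coeff_zero (n : ℕ) (u : List (Option (Fin 1))) : (Pw n u).coeff 0 = (-1) ^ n * Lw n u := by
  rw [Polynomial.coeff_zero_eq_eval_zero, Pw_eval, Finset.sum_range_succ, Finset.sum_eq_zero, zero_add, Nat.sub_self]
  · simp
  · intro i hi
    have hi' := Finset.mem_range.1 hi
    rw [zero_pow (by omega)]
    simp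

/-- the asymptotic expansion of a word -/
theorem V_asym (n : ℕ) {u : List (Option (Fin 1))} (hu : adm u) (hu0 : u ≠ []) :
    Tendsto (fun t => V (List.replicate n o1 ++ none :: u) (1 - t) - (Pw n u).eval (V [o1] (1 - t))) (𝓝[>] 0) (𝓝 0) := by
  have h1 : Tendsto (fun t => ∑ i ∈ Finset.range (n + 1), -((-1) ^ i * (((sh (List.replicate i o1) u).map fun r =>
      V (List.replicate (n - i) o1) (1 - t) * (LV (none :: r) - V (none :: r) (1 - t))).sum))) (𝓝[>] 0) (𝓝 0) := by
    refine (?_ : Tendsto _ _ (𝓝 (∑ i ∈ Finset.range (n + 1), (0 : ℝ)))).trans (by simp)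
    refine tendsto_finset_sum _ fun i _ => ?_
    have h2 := tendsto_list_sum (sh (List.replicate i o1) u) (f := fun r t =>
      V (List.replicate (n - i) o1) (1 - t) * (LV (none :: r) - V (none :: r) (1 - t))) (a := fun _ => 0) (x := 𝓝[>] (0 : ℝ))
      (fun r hr => V_rem (adm_ones _) (adm_sh_none (adm_ones i) hu (Or.inr hu0) r hr))
    have h3 := (h2.const_mul ((-1 : ℝ) ^ i)).neg
    simpa using h3
  refine h1.congr' ?_
  have h4 : ∀ᶠ y in 𝓝[>] (0 : ℝ), y < 1 := (eventually_lt_nhds one_pos).filter_mono nhdsWithin_le_nhds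
  filter_upwards [h4, self_mem_nhdsWithin] with t ht1 ht
  have ht0 : (0 : ℝ) < t := ht
  have hy : |1 - t| < 1 := by
    rw [abs_lt]
    constructor <;> linarith
  rw [V_rep n hu hu0 (show (0 : ℝ) < 1 - t by linarith) (by linarith), Pw_eval]
  unfold Rw
  rw [← Finset.sum_sub_distrib]
  refine Finset.sum_congr rfl fun i _ => ?_
  rw [List.sum_map_mul_left, V_ones hy]
  have h5 : ∀ l : List (List (Option (Fin 1))), (l.map fun r => LV (none :: r) - V (none :: r) (1 - t)).sum =
      (l.map fun r => LV (none :: r)).sum - (l.map fun r => V (none :: r) (1 - t)).sum := by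
    intro l
    induction l with
    | nil => simp
    | cons r l ih =>
      simp only [List.map_cons, List.sum_cons, ih]
      ring
  rw [h5]
  unfold Sw Lw
  ring

lemma V_one_atTop : Tendsto (fun t : ℝ => V [o1] (1 - t)) (𝓝[>] 0) atTop := by
  have h1 : Tendsto (fun t : ℝ => -Real.log t) (𝓝[>] 0) atTop := tendsto_neg_atBot_atTop.comp Real.tendsto_log_nhdsGT_zero
  refine h1.congr' ?_
  have h4 : ∀ᶠ y in 𝓝[>] (0 : ℝ), y < 1 := (eventually_lt_nhds one_pos).filter_mono nhdsWithin_le_nhds
  filter_upwards [h4, self_mem_nhdsWithin] with t ht1 ht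
  exact (V_one ht ht1).symm

/-- a polynomial in the logarithm which tends to zero is zero -/
theorem poly_zero {P : Polynomial ℝ} (h : Tendsto (fun t => P.eval (V [o1] (1 - t))) (𝓝[>] 0) (𝓝 0)) : P = 0 := by
  by_contra hP
  have hcont : Tendsto (fun t => V [o1] (1 - t)) (𝓝[>] 0) atTop := V_one_atTop
  -- the degree is zero
  rcases lt_or_ge 0 P.natDegree with hd | hd
  · have h1 : Tendsto (fun x => |P.eval x|) atTop atTop := P.abs_tendsto_atTop (Polynomial.natDegree_pos_iff_degree_pos.1 hd)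
    have h2 := h1.comp hcont
    have h3 := h.abs
    exact not_tendsto_nhds_of_tendsto_atTop h2 _ h3
  · have h1 : P = Polynomial.C (P.coeff 0) := Polynomial.eq_C_of_natDegree_le_zero hd
    have h2 : Tendsto (fun t => P.eval (V [o1] (1 - t))) (𝓝[>] 0) (𝓝 (P.coeff 0)) := by
      rw [h1]
      simp only [Polynomial.eval_C, Polynomial.coeff_C_zero]
      exact tendsto_const_nhds
    have h3 := tendsto_nhds_unique h2 h
    rw [h3, Polynomial.C_0] at h1
    exact hP h1

end Pool.Agent.Q189.MV
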