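import Pool.Agent.Q189.MV.GrC
import Pool.Agent.Q189.MV.Niel6

/-!
# Specialisation of polynomial relations between truncated integrals and products of polylogarithms
-/

set_option autoImplicit false

open PowerSeries Filter Topology Module

namespace Pool.Agent.Q189.MV

open Pool.Agent.Y119.ML (adm adm_tail adm_none WI JJ)
open Pool.Agent.H447R2.MZ (H Adm val Zs)
open Pool.Agent.Q189.HL (sh length_sh adm_sh)

section
variable (ζ : ℝ) (x : ℝ)

/-- the span of the powers of `ζ` -/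
noncomputable def Kd (d : ℕ) : Submodule ℚ ℝ := Submodule.span ℚ {r | ∃ j ≤ d, r = ζ ^ j}

/-- the span of the products of powers of `ζ` and products of positive weight -/
noncomputable def Yd (W d : ℕ) : Submodule ℚ ℝ :=
  Submodule.span ℚ {r | ∃ (j a : ℕ) (w : List (Option (Fin 1))), j ≤ d ∧ adm w ∧ 1 ≤ a + w.length ∧ a + w.length ≤ d * W ∧
    r = ζ ^ j * (Real.log x ^ a * V w x)}

/-- `r` specialises to `s` -/
def Sp (W d : ℕ) (r s : ℝ) : Prop := s ∈ Kd ζ d ∧ r - s ∈ Yd ζ x W d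

variable {ζ x}

lemma Kd_mul {d d' : ℕ} {a b : ℝ} (ha : a ∈ Kd ζ d) (hb : b ∈ Kd ζ d') : a * b ∈ Kd ζ (d + d') := by
  refine span_mul ?_ ha hb
  rintro _ ⟨j, hj, rfl⟩ _ ⟨j', hj', rfl⟩
  exact Submodule.subset_span ⟨j + j', by omega, by rw [pow_add]⟩

lemma KY_mul {W d d' : ℕ} {a b : ℝ} (ha : a ∈ Kd ζ d) (hb : b ∈ Yd ζ x W d') : a * b ∈ Yd ζ x W (d + d') := by
  refine span_mul ?_ ha hb
  rintro _ ⟨j, hj, rfl⟩ _ ⟨j', a, w, h1, h2, h3, h4, rfl⟩
  refine Submodule.subset_span ⟨j + j', a, w, by omega, h2, h3, ?_, by rw [pow_add]; ring⟩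
  have h5 : d' * W ≤ (d + d') * W := Nat.mul_le_mul_right _ (by omega)
  omega

lemma YY_mul (hx : 0 < x) (hx1 : x < 1) {W d d' : ℕ} {a b : ℝ} (ha : a ∈ Yd ζ x W d) (hb : b ∈ Yd ζ x W d') :
    a * b ∈ Yd ζ x W (d + d') := by
  have h1 : |x| < 1 := by rw [abs_of_pos hx]; exact hx1
  refine span_mul ?_ ha hb
  rintro _ ⟨j, a, w, g1, g2, g3, g4, rfl⟩ _ ⟨j', a', w', k1, k2, k3, k4, rfl⟩
  have h3 : ζ ^ j * (Real.log x ^ a * V w x) * (ζ ^ j' * (Real.log x ^ a' * V w' x)) =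
      ζ ^ (j + j') * Real.log x ^ (a + a') * (V w x * V w' x) := by
    rw [pow_add, pow_add]
    ring
  rw [h3, V_mul g2 k2 h1, ← List.sum_map_mul_left]
  refine list_mem _ _ fun u hu => ?_
  have hl := length_sh _ w w' rfl u hu
  refine Submodule.subset_span ⟨j + j', a + a', u, by omega, adm_sh _ w w' rfl g2 k2 u hu, by omega, ?_, by ring⟩
  rw [add_mul]
  omega

lemma Sp.mul (hx : 0 < x) (hx1 : x < 1) {W d d' : ℕ} {r s r' s' : ℝ} (h : Sp ζ x W d r s) (h' : Sp ζ x W d' r' s') :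
    Sp ζ x W (d + d') (r * r') (s * s') := by
  refine ⟨Kd_mul h.1 h'.1, ?_⟩
  have e : r * r' - s * s' = (r - s) * (r' - s') + (s * (r' - s') + s' * (r - s)) := by ring
  rw [e]
  refine Submodule.add_mem _ (YY_mul hx hx1 h.2 h'.2) (Submodule.add_mem _ (KY_mul h.1 h'.2) ?_)
  have h3 := KY_mul h'.1 h.2
  rwa [add_comm d' d] at h3

lemma Sp.one (W : ℕ) : Sp ζ x W 0 1 1 :=
  ⟨Submodule.subset_span ⟨0, le_rfl, by rw [pow_zero]⟩, by rw [sub_self]; exact Submodule.zero_mem _⟩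

lemma Sp.pow (hx : 0 < x) (hx1 : x < 1) {W d : ℕ} {r s : ℝ} (h : Sp ζ x W d r s) (n : ℕ) : Sp ζ x W (n * d) (r ^ n) (s ^ n) := by
  induction n with
  | zero =>
    rw [pow_zero, pow_zero, zero_mul]
    exact Sp.one W
  | succ n ih =>
    rw [pow_succ, pow_succ, Nat.succ_mul]
    exact ih.mul hx hx1 h

lemma Sp.prod (hx : 0 < x) (hx1 : x < 1) {W : ℕ} {ι : Type} (S : Finset ι) (d : ι → ℕ) (r s : ι → ℝ)
    (h : ∀ i ∈ S, Sp ζ x W (d i) (r i) (s i)) : Sp ζ x W (∑ i ∈ S, d i) (∏ i ∈ S, r i) (∏ i ∈ S, s i) := by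
  classical
  induction S using Finset.induction_on with
  | empty =>
    rw [Finset.sum_empty, Finset.prod_empty, Finset.prod_empty]
    exact Sp.one W
  | insert a S ha ih =>
    rw [Finset.sum_insert ha, Finset.prod_insert ha, Finset.prod_insert ha]
    exact (h a (by simp)).mul hx hx1 (ih fun i hi => h i (by simp [hi]))

end

/-- the constants -/
noncomputable def KK (K : Submodule ℚ ℂ) (ζ : ℝ) (D : ℕ) : Submodule ℚ ℂ :=
  Submodule.span ℚ {r | ∃ κ ∈ K, ∃ j ≤ D, r = κ * ((ζ : ℝ) : ℂ) ^ j}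

lemma KK_fg {K : Submodule ℚ ℂ} (hK : K.FG) (ζ : ℝ) (D : ℕ) : (KK K ζ D).FG := by
  obtain ⟨g, θ, hθ⟩ := Submodule.fg_iff_exists_fin_generating_family.1 hK
  have h1 : KK K ζ D ≤ Submodule.span ℚ (Set.range fun p : Fin g × Fin (D + 1) => θ p.1 * ((ζ : ℝ) : ℂ) ^ (p.2 : ℕ)) := by
    unfold KK
    rw [Submodule.span_le]
    rintro _ ⟨κ, hκ, j, hj, rfl⟩
    rw [← hθ, Submodule.mem_span_range_iff_exists_fun] at hκ
    obtain ⟨c, rfl⟩ := hκ
    rw [Finset.sum_mul]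
    refine Submodule.sum_mem _ fun i _ => ?_
    rw [smul_mul_assoc]
    exact Submodule.smul_mem _ _ (Submodule.subset_span ⟨(i, ⟨j, by omega⟩), rfl⟩)
  have h2 : FiniteDimensional ℚ (Submodule.span ℚ (Set.range fun p : Fin g × Fin (D + 1) => θ p.1 * ((ζ : ℝ) : ℂ) ^ (p.2 : ℕ))) :=
    FiniteDimensional.span_of_finite ℚ (Set.finite_range _)
  have h3 : FiniteDimensional ℚ (KK K ζ D) := Submodule.finiteDimensional_of_le h1
  exact Module.Finite.iff_fg.1 h3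

/-- the specialisation of an element of the span -/
lemma spec_dec {K : Submodule ℚ ℂ} {ζ x : ℝ} {W D d : ℕ} (hd : d ≤ D) {κ : ℂ} (hκ : κ ∈ K) {r s : ℝ} (h : Sp ζ x W d r s) :
    κ * ((s : ℝ) : ℂ) ∈ KK K ζ D ∧ ∃ z : JJ 1 (D * W) → ℂ, (∀ b, z b ∈ KK K ζ D) ∧ (∀ b, wtx b = 0 → z b = 0) ∧
      κ * ((r : ℝ) : ℂ) - κ * ((s : ℝ) : ℂ) = ∑ b, z b * ((pp x b : ℝ) : ℂ) := by
  classical
  refine ⟨?_, ?_⟩
  · refine span_ofReal ?_ h.1
    rintro _ ⟨j, hj, rfl⟩
    exact Submodule.subset_span ⟨κ, hκ, j, by omega, by push_cast; rfl⟩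
  · have e : κ * ((r : ℝ) : ℂ) - κ * ((s : ℝ) : ℂ) = κ * (((r - s : ℝ)) : ℂ) := by
      push_cast
      ring
    rw [e]
    set M : Submodule ℚ ℂ :=
      { carrier := {y | ∃ z : JJ 1 (D * W) → ℂ, (∀ b, z b ∈ KK K ζ D) ∧ (∀ b, wtx b = 0 → z b = 0) ∧
          y = ∑ b, z b * ((pp x b : ℝ) : ℂ)}
        add_mem' := by
          rintro _ _ ⟨z, h1, h2, rfl⟩ ⟨z', h1', h2', rfl⟩
          refine ⟨z + z', fun b' => Submodule.add_mem _ (h1 b') (h1' b'), fun b' hb => ?_, ?_⟩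
          · rw [Pi.add_apply, h2 b' hb, h2' b' hb, add_zero]
          · rw [← Finset.sum_add_distrib]
            refine Finset.sum_congr rfl fun b' _ => ?_
            rw [Pi.add_apply]
            ring
        zero_mem' := ⟨0, fun _ => Submodule.zero_mem _, fun _ _ => rfl, by simp⟩
        smul_mem' := by
          rintro c _ ⟨z, h1, h2, rfl⟩
          refine ⟨c • z, fun b' => Submodule.smul_mem _ _ (h1 b'), fun b' hb => ?_, ?_⟩
          · rw [Pi.smul_apply, h2 b' hb, smul_zero]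
          · rw [Finset.smul_sum]
            refine Finset.sum_congr rfl fun b' _ => ?_
            rw [Pi.smul_apply, smul_mul_assoc] } with hM
    have h2 : κ * (((r - s : ℝ)) : ℂ) ∈ M := by
      refine span_ofReal ?_ h.2
      rintro _ ⟨j, a, w, g1, g2, g3, g4, rfl⟩
      have g5 : d * W ≤ D * W := Nat.mul_le_mul_right _ hd
      set b₀ : JJ 1 (D * W) := (⟨a, by omega⟩, ⟨w, by omega, g2⟩) with hb₀
      have hwt : wtx b₀ = a + w.length := rfl
      refine ⟨Pi.single b₀ (κ * ((ζ : ℝ) : ℂ) ^ j), fun b => ?_, fun b hb => ?_, ?_⟩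
      · by_cases hb : b = b₀
        · subst hb
          rw [Pi.single_eq_same]
          exact Submodule.subset_span ⟨κ, hκ, j, by omega, rfl⟩
        · rw [Pi.single_eq_of_ne hb]
          exact Submodule.zero_mem _
      · rw [Pi.single_eq_of_ne]
        rintro rfl
        omega
      · rw [Finset.sum_eq_single_of_mem b₀ (Finset.mem_univ _), Pi.single_eq_same]
        · have e2 : pp x b₀ = Real.log x ^ a * V w x := rfl
          rw [e2]
          push_cast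
          ring
        · intro b _ hb
          rw [Pi.single_eq_of_ne hb, zero_mul]
    exact h2

/-- **specialisation**: relations over `K` specialise -/
theorem spec {K : Submodule ℚ ℂ} {ζ x : ℝ} {W D : ℕ} (hind : IndC x (D * W) (KK K ζ D)) {ι : Type} (S : Finset ι)
    (d : ι → ℕ) (κ : ι → ℂ) (r s : ι → ℝ) (hd : ∀ i ∈ S, d i ≤ D) (hκ : ∀ i ∈ S, κ i ∈ K)
    (h : ∀ i ∈ S, Sp ζ x W (d i) (r i) (s i)) (h0 : ∑ i ∈ S, κ i * ((r i : ℝ) : ℂ) = 0) : ∑ i ∈ S, κ i * ((s i : ℝ) : ℂ) = 0 := by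
  classical
  have h1 : ∀ i, ∃ z : JJ 1 (D * W) → ℂ, i ∈ S → (∀ b, z b ∈ KK K ζ D) ∧ (∀ b, wtx b = 0 → z b = 0) ∧
      κ i * ((r i : ℝ) : ℂ) - κ i * ((s i : ℝ) : ℂ) = ∑ b, z b * ((pp x b : ℝ) : ℂ) := by
    intro i
    by_cases hi : i ∈ S
    · obtain ⟨z, hz⟩ := (spec_dec (hd i hi) (hκ i hi) (h i hi)).2
      exact ⟨z, fun _ => hz⟩
    · exact ⟨0, fun hc => absurd hc hi⟩
  choose z hz using h1
  set b₀ : JJ 1 (D * W) := (⟨0, by omega⟩, ⟨[], by simp, adm_nil⟩) with hb₀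
  have hpp : pp x b₀ = 1 := by
    show Real.log x ^ 0 * V [] x = 1
    rw [pow_zero, V_nil, one_mul]
  have hw0 : wtx b₀ = 0 := rfl
  have h2 : (fun b => (∑ i ∈ S, z i b) + if b = b₀ then ∑ i ∈ S, κ i * ((s i : ℝ) : ℂ) else 0) = 0 := by
    refine hind _ (fun b => ?_) ?_
    · refine Submodule.add_mem _ (Submodule.sum_mem _ fun i hi => (hz i hi).1 b) ?_
      split_ifs
      · exact Submodule.sum_mem _ fun i hi => (spec_dec (hd i hi) (hκ i hi) (h i hi)).1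
      · exact Submodule.zero_mem _
    · have e1 : ∀ b, ((∑ i ∈ S, z i b) + if b = b₀ then ∑ i ∈ S, κ i * ((s i : ℝ) : ℂ) else 0) * ((pp x b : ℝ) : ℂ) =
          (∑ i ∈ S, z i b * ((pp x b : ℝ) : ℂ)) + if b = b₀ then (∑ i ∈ S, κ i * ((s i : ℝ) : ℂ)) * ((pp x b : ℝ) : ℂ) else 0 := by
        intro b
        rw [add_mul, Finset.sum_mul]
        congr 1
        split_ifs
        · rfl
        · rw [zero_mul]
      simp only [e1]
      rw [Finset.sum_add_distrib, Finset.sum_comm, Finset.sum_ite_eq', if_pos (Finset.mem_univ _), hpp, Complex.ofReal_one, mul_one]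
      rw [← Finset.sum_add_distrib, ← h0]
      refine Finset.sum_congr rfl fun i hi => ?_
      rw [← (hz i hi).2.2]
      ring
  have h3 := congrFun h2 b₀
  simp only [Pi.zero_apply, if_true] at h3
  rw [Finset.sum_eq_zero fun i hi => (hz i hi).2.1 b₀ hw0, zero_add] at h3
  exact h3

/-- the truncated integral and the products -/
noncomputable def vv (N n : ℕ) : Option (Fin N) → ℝ
  | none => Inn N (1 / n)
  | some i => qq n N i

/-- the specialised values -/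
noncomputable def v0 (N : ℕ) : Option (Fin N) → ℝ
  | none => ze N
  | some _ => 0

lemma Sp_vv {N n : ℕ} (hN : 2 ≤ N) (hn : 2 ≤ n) (o : Option (Fin N)) : Sp (ze N) (1 / n) N 1 (vv N n o) (v0 N o) := by
  obtain ⟨e1, e2⟩ := inv_pos_lt hn
  have hlog : Real.log n = -Real.log (1 / n) := by rw [one_div, Real.log_inv, neg_neg]
  have hq : ∀ i : ℕ, i < N → qq n N i ∈ Yd (ze N) (1 / n) N 1 := by
    intro i hi
    have h1 : qq n N i = ((-1 : ℚ) ^ i) • (ze N ^ 0 * (Real.log (1 / n) ^ i * V (pv (N - i)) (1 / n))) := by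
      unfold qq
      rw [pv_eq e1 e2, hlog, neg_pow, Rat.smul_def]
      push_cast
      ring
    rw [h1]
    refine Submodule.smul_mem _ _ (Submodule.subset_span ⟨0, i, pv (N - i), by omega, pv_adm _, ?_, ?_, rfl⟩)
    · rw [pv_len]; omega
    · rw [pv_len]; omega
  rcases o with _ | i
  · refine ⟨Submodule.subset_span ⟨1, le_rfl, by rw [pow_one]; rfl⟩, ?_⟩
    show Inn N (1 / n) - ze N ∈ _
    rw [Inn_qq hn hN]
    have h2 : ze N - ∑ i ∈ Finset.range N, 1 / (i.factorial : ℝ) * qq n N i - ze N =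
        -∑ i ∈ Finset.range N, ((1 / (i.factorial : ℚ) : ℚ)) • qq n N i := by
      have h3 : ∀ i ∈ Finset.range N, ((1 / (i.factorial : ℚ) : ℚ)) • qq n N i = 1 / (i.factorial : ℝ) * qq n N i := by
        intro i _
        rw [Rat.smul_def]
        push_cast
        rfl
      rw [Finset.sum_congr rfl h3]
      ring
    rw [h2]
    exact Submodule.neg_mem _ (Submodule.sum_mem _ fun i hi => Submodule.smul_mem _ _ (hq i (Finset.mem_range.1 hi)))
  · refine ⟨Submodule.zero_mem _, ?_⟩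
    show qq n N i - 0 ∈ _
    rw [sub_zero]
    exact hq i i.2

lemma Sp_mono {ζ x : ℝ} {W d d' : ℕ} (h : d ≤ d') {r s : ℝ} (hs : Sp ζ x W d r s) : Sp ζ x W d' r s := by
  refine ⟨?_, ?_⟩
  · refine (show Kd ζ d ≤ Kd ζ d' from Submodule.span_mono ?_) hs.1
    rintro _ ⟨j, hj, rfl⟩
    exact ⟨j, by omega, rfl⟩
  · refine (show Yd ζ x W d ≤ Yd ζ x W d' from Submodule.span_mono ?_) hs.2
    rintro _ ⟨j, a, w, h1, h2, h3, h4, rfl⟩
    have h5 : d * W ≤ d' * W := Nat.mul_le_mul_right _ h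
    exact ⟨j, a, w, by omega, h2, h3, by omega, rfl⟩

/-- polynomial relations specialise -/
theorem spec_poly {K : Submodule ℚ ℂ} {N n D : ℕ} (hN : 2 ≤ N) (hn : 2 ≤ n) (hind : IndC (1 / n) (D * N) (KK K (ze N) D))
    (P : MvPolynomial (Option (Fin N)) ℂ) (hP : P.totalDegree ≤ D) (hK : ∀ e, P.coeff e ∈ K)
    (h0 : MvPolynomial.eval (fun o => ((vv N n o : ℝ) : ℂ)) P = 0) : MvPolynomial.eval (fun o => ((v0 N o : ℝ) : ℂ)) P = 0 := by
  obtain ⟨e1, e2⟩ := inv_pos_lt hn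
  have key : ∀ v : Option (Fin N) → ℝ, MvPolynomial.eval (fun o => ((v o : ℝ) : ℂ)) P =
      ∑ e ∈ P.support, P.coeff e * ((∏ o ∈ e.support, v o ^ e o : ℝ) : ℂ) := by
    intro v
    rw [MvPolynomial.eval_eq]
    refine Finset.sum_congr rfl fun e _ => ?_
    push_cast
    rfl
  rw [key] at h0 ⊢
  refine spec (W := N) hind P.support (fun e => ∑ o ∈ e.support, e o) (fun e => P.coeff e)
    (fun e => ∏ o ∈ e.support, vv N n o ^ e o) (fun e => ∏ o ∈ e.support, v0 N o ^ e o) (fun e he => ?_) (fun e _ => hK e)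
    (fun e _ => ?_) h0
  · exact (MvPolynomial.le_totalDegree he).trans hP
  · refine Sp.prod e1 e2 e.support (fun o => e o) _ _ fun o _ => ?_
    have h1 := (Sp_vv hN hn o).pow e1 e2 (e o)
    rwa [mul_one] at h1

/-- the values at almost all integers -/
theorem few_spec {N : ℕ} (hN : 2 ≤ N) (D : ℕ) {K : Submodule ℚ ℂ} (hK : K.FG) : ∃ C c : ℝ, 0 < c ∧ ∀ T : ℕ, 1 ≤ T →
    (({n : ℕ | 3 ≤ n ∧ n ≤ T ∧ ¬ ∀ P : MvPolynomial (Option (Fin N)) ℂ, P.totalDegree ≤ D → (∀ e, P.coeff e ∈ K) →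
      MvPolynomial.eval (fun o => ((vv N n o : ℝ) : ℂ)) P = 0 →
        MvPolynomial.eval (fun o => ((v0 N o : ℝ) : ℂ)) P = 0}.ncard : ℕ) : ℝ) ≤ C * (T : ℝ) ^ (1 - c) := by
  obtain ⟨C, c, hc, hf⟩ := few_indK (D * N) (KK_fg hK (ze N) D)
  refine ⟨C, c, hc, fun T hT => ?_⟩
  refine le_trans (Nat.cast_le.2 (Set.ncard_le_ncard ?_ ((Set.finite_le_nat T).subset fun n hn => hn.2.1))) (hf T hT)
  rintro n ⟨h1, h2, h3⟩
  exact ⟨h1, h2, fun h4 => h3 fun P hP hPK h0 => spec_poly hN (by omega) h4 P hP hPK h0⟩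

end Pool.Agent.Q189.MV
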