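import Pool.Agent.Q189.Z3.Tri
import Pool.Agent.H447R2.MZ.Tup

/-!
# Multiple zeta values as limits of the values of words
-/

set_option autoImplicit false

open PowerSeries Filter Topology

namespace Pool.Agent.Q189.MV

open Pool.Agent.Y119.ML (LL UU In geo adm adm_tail adm_none const_LL theta_LL theta_In const_In WI S S_zero)
open Pool.Agent.Q189.Z3 (L α1 UU0 UU1 coeff_geo_mul B1L B1w summ S_Xmul hd0 hd1 const_lim S0 Snil)
open Pool.Agent.H447R2.MZ (H Adm val Zs)

/-- the word of an index -/
def wd : List ℕ → List (Option (Fin 1))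
  | [] => []
  | a :: s => List.replicate (a - 1) none ++ some 0 :: wd s

lemma wd_cons (a : ℕ) (s : List ℕ) : wd (a :: s) = List.replicate (a - 1) none ++ some 0 :: wd s := rfl

lemma adm_app (u : List (Option (Fin 1))) {w : List (Option (Fin 1))} (hw : adm w) (h : w ≠ []) : adm (u ++ w) := by
  induction u with
  | nil => exact hw
  | cons o u ih => exact Pool.Agent.Q189.HL.adm_cons ih (by simp [h])

lemma adm_one {w : List (Option (Fin 1))} (hw : adm w) : adm (some 0 :: w) := by
  rcases w with _ | ⟨o, w⟩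
  · unfold adm; simp
  · exact Pool.Agent.Q189.HL.adm_cons hw (by simp)

lemma adm_nil : adm ([] : List (Option (Fin 1))) := by unfold adm; simp

lemma adm_wd (s : List ℕ) : adm (wd s) := by
  induction s with
  | nil => exact adm_nil
  | cons a s ih => exact adm_app _ (adm_one ih) (by simp)

lemma len_wd (s : List ℕ) (hs : ∀ a ∈ s, 1 ≤ a) : (wd s).length = s.sum := by
  induction s with
  | nil => rfl
  | cons a s ih =>
    have h1 := hs a (by simp)
    rw [wd_cons, List.length_append, List.length_replicate, List.length_cons, ih fun b hb => hs b (by simp [hb]), List.sum_cons]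
    omega

lemma exists_index (w : List (Option (Fin 1))) (hw : adm w) : ∃ s : List ℕ, (∀ a ∈ s, 1 ≤ a) ∧ wd s = w := by
  induction w with
  | nil => exact ⟨[], by simp, rfl⟩
  | cons o w ih =>
    obtain ⟨s, hs, hsw⟩ := ih (adm_tail hw)
    rcases o with _ | i
    · have hw0 := adm_none hw
      rcases s with _ | ⟨a, s⟩
      · exact absurd hsw.symm hw0
      · have ha := hs a (by simp)
        refine ⟨(a + 1) :: s, fun b hb => ?_, ?_⟩
        · rcases List.mem_cons.1 hb with rfl | hb
          · omega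
          · exact hs b (by simp [hb])
        · rw [← hsw, wd_cons, wd_cons]
          obtain ⟨c, rfl⟩ : ∃ c, a = c + 1 := ⟨a - 1, by omega⟩
          rfl
    · have hi : i = 0 := Subsingleton.elim _ _
      subst hi
      refine ⟨1 :: s, fun b hb => ?_, ?_⟩
      · rcases List.mem_cons.1 hb with rfl | hb
        · exact le_rfl
        · exact hs b hb
      · rw [← hsw, wd_cons]
        rfl

lemma exists_index' {w : List (Option (Fin 1))} (hw : adm (none :: w)) : ∃ s : List ℕ, Adm s ∧ wd s = none :: w := by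
  obtain ⟨s, hs, hsw⟩ := exists_index _ hw
  refine ⟨s, ⟨hs, fun a t hst => ?_⟩, hsw⟩
  by_contra h
  have h1 := hs a (by rw [hst]; simp)
  have h2 : a = 1 := by omega
  rw [hst, h2, wd_cons] at hsw
  simp at hsw

lemma coeff_none (w : List (Option (Fin 1))) (m : ℕ) :
    coeff (m + 1) (L (none :: w)) = coeff (m + 1) (L w) / ((m : ℚ) + 1) := by
  show coeff (m + 1) (In (UU α1 0 none * L w)) = _
  rw [UU0, one_mul, In, coeff_mk]
  push_cast
  rfl

lemma coeff_some (w : List (Option (Fin 1))) (m : ℕ) :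
    coeff (m + 1) (L (some 0 :: w)) = (∑ l ∈ Finset.range (m + 1), coeff l (L w)) / ((m : ℚ) + 1) := by
  show coeff (m + 1) (In (UU α1 0 (some 0) * L w)) = _
  rw [UU1, In, coeff_mk, mul_assoc, coeff_succ_X_mul, coeff_geo_mul]
  push_cast
  rfl

lemma coeff_rep (j : ℕ) (w : List (Option (Fin 1))) (m : ℕ) :
    coeff (m + 1) (L (List.replicate j none ++ w)) = coeff (m + 1) (L w) / ((m : ℚ) + 1) ^ j := by
  induction j with
  | zero => simp
  | succ j ih =>
    have h1 : List.replicate (j + 1) none ++ w = none :: (List.replicate j none ++ w) := by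
      rw [List.replicate_succ, List.cons_append]
    rw [h1, coeff_none, ih, div_div, pow_succ]

lemma coeff_zero {w : List (Option (Fin 1))} (hw : w ≠ []) : coeff 0 (L w) = 0 := by
  rw [coeff_zero_eq_constantCoeff_apply]
  exact const_LL α1 0 hw

theorem partial_sum (s : List ℕ) (hs : ∀ a ∈ s, 1 ≤ a) : ∀ N : ℕ,
    ∑ l ∈ Finset.range (N + 1), ((coeff l (L (wd s)) : ℚ) : ℝ) = H s N := by
  induction s with
  | nil =>
    intro N
    show ∑ l ∈ Finset.range (N + 1), ((coeff l (1 : ℚ⟦X⟧) : ℚ) : ℝ) = _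
    rw [Pool.Agent.H447R2.MZ.H_nil, Finset.sum_eq_single_of_mem 0 (by simp)]
    · simp
    · intro l _ hl
      rw [coeff_one, if_neg hl, Rat.cast_zero]
  | cons a s ih =>
    intro N
    have ha := hs a (by simp)
    have ih' := ih fun b hb => hs b (by simp [hb])
    rw [Finset.sum_range_succ', coeff_zero (by rw [wd_cons]; simp), Rat.cast_zero, add_zero, Pool.Agent.H447R2.MZ.H_cons]
    refine Finset.sum_congr rfl fun n _ => ?_
    rw [wd_cons, coeff_rep, coeff_some, ← ih' n]
    obtain ⟨c, rfl⟩ : ∃ c, a = c + 1 := ⟨a - 1, by omega⟩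
    push_cast
    have h0 : ((n : ℝ) + 1) ≠ 0 := by positivity
    field_simp
    ring

/-- the limits at `1` -/
lemma lim_sub : Tendsto (fun x : ℝ => 1 - x) (𝓝[>] 0) (𝓝[<] 1) := by
  refine tendsto_nhdsWithin_iff.2 ⟨?_, ?_⟩
  · have h4 : ContinuousAt (fun x : ℝ => 1 - x) 0 := by fun_prop
    have h5 := h4.tendsto
    simp only [sub_zero] at h5
    exact h5.mono_left nhdsWithin_le_nhds
  · filter_upwards [self_mem_nhdsWithin] with y hy
    have hy0 : (0 : ℝ) < y := hy
    show 1 - y < 1
    linarith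

theorem val_lim (s : List ℕ) (hs : Adm s) : Tendsto (fun x : ℝ => S (L (wd s)) (1 - x)) (𝓝[>] 0) (𝓝 (val s)) := by
  have h1 : Tendsto (fun n : ℕ => ∑ l ∈ Finset.range n, ((coeff l (L (wd s)) : ℚ) : ℝ)) atTop (𝓝 (val s)) := by
    rw [← tendsto_add_atTop_iff_nat 1]
    exact (Pool.Agent.H447R2.MZ.tendsto_H s hs).congr fun N => (partial_sum s hs.1 N).symm
  exact (Real.tendsto_tsum_powerSeries_nhdsWithin_lt h1).comp lim_sub

theorem coeff_tendsto (w : List (Option (Fin 1))) : Tendsto (fun m : ℕ => ((coeff m (L w) : ℚ) : ℝ)) atTop (𝓝 0) := by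
  induction w with
  | nil =>
    refine tendsto_const_nhds.congr' ?_
    filter_upwards [eventually_gt_atTop 0] with m hm
    show (0 : ℝ) = ((coeff m (1 : ℚ⟦X⟧) : ℚ) : ℝ)
    rw [coeff_one, if_neg (by omega), Rat.cast_zero]
  | cons o w ih =>
    have hpos : ∀ (v : List (Option (Fin 1))) (m : ℕ), 0 ≤ ((coeff m (L v) : ℚ) : ℝ) := fun v m => by
      exact_mod_cast (B1L v m).1
    rcases o with _ | i
    · refine squeeze_zero (fun m => hpos _ m) (fun m => ?_) ih
      rcases m with _ | m
      · rw [coeff_zero (by simp), Rat.cast_zero]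
        exact hpos _ 0
      · rw [coeff_none]
        push_cast
        exact div_le_self (hpos _ _) (by linarith [(Nat.cast_nonneg m : (0 : ℝ) ≤ m)])
    · have hi : i = 0 := Subsingleton.elim _ _
      subst hi
      rw [← tendsto_add_atTop_iff_nat 1]
      have h1 := ih.cesaro
      rw [← tendsto_add_atTop_iff_nat 1] at h1
      refine h1.congr fun m => ?_
      rw [coeff_some]
      push_cast
      rw [div_eq_inv_mul]

theorem xS_lim (w : List (Option (Fin 1))) : Tendsto (fun x : ℝ => x * S (L w) (1 - x)) (𝓝[>] 0) (𝓝 0) := by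
  set f : ℕ → ℝ := fun m => ((coeff m (L w) : ℚ) : ℝ) - ((coeff m (X * L w) : ℚ) : ℝ) with hf
  have h1 : Tendsto (fun n : ℕ => ∑ l ∈ Finset.range n, f l) atTop (𝓝 0) := by
    rw [← tendsto_add_atTop_iff_nat 1]
    refine (coeff_tendsto w).congr fun n => ?_
    induction n with
    | zero => simp [hf]
    | succ n ih =>
      rw [Finset.sum_range_succ, ← ih, hf]
      simp only
      rw [coeff_succ_X_mul]
      ring
  have h2 := (Real.tendsto_tsum_powerSeries_nhdsWithin_lt h1).comp lim_sub
  refine h2.congr' ?_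
  have h4 : ∀ᶠ y in 𝓝[>] (0 : ℝ), y < 1 := (eventually_lt_nhds one_pos).filter_mono nhdsWithin_le_nhds
  filter_upwards [h4, self_mem_nhdsWithin] with y hy hy0
  have hy0' : (0 : ℝ) < y := hy0
  have hy1 : |1 - y| < 1 := by
    rw [abs_lt]
    constructor <;> linarith
  have s1 := summ (B1w w) hy1
  have s2 : Summable fun m : ℕ => ((coeff m (X * L w) : ℚ) : ℝ) * (1 - y) ^ m := by
    rw [← summable_nat_add_iff 1]
    refine (s1.mul_left (1 - y)).congr fun m => ?_
    rw [coeff_succ_X_mul, pow_succ]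
    ring
  show ∑' n, f n * (1 - y) ^ n = _
  have h5 : ∑' n, f n * (1 - y) ^ n = S (L w) (1 - y) - S (X * L w) (1 - y) := by
    unfold S
    rw [← s1.tsum_sub s2]
    refine tsum_congr fun m => ?_
    rw [hf]
    ring
  rw [h5, S_Xmul _ s1]
  ring

end Pool.Agent.Q189.MV
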